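import Pool.Agent.QuadSys.Count

/-!
# Certificates, odd multiples, and polynomial bounds
-/

set_option autoImplicit false

namespace Pool.Agent.QuadSys

open Finset Pool.Agent.Helper21.LinSys

/-- Weights that are congruent to `V` modulo `2 * V`. -/
def OddMul {n : ℕ} (V : ℕ) (v : Fin n → ℤ) : Prop := ∀ i, ((2 * V : ℕ) : ℤ) ∣ v i - V

/-- Points outside `P` are outside for a reason that depends on `w` quadratic polynomials modulo
`m`; the combinations of these polynomials from a group with at least `h` elements are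
structured. -/
def CertQ (m ℓ w ρ h : ℕ) {n : ℕ} (P : (Fin n → Bool) → Prop) : Prop :=
  ∀ x, ¬ P x → ∃ (p : Fin w → (Fin n → Bool) → ℤ) (H : AddSubgroup (Fin w → ZMod m)),
    (∀ s, IsQuad (p s)) ∧ h ≤ Nat.card H ∧
    Struct ℓ ρ (fun x (a : H) => comb p (a : Fin w → ZMod m) x) ∧
    ∀ x', (∀ s, ((p s x' : ℤ) : ZMod m) = p s x) → ¬ P x'

theorem OddMul.ne_zero {n V : ℕ} {v : Fin n → ℤ} (h : OddMul V v) (hV : 1 ≤ V) (i : Fin n) :
    v i ≠ 0 := by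
  intro h0
  obtain ⟨c, hc⟩ := h i
  rw [h0] at hc
  have h1 : (V : ℤ) * (2 * c + 1) = 0 := by
    push_cast at hc
    linarith
  rcases mul_eq_zero.1 h1 with h2 | h2
  · omega
  · omega

theorem OddMul.one (n : ℕ) : OddMul 1 (fun _ : Fin n => (1 : ℤ)) := by
  intro i
  simp

/-! ### Polynomial bounds -/

/-- The standard polynomial bound. -/
def pb (C u : ℕ) : ℕ := (C * u) ^ C

theorem one_le_pb {C u : ℕ} (hu : 1 ≤ u) : 1 ≤ pb C u := by
  unfold pb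
  rcases Nat.eq_zero_or_pos C with h | h
  · subst h; simp
  · exact Nat.one_le_pow _ _ (Nat.mul_pos h hu)

theorem pb_mono {C C' u u' : ℕ} (hC : C ≤ C') (hu : 1 ≤ u) (huu : u ≤ u') :
    pb C u ≤ pb C' u' := by
  unfold pb
  rcases Nat.eq_zero_or_pos C with h | h
  · subst h
    have h1 := one_le_pb (C := C') (hu.trans huu)
    unfold pb at h1
    simpa using h1
  · calc (C * u) ^ C ≤ (C' * u') ^ C := Nat.pow_le_pow_left (Nat.mul_le_mul hC huu) C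
      _ ≤ (C' * u') ^ C' := Nat.pow_le_pow_right (Nat.mul_pos (h.trans_le hC) (hu.trans huu)) hC

theorem mul_le_pb (c : ℕ) {u : ℕ} (hu : 1 ≤ u) : c * u ≤ pb (c + 1) u := by
  unfold pb
  calc c * u ≤ (c + 1) * u := Nat.mul_le_mul_right _ (by omega)
    _ = ((c + 1) * u) ^ 1 := (pow_one _).symm
    _ ≤ ((c + 1) * u) ^ (c + 1) := Nat.pow_le_pow_right (Nat.mul_pos (by omega) hu) (by omega)

theorem pb_mul_pb (C₁ C₂ u : ℕ) : pb C₁ u * pb C₂ u ≤ pb (C₁ + C₂) u := by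
  unfold pb
  rw [pow_add]
  rcases Nat.eq_zero_or_pos C₁ with h | h
  · subst h; simp
  · exact Nat.mul_le_mul (Nat.pow_le_pow_left (Nat.mul_le_mul_right _ (by omega)) _)
      (Nat.pow_le_pow_left (Nat.mul_le_mul_right _ (by omega)) _)

theorem pb_add_pb (C₁ C₂ : ℕ) {u : ℕ} (hu : 1 ≤ u) : pb C₁ u + pb C₂ u ≤ pb (C₁ + C₂ + 2) u := by
  have h1 : 1 ≤ pb C₁ u := one_le_pb hu
  have h2 : 1 ≤ pb C₂ u := one_le_pb hu
  have h3 : 2 ≤ pb 2 u := by
    unfold pb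
    nlinarith
  have h4 := pb_mul_pb C₁ C₂ u
  have h5 := pb_mul_pb (C₁ + C₂) 2 u
  calc pb C₁ u + pb C₂ u ≤ pb C₁ u * pb C₂ u * 2 := by nlinarith
    _ ≤ pb (C₁ + C₂) u * pb 2 u := Nat.mul_le_mul h4 h3
    _ ≤ _ := h5

theorem pb_pb (C₁ C₂ : ℕ) {u : ℕ} (hu : 1 ≤ u) :
    pb C₂ (pb C₁ u) ≤ pb ((C₁ + 1) * (C₂ + 1)) u := by
  set C := (C₁ + 1) * (C₂ + 1) with hC
  have hC1 : C₁ ≤ C := by rw [hC]; nlinarith
  have hC2 : C₂ ≤ C := by rw [hC]; nlinarith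
  have hCu : 1 ≤ C * u := Nat.mul_pos (by rw [hC]; positivity) hu
  have h1 : C₂ * pb C₁ u ≤ (C * u) ^ (C₁ + 1) := by
    rw [pow_succ, mul_comm]
    unfold pb
    refine Nat.mul_le_mul (Nat.pow_le_pow_left (Nat.mul_le_mul_right _ hC1) _) ?_
    calc C₂ ≤ C * 1 := by omega
      _ ≤ C * u := Nat.mul_le_mul_left _ hu
  calc pb C₂ (pb C₁ u) = (C₂ * pb C₁ u) ^ C₂ := rfl
    _ ≤ ((C * u) ^ (C₁ + 1)) ^ C₂ := Nat.pow_le_pow_left h1 _
    _ = (C * u) ^ ((C₁ + 1) * C₂) := (pow_mul _ _ _).symm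
    _ ≤ (C * u) ^ C := Nat.pow_le_pow_right hCu (by rw [hC]; nlinarith)
    _ = pb C u := rfl

end Pool.Agent.QuadSys
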