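import Pool.Agent.QuadSys.Deg

/-!
# Systems of equations of bounded degree are constant on a block cube that meets a dense set
-/

set_option autoImplicit false

namespace Pool.Agent.QuadSys

open Finset Pool.Agent.Helper21.LinSys

section
variable {n m D : ℕ}

/-- A subset sum of the given functions vanishes at no more than half of the points at which the
functions do not all vanish. -/
theorem exists_half (s : Finset ((Fin n → Bool) → ℤ)) (hs : ∀ F ∈ s, IsDeg D F) :
    ∀ W : Finset (Fin n → Bool), (∀ x ∈ W, ∃ F ∈ s, ((F x : ℤ) : ZMod m) ≠ 0) →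
      ∃ q : (Fin n → Bool) → ℤ, IsDeg D q ∧
        (∀ x, (∀ F ∈ s, ((F x : ℤ) : ZMod m) = 0) → ((q x : ℤ) : ZMod m) = 0) ∧
        2 * (W.filter fun x => ((q x : ℤ) : ZMod m) = 0).card ≤ W.card := by
  classical
  induction s using Finset.induction_on with
  | empty =>
    intro W hW
    refine ⟨fun _ => 0, IsDeg.zero, fun _ _ => by simp, ?_⟩
    have : W = ∅ := by
      refine Finset.eq_empty_of_forall_notMem fun x hx => ?_
      obtain ⟨F, hF, -⟩ := hW x hx
      simp at hF
    simp [this]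
  | insert F s hF ih =>
    intro W hW
    set W₁ := W.filter fun x => ((F x : ℤ) : ZMod m) = 0 with hW₁
    set W₂ := W.filter fun x => ¬ ((F x : ℤ) : ZMod m) = 0 with hW₂
    obtain ⟨q, hq, hq0, hq1⟩ := ih (fun G hG => hs G (Finset.mem_insert_of_mem hG)) W₁ (by
      intro x hx
      obtain ⟨hx1, hx2⟩ := Finset.mem_filter.1 hx
      obtain ⟨G, hG, hGx⟩ := hW x hx1
      rcases Finset.mem_insert.1 hG with h | h
      · subst h; exact absurd hx2 hGx
      · exact ⟨G, h, hGx⟩)
    have hFd := hs F (Finset.mem_insert_self F s)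
    have hsplit : ∀ r : (Fin n → Bool) → ℤ, (W.filter fun x => ((r x : ℤ) : ZMod m) = 0).card =
        (W₁.filter fun x => ((r x : ℤ) : ZMod m) = 0).card +
        (W₂.filter fun x => ((r x : ℤ) : ZMod m) = 0).card := by
      intro r
      rw [← Finset.card_filter_add_card_filter_not (s := W.filter fun x => ((r x : ℤ) : ZMod m) = 0)
        (fun x => ((F x : ℤ) : ZMod m) = 0), hW₁, hW₂, Finset.filter_filter,
        Finset.filter_filter, Finset.filter_filter, Finset.filter_filter]
      congr 2 <;> ext x <;> simp only [Finset.mem_filter] <;> tauto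
    have hcard : W.card = W₁.card + W₂.card :=
      (Finset.card_filter_add_card_filter_not _).symm
    have hdisj : (W₂.filter fun x => ((q x : ℤ) : ZMod m) = 0).card +
        (W₂.filter fun x => ((q x + F x : ℤ) : ZMod m) = 0).card ≤ W₂.card := by
      rw [← Finset.card_union_of_disjoint]
      · exact Finset.card_le_card (Finset.union_subset (Finset.filter_subset _ _)
          (Finset.filter_subset _ _))
      · refine Finset.disjoint_left.2 fun x hx hx' => ?_
        obtain ⟨h1, h2⟩ := Finset.mem_filter.1 hx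
        obtain ⟨-, h3⟩ := Finset.mem_filter.1 hx'
        have h4 := (Finset.mem_filter.1 h1).2
        push_cast at h3
        rw [h2, zero_add] at h3
        exact h4 h3
    rcases Nat.lt_or_ge (W₂.filter fun x => ((q x + F x : ℤ) : ZMod m) = 0).card
      (W₂.filter fun x => ((q x : ℤ) : ZMod m) = 0).card with hlt | hge
    · refine ⟨fun x => q x + F x, hq.add hFd, fun x hx => ?_, ?_⟩
      · have h1 := hq0 x fun G hG => hx G (Finset.mem_insert_of_mem hG)
        have h2 := hx F (Finset.mem_insert_self F s)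
        push_cast
        rw [h1, h2, add_zero]
      · rw [hsplit, hcard]
        have h1 : (W₁.filter fun x => ((q x + F x : ℤ) : ZMod m) = 0) =
            W₁.filter fun x => ((q x : ℤ) : ZMod m) = 0 := by
          refine Finset.filter_congr fun x hx => ?_
          have h2 := (Finset.mem_filter.1 hx).2
          push_cast
          rw [h2, add_zero]
        rw [h1]
        omega
    · refine ⟨q, hq, fun x hx => hq0 x fun G hG => hx G (Finset.mem_insert_of_mem hG), ?_⟩
      rw [hsplit, hcard]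
      omega

/-- Finitely many combinations of the equations define the system up to few points. -/
theorem exists_approx {P : (Fin n → Bool) → Prop} (hP : EqSys m D P) (t : ℕ) :
    ∃ q : Fin t → (Fin n → Bool) → ℤ, (∀ c, IsDeg D (q c)) ∧
      (∀ x, P x → ∀ c, ((q c x : ℤ) : ZMod m) = 0) ∧
      2 ^ t * Nat.card {x // ¬ P x ∧ ∀ c, ((q c x : ℤ) : ZMod m) = 0} ≤ 2 ^ n := by
  classical
  obtain ⟨E, hE, hPE⟩ := hP
  induction t with
  | zero =>
    refine ⟨Fin.elim0, fun c => c.elim0, fun _ _ c => c.elim0, ?_⟩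
    rw [pow_zero, one_mul, Nat.card_eq_fintype_card, Fintype.card_subtype]
    refine (Finset.card_le_univ _).trans (le_of_eq ?_)
    rw [Fintype.card_fun, Fintype.card_bool, Fintype.card_fin]
  | succ t ih =>
    obtain ⟨q, hq, hq0, hq1⟩ := ih
    set W := univ.filter fun x => ¬ P x ∧ ∀ c, ((q c x : ℤ) : ZMod m) = 0 with hW
    have hex : ∀ x : (Fin n → Bool), ∃ F : (Fin n → Bool) → ℤ, ¬ P x →
        F ∈ E ∧ ((F x : ℤ) : ZMod m) ≠ 0 := by
      intro x
      by_cases hx : P x
      · exact ⟨0, fun h => absurd hx h⟩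
      · have h1 := hx
        rw [hPE] at h1
        push Not at h1
        obtain ⟨F, hF, hFx⟩ := h1
        exact ⟨F, fun _ => ⟨hF, hFx⟩⟩
    choose G hG using hex
    obtain ⟨r, hr, hr0, hr1⟩ := exists_half (m := m) (D := D) (W.image G) (by
      intro F hF
      obtain ⟨x, hx, rfl⟩ := Finset.mem_image.1 hF
      exact hE _ (hG x (Finset.mem_filter.1 hx).2.1).1) W (by
      intro x hx
      exact ⟨G x, Finset.mem_image_of_mem G hx, (hG x (Finset.mem_filter.1 hx).2.1).2⟩)
    refine ⟨Fin.snoc q r, fun c => ?_, fun x hx c => ?_, ?_⟩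
    · refine Fin.lastCases ?_ (fun c => ?_) c
      · rw [Fin.snoc_last]; exact hr
      · rw [Fin.snoc_castSucc]; exact hq c
    · refine Fin.lastCases ?_ (fun c => ?_) c
      · rw [Fin.snoc_last]
        refine hr0 x fun F hF => ?_
        obtain ⟨y, hy, rfl⟩ := Finset.mem_image.1 hF
        exact (hPE x).1 hx _ (hG y (Finset.mem_filter.1 hy).2.1).1
      · rw [Fin.snoc_castSucc]; exact hq0 x hx c
    · rw [Nat.card_eq_fintype_card, Fintype.card_subtype] at hq1 ⊢
      have h1 : (univ.filter fun x => ¬ P x ∧ ∀ c : Fin (t + 1),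
          (((Fin.snoc q r : Fin (t + 1) → (Fin n → Bool) → ℤ) c x : ℤ) : ZMod m) = 0) =
          W.filter fun x => ((r x : ℤ) : ZMod m) = 0 := by
        ext x
        simp only [Finset.mem_filter, Finset.mem_univ, true_and, hW]
        constructor
        · rintro ⟨h1, h2⟩
          refine ⟨⟨h1, fun c => ?_⟩, ?_⟩
          · have := h2 c.castSucc
            rwa [Fin.snoc_castSucc] at this
          · have := h2 (Fin.last t)
            rwa [Fin.snoc_last] at this
        · rintro ⟨⟨h1, h2⟩, h3⟩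
          refine ⟨h1, fun c => ?_⟩
          refine Fin.lastCases ?_ (fun c => ?_) c
          · rw [Fin.snoc_last]; exact h3
          · rw [Fin.snoc_castSucc]; exact h2 c
      rw [h1]
      calc 2 ^ (t + 1) * (W.filter fun x => ((r x : ℤ) : ZMod m) = 0).card
          = 2 ^ t * (2 * (W.filter fun x => ((r x : ℤ) : ZMod m) = 0).card) := by ring
        _ ≤ 2 ^ t * W.card := Nat.mul_le_mul_left _ hr1
        _ ≤ 2 ^ n := hq1

end

/-- The statement of the pairing theorem for polynomials of degree at most `D`. -/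
def PairDeg (m ℓ D C : ℕ) : Prop :=
  ∀ {n N : ℕ} (M e V : ℕ) (v : Fin n → ℤ), 1 ≤ V → OddMul V v →
      ∀ (q : Fin N → (Fin n → Bool) → ℤ), (∀ j, IsDeg D (q j)) →
      ∀ (f : (Fin n → Bool) → ℝ), (∀ x, |f x| ≤ 1) →
      pb C (M + N + e + V + 1) ≤ n →
      ∃ Q : BCube n M, OddMul (V * ℓ ^ (D + 1)) (Q.pw v) ∧
        (∀ j t, ((q j (Q.emb t) : ℤ) : ZMod m) = (q j Q.base : ℤ)) ∧
        avg f - 1 / 2 ^ e ≤ avg fun t => f (Q.emb t)

theorem eq_decomp_of_pairDeg (m ℓ D : ℕ) {C₀ : ℕ} (hpair : PairDeg m ℓ D C₀) :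
    ∃ C : ℕ, ∀ {n k lam : ℕ} (M : ℕ) (P : Fin k → (Fin n → Bool) → Prop),
      (∀ i, EqSys m D (P i)) →
      ∀ T : Finset (Fin n → Bool), 2 ^ n ≤ 2 ^ lam * T.card →
      pb C (M + k + lam + 1) ≤ n →
      ∃ Q : BCube n M, OddMul (ℓ ^ (D + 1)) (Q.pw fun _ => 1) ∧
        (∀ i, (∀ t, P i (Q.emb t)) ∨ ∀ t, ¬ P i (Q.emb t)) ∧
        2 ^ M ≤ 2 ^ (lam + 1) * (univ.filter fun t => Q.emb t ∈ T).card := by
  classical
  refine ⟨(2 * D + 7 + 1) * (C₀ + 1), ?_⟩
  intro n k lam M P hP T hT hn
  set t := lam + 2 + D + k with ht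
  choose q hqd hq0 hq1 using fun i => exists_approx (hP i) t
  -- the bad sets
  set B : Fin k → Finset (Fin n → Bool) := fun i =>
    univ.filter fun x => ¬ P i x ∧ ∀ c, ((q i c x : ℤ) : ZMod m) = 0 with hB
  have hBcard : ∀ i, 2 ^ t * (B i).card ≤ 2 ^ n := by
    intro i
    have h1 := hq1 i
    rw [Nat.card_eq_fintype_card, Fintype.card_subtype] at h1
    exact h1
  set g : (Fin n → Bool) → ℝ := fun x =>
    (if x ∈ T then 1 else 0) - 2 ^ D * ∑ i, (if x ∈ B i then 1 else 0) with hg
  set L : ℝ := 1 + 2 ^ D * k with hL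
  have hLpos : 0 < L := by positivity
  set q' : Fin (k * t) → (Fin n → Bool) → ℤ := fun j =>
    q (finProdFinEquiv.symm j).1 (finProdFinEquiv.symm j).2 with hq'
  have hsum0 : ∀ x, (0 : ℝ) ≤ ∑ i, (if x ∈ B i then (1 : ℝ) else 0) := fun x =>
    Finset.sum_nonneg fun i _ => by split <;> norm_num
  have hsum1 : ∀ x, ∑ i, (if x ∈ B i then (1 : ℝ) else 0) ≤ k := by
    intro x
    calc ∑ i, (if x ∈ B i then (1 : ℝ) else 0) ≤ ∑ _i : Fin k, (1 : ℝ) :=
          Finset.sum_le_sum fun i _ => by split <;> norm_num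
      _ = k := by simp
  have hf : ∀ x, |g x / L| ≤ 1 := by
    intro x
    rw [abs_div, abs_of_pos hLpos, div_le_one hLpos, abs_le]
    have h1 := hsum0 x
    have h2 := hsum1 x
    have h3 : (0 : ℝ) < 2 ^ D := by positivity
    have h4 : (0 : ℝ) ≤ (if x ∈ T then (1 : ℝ) else 0) := by split <;> norm_num
    have h5 : (if x ∈ T then (1 : ℝ) else 0) ≤ 1 := by split <;> norm_num
    have h6 := mul_le_mul_of_nonneg_left h2 h3.le
    have h7 := mul_nonneg h3.le h1
    constructor
    · rw [hg, hL]; beta_reduce; linarith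
    · rw [hg, hL]; beta_reduce
      have : (0 : ℝ) ≤ 2 ^ D * k := by positivity
      linarith
  -- the size of the parameters
  set u := M + k + lam + 1 with hu
  have hu1 : 1 ≤ u := by omega
  have hn' : pb C₀ (M + k * t + t + 1 + 1) ≤ n := by
    have h1 : M + k * t + t + 1 + 1 ≤ pb (2 * D + 7) u := by
      have e1 : t ≤ (D + 2) * u := by
        rw [ht, hu]
        nlinarith [Nat.zero_le (D * (M + k + lam))]
      have e2 : k ≤ u := by omega
      have e3 : M ≤ u := by omega
      have e4 : k * t ≤ u * ((D + 2) * u) := Nat.mul_le_mul e2 e1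
      have e5 : u ≤ u * u := Nat.le_mul_of_pos_left u hu1
      have e6 : M + k * t + t + 1 + 1 ≤ (2 * D + 7) * (u * u) := by
        have : (D + 2) * u ≤ (D + 2) * (u * u) := Nat.mul_le_mul_left _ e5
        have e7 : (1 : ℕ) ≤ u * u := hu1.trans e5
        nlinarith
      calc M + k * t + t + 1 + 1 ≤ (2 * D + 7) * (u * u) := e6
        _ ≤ ((2 * D + 7) * (2 * D + 7)) * (u * u) :=
            Nat.mul_le_mul_right _ (Nat.le_mul_of_pos_left _ (by omega))
        _ = ((2 * D + 7) * u) ^ 2 := by ring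
        _ ≤ ((2 * D + 7) * u) ^ (2 * D + 7) :=
            Nat.pow_le_pow_right (Nat.mul_pos (by omega) hu1) (by omega)
    exact ((pb_mono le_rfl (by omega) h1).trans (pb_pb _ _ hu1)).trans hn
  obtain ⟨Q, hQ1, hQ2, hQ3⟩ := hpair M t 1 (fun _ => 1) le_rfl (OddMul.one n) q'
    (fun j => hqd _ _) (fun x => g x / L) hf hn'
  rw [one_mul] at hQ1
  have havg : ∀ {n' : ℕ} (h : (Fin n' → Bool) → ℝ), avg (fun x => h x / L) = avg h / L := by
    intro n' h
    unfold avg
    rw [← Finset.sum_div]
    ring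
  have havg1 : avg (fun x => g x / L) = avg g / L := havg g
  have havg2 : avg (fun s => g (Q.emb s) / L) = avg (fun s => g (Q.emb s)) / L :=
    havg fun s => g (Q.emb s)
  rw [havg1] at hQ3
  have hQ4 : avg g / L - 1 / 2 ^ t ≤ avg (fun s => g (Q.emb s)) / L := hQ3.trans (le_of_eq havg2)
  -- averages of indicators
  have havgg : avg g = (T.card : ℝ) / 2 ^ n - 2 ^ D * ∑ i, ((B i).card : ℝ) / 2 ^ n := by
    unfold avg
    rw [hg]
    simp only [Finset.sum_sub_distrib, ← Finset.mul_sum]
    rw [Finset.sum_comm]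
    simp only [Finset.sum_ite_mem, Finset.univ_inter, Finset.sum_const, nsmul_eq_mul, mul_one]
    rw [← Finset.sum_div]
    ring
  have havgQ : avg (fun s => g (Q.emb s)) =
      ((univ.filter fun s => Q.emb s ∈ T).card : ℝ) / 2 ^ M -
      2 ^ D * ∑ i, ((univ.filter fun s => Q.emb s ∈ B i).card : ℝ) / 2 ^ M := by
    unfold avg
    rw [hg]
    simp only [Finset.sum_sub_distrib, ← Finset.mul_sum]
    rw [Finset.sum_comm]
    simp only [← Finset.sum_filter, Finset.sum_const, nsmul_eq_mul, mul_one]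
    rw [← Finset.sum_div]
    ring
  -- lower bound for the average of g
  have hk2 : L ≤ 2 ^ (D + k) := by
    have h1 : k + 1 ≤ 2 ^ k := Nat.lt_two_pow_self
    have h2 : ((k : ℝ) + 1) ≤ 2 ^ k := by exact_mod_cast h1
    have h3 : (1 : ℝ) ≤ 2 ^ D := one_le_pow₀ (by norm_num)
    rw [hL, pow_add]
    nlinarith
  have hLt : L / 2 ^ t ≤ 1 / 2 ^ (lam + 2) := by
    rw [div_le_div_iff₀ (by positivity) (by positivity), one_mul]
    calc L * 2 ^ (lam + 2) ≤ 2 ^ (D + k) * 2 ^ (lam + 2) :=
          mul_le_mul_of_nonneg_right hk2 (by positivity)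
      _ = 2 ^ t := by rw [← pow_add, ht]; congr 1; omega
  have hTlow : (1 : ℝ) / 2 ^ lam ≤ (T.card : ℝ) / 2 ^ n := by
    rw [div_le_div_iff₀ (by positivity) (by positivity), one_mul, mul_comm]
    exact_mod_cast hT
  have hBup : (2 : ℝ) ^ D * ∑ i, ((B i).card : ℝ) / 2 ^ n ≤ L / 2 ^ t := by
    have h1 : ∀ i, ((B i).card : ℝ) / 2 ^ n ≤ 1 / 2 ^ t := by
      intro i
      rw [div_le_div_iff₀ (by positivity) (by positivity), one_mul, mul_comm]
      exact_mod_cast hBcard i
    calc (2 : ℝ) ^ D * ∑ i, ((B i).card : ℝ) / 2 ^ n ≤ 2 ^ D * ∑ _i : Fin k, 1 / 2 ^ t :=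
          mul_le_mul_of_nonneg_left (Finset.sum_le_sum fun i _ => h1 i) (by positivity)
      _ = (2 ^ D * k) / 2 ^ t := by
          rw [Finset.sum_const, Finset.card_univ, Fintype.card_fin, nsmul_eq_mul]; ring
      _ ≤ L / 2 ^ t := by
          refine div_le_div_of_nonneg_right ?_ (by positivity)
          rw [hL]; linarith
  have hlam : (1 : ℝ) / 2 ^ (lam + 2) + 1 / 2 ^ (lam + 2) = 1 / 2 ^ (lam + 1) := by
    rw [pow_succ 2 (lam + 1)]
    field_simp
    norm_num
  have hlam' : (1 : ℝ) / 2 ^ (lam + 1) + 1 / 2 ^ (lam + 1) = 1 / 2 ^ lam := by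
    rw [pow_succ 2 lam]
    field_simp
    norm_num
  have hmain : (1 : ℝ) / 2 ^ (lam + 1) ≤ avg (fun s => g (Q.emb s)) := by
    have h1 : avg g - L / 2 ^ t ≤ avg (fun s => g (Q.emb s)) := by
      have h2 := mul_le_mul_of_nonneg_left hQ4 hLpos.le
      have h3 : L * (avg g / L - 1 / 2 ^ t) = avg g - L / 2 ^ t := by
        field_simp
      have h4 : L * (avg (fun s => g (Q.emb s)) / L) = avg (fun s => g (Q.emb s)) := by
        field_simp
      rw [h3, h4] at h2
      exact h2
    rw [havgg] at h1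
    linarith
  rw [havgQ] at hmain
  have hTQ : ((univ.filter fun s => Q.emb s ∈ T).card : ℝ) ≤ 2 ^ M := by
    have : (univ.filter fun s => Q.emb s ∈ T).card ≤ 2 ^ M := by
      refine (Finset.card_le_univ _).trans (le_of_eq ?_)
      rw [Fintype.card_fun, Fintype.card_bool, Fintype.card_fin]
    exact_mod_cast this
  have hpos : (0 : ℝ) < 1 / 2 ^ (lam + 1) := by positivity
  have hMpos : (0 : ℝ) < 2 ^ M := by positivity
  refine ⟨Q, hQ1, fun i => ?_, ?_⟩
  · -- the system is constant
    have hBi : 2 ^ D * (univ.filter fun s => Q.emb s ∈ B i).card < 2 ^ M := by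
      have h1 : ((univ.filter fun s => Q.emb s ∈ B i).card : ℝ) / 2 ^ M ≤
          ∑ i, ((univ.filter fun s => Q.emb s ∈ B i).card : ℝ) / 2 ^ M :=
        Finset.single_le_sum (f := fun i => ((univ.filter fun s => Q.emb s ∈ B i).card : ℝ) / 2 ^ M)
          (fun j _ => by positivity) (Finset.mem_univ i)
      have h2 : (2 : ℝ) ^ D * (((univ.filter fun s => Q.emb s ∈ B i).card : ℝ) / 2 ^ M) < 1 := by
        have h3 := mul_le_mul_of_nonneg_left h1 (show (0 : ℝ) ≤ 2 ^ D by positivity)
        have h4 : ((univ.filter fun s => Q.emb s ∈ T).card : ℝ) / 2 ^ M ≤ 1 := by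
          rw [div_le_one hMpos]; exact hTQ
        linarith
      have h5 : (2 : ℝ) ^ D * ((univ.filter fun s => Q.emb s ∈ B i).card : ℝ) < 2 ^ M := by
        rw [← mul_div_assoc, div_lt_one hMpos] at h2
        exact h2
      exact_mod_cast h5
    by_cases hall : ∀ c, ((q i c Q.base : ℤ) : ZMod m) = 0
    · left
      have hq0' : ∀ c s, ((q i c (Q.emb s) : ℤ) : ZMod m) = 0 := by
        intro c s
        have h1 := hQ2 (finProdFinEquiv (i, c)) s
        rw [hq'] at h1
        simp only [Equiv.symm_apply_apply] at h1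
        rw [h1]
        exact hall c
      by_contra hcon
      push Not at hcon
      obtain ⟨s₀, hs₀⟩ := hcon
      obtain ⟨E, hE, hPE⟩ := hP i
      rw [hPE] at hs₀
      push Not at hs₀
      obtain ⟨F, hF, hFs⟩ := hs₀
      have h1 := ((hE F hF).comp_emb Q).card_ne_zero (m := m) ⟨s₀, hFs⟩
      have h2 : (univ.filter fun s => ((F (Q.emb s) : ℤ) : ZMod m) ≠ 0) ⊆
          univ.filter fun s => Q.emb s ∈ B i := by
        intro s hs
        have hs' := (Finset.mem_filter.1 hs).2
        refine Finset.mem_filter.2 ⟨Finset.mem_univ _, Finset.mem_filter.2 ⟨Finset.mem_univ _,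
          fun hc => hs' ((hPE _).1 hc F hF), fun c => hq0' c s⟩⟩
      have h3 := Nat.mul_le_mul_left (2 ^ D) (Finset.card_le_card h2)
      omega
    · right
      push Not at hall
      obtain ⟨c, hc⟩ := hall
      intro s hs
      have h1 := hQ2 (finProdFinEquiv (i, c)) s
      rw [hq'] at h1
      simp only [Equiv.symm_apply_apply] at h1
      exact hc (by rw [← h1]; exact hq0 i _ hs c)
  · -- the density of T
    have h1 : (0 : ℝ) ≤ 2 ^ D * ∑ i, ((univ.filter fun s => Q.emb s ∈ B i).card : ℝ) / 2 ^ M :=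
      mul_nonneg (by positivity) (Finset.sum_nonneg fun i _ => by positivity)
    have h2 : (1 : ℝ) / 2 ^ (lam + 1) ≤
        ((univ.filter fun s => Q.emb s ∈ T).card : ℝ) / 2 ^ M := by linarith
    rw [div_le_div_iff₀ (by positivity) (by positivity), one_mul, mul_comm] at h2
    exact_mod_cast h2

end Pool.Agent.QuadSys
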