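import Pool.Agent.QuadSys.PairLower
import Pool.Agent.RS.Collide

/-!
# Pairing for polynomials of any degree
-/

set_option autoImplicit false

namespace Pool.Agent.QuadSys

open Finset Pool.Agent.Helper21.LinSys

namespace Pair

/-- One level, with explicit size. -/
theorem level_deg (m : ℕ) [NeZero m] (ℓ : ℕ) [NeZero ℓ] (hℓ : m ∣ ℓ) (D : ℕ) {n N : ℕ}
    (M e V : ℕ) (v : Fin n → ℤ) (hV : 1 ≤ V) (hv : OddMul V v)
    (q : Fin N → (Fin n → Bool) → ℤ) (hq : ∀ j, IsDeg (D + 1) (q j))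
    (f : (Fin n → Bool) → ℝ) (hf : ∀ x, |f x| ≤ 1)
    (hbig : M * (ℓ ^ 2 * (4 + m * (N * M ^ D) + V + ℓ + 2 * (e + M))) ≤ n) :
    ∃ Q : BCube n M,
      (∀ j, ∃ ψ : (Fin M → Bool) → ℤ, IsDeg D ψ ∧
        ∀ t, ((ψ t : ℤ) : ZMod m) = (q j (Q.emb t) : ℤ)) ∧
      OddMul (V * ℓ) (Q.pw v) ∧
      avg f - 1 / 2 ^ e ≤ avg fun t => f (Q.emb t) := by
  classical
  have hℓpos : 0 < ℓ := Nat.pos_of_ne_zero (NeZero.ne ℓ)
  obtain ⟨L, hL⟩ : ∃ L, L = 4 + m * (N * M ^ D) + V + ℓ + 2 * (e + M) := ⟨_, rfl⟩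
  obtain ⟨u, hu⟩ : ∃ u, u = ℓ ^ 2 * L := ⟨_, rfl⟩
  rw [← hL, ← hu] at hbig
  have hgeo : (1 - 1 / (ℓ : ℝ) ^ 2) ^ (ℓ ^ 2 * L) ≤ (1 / 2 : ℝ) ^ L :=
    Pool.Agent.RS.geom_bound ℓ L hℓpos
  have hmpow : ∀ a : ℕ, (m : ℝ) ^ a ≤ 2 ^ (m * a) := by
    intro a
    have h1 : (m : ℝ) ≤ 2 ^ m := by exact_mod_cast (Nat.lt_two_pow_self (n := m)).le
    calc (m : ℝ) ^ a ≤ (2 ^ m) ^ a := pow_le_pow_left₀ (Nat.cast_nonneg _) h1 a
      _ = 2 ^ (m * a) := by rw [pow_mul]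
  have hnat : ∀ a : ℕ, (a : ℝ) ≤ 2 ^ a := by
    intro a; exact_mod_cast (Nat.lt_two_pow_self (n := a)).le
  have hε : 16 * ((m ^ (N * M ^ D) : ℕ) * (V * ℓ : ℕ)) * (1 - 1 / (ℓ : ℝ) ^ 2) ^ u ≤
      ((1 : ℝ) / 2 ^ (e + M)) ^ 2 := by
    rw [hu]
    have h0 : (0 : ℝ) ≤ 16 * ((m ^ (N * M ^ D) : ℕ) * (V * ℓ : ℕ)) := by positivity
    refine (mul_le_mul_of_nonneg_left hgeo h0).trans ?_
    have h1 : (16 : ℝ) * ((m ^ (N * M ^ D) : ℕ) * (V * ℓ : ℕ)) ≤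
        2 ^ (4 + m * (N * M ^ D) + V + ℓ) := by
      push_cast
      calc (16 : ℝ) * ((m : ℝ) ^ (N * M ^ D) * (V * ℓ)) ≤
          2 ^ 4 * (2 ^ (m * (N * M ^ D)) * (2 ^ V * 2 ^ ℓ)) := by
            have e1 := hmpow (N * M ^ D)
            have e2 := hnat V
            have e3 := hnat ℓ
            have e4 : (16 : ℝ) = 2 ^ 4 := by norm_num
            rw [e4]
            gcongr
        _ = _ := by rw [pow_add, pow_add, pow_add]; ring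
    calc (16 : ℝ) * ((m ^ (N * M ^ D) : ℕ) * (V * ℓ : ℕ)) * (1 / 2) ^ L ≤
        2 ^ (4 + m * (N * M ^ D) + V + ℓ) * (1 / 2) ^ L :=
          mul_le_mul_of_nonneg_right h1 (by positivity)
      _ = (1 / 2 ^ (e + M)) ^ 2 := by
          rw [hL, pow_add _ (4 + m * (N * M ^ D) + V + ℓ), one_div_pow,
            one_div_pow, one_div_pow, ← pow_mul, mul_comm (e + M) 2]
          field_simp
  have hε1 : (1 : ℝ) / 2 ^ (e + M) ≤ 1 := by
    rw [div_le_one (by positivity)]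
    exact one_le_pow₀ (by norm_num)
  have hMε : (M : ℝ) * (1 / 2 ^ (e + M)) ≤ 1 / 2 ^ e := by
    rw [mul_one_div, div_le_div_iff₀ (by positivity) (by positivity), pow_add _ e M]
    have := hnat M
    have h2 : (0 : ℝ) < 2 ^ e := by positivity
    nlinarith
  obtain ⟨e₁⟩ : Nonempty (Fin M × Fin u ↪ Fin n) := by
    refine Function.Embedding.nonempty_of_card_le ?_
    rw [Fintype.card_prod, Fintype.card_fin, Fintype.card_fin, Fintype.card_fin]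
    exact hbig
  obtain ⟨z, -, hz⟩ := exists_rest e₁ ∅ (fun _ => Finset.notMem_empty _) (fun _ => false) f
  obtain ⟨Q, hQ1, hQ2, hQ3⟩ := stage_deg m D ℓ V hℓpos hℓ hV e₁ z q hq v hv f hf
    (1 / 2 ^ (e + M)) (by positivity) hε1 hε
  refine ⟨Q, hQ1, hQ2, ?_⟩
  have h2 : avg f = (∑ t ∈ cube (∅ : Finset (Fin n)) (fun _ => false), f t) /
      2 ^ (∅ : Finset (Fin n))ᶜ.card := by
    unfold avg
    have h3 : cube (∅ : Finset (Fin n)) (fun _ => false) = Finset.univ := by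
      ext t; simp [mem_cube]
    rw [h3]
    simp
  rw [← h2] at hz
  linarith

/-- The size needed for one level is polynomial. -/
theorem level_size (m ℓ D a : ℕ) : ∃ C : ℕ, ∀ X Y : ℕ, 1 ≤ X → Y ≤ pb a X →
    Y * (ℓ ^ 2 * (4 + m * (X * Y ^ D) + X + ℓ + 2 * (X + Y))) ≤ pb C X := by
  obtain ⟨A, hA⟩ : ∃ A, A = 4 + m + 1 + ℓ + 4 := ⟨_, rfl⟩
  refine ⟨ℓ ^ 2 * A + a * (D + 2) + a + 1, fun X Y hX hY => ?_⟩
  obtain ⟨Z, hZ⟩ : ∃ Z, Z = pb a X := ⟨_, rfl⟩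
  have hZ1 : 1 ≤ Z := by rw [hZ]; exact one_le_pb hX
  rw [← hZ] at hY
  have hZD : 1 ≤ Z ^ (D + 1) := Nat.one_le_pow _ _ hZ1
  have hXZ : 1 ≤ X * Z ^ (D + 1) := Nat.mul_pos hX hZD
  have h1 : 4 + m * (X * Y ^ D) + X + ℓ + 2 * (X + Y) ≤ A * (X * Z ^ (D + 1)) := by
    have e1 : m * (X * Y ^ D) ≤ m * (X * Z ^ (D + 1)) := by
      refine Nat.mul_le_mul_left _ (Nat.mul_le_mul_left _ ?_)
      calc Y ^ D ≤ Z ^ D := Nat.pow_le_pow_left hY D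
        _ ≤ Z ^ (D + 1) := Nat.pow_le_pow_right hZ1 (by omega)
    have e2 : X ≤ X * Z ^ (D + 1) := Nat.le_mul_of_pos_right _ hZD
    have e3 : ℓ ≤ ℓ * (X * Z ^ (D + 1)) := Nat.le_mul_of_pos_right _ hXZ
    have e4 : Y ≤ X * Z ^ (D + 1) := by
      calc Y ≤ Z ^ 1 := by rw [pow_one]; exact hY
        _ ≤ Z ^ (D + 1) := Nat.pow_le_pow_right hZ1 (by omega)
        _ ≤ X * Z ^ (D + 1) := Nat.le_mul_of_pos_left _ hX
    calc 4 + m * (X * Y ^ D) + X + ℓ + 2 * (X + Y) ≤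
        4 * (X * Z ^ (D + 1)) + m * (X * Z ^ (D + 1)) + X * Z ^ (D + 1) +
          ℓ * (X * Z ^ (D + 1)) + 2 * (X * Z ^ (D + 1) + X * Z ^ (D + 1)) := by omega
      _ = A * (X * Z ^ (D + 1)) := by rw [hA]; ring
  obtain ⟨C, hC⟩ : ∃ C, C = ℓ ^ 2 * A + a * (D + 2) + a + 1 := ⟨_, rfl⟩
  rw [← hC]
  have hCX : 1 ≤ C * X := Nat.mul_pos (by omega) hX
  calc Y * (ℓ ^ 2 * (4 + m * (X * Y ^ D) + X + ℓ + 2 * (X + Y))) ≤
      Z * (ℓ ^ 2 * (A * (X * Z ^ (D + 1)))) :=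
        Nat.mul_le_mul hY (Nat.mul_le_mul_left _ h1)
    _ = (ℓ ^ 2 * A * X) * Z ^ (D + 2) := by ring
    _ = (ℓ ^ 2 * A * X) * (a * X) ^ (a * (D + 2)) := by rw [hZ]; unfold pb; rw [pow_mul]
    _ ≤ (C * X) * (C * X) ^ (a * (D + 2)) := by
        refine Nat.mul_le_mul (Nat.mul_le_mul_right _ (by omega)) (Nat.pow_le_pow_left ?_ _)
        exact Nat.mul_le_mul_right _ (by omega)
    _ = (C * X) ^ (a * (D + 2) + 1) := by rw [pow_succ]; ring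
    _ ≤ (C * X) ^ C := Nat.pow_le_pow_right hCX (by omega)
    _ = pb C X := rfl

end Pair

open Pair in
theorem pairing_deg (m : ℕ) [NeZero m] (ℓ : ℕ) [NeZero ℓ] (hℓ : m ∣ ℓ) (D : ℕ) :
    ∃ C : ℕ, ∀ {n N : ℕ} (M e V : ℕ) (v : Fin n → ℤ), 1 ≤ V → OddMul V v →
      ∀ (q : Fin N → (Fin n → Bool) → ℤ), (∀ j, IsDeg D (q j)) →
      ∀ (f : (Fin n → Bool) → ℝ), (∀ x, |f x| ≤ 1) →
      pb C (M + N + e + V + 1) ≤ n →
      ∃ Q : BCube n M, OddMul (V * ℓ ^ (D + 1)) (Q.pw v) ∧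
        (∀ j t, ((q j (Q.emb t) : ℤ) : ZMod m) = (q j Q.base : ℤ)) ∧
        avg f - 1 / 2 ^ e ≤ avg fun t => f (Q.emb t) := by
  have hℓpos : 0 < ℓ := Nat.pos_of_ne_zero (NeZero.ne ℓ)
  induction D with
  | zero =>
    obtain ⟨C, hC⟩ := level_size m ℓ 0 1
    refine ⟨C, ?_⟩
    intro n N M e V v hV hv q hq f hf hbig
    have hX1 : 1 ≤ M + N + e + V + 1 := by omega
    have h1 := hC (M + N + e + V + 1) M hX1 (by unfold pb; simp; omega)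
    have h2 : M * (ℓ ^ 2 * (4 + m * (N * M ^ 0) + V + ℓ + 2 * (e + M))) ≤ n := by
      refine le_trans ?_ (h1.trans hbig)
      refine Nat.mul_le_mul_left _ (Nat.mul_le_mul_left _ ?_)
      have h3 : m * (N * M ^ 0) ≤ m * ((M + N + e + V + 1) * M ^ 0) :=
        Nat.mul_le_mul_left _ (Nat.mul_le_mul_right _ (by omega))
      omega
    obtain ⟨Q, hQ1, hQ2, hQ3⟩ := level_deg m ℓ hℓ 0 M e V v hV hv q
      (fun j => (hq j).mono (by omega)) f hf h2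
    refine ⟨Q, by simpa using hQ2, ?_, hQ3⟩
    intro j t
    obtain ⟨ψ, ⟨c, hc, hcψ⟩, hψ⟩ := hQ1 j
    have h4 : ∀ t, ψ t = c ∅ := by
      intro t
      rw [hcψ t, Finset.sum_eq_single ∅]
      · simp
      · intro A _ hA
        rw [hc A (Finset.card_pos.mpr (Finset.nonempty_iff_ne_empty.mpr hA)), zero_mul]
      · intro h; exact absurd (Finset.mem_univ _) h
    rw [← Q.emb_false, ← hψ, ← hψ, h4, h4]
  | succ D ih =>
    obtain ⟨C₀, hC₀⟩ := ih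
    obtain ⟨C, hC⟩ := level_size m ℓ D (C₀ * (ℓ + 2))
    refine ⟨C, ?_⟩
    intro n N M e V v hV hv q hq f hf hbig
    obtain ⟨X, hX⟩ : ∃ X, X = M + N + e + V + 1 := ⟨_, rfl⟩
    rw [← hX] at hbig
    have hX1 : 1 ≤ X := by omega
    obtain ⟨M', hM'⟩ : ∃ M', M' = pb C₀ (M + N + (e + 1) + V * ℓ + 1) := ⟨_, rfl⟩
    have hM'X : M' ≤ pb (C₀ * (ℓ + 2)) X := by
      have h1 : M + N + (e + 1) + V * ℓ + 1 ≤ (ℓ + 2) * X := by
        have h2 : V * ℓ ≤ ℓ * X := by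
          rw [mul_comm]; exact Nat.mul_le_mul_left _ (by omega)
        have h3 : (ℓ + 2) * X = ℓ * X + 2 * X := by ring
        omega
      rw [hM']
      refine (pb_mono (le_refl C₀) (by omega) h1).trans ?_
      unfold pb
      have h4 : C₀ * ((ℓ + 2) * X) = C₀ * (ℓ + 2) * X := by ring
      rw [h4]
      rcases Nat.eq_zero_or_pos C₀ with h5 | h5
      · subst h5; simp
      · refine Nat.pow_le_pow_right ?_ (Nat.le_mul_of_pos_right _ (by omega))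
        exact Nat.mul_pos (Nat.mul_pos h5 (by omega)) hX1
    have h1 := hC X M' hX1 hM'X
    have h2 : M' * (ℓ ^ 2 * (4 + m * (N * M' ^ D) + V + ℓ + 2 * (e + 1 + M'))) ≤ n := by
      refine le_trans ?_ (h1.trans hbig)
      refine Nat.mul_le_mul_left _ (Nat.mul_le_mul_left _ ?_)
      have h3 : m * (N * M' ^ D) ≤ m * (X * M' ^ D) :=
        Nat.mul_le_mul_left _ (Nat.mul_le_mul_right _ (by omega))
      omega
    obtain ⟨Q₁, hQ1, hQ2, hQ3⟩ := level_deg m ℓ hℓ D M' (e + 1) V v hV hv q hq f hf h2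
    choose ψ hψd hψ using hQ1
    obtain ⟨Q₂, hQ4, hQ5, hQ6⟩ := hC₀ M (e + 1) (V * ℓ) (Q₁.pw v) (Nat.mul_pos hV hℓpos) hQ2 ψ
      hψd (fun t => f (Q₁.emb t)) (fun t => hf _) (by rw [hM'])
    refine ⟨Q₁.comp Q₂, ?_, ?_, ?_⟩
    · intro k
      have h3 := hQ4 k
      rw [BCube.pw_comp]
      have h4 : V * ℓ ^ (D + 1 + 1) = V * ℓ * ℓ ^ (D + 1) := by ring
      rw [h4]
      exact h3
    · intro j t
      have hbase : (Q₁.comp Q₂).base = Q₁.emb Q₂.base := rfl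
      rw [BCube.emb_comp, hbase, ← hψ, ← hψ]
      exact hQ5 j t
    · have h3 : avg (fun t => f ((Q₁.comp Q₂).emb t)) = avg fun t => f (Q₁.emb (Q₂.emb t)) := by
        simp only [BCube.emb_comp]
      rw [h3]
      have h6 : (1 : ℝ) / 2 ^ e = 1 / 2 ^ (e + 1) + 1 / 2 ^ (e + 1) := by
        rw [pow_succ]; field_simp; norm_num
      rw [h6]
      linarith

end Pool.Agent.QuadSys
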