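import Pool.Agent.QuadSys.PairLevel
import Pool.Agent.RS.Collide
import Pool.Agent.Helper21.LinSys.DenseLeaf

/-!
# Pairing: block cubes on which quadratic polynomials and linear forms are constant
-/

set_option autoImplicit false

namespace Pool.Agent.QuadSys

open Finset Pool.Agent.Helper21.LinSys

namespace Pair

/-- A double sum whose off-diagonal part is antisymmetric. -/
theorem sum_sum_eq_diag {R : Type*} [AddCommGroup R] {M : ℕ} (E : Fin M → Fin M → R)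
    (hE : ∀ k k', k < k' → E k k' + E k' k = 0) : ∑ k, ∑ k', E k k' = ∑ k, E k k := by
  have h1 : ∀ k, ∑ k', E k k' = E k k + (∑ k', if k < k' then E k k' else 0) +
      ∑ k', if k' < k then E k k' else 0 := by
    intro k
    have h2 : ∀ k', E k k' = (if k = k' then E k k' else 0) + (if k < k' then E k k' else 0) +
        if k' < k then E k k' else 0 := by
      intro k'
      rcases lt_trichotomy k k' with h | h | h
      · simp [h, h.ne, h.not_gt]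
      · subst h; simp
      · simp [h, h.ne', h.not_gt]
    rw [Finset.sum_congr rfl fun k' _ => h2 k', Finset.sum_add_distrib, Finset.sum_add_distrib,
      Finset.sum_ite_eq]
    simp
  rw [Finset.sum_congr rfl fun k _ => h1 k, Finset.sum_add_distrib, Finset.sum_add_distrib]
  have h3 : ∑ k : Fin M, ∑ k' : Fin M, (if k' < k then E k k' else 0) =
      ∑ k : Fin M, ∑ k' : Fin M, (if k < k' then E k' k else 0) := Finset.sum_comm
  rw [h3, add_assoc, ← Finset.sum_add_distrib]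
  have h4 : ∀ k : Fin M, (∑ k', if k < k' then E k k' else 0) +
      (∑ k', if k < k' then E k' k else 0) = 0 := by
    intro k
    rw [← Finset.sum_add_distrib]
    refine Finset.sum_eq_zero fun k' _ => ?_
    by_cases h : k < k'
    · rw [if_pos h, if_pos h]; exact hE k k' h
    · rw [if_neg h, if_neg h, add_zero]
  rw [Finset.sum_congr rfl fun k _ => h4 k]
  simp

/-- If all cross terms vanish modulo `m` then a quadratic polynomial is affine modulo `m` on the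
block cube. -/
theorem affine_of_cross {n M m : ℕ} (φ : (Fin n → Bool) → ℤ) (c : ℤ) (a : Fin n → ℤ)
    (A : Fin n → Fin n → ℤ)
    (hφ : ∀ x, φ x = c + ∑ i, a i * bit (x i) + ∑ i, ∑ j, A i j * (bit (x i) * bit (x j)))
    (Q : BCube n M)
    (hcross : ∀ k k' : Fin M, k < k' → ∑ j, (∑ i, ((A i j + A j i : ℤ) : ZMod m) *
      ((Q.coe i k : ℤ) : ZMod m)) * ((Q.coe j k' : ℤ) : ZMod m) = 0) :
    ∃ (γ : ZMod m) (lam : Fin M → ZMod m), ∀ t,
      ((φ (Q.emb t) : ℤ) : ZMod m) = γ + ∑ k, lam k * ((bit (t k) : ℤ) : ZMod m) := by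
  let b : Fin n → ZMod m := fun i => ((bit (Q.base i) : ℤ) : ZMod m)
  let h : Fin n → Fin M → ZMod m := fun i k => ((Q.coe i k : ℤ) : ZMod m)
  let A' : Fin n → Fin n → ZMod m := fun i j => ((A i j : ℤ) : ZMod m)
  let a' : Fin n → ZMod m := fun i => ((a i : ℤ) : ZMod m)
  let D : Fin M → Fin M → ZMod m := fun k k' => ∑ i, ∑ j, A' i j * h i k * h j k'
  refine ⟨(c : ZMod m) + ∑ i, a' i * b i + ∑ i, ∑ j, A' i j * b i * b j,
    fun k => ∑ i, a' i * h i k + ∑ i, ∑ j, A' i j * (b i * h j k + h i k * b j) + D k k, ?_⟩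
  intro t
  let τ : Fin M → ZMod m := fun k => ((bit (t k) : ℤ) : ZMod m)
  have hτ : ∀ k, τ k * τ k = τ k := by
    intro k
    simp only [τ]
    rw [← Int.cast_mul, bit_mul_self]
  have hbit : ∀ i, ((bit (Q.emb t i) : ℤ) : ZMod m) = b i + ∑ k, h i k * τ k := by
    intro i
    rw [Q.bit_emb t i]
    push_cast
    rfl
  have hDcross : ∀ k k', k < k' → τ k * τ k' * D k k' + τ k' * τ k * D k' k = 0 := by
    intro k k' hkk
    have h1 := hcross k k' hkk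
    have h2 : D k k' + D k' k = ∑ j, (∑ i, ((A i j + A j i : ℤ) : ZMod m) *
        ((Q.coe i k : ℤ) : ZMod m)) * ((Q.coe j k' : ℤ) : ZMod m) := by
      simp only [D]
      have e1 : ∑ i, ∑ j, A' i j * h i k' * h j k = ∑ i, ∑ j, A' j i * h j k' * h i k :=
        Finset.sum_comm
      rw [e1]
      have e2 : ∑ j, (∑ i, ((A i j + A j i : ℤ) : ZMod m) *
          ((Q.coe i k : ℤ) : ZMod m)) * ((Q.coe j k' : ℤ) : ZMod m) =
          ∑ i, ∑ j, (A' i j * h i k * h j k' + A' j i * h j k' * h i k) := by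
        rw [Finset.sum_comm]
        refine Finset.sum_congr rfl fun j _ => ?_
        rw [Finset.sum_mul]
        refine Finset.sum_congr rfl fun i _ => ?_
        simp only [A', h]
        push_cast
        ring
      rw [e2]
      simp only [Finset.sum_add_distrib]
    have h3 : D k k' + D k' k = 0 := by rw [h2, h1]
    calc τ k * τ k' * D k k' + τ k' * τ k * D k' k = τ k * τ k' * (D k k' + D k' k) := by ring
      _ = 0 := by rw [h3, mul_zero]
  rw [hφ]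
  push_cast
  simp only [hbit]
  change (c : ZMod m) + ∑ i, a' i * (b i + ∑ k, h i k * τ k) +
    ∑ i, ∑ j, A' i j * ((b i + ∑ k, h i k * τ k) * (b j + ∑ k, h j k * τ k)) = _
  -- the linear part
  have l1 : ∑ i, a' i * (b i + ∑ k, h i k * τ k) =
      ∑ i, a' i * b i + ∑ k, (∑ i, a' i * h i k) * τ k := by
    simp only [mul_add, Finset.sum_add_distrib]
    congr 1
    simp only [Finset.mul_sum, Finset.sum_mul]
    rw [Finset.sum_comm]
    exact Finset.sum_congr rfl fun k _ => Finset.sum_congr rfl fun i _ => by ring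
  -- the quadratic part
  have l2 : ∑ i, ∑ j, A' i j * ((b i + ∑ k, h i k * τ k) * (b j + ∑ k, h j k * τ k)) =
      ∑ i, ∑ j, A' i j * b i * b j +
      ∑ k, (∑ i, ∑ j, A' i j * (b i * h j k + h i k * b j)) * τ k +
      ∑ k, ∑ k', τ k * τ k' * D k k' := by
    have e1 : ∀ i j, A' i j * ((b i + ∑ k, h i k * τ k) * (b j + ∑ k, h j k * τ k)) =
        A' i j * b i * b j + ∑ k, A' i j * (b i * h j k + h i k * b j) * τ k +
        ∑ k, ∑ k', τ k * τ k' * (A' i j * h i k * h j k') := by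
      intro i j
      have e2 : ∑ k, A' i j * (b i * h j k + h i k * b j) * τ k =
          A' i j * b i * (∑ k, h j k * τ k) + A' i j * b j * ∑ k, h i k * τ k := by
        simp only [Finset.mul_sum, ← Finset.sum_add_distrib]
        exact Finset.sum_congr rfl fun k _ => by ring
      have e3 : ∑ k, ∑ k', τ k * τ k' * (A' i j * h i k * h j k') =
          A' i j * ((∑ k, h i k * τ k) * ∑ k, h j k * τ k) := by
        rw [Finset.sum_mul_sum, Finset.mul_sum]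
        refine Finset.sum_congr rfl fun k _ => ?_
        rw [Finset.mul_sum]
        exact Finset.sum_congr rfl fun k' _ => by ring
      rw [e2, e3]; ring
    simp only [e1, Finset.sum_add_distrib]
    congr 1
    · congr 1
      rw [Finset.sum_congr rfl fun i _ => Finset.sum_comm (s := Finset.univ)
        (t := Finset.univ) (f := fun j k => A' i j * (b i * h j k + h i k * b j) * τ k)]
      rw [Finset.sum_comm]
      refine Finset.sum_congr rfl fun k _ => ?_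
      rw [Finset.sum_mul]
      exact Finset.sum_congr rfl fun i _ => by rw [Finset.sum_mul]
    · simp only [D, Finset.mul_sum]
      have e4 : ∀ i, ∑ j, ∑ k, ∑ k', τ k * τ k' * (A' i j * h i k * h j k') =
          ∑ k, ∑ k', ∑ j, τ k * τ k' * (A' i j * h i k * h j k') := by
        intro i
        rw [Finset.sum_comm]
        exact Finset.sum_congr rfl fun k _ => Finset.sum_comm
      rw [Finset.sum_congr rfl fun i _ => e4 i, Finset.sum_comm]
      refine Finset.sum_congr rfl fun k _ => ?_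
      rw [Finset.sum_comm]
  have l3 : ∑ k, ∑ k', τ k * τ k' * D k k' = ∑ k, D k k * τ k := by
    rw [sum_sum_eq_diag (fun k k' => τ k * τ k' * D k k') hDcross]
    refine Finset.sum_congr rfl fun k _ => ?_
    rw [hτ]; ring
  rw [l1, l2, l3]
  simp only [add_mul, Finset.sum_add_distrib]
  ring

open Classical in
/-- The classes of the first level: cross terms with the earlier directions. -/
noncomputable def g1 {n M u N : ℕ} (m : ℕ) (e : Fin M × Fin u ↪ Fin n)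
    (A : Fin N → Fin n → Fin n → ℤ) (hist : List (Finset (Fin u) × Finset (Fin u))) (c' : Fin u) :
    Fin N × Fin M → ZMod m := fun jk =>
  if h : jk.2.1 < hist.length ∧ hist.length < M then
    (∑ c ∈ (hist[jk.2.1]'h.1).2, ((A jk.1 (e (jk.2, c)) (e (⟨hist.length, h.2⟩, c')) +
        A jk.1 (e (⟨hist.length, h.2⟩, c')) (e (jk.2, c)) : ℤ) : ZMod m)) -
      ∑ c ∈ (hist[jk.2.1]'h.1).1, ((A jk.1 (e (jk.2, c)) (e (⟨hist.length, h.2⟩, c')) +
        A jk.1 (e (⟨hist.length, h.2⟩, c')) (e (jk.2, c)) : ℤ) : ZMod m)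
  else 0

theorem smul_eq_zero_of_dvd {m l : ℕ} (h : m ∣ l) (x : ZMod m) : l • x = 0 := by
  obtain ⟨c, rfl⟩ := h
  rw [nsmul_eq_mul]
  push_cast
  simp

/-- First stage: a block cube on which the quadratic polynomials are affine. -/
theorem stage_one {n M u N : ℕ} (m l V : ℕ) [NeZero m] (hl : 0 < l) (hml : m ∣ l) (hV : 0 < V)
    (e : Fin M × Fin u ↪ Fin n) (z : Fin n → Bool)
    (q : Fin N → (Fin n → Bool) → ℤ) (hq : ∀ j, IsQuad (q j))
    (v : Fin n → ℤ) (hv : OddMul V v) (f : (Fin n → Bool) → ℝ) (hf : ∀ x, |f x| ≤ 1)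
    (ε : ℝ) (hε0 : 0 < ε) (hε1 : ε ≤ 1)
    (hε : 16 * ((m ^ (N * M) : ℕ) * (V * l : ℕ)) * (1 - 1 / (l : ℝ) ^ 2) ^ u ≤ ε ^ 2) :
    ∃ p : Fin M → Finset (Fin u) × Finset (Fin u),
      (∀ j, ∃ (γ : ZMod m) (lam : Fin M → ZMod m), ∀ t,
        ((q j ((mkQ e z p).emb t) : ℤ) : ZMod m) = γ + ∑ k, lam k * ((bit (t k) : ℤ) : ZMod m)) ∧
      OddMul (V * l) ((mkQ e z p).pw v) ∧
      (∑ x : Fin M → Finset (Fin u), f (glue e z x)) / ((2 : ℝ) ^ u) ^ M - M * ε ≤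
        avg fun t => f ((mkQ e z p).emb t) := by
  classical
  choose c a A hA using hq
  have hcard : (Fintype.card (Fin N × Fin M → ZMod m) : ℝ) = (m ^ (N * M) : ℕ) := by
    rw [Fintype.card_fun, ZMod.card, Fintype.card_prod, Fintype.card_fin, Fintype.card_fin]
  obtain ⟨p, hp1, hp2, hp3⟩ := level (G := Fin N × Fin M → ZMod m) l V hl hV e z
    (g1 m e A) (by
      intro h c'
      funext jk
      rw [Pi.smul_apply, Pi.zero_apply]
      exact smul_eq_zero_of_dvd hml _) v hv f hf ε hε0 hε1 (by rw [hcard]; exact hε)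
  refine ⟨p, fun j => ?_, hp2, hp3⟩
  refine affine_of_cross (q j) (c j) (a j) (A j) (hA j) (mkQ e z p) fun k k' hkk => ?_
  have h1 := congrFun (hp1 k') (j, k)
  rw [Finset.sum_apply, Finset.sum_apply] at h1
  -- evaluation of the class map
  have h2 : ∀ c' : Fin u, g1 m e A (List.ofFn fun j : Fin k'.1 => p ⟨j.1, j.2.trans k'.2⟩) c'
      (j, k) = ∑ i, ((A j i (e (k', c')) + A j (e (k', c')) i : ℤ) : ZMod m) *
        (((mkQ e z p).coe i k : ℤ) : ZMod m) := by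
    intro c'
    rw [sum_mkQ_coe (R := ZMod m) e z p k
      (fun i => ((A j i (e (k', c')) + A j (e (k', c')) i : ℤ) : ZMod m))]
    unfold g1
    have hlen : (List.ofFn fun j : Fin k'.1 => p ⟨j.1, j.2.trans k'.2⟩).length = k'.1 := by simp
    have hcond : (j, k).2.1 < (List.ofFn fun j : Fin k'.1 => p ⟨j.1, j.2.trans k'.2⟩).length ∧
        (List.ofFn fun j : Fin k'.1 => p ⟨j.1, j.2.trans k'.2⟩).length < M := by
      rw [hlen]; exact ⟨hkk, k'.2⟩
    rw [dif_pos hcond]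
    have hk' : (⟨(List.ofFn fun j : Fin k'.1 => p ⟨j.1, j.2.trans k'.2⟩).length, hcond.2⟩ :
        Fin M) = k' := Fin.ext hlen
    have hget : (List.ofFn fun j : Fin k'.1 => p ⟨j.1, j.2.trans k'.2⟩)[(j, k).2.1]'hcond.1 =
        p k := by
      simp
    rw [hk', hget]
  simp only [h2] at h1
  have h3 : ∀ j' : Fin n, (∑ i, ((A j i j' + A j j' i : ℤ) : ZMod m) *
      (((mkQ e z p).coe i k : ℤ) : ZMod m)) * (((mkQ e z p).coe j' k' : ℤ) : ZMod m) =
      (fun j' => ∑ i, ((A j i j' + A j j' i : ℤ) : ZMod m) *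
      (((mkQ e z p).coe i k : ℤ) : ZMod m)) j' * (((mkQ e z p).coe j' k' : ℤ) : ZMod m) :=
    fun _ => rfl
  rw [Finset.sum_congr rfl fun j' _ => h3 j', sum_mkQ_coe (R := ZMod m) e z p k'
    (fun j' => ∑ i, ((A j i j' + A j j' i : ℤ) : ZMod m) *
      (((mkQ e z p).coe i k : ℤ) : ZMod m))]
  rw [← h1, sub_self]

open Classical in
/-- The classes of the second level: values of the linear forms. -/
noncomputable def g2 {n M u N m l : ℕ} {Γ : Type*} [AddCommGroup Γ] (e : Fin M × Fin u ↪ Fin n)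
    (P : Γ →+ (Fin n → ZMod l)) (lam : Fin N → Fin n → ZMod m)
    (hist : List (Finset (Fin u) × Finset (Fin u))) (c : Fin u) :
    (Γ →+ ZMod l) × (Fin N → ZMod m) :=
  if h : hist.length < M then
    ((Pi.evalAddMonoidHom (fun _ : Fin n => ZMod l) (e (⟨hist.length, h⟩, c))).comp P,
      fun j => lam j (e (⟨hist.length, h⟩, c)))
  else 0

/-- Second stage: a block cube on which linear forms are constant. -/
theorem stage_two {n M u N : ℕ} (m l V : ℕ) [NeZero m] [NeZero l] (hml : m ∣ l) (hV : 0 < V)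
    (e : Fin M × Fin u ↪ Fin n) (z : Fin n → Bool) {Γ : Type*} [AddCommGroup Γ] [Finite Γ]
    (P : Γ →+ (Fin n → ZMod l)) (lam : Fin N → Fin n → ZMod m)
    (v : Fin n → ℤ) (hv : OddMul V v) (f : (Fin n → Bool) → ℝ) (hf : ∀ x, |f x| ≤ 1)
    (ε : ℝ) (hε0 : 0 < ε) (hε1 : ε ≤ 1)
    (hε : 16 * ((Nat.card Γ * m ^ N : ℕ) * (V * l : ℕ)) * (1 - 1 / (l : ℝ) ^ 2) ^ u ≤ ε ^ 2) :
    ∃ p : Fin M → Finset (Fin u) × Finset (Fin u),
      (∀ L k, ∑ i, P L i * (((mkQ e z p).coe i k : ℤ) : ZMod l) = 0) ∧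
      (∀ j k, ∑ i, lam j i * (((mkQ e z p).coe i k : ℤ) : ZMod m) = 0) ∧
      OddMul (V * l) ((mkQ e z p).pw v) ∧
      (∑ x : Fin M → Finset (Fin u), f (glue e z x)) / ((2 : ℝ) ^ u) ^ M - M * ε ≤
        avg fun t => f ((mkQ e z p).emb t) := by
  classical
  have hl : 0 < l := Nat.pos_of_ne_zero (NeZero.ne l)
  have hfin : Finite (Γ →+ ZMod l) := finite_hom l Γ
  have : Fintype (Γ →+ ZMod l) := Fintype.ofFinite _
  have hcard : (Fintype.card ((Γ →+ ZMod l) × (Fin N → ZMod m)) : ℝ) ≤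
      (Nat.card Γ * m ^ N : ℕ) := by
    rw [Fintype.card_prod, Fintype.card_fun, ZMod.card, Fintype.card_fin,
      ← Nat.card_eq_fintype_card]
    exact_mod_cast Nat.mul_le_mul_right _ (card_hom_le l Γ)
  have hε' : 16 * (Fintype.card ((Γ →+ ZMod l) × (Fin N → ZMod m)) * (V * l : ℕ)) *
      (1 - 1 / (l : ℝ) ^ 2) ^ u ≤ ε ^ 2 := by
    refine le_trans ?_ hε
    have h0 : (0 : ℝ) ≤ 1 - 1 / (l : ℝ) ^ 2 := by
      have h1 : (1 : ℝ) ≤ l := by exact_mod_cast hl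
      have : 1 / (l : ℝ) ^ 2 ≤ 1 := by
        rw [div_le_one (by positivity)]
        exact one_le_pow₀ h1
      linarith
    refine mul_le_mul_of_nonneg_right ?_ (pow_nonneg h0 _)
    refine mul_le_mul_of_nonneg_left ?_ (by norm_num)
    exact mul_le_mul_of_nonneg_right hcard (Nat.cast_nonneg _)
  obtain ⟨p, hp1, hp2, hp3⟩ := level (G := (Γ →+ ZMod l) × (Fin N → ZMod m)) l V hl hV e z
    (g2 e P lam) (by
      intro h c
      ext x
      · rw [Prod.smul_fst, AddMonoidHom.smul_apply]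
        exact smul_eq_zero_of_dvd dvd_rfl _
      · rw [Prod.smul_snd, Pi.smul_apply]
        exact smul_eq_zero_of_dvd hml _) v hv f hf ε hε0 hε1 hε'
  have heval : ∀ (k : Fin M) (c : Fin u),
      g2 e P lam (List.ofFn fun j : Fin k.1 => p ⟨j.1, j.2.trans k.2⟩) c =
      ((Pi.evalAddMonoidHom (fun _ : Fin n => ZMod l) (e (k, c))).comp P,
        fun j => lam j (e (k, c))) := by
    intro k c
    unfold g2
    have hlen : (List.ofFn fun j : Fin k.1 => p ⟨j.1, j.2.trans k.2⟩).length = k.1 := by simp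
    have hcond : (List.ofFn fun j : Fin k.1 => p ⟨j.1, j.2.trans k.2⟩).length < M := by
      rw [hlen]; exact k.2
    rw [dif_pos hcond]
    have hk' : (⟨(List.ofFn fun j : Fin k.1 => p ⟨j.1, j.2.trans k.2⟩).length, hcond⟩ :
        Fin M) = k := Fin.ext hlen
    rw [hk']
  refine ⟨p, fun L k => ?_, fun j k => ?_, hp2, hp3⟩
  · have h1 := congrArg Prod.fst (hp1 k)
    rw [Prod.fst_sum, Prod.fst_sum] at h1
    have h2 := DFunLike.congr_fun h1 L
    rw [AddMonoidHom.finsetSum_apply, AddMonoidHom.finsetSum_apply] at h2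
    simp only [heval] at h2
    rw [sum_mkQ_coe (R := ZMod l) e z p k (P L)]
    have h3 : ∀ c : Fin u, ((Pi.evalAddMonoidHom (fun _ : Fin n => ZMod l) (e (k, c))).comp P) L =
        P L (e (k, c)) := fun _ => rfl
    simp only [h3] at h2
    rw [← h2, sub_self]
  · have h1 := congrArg Prod.snd (hp1 k)
    rw [Prod.snd_sum, Prod.snd_sum] at h1
    have h2 := congrFun h1 j
    rw [Finset.sum_apply, Finset.sum_apply] at h2
    simp only [heval] at h2
    rw [sum_mkQ_coe (R := ZMod m) e z p k (lam j)]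
    rw [← h2, sub_self]

end Pair

open Pair in
theorem pairing (m : ℕ) [NeZero m] (ℓ : ℕ) [NeZero ℓ] (hℓ : m ∣ ℓ) :
    ∃ C : ℕ, ∀ {n N : ℕ} (M Λ e V : ℕ) (v : Fin n → ℤ), 1 ≤ V → OddMul V v →
      ∀ (q : Fin N → (Fin n → Bool) → ℤ), (∀ j, IsQuad (q j)) →
      ∀ (Γ : AddSubgroup (Fin n → ZMod ℓ)), Nat.card Γ ≤ 2 ^ Λ →
      ∀ (S : Finset (Fin n)) (y : Fin n → Bool) (f : (Fin n → Bool) → ℝ), (∀ x, |f x| ≤ 1) →
      (C * (M + N + Λ + e + V + 1)) ^ C ≤ Sᶜ.card →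
      ∃ Q : BCube n M, OddMul (V * ℓ ^ 2) (Q.pw v) ∧
        (∀ t, ∀ i ∈ S, Q.emb t i = y i) ∧
        (∀ L ∈ Γ, ∀ t, ev L (Q.emb t) = ev L Q.base) ∧
        (∀ j t, ((q j (Q.emb t) : ℤ) : ZMod m) = (q j Q.base : ℤ)) ∧
        (∑ x ∈ cube S y, f x) / 2 ^ Sᶜ.card - 1 / 2 ^ e ≤ avg fun t => f (Q.emb t) := by
  classical
  have hℓpos : 0 < ℓ := Nat.pos_of_ne_zero (NeZero.ne ℓ)
  obtain ⟨A₂, hA₂⟩ : ∃ A₂, A₂ = m + 2 * ℓ + 8 := ⟨_, rfl⟩
  obtain ⟨A₁, hA₁⟩ : ∃ A₁, A₁ = 7 + ℓ + m * (ℓ ^ 2 * A₂) + 2 * (ℓ ^ 2 * A₂) := ⟨_, rfl⟩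
  refine ⟨ℓ ^ 2 * A₂ * (ℓ ^ 2 * A₁) + 5, ?_⟩
  intro n N M Λ e V v hV hv q hq Γ hΓ S y f hf hbig
  obtain ⟨X, hX⟩ : ∃ X, X = M + N + Λ + e + V + 1 := ⟨_, rfl⟩
  rw [← hX] at hbig
  have hX1 : 1 ≤ X := by omega
  obtain ⟨L₂, hL₂⟩ : ∃ L₂, L₂ = 4 + Λ + m * N + V + 2 * ℓ + 2 * (e + 1 + M) := ⟨_, rfl⟩
  obtain ⟨u₂, hu₂⟩ : ∃ u₂, u₂ = ℓ ^ 2 * L₂ := ⟨_, rfl⟩
  obtain ⟨M', hM'⟩ : ∃ M', M' = M * u₂ := ⟨_, rfl⟩
  obtain ⟨L₁, hL₁⟩ : ∃ L₁, L₁ = 4 + m * (N * M') + V + ℓ + 2 * (e + 1 + M') := ⟨_, rfl⟩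
  obtain ⟨u₁, hu₁⟩ : ∃ u₁, u₁ = ℓ ^ 2 * L₁ := ⟨_, rfl⟩
  -- sizes
  have hL₂X : L₂ ≤ A₂ * X := by
    have h1 : m * N ≤ m * X := Nat.mul_le_mul_left _ (by omega)
    have h2 : 2 * ℓ ≤ 2 * ℓ * X := Nat.le_mul_of_pos_right _ hX1
    calc L₂ ≤ 4 * X + X + m * X + X + 2 * ℓ * X + 2 * X := by omega
      _ = A₂ * X := by rw [hA₂]; ring
  have hu₂X : u₂ ≤ ℓ ^ 2 * A₂ * X := by
    rw [hu₂, mul_assoc]; exact Nat.mul_le_mul_left _ hL₂X
  have hM'X : M' ≤ ℓ ^ 2 * A₂ * X ^ 2 := by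
    calc M' = M * u₂ := hM'
      _ ≤ X * (ℓ ^ 2 * A₂ * X) := Nat.mul_le_mul (by omega) hu₂X
      _ = _ := by ring
  have hX3 : X ≤ X ^ 3 := by
    calc X = X ^ 1 := (pow_one X).symm
      _ ≤ X ^ 3 := Nat.pow_le_pow_right hX1 (by norm_num)
  have hX23 : X ^ 2 ≤ X ^ 3 := Nat.pow_le_pow_right hX1 (by norm_num)
  have hL₁X : L₁ ≤ A₁ * X ^ 3 := by
    have h1 : m * (N * M') ≤ m * (ℓ ^ 2 * A₂) * X ^ 3 := by
      calc m * (N * M') ≤ m * (X * (ℓ ^ 2 * A₂ * X ^ 2)) :=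
            Nat.mul_le_mul_left _ (Nat.mul_le_mul (by omega) hM'X)
        _ = _ := by ring
    have h2 : 2 * M' ≤ 2 * (ℓ ^ 2 * A₂) * X ^ 3 := by
      calc 2 * M' ≤ 2 * (ℓ ^ 2 * A₂ * X ^ 2) := Nat.mul_le_mul_left _ hM'X
        _ ≤ 2 * (ℓ ^ 2 * A₂ * X ^ 3) := Nat.mul_le_mul_left _ (Nat.mul_le_mul_left _ hX23)
        _ = _ := by ring
    have h3 : ℓ ≤ ℓ * X ^ 3 := Nat.le_mul_of_pos_right _ (by positivity)
    calc L₁ ≤ 4 * X ^ 3 + m * (ℓ ^ 2 * A₂) * X ^ 3 + X ^ 3 + ℓ * X ^ 3 + 2 * X ^ 3 +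
          2 * (ℓ ^ 2 * A₂) * X ^ 3 := by omega
      _ = A₁ * X ^ 3 := by rw [hA₁]; ring
  have hM'u₁ : M' * u₁ ≤ Sᶜ.card := by
    refine le_trans ?_ hbig
    obtain ⟨C, hC⟩ : ∃ C, C = ℓ ^ 2 * A₂ * (ℓ ^ 2 * A₁) + 5 := ⟨_, rfl⟩
    rw [← hC]
    have hCX : 1 ≤ C * X := Nat.mul_pos (by omega) hX1
    calc M' * u₁ ≤ (ℓ ^ 2 * A₂ * X ^ 2) * (ℓ ^ 2 * (A₁ * X ^ 3)) := by
          rw [hu₁]
          exact Nat.mul_le_mul hM'X (Nat.mul_le_mul_left _ hL₁X)
      _ = (ℓ ^ 2 * A₂ * (ℓ ^ 2 * A₁)) * X ^ 5 := by ring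
      _ ≤ C * X ^ 5 := Nat.mul_le_mul_right _ (by omega)
      _ ≤ C ^ 5 * X ^ 5 := by
          refine Nat.mul_le_mul_right _ ?_
          calc C = C ^ 1 := (pow_one C).symm
            _ ≤ C ^ 5 := Nat.pow_le_pow_right (by omega) (by norm_num)
      _ = (C * X) ^ 5 := by rw [mul_pow]
      _ ≤ (C * X) ^ C := Nat.pow_le_pow_right hCX (by omega)
  -- analytic parameters
  have hgeo : ∀ L : ℕ, (1 - 1 / (ℓ : ℝ) ^ 2) ^ (ℓ ^ 2 * L) ≤ (1 / 2 : ℝ) ^ L := fun L =>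
    Pool.Agent.RS.geom_bound ℓ L hℓpos
  have hmpow : ∀ a : ℕ, (m : ℝ) ^ a ≤ 2 ^ (m * a) := by
    intro a
    have h1 : (m : ℝ) ≤ 2 ^ m := by exact_mod_cast (Nat.lt_two_pow_self (n := m)).le
    calc (m : ℝ) ^ a ≤ (2 ^ m) ^ a := pow_le_pow_left₀ (Nat.cast_nonneg _) h1 a
      _ = 2 ^ (m * a) := by rw [pow_mul]
  have hnat : ∀ a : ℕ, (a : ℝ) ≤ 2 ^ a := by
    intro a; exact_mod_cast (Nat.lt_two_pow_self (n := a)).le
  have hε₁ : 16 * ((m ^ (N * M') : ℕ) * (V * ℓ : ℕ)) * (1 - 1 / (ℓ : ℝ) ^ 2) ^ u₁ ≤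
      ((1 : ℝ) / 2 ^ (e + 1 + M')) ^ 2 := by
    rw [hu₁]
    have h0 : (0 : ℝ) ≤ 16 * ((m ^ (N * M') : ℕ) * (V * ℓ : ℕ)) := by positivity
    refine (mul_le_mul_of_nonneg_left (hgeo L₁) h0).trans ?_
    have h1 : (16 : ℝ) * ((m ^ (N * M') : ℕ) * (V * ℓ : ℕ)) ≤
        2 ^ (4 + m * (N * M') + V + ℓ) := by
      push_cast
      calc (16 : ℝ) * ((m : ℝ) ^ (N * M') * (V * ℓ)) ≤
          2 ^ 4 * (2 ^ (m * (N * M')) * (2 ^ V * 2 ^ ℓ)) := by
            have e1 := hmpow (N * M')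
            have e2 := hnat V
            have e3 := hnat ℓ
            have e4 : (16 : ℝ) = 2 ^ 4 := by norm_num
            rw [e4]
            gcongr
        _ = _ := by rw [pow_add, pow_add, pow_add]; ring
    calc (16 : ℝ) * ((m ^ (N * M') : ℕ) * (V * ℓ : ℕ)) * (1 / 2) ^ L₁ ≤
        2 ^ (4 + m * (N * M') + V + ℓ) * (1 / 2) ^ L₁ :=
          mul_le_mul_of_nonneg_right h1 (by positivity)
      _ = (1 / 2 ^ (e + 1 + M')) ^ 2 := by
          rw [hL₁, pow_add _ (4 + m * (N * M') + V + ℓ), one_div_pow,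
            one_div_pow, one_div_pow, ← pow_mul, mul_comm (e + 1 + M') 2]
          field_simp
  have hε₂ : 16 * ((Nat.card Γ * m ^ N : ℕ) * (V * ℓ * ℓ : ℕ)) *
      (1 - 1 / (ℓ : ℝ) ^ 2) ^ u₂ ≤ ((1 : ℝ) / 2 ^ (e + 1 + M)) ^ 2 := by
    rw [hu₂]
    have h0 : (0 : ℝ) ≤ 16 * ((Nat.card Γ * m ^ N : ℕ) * (V * ℓ * ℓ : ℕ)) := by positivity
    refine (mul_le_mul_of_nonneg_left (hgeo L₂) h0).trans ?_
    have h1 : (16 : ℝ) * ((Nat.card Γ * m ^ N : ℕ) * (V * ℓ * ℓ : ℕ)) ≤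
        2 ^ (4 + Λ + m * N + V + 2 * ℓ) := by
      push_cast
      calc (16 : ℝ) * ((Nat.card Γ : ℝ) * (m : ℝ) ^ N * (V * ℓ * ℓ)) ≤
          2 ^ 4 * (2 ^ Λ * 2 ^ (m * N) * (2 ^ V * 2 ^ ℓ * 2 ^ ℓ)) := by
            have e1 := hmpow N
            have e2 := hnat V
            have e3 := hnat ℓ
            have e4 : (16 : ℝ) = 2 ^ 4 := by norm_num
            have e5 : (Nat.card Γ : ℝ) ≤ 2 ^ Λ := by exact_mod_cast hΓ
            rw [e4]
            gcongr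
        _ = _ := by rw [show 4 + Λ + m * N + V + 2 * ℓ = 4 + Λ + m * N + V + ℓ + ℓ by ring,
                      pow_add, pow_add, pow_add, pow_add, pow_add]; ring
    calc (16 : ℝ) * ((Nat.card Γ * m ^ N : ℕ) * (V * ℓ * ℓ : ℕ)) * (1 / 2) ^ L₂ ≤
        2 ^ (4 + Λ + m * N + V + 2 * ℓ) * (1 / 2) ^ L₂ :=
          mul_le_mul_of_nonneg_right h1 (by positivity)
      _ = (1 / 2 ^ (e + 1 + M)) ^ 2 := by
          rw [hL₂, pow_add _ (4 + Λ + m * N + V + 2 * ℓ), one_div_pow,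
            one_div_pow, one_div_pow, ← pow_mul, mul_comm (e + 1 + M) 2]
          field_simp
  have hsmall : ∀ a : ℕ, (0 : ℝ) < 1 / 2 ^ (e + 1 + a) ∧ (1 : ℝ) / 2 ^ (e + 1 + a) ≤ 1 ∧
      (a : ℝ) * (1 / 2 ^ (e + 1 + a)) ≤ 1 / 2 ^ (e + 1) := by
    intro a
    refine ⟨by positivity, ?_, ?_⟩
    · rw [div_le_one (by positivity)]
      exact one_le_pow₀ (by norm_num)
    · rw [mul_one_div, div_le_div_iff₀ (by positivity) (by positivity), pow_add _ (e + 1) a]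
      have := hnat a
      have h2 : (0 : ℝ) < 2 ^ (e + 1) := by positivity
      nlinarith
  -- first level
  obtain ⟨e₁⟩ : Nonempty (Fin M' × Fin u₁ ↪ {x // x ∈ Sᶜ}) := by
    refine Function.Embedding.nonempty_of_card_le ?_
    rw [Fintype.card_prod, Fintype.card_fin, Fintype.card_fin, Fintype.card_coe]
    exact hM'u₁
  let E₁ : Fin M' × Fin u₁ ↪ Fin n := e₁.trans (Function.Embedding.subtype _)
  have hE₁ : ∀ x, E₁ x ∉ S := fun x => Finset.mem_compl.mp (e₁ x).2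
  obtain ⟨z₁, hz₁, hz₁f⟩ := exists_rest E₁ S hE₁ y f
  obtain ⟨p₁, hp₁a, hp₁b, hp₁c⟩ := stage_one m ℓ V hℓpos hℓ hV E₁ z₁ q hq v hv f hf
    (1 / 2 ^ (e + 1 + M')) (hsmall M').1 (hsmall M').2.1 hε₁
  choose γ lam hlam using hp₁a
  set Q₁ := mkQ E₁ z₁ p₁ with hQ₁
  -- second level
  obtain ⟨e₂⟩ : Nonempty (Fin M × Fin u₂ ↪ Fin M') := by
    refine Function.Embedding.nonempty_of_card_le ?_
    rw [Fintype.card_prod, Fintype.card_fin, Fintype.card_fin, Fintype.card_fin, hM']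
  let P : Γ →+ (Fin M' → ZMod ℓ) :=
    { toFun := fun L => Q₁.pf (L : Fin n → ZMod ℓ)
      map_zero' := by
        funext k
        simp [BCube.pf]
      map_add' := fun L L' => by
        funext k
        simp only [BCube.pf, AddSubgroup.coe_add, Pi.add_apply, add_mul,
          Finset.sum_add_distrib] }
  obtain ⟨z₂, -, hz₂f⟩ := exists_rest e₂ ∅ (fun _ => Finset.notMem_empty _) (fun _ => false)
    (fun t => f (Q₁.emb t))
  obtain ⟨p₂, hp₂a, hp₂b, hp₂c, hp₂d⟩ := stage_two m ℓ (V * ℓ) hℓ (Nat.mul_pos hV hℓpos) e₂ z₂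
    P lam (Q₁.pw v) hp₁b (fun t => f (Q₁.emb t)) (fun t => hf _)
    (1 / 2 ^ (e + 1 + M)) (hsmall M).1 (hsmall M).2.1 hε₂
  set Q₂ := mkQ e₂ z₂ p₂ with hQ₂
  refine ⟨Q₁.comp Q₂, ?_, ?_, ?_, ?_, ?_⟩
  · intro k
    have h1 := hp₂c k
    rw [BCube.pw_comp]
    have h2 : V * ℓ ^ 2 = V * ℓ * ℓ := by ring
    rw [h2]
    exact h1
  · intro t i hi
    have hne : ∀ x, E₁ x ≠ i := by
      rintro x rfl; exact hE₁ x hi
    rw [BCube.emb_comp, BCube.emb_none (mkQ_blk_of_ne z₁ p₁ hne)]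
    change glue E₁ z₁ (fun k => (p₁ k).1) i = y i
    rw [glue_of_ne _ _ hne, hz₁ i hi]
  · intro L hL t
    have hbase : (Q₁.comp Q₂).base = Q₁.emb Q₂.base := rfl
    rw [BCube.emb_comp, hbase, BCube.ev_emb, BCube.ev_emb, BCube.ev_emb]
    have h1 : Q₂.pf (Q₁.pf L) = 0 := by
      funext k
      exact hp₂a ⟨L, hL⟩ k
    rw [h1, ev_zero, add_zero]
  · intro j t
    have hbase : (Q₁.comp Q₂).base = Q₁.emb Q₂.base := rfl
    rw [BCube.emb_comp, hbase, hlam, hlam]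
    congr 1
    have h1 : ∀ i, lam j i * ((bit (Q₂.emb t i) : ℤ) : ZMod m) =
        lam j i * ((bit (Q₂.base i) : ℤ) : ZMod m) +
        ∑ k, lam j i * ((Q₂.coe i k : ℤ) : ZMod m) * ((bit (t k) : ℤ) : ZMod m) := by
      intro i
      rw [Q₂.bit_emb t i]
      push_cast
      rw [mul_add, Finset.mul_sum]
      congr 1
      exact Finset.sum_congr rfl fun k _ => by ring
    rw [Finset.sum_congr rfl fun i _ => h1 i, Finset.sum_add_distrib, Finset.sum_comm]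
    have h2 : ∑ k, ∑ i, lam j i * ((Q₂.coe i k : ℤ) : ZMod m) * ((bit (t k) : ℤ) : ZMod m) =
        0 := by
      refine Finset.sum_eq_zero fun k _ => ?_
      rw [← Finset.sum_mul, hp₂b j k, zero_mul]
    rw [h2, add_zero]
  · have h1 : avg (fun t => f ((Q₁.comp Q₂).emb t)) = avg fun t => f (Q₁.emb (Q₂.emb t)) := by
      simp only [BCube.emb_comp]
    rw [h1]
    have h2 : avg (fun t => f (Q₁.emb t)) =
        (∑ t ∈ cube (∅ : Finset (Fin M')) (fun _ => false), f (Q₁.emb t)) /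
          2 ^ (∅ : Finset (Fin M'))ᶜ.card := by
      unfold avg
      have h3 : cube (∅ : Finset (Fin M')) (fun _ => false) = Finset.univ := by
        ext t; simp [mem_cube]
      rw [h3]
      simp
    have h4 := (hsmall M').2.2
    have h5 := (hsmall M).2.2
    have h6 : (1 : ℝ) / 2 ^ e = 1 / 2 ^ (e + 1) + 1 / 2 ^ (e + 1) := by
      rw [pow_succ]; field_simp; norm_num
    rw [← h2] at hz₂f
    rw [h6]
    linarith

end Pool.Agent.QuadSys
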