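import Pool.Agent.QuadSys.PathStep

/-!
# The path theorem
-/

set_option autoImplicit false

namespace Pool.Agent.QuadSys

open Finset Pool.Agent.Helper21.LinSys

section

variable {m ℓ : ℕ} [NeZero m] [NeZero ℓ]

/-- The path ends at a node at which no further step is possible. -/
theorem PState.run {w n k : ℕ} {P : Fin k → (Fin n → Bool) → Prop}
    {T : Finset (Fin n → Bool)} {ρ R ρp c J : ℕ}
    (hc1 : 1 ≤ c) (hprog : Prog m ℓ w c)
    (Λ : ℕ) (hΛ : ℓ ^ (ρ * (J + 1)) ≤ 2 ^ Λ) (hR : c * (ρ + 1) * (Λ + 1) ≤ R)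
    (hρp : c * (Λ + w * J + (ρ * J + R * Λ) + 1) ^ 2 + (J + 1) * ρ ≤ ρp) :
    ∀ (μ j : ℕ) (U : Finset (Fin k)) (s : ℕ), U.card + s = μ → j + μ ≤ J →
      ∀ _st : PState m ℓ w P T ρ R ρp c j U s,
      ∃ (j' : ℕ) (U' : Finset (Fin k)) (s' : ℕ) (st' : PState m ℓ w P T ρ R ρp c j' U' s'),
        j' ≤ J ∧ s' ≤ s ∧ ∀ i ∈ U', ∀ x ∈ node m st'.Γ st'.S st'.q st'.y,
          ∀ (p : Fin w → (Fin n → Bool) → ℤ) (H : AddSubgroup (Fin w → ZMod m)),
          (∀ s, IsQuad (p s)) →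
          Struct ℓ ρ (fun x (a : H) => comb p (a : Fin w → ZMod m) x) →
          (∀ x', (∀ s, ((p s x' : ℤ) : ZMod m) = p s x) → ¬ P i x') →
          ∃ a, a ∉ H ∧ ∃ b : Fin st'.N → ZMod m,
            Struct ℓ ρp (fun x => comb st'.q b x + comb p a x) := by
  intro μ
  induction μ with
  | zero =>
    intro j U s hUs hj st
    refine ⟨j, U, s, st, by omega, le_rfl, fun i hi => ?_⟩
    have : U.card = 0 := by omega
    rw [Finset.card_eq_zero.1 this] at hi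
    exact absurd hi (Finset.notMem_empty i)
  | succ μ ih =>
    intro j U s hUs hj st
    by_cases hstop : ∀ i ∈ U, ∀ x ∈ node m st.Γ st.S st.q st.y,
          ∀ (p : Fin w → (Fin n → Bool) → ℤ) (H : AddSubgroup (Fin w → ZMod m)),
          (∀ s, IsQuad (p s)) →
          Struct ℓ ρ (fun x (a : H) => comb p (a : Fin w → ZMod m) x) →
          (∀ x', (∀ s, ((p s x' : ℤ) : ZMod m) = p s x) → ¬ P i x') →
          ∃ a, a ∉ H ∧ ∃ b : Fin st.N → ZMod m,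
            Struct ℓ ρp (fun x => comb st.q b x + comb p a x)
    · exact ⟨j, U, s, st, by omega, le_rfl, hstop⟩
    · push Not at hstop
      obtain ⟨i, hi, x, hx, p, H, hp, hH, hPx, hno⟩ := hstop
      have hℓ : 0 < ℓ := Nat.pos_of_ne_zero (NeZero.ne ℓ)
      have hΛj : ℓ ^ (ρ * (j + 1)) ≤ 2 ^ Λ :=
        (Nat.pow_le_pow_right hℓ (Nat.mul_le_mul_left _ (by omega))).trans hΛ
      have hρpj : c * (Λ + w * j + (ρ * j + R * Λ) + 1) ^ 2 + (j + 1) * ρ ≤ ρp := by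
        refine le_trans (Nat.add_le_add (Nat.mul_le_mul_left _ (Nat.pow_le_pow_left ?_ 2))
          (Nat.mul_le_mul_right _ (by omega))) hρp
        have h1 : w * j ≤ w * J := Nat.mul_le_mul_left _ (by omega)
        have h2 : ρ * j ≤ ρ * J := Nat.mul_le_mul_left _ (by omega)
        omega
      rcases st.step hc1 hprog Λ hΛj hR hρpj i hi x hx p hp H hH hPx
        (fun a ha b => hno a ha b) with ⟨⟨st'⟩⟩ | ⟨s', hs', ⟨st'⟩⟩
      · have hcard : (U.erase i).card + 1 = U.card := by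
          rw [Finset.card_erase_of_mem hi]
          have := Finset.card_pos.2 ⟨i, hi⟩
          omega
        exact ih (j + 1) (U.erase i) s (by omega) (by omega) st'
      · obtain ⟨j', U', s'', st'', h1, h2, h3⟩ := ih (j + 1) U s' (by omega) (by omega) st'
        exact ⟨j', U', s'', st'', h1, by omega, h3⟩

end

theorem two_le_pow (c : ℕ) (hc : 1 ≤ c) : (2 : ℝ) ≤ (1 + 1 / (2 * c : ℝ)) ^ (2 * c) := by
  have hcR : (1 : ℝ) ≤ c := by exact_mod_cast hc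
  have h1 := one_add_mul_le_pow (a := 1 / (2 * c : ℝ)) (by
    have : (0 : ℝ) ≤ 1 / (2 * c : ℝ) := by positivity
    linarith) (2 * c)
  refine le_trans (le_of_eq ?_) h1
  push_cast
  field_simp
  norm_num

theorem poly_bound {c Cn C0 a1 a2 a3 a4 a5 ℓ w k lam ρ s0 J Λ R ρp B x : ℕ} (hc1 : 1 ≤ c)
    (ha1 : a1 = 4 * c ^ 2 + 2) (ha2 : a2 = ℓ * a1 + 1) (ha3 : a3 = a1 + C0 * a2 ^ 2)
    (ha4 : a4 = a2 + w * a1 + a3)
    (ha5 : a5 = (C0 * a4 ^ 2 + a1) + Cn * (a2 + w * a1) + 4 * c ^ 2 + a3 + a2 + w * a1)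
    (hs0 : s0 = 2 * c * (lam + 2 * c * k)) (hJ : J = s0 + k) (hΛd : Λ = ℓ * (ρ * (J + 1)))
    (hRd : R = C0 * (ρ + 1) * (Λ + 1))
    (hρpd : ρp = C0 * (Λ + w * J + (ρ * J + R * Λ) + 1) ^ 2 + (J + 1) * ρ)
    (hB : B = ρp + Cn * (Λ + w * J + 1) + s0 + (ρ * J + R * Λ) + Λ + w * J)
    (hx : x = k + lam + ρ + 1) : B ≤ ((a5 + 10) * x) ^ (a5 + 10) := by
  have hx1 : 1 ≤ x := by omega
  have hpw : ∀ i j, i ≤ j → x ^ i ≤ x ^ j := fun i j hij => Nat.pow_le_pow_right hx1 hij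
  have hs0x : s0 ≤ 4 * c ^ 2 * x := by
    have h1 : 2 * c * lam ≤ 4 * c ^ 2 * lam := by
      refine Nat.mul_le_mul_right _ ?_
      nlinarith
    have h2 : s0 = 2 * c * lam + 4 * c ^ 2 * k := by rw [hs0]; ring
    have h3 : 4 * c ^ 2 * x = 4 * c ^ 2 * k + 4 * c ^ 2 * lam + 4 * c ^ 2 * (ρ + 1) := by
      rw [hx]; ring
    omega
  have hJx : J + 1 ≤ a1 * x := by
    have h1 : a1 * x = 4 * c ^ 2 * x + 2 * x := by rw [ha1]; ring
    omega
  have hΛx : Λ + 1 ≤ a2 * x ^ 2 := by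
    have h1 : Λ ≤ ℓ * (x * (a1 * x)) := by
      rw [hΛd]
      exact Nat.mul_le_mul_left _ (Nat.mul_le_mul (by omega) hJx)
    have h2 : a2 * x ^ 2 = ℓ * (x * (a1 * x)) + x ^ 2 := by rw [ha2]; ring
    have h3 : 1 ≤ x ^ 2 := Nat.one_le_pow _ _ hx1
    omega
  have hRx : R ≤ C0 * a2 * x ^ 3 := by
    calc R = C0 * ((ρ + 1) * (Λ + 1)) := by rw [hRd]; ring
      _ ≤ C0 * (x * (a2 * x ^ 2)) :=
          Nat.mul_le_mul_left _ (Nat.mul_le_mul (by omega) hΛx)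
      _ = _ := by ring
  have hSx : ρ * J + R * Λ ≤ a3 * x ^ 5 := by
    calc ρ * J + R * Λ ≤ x * (a1 * x) + (C0 * a2 * x ^ 3) * (a2 * x ^ 2) :=
          Nat.add_le_add (Nat.mul_le_mul (by omega) (by omega))
            (Nat.mul_le_mul hRx (by omega))
      _ = a1 * x ^ 2 + C0 * a2 ^ 2 * x ^ 5 := by ring
      _ ≤ a1 * x ^ 5 + C0 * a2 ^ 2 * x ^ 5 :=
          Nat.add_le_add_right (Nat.mul_le_mul_left _ (hpw 2 5 (by norm_num))) _
      _ = _ := by rw [ha3]; ring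
  have hwx : w * J ≤ w * a1 * x := by
    calc w * J ≤ w * (a1 * x) := Nat.mul_le_mul_left _ (by omega)
      _ = _ := by ring
  have hsumx : Λ + w * J + (ρ * J + R * Λ) + 1 ≤ a4 * x ^ 5 := by
    have h1 : a2 * x ^ 2 ≤ a2 * x ^ 5 := Nat.mul_le_mul_left _ (hpw 2 5 (by norm_num))
    have h2 : w * a1 * x ≤ w * a1 * x ^ 5 := by
      have := hpw 1 5 (by norm_num)
      rw [pow_one] at this
      exact Nat.mul_le_mul_left _ this
    have h3 : a4 * x ^ 5 = a2 * x ^ 5 + w * a1 * x ^ 5 + a3 * x ^ 5 := by rw [ha4]; ring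
    omega
  have hρpx : ρp ≤ (C0 * a4 ^ 2 + a1) * x ^ 10 := by
    calc ρp ≤ C0 * (a4 * x ^ 5) ^ 2 + (a1 * x) * x := by
          rw [hρpd]
          exact Nat.add_le_add (Nat.mul_le_mul_left _ (Nat.pow_le_pow_left hsumx 2))
            (Nat.mul_le_mul hJx (by omega))
      _ = C0 * a4 ^ 2 * x ^ 10 + a1 * x ^ 2 := by ring
      _ ≤ C0 * a4 ^ 2 * x ^ 10 + a1 * x ^ 10 :=
          Nat.add_le_add_left (Nat.mul_le_mul_left _ (hpw 2 10 (by norm_num))) _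
      _ = _ := by ring
  have hBx : B ≤ a5 * x ^ 10 := by
    have h1 : a2 * x ^ 2 ≤ a2 * x ^ 10 := Nat.mul_le_mul_left _ (hpw 2 10 (by norm_num))
    have hx10 : x ≤ x ^ 10 := by
      have := hpw 1 10 (by norm_num)
      rwa [pow_one] at this
    have h2 : w * a1 * x ≤ w * a1 * x ^ 10 := Nat.mul_le_mul_left _ hx10
    have h3 : a3 * x ^ 5 ≤ a3 * x ^ 10 := Nat.mul_le_mul_left _ (hpw 5 10 (by norm_num))
    have h4 : 4 * c ^ 2 * x ≤ 4 * c ^ 2 * x ^ 10 := Nat.mul_le_mul_left _ hx10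
    have h5 : Cn * (Λ + w * J + 1) ≤ Cn * ((a2 + w * a1) * x ^ 10) := by
      refine Nat.mul_le_mul_left _ ?_
      have : (a2 + w * a1) * x ^ 10 = a2 * x ^ 10 + w * a1 * x ^ 10 := by ring
      omega
    have h6 : a5 * x ^ 10 = (C0 * a4 ^ 2 + a1) * x ^ 10 + Cn * ((a2 + w * a1) * x ^ 10) +
        4 * c ^ 2 * x ^ 10 + a3 * x ^ 10 + a2 * x ^ 10 + w * a1 * x ^ 10 := by
      rw [ha5]; ring
    omega
  calc B ≤ a5 * x ^ 10 := hBx
    _ ≤ (a5 + 10) * x ^ 10 := Nat.mul_le_mul_right _ (by omega)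
    _ ≤ (a5 + 10) ^ 10 * x ^ 10 :=
        Nat.mul_le_mul_right _ (Nat.le_self_pow (by norm_num) _)
    _ = ((a5 + 10) * x) ^ 10 := by rw [mul_pow]
    _ ≤ ((a5 + 10) * x) ^ (a5 + 10) :=
        Nat.pow_le_pow_right (Nat.mul_pos (by omega) hx1) (by omega)

/-- **The path theorem.** -/
theorem path (m : ℕ) [NeZero m] (ℓ : ℕ) [NeZero ℓ] (hℓ : 2 * m ∣ ℓ) (w : ℕ) :
    ∃ C : ℕ, ∀ {n k ρ h lam : ℕ} (P : Fin k → (Fin n → Bool) → Prop),
      (∀ i, (∀ x, ¬ P i x) ∨ CertQ m ℓ w ρ h (P i)) →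
      ∀ T : Finset (Fin n → Bool), 2 ^ n ≤ 2 ^ lam * T.card →
      ∃ (B N : ℕ) (q : Fin N → (Fin n → Bool) → ℤ) (Γ : AddSubgroup (Fin n → ZMod ℓ))
        (S : Finset (Fin n)) (y : Fin n → Bool),
        B ≤ (C * (k + lam + ρ + 1)) ^ C ∧ (∀ j, IsQuad (q j)) ∧ N ≤ B ∧ Nat.card Γ ≤ 2 ^ B ∧
        S.card ≤ B ∧ 2 ^ Sᶜ.card ≤ 2 ^ B * (T ∩ node m Γ S q y).card ∧
        ∀ i, (∀ x ∈ node m Γ S q y, ¬ P i x) ∨ ∀ x ∈ node m Γ S q y, ¬ P i x →
          ∃ (p : Fin w → (Fin n → Bool) → ℤ) (H : AddSubgroup (Fin w → ZMod m)),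
            (∀ s, IsQuad (p s)) ∧ h ≤ Nat.card H ∧
            Struct ℓ ρ (fun x (a : H) => comb p (a : Fin w → ZMod m) x) ∧
            (∀ x', (∀ s, ((p s x' : ℤ) : ZMod m) = p s x) → ¬ P i x') ∧
            ∃ a, a ∉ H ∧ ∃ b : Fin N → ZMod m,
              Struct ℓ B (fun x => comb q b x + comb p a x) := by
  classical
  obtain ⟨c, hc1, hprog₀⟩ := progress₂ m ℓ hℓ w
  obtain ⟨Cn, hCn⟩ := node_large m ℓ hℓ
  have hprog : Prog m ℓ w c := fun n N ρ Γ S y q hq Hq hb p hp H hH Λ R hΛ hReg hR hI2 =>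
    hprog₀ Γ S y q hq Hq hb p hp H hH Λ R hΛ hReg hR hI2
  set C0 := c + Cn with hC0
  set a1 := 4 * c ^ 2 + 2 with ha1
  set a2 := ℓ * a1 + 1 with ha2
  set a3 := a1 + C0 * a2 ^ 2 with ha3
  set a4 := a2 + w * a1 + a3 with ha4
  set a5 := (C0 * a4 ^ 2 + a1) + Cn * (a2 + w * a1) + 4 * c ^ 2 + a3 + a2 + w * a1 with ha5
  refine ⟨a5 + 10, ?_⟩
  intro n k ρ h lam P hP T hT
  set s0 := 2 * c * (lam + 2 * c * k) with hs0
  set J := s0 + k with hJ
  set Λ := ℓ * (ρ * (J + 1)) with hΛd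
  set R := C0 * (ρ + 1) * (Λ + 1) with hRd
  set ρp := C0 * (Λ + w * J + (ρ * J + R * Λ) + 1) ^ 2 + (J + 1) * ρ with hρpd
  have hℓ0 : 0 < ℓ := Nat.pos_of_ne_zero (NeZero.ne ℓ)
  have hΛ : ℓ ^ (ρ * (J + 1)) ≤ 2 ^ Λ := by
    rw [hΛd, pow_mul 2 ℓ]
    exact Nat.pow_le_pow_left Nat.lt_two_pow_self.le _
  have hcC0 : c ≤ C0 := by omega
  have hCnC0 : Cn ≤ C0 := by omega
  have hR : c * (ρ + 1) * (Λ + 1) ≤ R :=
    Nat.mul_le_mul_right _ (Nat.mul_le_mul_right _ hcC0)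
  have hρp : c * (Λ + w * J + (ρ * J + R * Λ) + 1) ^ 2 + (J + 1) * ρ ≤ ρp :=
    Nat.add_le_add_right (Nat.mul_le_mul_right _ hcC0) _
  -- the initial state
  have hcR : (1 : ℝ) ≤ c := by exact_mod_cast hc1
  have huniv : node m (⊥ : AddSubgroup (Fin n → ZMod ℓ)) ∅
      (Fin.elim0 : Fin 0 → (Fin n → Bool) → ℤ) (fun _ => false) = univ := by
    ext x
    rw [mem_node, mem_fibz]
    simp only [Finset.mem_univ, iff_true]
    refine ⟨⟨fun i hi => absurd hi (Finset.notMem_empty i), fun L hL => ?_⟩,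
      fun j => j.elim0⟩
    rw [AddSubgroup.mem_bot] at hL
    rw [hL, ev_zero, ev_zero]
  have he0 : (2 * c : ℝ) ^ k * 2 ^ n ≤ T.card * (1 + 1 / (2 * c : ℝ)) ^ s0 := by
    have h1 : (2 * c : ℝ) ^ k ≤ 2 ^ (2 * c * k) := by
      rw [pow_mul]
      refine pow_le_pow_left₀ (by linarith) ?_ k
      have : (2 * c : ℕ) ≤ 2 ^ (2 * c) := Nat.lt_two_pow_self.le
      exact_mod_cast this
    have h2 : (2 : ℝ) ^ (lam + 2 * c * k) ≤ (1 + 1 / (2 * c : ℝ)) ^ s0 := by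
      rw [hs0, pow_mul]
      exact pow_le_pow_left₀ (by norm_num) (two_le_pow c hc1) _
    have h3 : (2 : ℝ) ^ n ≤ 2 ^ lam * T.card := by exact_mod_cast hT
    calc (2 * c : ℝ) ^ k * 2 ^ n ≤ 2 ^ (2 * c * k) * (2 ^ lam * T.card) :=
          mul_le_mul h1 h3 (by positivity) (by positivity)
      _ = T.card * 2 ^ (lam + 2 * c * k) := by rw [pow_add]; ring
      _ ≤ _ := mul_le_mul_of_nonneg_left h2 (Nat.cast_nonneg _)
  have st0 : PState m ℓ w P T ρ R ρp c 0 univ s0 :=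
    { N := 0
      hN := Nat.zero_le _
      q := Fin.elim0
      hq := fun i => i.elim0
      Γ := ⊥
      S := ∅
      y := fun _ => false
      Hq := ⊤
      hReg := by
        intro L hL
        rw [AddSubgroup.mem_bot] at hL
        left
        rw [hL]
        exact (sup ℓ ∅).zero_mem
      hΓ := by
        rw [AddSubgroup.card_bot]
        exact Nat.one_le_pow _ _ hℓ0
      t := 0
      hS := by simp
      ht := by
        rw [pow_zero]
        exact Nat.card_pos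
      hb := by
        intro b _ x _
        unfold comb
        simp
      hc := fun b hb => absurd (AddSubgroup.mem_top b) hb
      hd := fun i hi => absurd (Finset.mem_univ i) hi
      he := by
        rw [huniv, Finset.inter_univ, Finset.card_univ, Finset.card_univ, Fintype.card_fin,
          Fintype.card_fun, Fintype.card_bool, Fintype.card_fin]
        push_cast
        exact he0 }
  obtain ⟨j', U', s', st, hj', hs', hstop⟩ := PState.run hc1 hprog Λ hΛ hR hρp (k + s0) 0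
    univ s0 (by rw [Finset.card_univ, Fintype.card_fin]) (by omega) st0
  have hJΛ : st.t ≤ Λ ∧ Nat.card st.Γ ≤ 2 ^ Λ := by
    have h1 : Nat.card st.Γ ≤ 2 ^ Λ := st.hΓ.trans ((Nat.pow_le_pow_right hℓ0
      (Nat.mul_le_mul_left _ (by omega))).trans hΛ)
    refine ⟨?_, h1⟩
    have hcl : Nat.card (st.Γ ⊓ sup ℓ st.S : AddSubgroup (Fin n → ZMod ℓ)) ≤
        Nat.card st.Γ :=
      Nat.card_le_card_of_injective (AddSubgroup.inclusion inf_le_left)
        (AddSubgroup.inclusion_injective _)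
    exact (Nat.pow_le_pow_iff_right (by norm_num)).1 (st.ht.trans (hcl.trans h1))
  have hNw : st.N ≤ w * J := st.hN.trans (Nat.mul_le_mul_left _ hj')
  have hSc : st.S.card ≤ ρ * J + R * Λ :=
    st.hS.trans (Nat.add_le_add (Nat.mul_le_mul_left _ hj') (Nat.mul_le_mul_left _ hJΛ.1))
  set B := ρp + Cn * (Λ + w * J + 1) + s0 + (ρ * J + R * Λ) + Λ + w * J with hB
  refine ⟨B, st.N, st.q, st.Γ, st.S, st.y, ?_, st.hq, by omega,
    hJΛ.2.trans (Nat.pow_le_pow_right (by norm_num) (by omega)), by omega, ?_, ?_⟩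
  · exact poly_bound hc1 rfl rfl rfl rfl rfl rfl rfl rfl rfl rfl rfl rfl
  · -- the size of the node
    have h1 := hCn st.Γ st.S st.y st.q st.hq st.Hq st.hb Λ R hJΛ.2 st.hReg (by
      calc Cn * (Λ + 1) ≤ C0 * (Λ + 1) := Nat.mul_le_mul_right _ hCnC0
        _ = C0 * 1 * (Λ + 1) := by rw [mul_one]
        _ ≤ C0 * (ρ + 1) * (Λ + 1) :=
            Nat.mul_le_mul_right _ (Nat.mul_le_mul_left _ (by omega))) (by
      intro b hb hstr
      refine st.hc b hb (hstr.mono ?_)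
      have e1 : Cn * (Λ + st.N + st.S.card + 1) ^ 2 ≤
          C0 * (Λ + w * J + (ρ * J + R * Λ) + 1) ^ 2 :=
        Nat.mul_le_mul hCnC0 (Nat.pow_le_pow_left (by omega) 2)
      have e2 : j' * ρ ≤ (J + 1) * ρ := Nat.mul_le_mul_right _ (by omega)
      omega)
    set X := node m st.Γ st.S st.q st.y with hX
    have h2 : (X.card : ℝ) ≤ (T ∩ X).card * 2 ^ s0 := by
      have he := st.he
      have e1 : (1 : ℝ) ≤ (2 * c : ℝ) ^ U'.card := one_le_pow₀ (by linarith)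
      have e2 : (1 + 1 / (2 * c : ℝ)) ^ s' ≤ 2 ^ s0 := by
        have e3 : (1 + 1 / (2 * c : ℝ)) ≤ 2 := by
          have : 1 / (2 * c : ℝ) ≤ 1 := by
            rw [div_le_one (by linarith)]
            linarith
          linarith
        have e4 : (0 : ℝ) ≤ 1 + 1 / (2 * c : ℝ) := by positivity
        calc (1 + 1 / (2 * c : ℝ)) ^ s' ≤ 2 ^ s' := pow_le_pow_left₀ e4 e3 _
          _ ≤ 2 ^ s0 := pow_le_pow_right₀ (by norm_num) hs'
      calc (X.card : ℝ) = 1 * X.card := (one_mul _).symm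
        _ ≤ (2 * c : ℝ) ^ U'.card * X.card :=
            mul_le_mul_of_nonneg_right e1 (Nat.cast_nonneg _)
        _ ≤ (T ∩ X).card * (1 + 1 / (2 * c : ℝ)) ^ s' := he
        _ ≤ _ := mul_le_mul_of_nonneg_left e2 (Nat.cast_nonneg _)
    have h3 : X.card ≤ (T ∩ X).card * 2 ^ s0 := by exact_mod_cast h2
    calc 2 ^ st.Sᶜ.card ≤ 2 ^ (Cn * (Λ + st.N + 1)) * X.card := h1
      _ ≤ 2 ^ (Cn * (Λ + st.N + 1)) * ((T ∩ X).card * 2 ^ s0) :=
          Nat.mul_le_mul_left _ h3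
      _ = 2 ^ (Cn * (Λ + st.N + 1) + s0) * (T ∩ X).card := by rw [pow_add]; ring
      _ ≤ 2 ^ B * (T ∩ X).card := by
          refine Nat.mul_le_mul_right _ (Nat.pow_le_pow_right (by norm_num) ?_)
          have e1 : Cn * (Λ + st.N + 1) ≤ Cn * (Λ + w * J + 1) :=
            Nat.mul_le_mul_left _ (by omega)
          omega
  · -- the gates
    intro i
    by_cases hi : i ∈ U'
    · rcases hP i with h0 | h0
      · exact Or.inl fun x _ => h0 x
      · refine Or.inr fun x hx hPx => ?_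
        obtain ⟨p, H, hp, hcard, hH, hcert⟩ := h0 x hPx
        obtain ⟨a, ha, b, hb⟩ := hstop i hi x hx p H hp hH hcert
        exact ⟨p, H, hp, hcard, hH, hcert, a, ha, b, hb.mono (by omega)⟩
    · exact Or.inl (st.hd i hi)

end Pool.Agent.QuadSys
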