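import Pool.Agent.QuadSys.Combined
import Pool.Agent.QuadSys.Path
import Pool.Agent.QuadSys.Pairing
import Pool.Agent.QuadSys.PairDeg
import Pool.Agent.QuadSys.EqDecomp

/-!
# Majority against AC0[p] circuits above unbounded systems of quadratic conditions modulo m
-/

set_option autoImplicit false

namespace Pool.Agent.QuadSys

open Finset Pool.Agent.Helper21.LinSys

theorem exists_pathProp (m : ℕ) [NeZero m] (ℓ : ℕ) [NeZero ℓ] (hℓ : 2 * m ∣ ℓ) (w : ℕ) :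
    ∃ C, PathProp m ℓ w C := path m ℓ hℓ w

theorem exists_pairProp (m : ℕ) [NeZero m] (ℓ : ℕ) [NeZero ℓ] (hℓ : m ∣ ℓ) :
    ∃ C, PairProp m ℓ C := pairing m ℓ hℓ

theorem exists_eqProp (m : ℕ) [NeZero m] (ℓ : ℕ) [NeZero ℓ] (hℓ : m ∣ ℓ) (D : ℕ) :
    ∃ C, EqProp m ℓ D C := by
  obtain ⟨C, hC⟩ := pairing_deg m ℓ hℓ D
  exact eq_decomp_of_pairDeg m ℓ D hC

theorem majority_final (p : ℕ) [Fact p.Prime] (m : ℕ) [NeZero m] (w D d : ℕ) :
    ∃ K : ℕ, ∀ n k s t : ℕ, 1 ≤ k →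
      ∀ (C : Fin t → (Fin k → Bool) → RS.Circuit (Fin n ⊕ Fin k) s)
        (P : Fin t → Fin k → (Fin n → Bool) → Bool),
        (∀ i b, (C i b).level (C i b).out + 1 ≤ d) →
        (∀ i j, AndOfTests m w D n (P i j)) →
        (∀ x : Fin n → Bool,
          (∃ i, (C i fun j => P i j x).Accepts p (Sum.elim x fun j => P i j x)) ↔
            n ≤ 2 * (Finset.univ.filter fun i => x i = true).card) →
        (n : ℝ) ≤ (K * k * Real.log (s + t + n)) ^ K := by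
  have hdvd : m ∣ 2 * m := Dvd.intro_left 2 rfl
  obtain ⟨C₁, h1⟩ := exists_pathProp m (2 * m) dvd_rfl w
  obtain ⟨C₂, h2⟩ := exists_pairProp m (2 * m) hdvd
  obtain ⟨C₃, h3⟩ := exists_eqProp m (2 * m) hdvd D
  exact final_of p m (2 * m) w D d h1 h2 h3

end Pool.Agent.QuadSys
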