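import Pool.Agent.QuadSys.Basics
import Pool.Agent.RS.Center
import Pool.Agent.RS.Recenter

/-!
# One-sided Razborov-Smolensky bound on a block cube

On a block cube all of whose block weights are nonzero, a circuit of constant depth with counting
gates modulo `p` that accepts a dense set of points of smallest weight is large. After orienting
the blocks so that the weights are positive, accepted points of smallest weight are minimal
accepted sets, and this is all the degree argument needs.
-/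

set_option autoImplicit false
set_option linter.unusedSectionVars false

namespace Pool.Agent.QuadSys

open Finset Pool.Agent.Helper21.LinSys Pool.Agent.RS

/-! ### The degree bound for minimal accepted sets -/

section OneSided

variable {F : Type*} [Field F] {V : Type*} [Fintype V] [DecidableEq V]

/-- If a function of degree at most `D` equals the indicator of `g` outside `E`, then `g` has few
minimal true points with at least `M` elements, in terms of `E`. -/
theorem one_sided_min {M D : ℕ} (hD : D < M) (g : Finset V → Prop) [DecidablePred g]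
    (P : Finset V → F) (hP : P ∈ lowDeg F V D)
    (E : Finset (Finset V)) (hE : ∀ z, z ∉ E → P z = if g z then 1 else 0)
    (S : Finset (Finset V)) (hS : ∀ z ∈ S, g z ∧ M ≤ z.card ∧ ∀ y, y ⊂ z → ¬ g y) :
    S.card * ((univ : Finset (Finset V)).filter fun z => z.card ≤ M - 1 - D).card ≤
      E.card * 2 ^ Fintype.card V := by
  classical
  by_contra hcon
  push Not at hcon
  set r := M - 1 - D with hr
  obtain ⟨a, ha⟩ : ∃ a : Finset V, E.card < (S.filter fun z => (symmDiff z a).card ≤ r).card := by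
    by_contra h
    push Not at h
    have h1 := Finset.sum_le_sum (s := (univ : Finset (Finset V))) fun a _ => h a
    rw [Pool.Agent.RS.sum_translate] at h1
    simp only [Finset.sum_const, Finset.card_univ, Fintype.card_finset, smul_eq_mul] at h1
    rw [mul_comm (2 ^ _)] at h1
    omega
  set Sa := S.filter fun z => (symmDiff z a).card ≤ r with hSa
  have hch : ∀ z : Finset V, ∃ δ : Finset V → F, z ∈ Sa → δ ∈ lowDeg F V r ∧
      δ z = 1 ∧ ∀ y ∈ Sa, y ≠ z → δ y = 0 := by
    intro z
    by_cases hz : z ∈ Sa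
    · obtain ⟨δ, h1, h2, h3⟩ := exists_delta (F := F) r (symmDiff z a) (mem_filter.mp hz).2
      refine ⟨fun y => δ (symmDiff y a), fun _ => ⟨symmDiff_mem_lowDeg a h1, h2, ?_⟩⟩
      intro y hy hyz
      refine h3 _ (mem_filter.mp hy).2 fun h => hyz ?_
      exact symmDiff_left_injective a h
    · exact ⟨0, fun h => absurd h hz⟩
  choose δ hδ using hch
  let Φ : (Sa → F) →ₗ[F] (E → F) :=
    { toFun := fun h e => ∑ z : Sa, h z * δ z e
      map_add' := fun h h' => by
        funext e
        simp [add_mul, Finset.sum_add_distrib]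
      map_smul' := fun c h => by
        funext e
        simp [mul_assoc, Finset.mul_sum] }
  have hlt : Module.finrank F (E → F) < Module.finrank F (Sa → F) := by
    simpa using ha
  obtain ⟨h, hker, hne⟩ : ∃ h ∈ LinearMap.ker Φ, h ≠ 0 := by
    have := LinearMap.ker_ne_bot_of_finrank_lt (f := Φ) hlt
    exact (Submodule.ne_bot_iff _).mp this
  let R : Finset V → F := ∑ z : Sa, h z • δ z
  have hR : R ∈ lowDeg F V r := Submodule.sum_mem _ fun z _ =>
    Submodule.smul_mem _ _ (hδ z z.2).1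
  have hRE : ∀ e ∈ E, R e = 0 := by
    intro e he
    have := congrFun (LinearMap.mem_ker.mp hker) ⟨e, he⟩
    simpa [Φ, R, Finset.sum_apply] using this
  have hRS : ∀ z : Sa, R z = h z := by
    intro z
    have h1 : R z = ∑ y : Sa, h y * δ y z := by simp [R, Finset.sum_apply]
    rw [h1, Finset.sum_eq_single z]
    · rw [(hδ z z.2).2.1, mul_one]
    · intro y _ hyz
      rw [(hδ y y.2).2.2 z z.2 (fun h => hyz (Subtype.ext h.symm)), mul_zero]
    · intro h'; exact absurd (mem_univ z) h'
  obtain ⟨z, hz⟩ : ∃ z : Sa, h z ≠ 0 := by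
    by_contra h'
    push Not at h'
    exact hne (funext h')
  have hQ : P * R ∈ lowDeg F V (M - 1) := by
    have := mul_mem_lowDeg hP hR
    have h2 : D + r = M - 1 := by omega
    rwa [h2] at this
  have hzS := hS z (mem_filter.mp z.2).1
  have hRz : R z ≠ 0 := by rw [hRS z]; exact hz
  have hzE : (z : Finset V) ∉ E := fun h' => hRz (hRE _ h')
  have halt := alt_sum_eq_zero hQ (z : Finset V) (by have := hzS.2.1; omega)
  rw [← Finset.add_sum_erase _ _ (mem_powerset_self (z : Finset V))] at halt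
  have h2 : ∑ T ∈ (z : Finset V).powerset.erase z, (-1 : F) ^ T.card * (P * R) T = 0 := by
    refine Finset.sum_eq_zero fun T hT => ?_
    rw [mem_erase, mem_powerset] at hT
    have h3 : T ⊂ z := lt_of_le_of_ne hT.2 hT.1
    by_cases hTE : T ∈ E
    · simp [hRE T hTE]
    · rw [Pi.mul_apply, hE T hTE, if_neg (hzS.2.2 T h3), zero_mul, mul_zero]
  rw [h2, add_zero, Pi.mul_apply, hE _ hzE, if_pos hzS.1, one_mul] at halt
  rcases mul_eq_zero.1 halt with h3 | h3
  · exact pow_ne_zero _ (by simp) h3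
  · exact hRz h3

end OneSided

section Center

variable {p : ℕ} [Fact p.Prime] {U V : Type} [Fintype U] [DecidableEq U] [Fintype V]
  [DecidableEq V] {s : ℕ}

/-- If a fraction `1 / σ` of the middle slice of a `2 M`-element set consists of minimal accepted
sets of a circuit, then the circuit is large. -/
theorem center_bound_min (C : Circuit V s) (inp : Finset U → V → Bool)
    (hin : ∀ v, (fun z => ind p (inp z v)) ∈ lowDeg (ZMod p) U 1)
    {M σ ℓ : ℕ} (hU : Fintype.card U = 2 * M) (hℓ : 1 ≤ ℓ)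
    (S : Finset (Finset U)) (hS : ∀ z ∈ S, C.Accepts p (inp z) ∧ M ≤ z.card ∧
      ∀ y, y ⊂ z → ¬ C.Accepts p (inp y))
    (hcard : (2 * M).choose M ≤ σ * S.card)
    (hdeg : 2 * (((p - 1) * ℓ) ^ (C.level C.out + 1) + 1) ^ 2 ≤ M) :
    p ^ ℓ ≤ 8 * M ^ 2 * σ * s := by
  classical
  obtain ⟨P, E, hP, hE, hPE⟩ := circuit_approx C inp hin ℓ hℓ
  set D := ((p - 1) * ℓ) ^ (C.level C.out + 1) with hD
  have hM : 0 < M := by
    have : 0 < 2 * (D + 1) ^ 2 := by positivity
    omega
  have hDM : D < M := by nlinarith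
  have h1 := one_sided_min (F := ZMod p) hDM (fun z => C.Accepts p (inp z)) P hP E
    (fun z hz => by
      by_cases h : C.Accepts p (inp z)
      · rw [if_pos h]; exact (hPE z hz).1 h
      · rw [if_neg h]; exact (hPE z hz).2 h) S hS
  -- the size of the ball
  have h2 : (2 * M).choose M ≤
      2 * ((univ : Finset (Finset U)).filter fun z => z.card ≤ M - 1 - D).card := by
    refine (choose_half M (D + 1) hdeg).trans (Nat.mul_le_mul_left _ ?_)
    have h3 : (2 * M).choose (M - (D + 1)) =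
        (Finset.powersetCard (M - (D + 1)) (univ : Finset U)).card := by
      rw [Finset.card_powersetCard, Finset.card_univ, hU]
    rw [h3]
    refine Finset.card_le_card fun z hz => ?_
    rw [Finset.mem_powersetCard] at hz
    rw [mem_filter]
    exact ⟨mem_univ z, by rw [hz.2]; omega⟩
  rw [hU] at h1 hE
  have h4 : (4 : ℕ) ^ M ≤ 2 * M * (2 * M).choose M := by
    have := Nat.four_pow_le_two_mul_self_mul_centralBinom M hM
    rwa [Nat.centralBinom] at this
  have h5 : (2 : ℕ) ^ (2 * M) = 4 ^ M := by rw [pow_mul]; norm_num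
  rw [h5] at h1 hE
  set B := ((univ : Finset (Finset U)).filter fun z => z.card ≤ M - 1 - D).card with hB
  set c := (2 * M).choose M with hc
  -- combine
  have h6 : (4 ^ M * 4 ^ M) * p ^ ℓ ≤ (8 * M ^ 2 * σ * s) * (4 ^ M * 4 ^ M) := by
    calc (4 ^ M * 4 ^ M) * p ^ ℓ ≤ ((2 * M * c) * (2 * M * c)) * p ^ ℓ :=
          Nat.mul_le_mul_right _ (Nat.mul_le_mul h4 h4)
      _ = (4 * M ^ 2) * (c * c) * p ^ ℓ := by ring
      _ ≤ (4 * M ^ 2) * ((σ * S.card) * (2 * B)) * p ^ ℓ :=
          Nat.mul_le_mul_right _ (Nat.mul_le_mul_left _ (Nat.mul_le_mul hcard h2))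
      _ = (8 * M ^ 2 * σ) * (S.card * B) * p ^ ℓ := by ring
      _ ≤ (8 * M ^ 2 * σ) * (E.card * 4 ^ M) * p ^ ℓ :=
          Nat.mul_le_mul_right _ (Nat.mul_le_mul_left _ h1)
      _ = (8 * M ^ 2 * σ) * 4 ^ M * (E.card * p ^ ℓ) := by ring
      _ ≤ (8 * M ^ 2 * σ) * 4 ^ M * (s * 4 ^ M) := Nat.mul_le_mul_left _ hE
      _ = (8 * M ^ 2 * σ * s) * (4 ^ M * 4 ^ M) := by ring
  rw [mul_comm] at h6
  exact Nat.le_of_mul_le_mul_right h6 (by positivity)

end Center

/-! ### Circuits on the cube of subsets -/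

section Cube

variable {p : ℕ} [Fact p.Prime] {V : Type} [Fintype V] [DecidableEq V] {s M : ℕ}

/-- If the minimal accepted sets of a circuit, whose inputs are literals or constants, are dense,
then the dimension is small. -/
theorem dense_min (C : Circuit V s) (inp : Finset (Fin M) → V → Bool)
    (hin : ∀ v, (∃ b, ∀ z, inp z v = b) ∨
      ∃ (i : Fin M) (b : Bool), ∀ z, inp z v = xor b (decide (i ∈ z)))
    (S : Finset (Finset (Fin M))) (hS : ∀ z ∈ S, C.Accepts p (inp z) ∧
      ∀ y, y ⊂ z → ¬ C.Accepts p (inp y))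
    (μ d : ℕ) (hμ : 1 ≤ μ) (hcard : 2 ^ M ≤ 2 ^ μ * S.card) (hM : M + 1 ≤ 2 ^ μ)
    (hs : s ≤ 2 ^ μ) (hd : C.level C.out + 1 ≤ d) :
    M ≤ μ * (2 * (((p - 1) * (5 * μ + 4)) ^ d + 1) ^ 2 + 2) := by
  classical
  by_contra hcon
  push Not at hcon
  set N := 2 * (((p - 1) * (5 * μ + 4)) ^ d + 1) ^ 2 with hN
  have hp2 := (Fact.out : p.Prime).two_le
  -- a popular cardinality
  obtain ⟨h, hhM, hh⟩ : ∃ h ∈ range (M + 1),
      2 ^ M ≤ 2 ^ (2 * μ) * (S.filter fun z => z.card = h).card := by
    by_contra hno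
    push Not at hno
    have h1 : S.card = ∑ h ∈ range (M + 1), (S.filter fun z => z.card = h).card := by
      refine Finset.card_eq_sum_card_fiberwise fun z _ => ?_
      have := Finset.card_le_univ z
      rw [Fintype.card_fin] at this
      rw [Finset.mem_coe, Finset.mem_range]
      omega
    have h2 : 2 ^ (2 * μ) * S.card < (M + 1) * 2 ^ M := by
      rw [h1, Finset.mul_sum]
      calc ∑ h ∈ range (M + 1), 2 ^ (2 * μ) * (S.filter fun z => z.card = h).card
          < ∑ _h ∈ range (M + 1), 2 ^ M :=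
            Finset.sum_lt_sum_of_nonempty ⟨0, by simp⟩ fun h hh => hno h hh
        _ = (M + 1) * 2 ^ M := by simp
    have h3 : (M + 1) * 2 ^ M ≤ 2 ^ (2 * μ) * S.card := by
      calc (M + 1) * 2 ^ M ≤ 2 ^ μ * (2 ^ μ * S.card) := Nat.mul_le_mul hM hcard
        _ = _ := by rw [two_mul, pow_add]; ring
    omega
  rw [mem_range] at hhM
  set T := S.filter fun z => z.card = h with hT
  have hTc : T.card ≤ M.choose h := by
    have : T ⊆ powersetCard h univ := fun z hz =>
      mem_powersetCard.2 ⟨subset_univ _, (mem_filter.1 hz).2⟩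
    refine (card_le_card this).trans ?_
    rw [card_powersetCard, card_univ, Fintype.card_fin]
  have hchoose : 2 ^ M ≤ 2 ^ (2 * μ) * M.choose h := hh.trans (Nat.mul_le_mul_left _ hTc)
  -- the popular cardinality is not extreme
  have hext : ∀ j, M.choose h ≤ M ^ j → N ≤ j := by
    intro j hj
    by_contra hlt
    push Not at hlt
    have h1 : 2 ^ M ≤ 2 ^ (μ * (N + 2)) := by
      calc 2 ^ M ≤ 2 ^ (2 * μ) * M ^ j := hchoose.trans (Nat.mul_le_mul_left _ hj)
        _ ≤ 2 ^ (2 * μ) * (2 ^ μ) ^ j :=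
          Nat.mul_le_mul_left _ (Nat.pow_le_pow_left (by omega) _)
        _ = 2 ^ (μ * (j + 2)) := by rw [← pow_mul, ← pow_add]; congr 1; ring
        _ ≤ 2 ^ (μ * (N + 2)) := Nat.pow_le_pow_right (by omega)
          (Nat.mul_le_mul_left _ (by omega))
    have h2 := (Nat.pow_le_pow_iff_right (by omega : 1 < 2)).1 h1
    omega
  have hNh : N ≤ h := hext h (Nat.choose_le_pow M h)
  have hNMh : N + h ≤ M := by
    have h1 := hext (M - h) (by
      rw [← Nat.choose_symm (by omega : h ≤ M)]
      exact Nat.choose_le_pow M (M - h))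
    omega
  -- recentre
  obtain ⟨A, Y, hAY, hA, hY, hAc⟩ := recenter (J := Fin M) h N hNh
    (by rw [Fintype.card_fin]; exact hNMh) T (fun z hz => (mem_filter.1 hz).2) (2 ^ (2 * μ)) (by
      rw [Fintype.card_fin]
      exact (Nat.choose_le_two_pow M h).trans hh)
  let U := {B // B ∈ A}
  let eU : U ↪ Fin M := Function.Embedding.subtype _
  have hUc : Fintype.card U = 2 * N := by rw [Fintype.card_coe]; exact hA
  have hdisj : ∀ z : Finset U, Disjoint Y (z.map eU) := by
    intro z
    refine hAY.symm.mono_right ?_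
    intro B hB
    obtain ⟨u, _, rfl⟩ := mem_map.1 hB
    exact u.2
  let Z : Finset U → Finset (Fin M) := fun z => Y ∪ z.map eU
  have hZmem : ∀ (u : U) z, (u : Fin M) ∈ Z z ↔ u ∈ z := by
    intro u z
    constructor
    · intro hu
      rcases mem_union.1 hu with h1 | h1
      · exact absurd u.2 (Finset.disjoint_right.1 hAY h1)
      · obtain ⟨w, hw, hwu⟩ := mem_map.1 h1
        have : w = u := Subtype.ext hwu
        rwa [← this]
    · intro hu
      exact mem_union_right _ (mem_map.2 ⟨u, hu, rfl⟩)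
  have hZss : ∀ y z, y ⊂ z → Z y ⊂ Z z := by
    intro y z hyz
    rw [Finset.ssubset_iff_subset_ne] at hyz ⊢
    refine ⟨union_subset_union_right (map_subset_map.2 hyz.1), fun he => hyz.2 ?_⟩
    ext u
    rw [← hZmem u y, ← hZmem u z, he]
  let S' : Finset (Finset U) := univ.filter fun z => z.card = N ∧ Z z ∈ T
  have hSc : ((A.powersetCard N).filter fun z => Y ∪ z ∈ T).card ≤ S'.card := by
    have h1 : ((A.powersetCard N).filter fun z => Y ∪ z ∈ T) ⊆ S'.image fun z => z.map eU := by
      intro z hz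
      rw [mem_filter, mem_powersetCard] at hz
      have e1 : (z.subtype (· ∈ A)).map eU = z := by
        refine Finset.subtype_map_of_mem fun B hB => hz.1.1 hB
      rw [mem_image]
      refine ⟨z.subtype (· ∈ A), ?_, e1⟩
      rw [mem_filter]
      refine ⟨mem_univ _, ?_, ?_⟩
      · rw [← card_map eU, e1]; exact hz.1.2
      · change Y ∪ (z.subtype (· ∈ A)).map eU ∈ T
        rw [e1]; exact hz.2
    exact (card_le_card h1).trans card_image_le
  have hSc' : (2 * N).choose N ≤ 2 ^ (2 * μ) * S'.card :=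
    hAc.trans (Nat.mul_le_mul_left _ hSc)
  have hin' : ∀ v, (fun z : Finset U => ind p (inp (Z z) v)) ∈ lowDeg (ZMod p) U 1 := by
    intro v
    rcases hin v with ⟨b, hb⟩ | ⟨i, b, hi⟩
    · have : (fun z => ind p (inp (Z z) v)) = fun _ => ind p b := by
        funext z; rw [hb]
      rw [this]
      exact const_mem_lowDeg 1 _
    · by_cases hiA : i ∈ A
      · have : (fun z => ind p (inp (Z z) v)) =
            (fun _ => ind p (xor b true)) *
                (fun z => if (⟨i, hiA⟩ : U) ∈ z then (1 : ZMod p) else 0) +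
              (fun _ => ind p (xor b false)) *
                (fun z => if (⟨i, hiA⟩ : U) ∈ z then (0 : ZMod p) else 1) := by
          funext z
          rw [hi]
          simp only [Pi.add_apply, Pi.mul_apply]
          have e := hZmem ⟨i, hiA⟩ z
          by_cases h1 : (⟨i, hiA⟩ : U) ∈ z
          · rw [if_pos h1, if_pos h1, mul_one, mul_zero, add_zero, decide_eq_true (e.2 h1)]
          · rw [if_neg h1, if_neg h1, mul_one, mul_zero, zero_add,
              decide_eq_false fun h2 => h1 (e.1 h2)]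
        rw [this]
        refine Submodule.add_mem _ ?_ ?_
        · have := mul_mem_lowDeg (const_mem_lowDeg (F := ZMod p) (V := U) 0
              (ind p (xor b true))) (mem_lit (F := ZMod p) (⟨i, hiA⟩ : U))
          simpa using this
        · have := mul_mem_lowDeg (const_mem_lowDeg (F := ZMod p) (V := U) 0
              (ind p (xor b false))) (notMem_lit (F := ZMod p) (⟨i, hiA⟩ : U))
          simpa using this
      · have : (fun z => ind p (inp (Z z) v)) = fun _ => ind p (xor b (decide (i ∈ Y))) := by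
          funext z
          rw [hi]
          have e : i ∈ Z z ↔ i ∈ Y := by
            constructor
            · intro h1
              rcases mem_union.1 h1 with h2 | h2
              · exact h2
              · obtain ⟨w, _, hwu⟩ := mem_map.1 h2
                exact absurd (hwu ▸ w.2) hiA
            · exact fun h1 => mem_union_left _ h1
          rw [decide_eq_decide.2 e]
        rw [this]
        exact const_mem_lowDeg 1 _
  have hbound := center_bound_min (p := p) C (fun z => inp (Z z)) hin' (M := N)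
    (σ := 2 ^ (2 * μ)) (ℓ := 5 * μ + 4) hUc (by omega) S' (by
      intro z hz
      rw [mem_filter] at hz
      have h1 := hS _ (mem_filter.1 hz.2.2).1
      exact ⟨h1.1, hz.2.1.ge, fun y hy => h1.2 _ (hZss _ _ hy)⟩) hSc' (by
      rw [hN]
      refine Nat.mul_le_mul_left _ (Nat.pow_le_pow_left ?_ 2)
      refine Nat.add_le_add_right (Nat.pow_le_pow_right ?_ hd) 1
      exact Nat.mul_pos (by omega) (by omega))
  have hN2 : N ≤ 2 ^ μ := by omega
  have h1 : 8 * N ^ 2 * 2 ^ (2 * μ) * s ≤ 2 ^ (5 * μ + 3) := by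
    calc 8 * N ^ 2 * 2 ^ (2 * μ) * s ≤ 8 * (2 ^ μ) ^ 2 * 2 ^ (2 * μ) * 2 ^ μ :=
          Nat.mul_le_mul (Nat.mul_le_mul_right _ (Nat.mul_le_mul_left _
            (Nat.pow_le_pow_left hN2 2))) hs
      _ = 2 ^ (5 * μ + 3) := by
        rw [← pow_mul, show 8 = 2 ^ 3 by norm_num, ← pow_add, ← pow_add, ← pow_add]
        congr 1; ring
  have h2 : 2 ^ (5 * μ + 4) ≤ p ^ (5 * μ + 4) := Nat.pow_le_pow_left hp2 _
  have h3 : 2 ^ (5 * μ + 3) < 2 ^ (5 * μ + 4) := Nat.pow_lt_pow_right (by omega) (by omega)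
  omega

end Cube

/-! ### Numbers -/

/-- Powers of linear functions are eventually smaller than the exponential. -/
theorem exists_pow_lt (c e : ℕ) : ∃ L : ℕ, ∀ μ, L ≤ μ → (c * μ) ^ e < 2 ^ (μ - 1) := by
  have h1 := tendsto_pow_const_div_const_pow_of_one_lt e (show (1 : ℝ) < 2 by norm_num)
  have h2 : ∀ᶠ n : ℕ in Filter.atTop, ((n : ℝ) ^ e / 2 ^ n) < 1 / (2 * (c ^ e + 1)) :=
    h1.eventually_lt_const (by positivity)
  obtain ⟨L, hL⟩ := Filter.eventually_atTop.1 h2
  refine ⟨max L 1, fun μ hμ => ?_⟩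
  have h3 := hL μ ((le_max_left _ _).trans hμ)
  have h4 : 1 ≤ μ := (le_max_right _ _).trans hμ
  rw [div_lt_div_iff₀ (by positivity) (by positivity), one_mul] at h3
  have h5 : ((c * μ) ^ e : ℝ) < 2 ^ (μ - 1) := by
    have h6 : (2 : ℝ) ^ μ = 2 * 2 ^ (μ - 1) := by
      rw [← pow_succ']
      congr 1
      omega
    rw [h6] at h3
    have h7 : (0 : ℝ) ≤ (μ : ℝ) ^ e := by positivity
    rw [mul_pow]
    nlinarith
  exact_mod_cast h5

theorem dense_num (p d : ℕ) : ∃ c : ℕ, 1 ≤ c ∧ ∀ μ, 1 ≤ μ →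
    μ * (2 * (((p - 1) * (5 * μ + 4)) ^ d + 1) ^ 2 + 2) ≤ (c * μ) ^ (2 * d + 1) := by
  refine ⟨10 * (9 * (p - 1) + 1), by omega, fun μ hμ => ?_⟩
  set q := 9 * (p - 1) + 1 with hq
  have hq1 : 1 ≤ q := by omega
  have h1 : (p - 1) * (5 * μ + 4) ≤ q * μ := by
    calc (p - 1) * (5 * μ + 4) ≤ (p - 1) * (9 * μ) := Nat.mul_le_mul_left _ (by omega)
      _ = (9 * (p - 1)) * μ := by ring
      _ ≤ q * μ := Nat.mul_le_mul_right _ (by omega)
  have h2 : 1 ≤ (q * μ) ^ d := Nat.one_le_pow _ _ (Nat.mul_pos hq1 hμ)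
  have h3 : ((p - 1) * (5 * μ + 4)) ^ d + 1 ≤ 2 * (q * μ) ^ d := by
    have := Nat.pow_le_pow_left h1 d
    omega
  have h4 : (((p - 1) * (5 * μ + 4)) ^ d + 1) ^ 2 ≤ 4 * ((q * μ) ^ d) ^ 2 := by
    refine (Nat.pow_le_pow_left h3 2).trans (le_of_eq (by ring))
  have h5 : 1 ≤ ((q * μ) ^ d) ^ 2 := Nat.one_le_pow _ _ h2
  calc μ * (2 * (((p - 1) * (5 * μ + 4)) ^ d + 1) ^ 2 + 2)
      ≤ μ * (10 * ((q * μ) ^ d) ^ 2) := Nat.mul_le_mul_left _ (by omega)
    _ ≤ (10 * q * μ) * ((10 * q * μ) ^ d) ^ 2 := by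
        calc μ * (10 * ((q * μ) ^ d) ^ 2) = (10 * μ) * ((q * μ) ^ d) ^ 2 := by ring
          _ ≤ (10 * q * μ) * ((10 * q * μ) ^ d) ^ 2 := by
            refine Nat.mul_le_mul ?_ (Nat.pow_le_pow_left (Nat.pow_le_pow_left ?_ d) 2)
            · calc 10 * μ = 10 * 1 * μ := by ring
                _ ≤ 10 * q * μ := Nat.mul_le_mul_right _ (Nat.mul_le_mul_left _ hq1)
            · calc q * μ = 1 * (q * μ) := by ring
                _ ≤ 10 * (q * μ) := Nat.mul_le_mul_right _ (by omega)
                _ = 10 * q * μ := by ring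
    _ = (10 * q * μ) ^ (2 * d + 1) := by rw [← pow_mul, ← pow_succ', mul_comm d 2]

/-! ### The theorem -/

theorem cube_bound (p : ℕ) [Fact p.Prime] (d : ℕ) :
    ∃ K : ℕ, ∀ {n k s M : ℕ} (C : Circuit (Fin n ⊕ Fin k) s) (b : Fin k → Bool)
      (Q : BCube n M) (h : ℤ) (lam : ℕ), C.level C.out + 1 ≤ d →
      (∀ k, Q.pw (fun _ => 1) k ≠ 0) →
      (∀ t, C.Accepts p (Sum.elim (Q.emb t) b) → h ≤ wsum (fun _ => 1) (Q.emb t)) →
      ∀ T : Finset (Fin M → Bool),
        (∀ t ∈ T, C.Accepts p (Sum.elim (Q.emb t) b) ∧ wsum (fun _ => 1) (Q.emb t) = h) →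
        2 ^ M ≤ 2 ^ lam * T.card → s ≤ 2 ^ lam → M ≤ (K * (lam + 1)) ^ (2 * d + 4) := by
  obtain ⟨c, hc1, hc⟩ := dense_num p d
  obtain ⟨L, hL⟩ := exists_pow_lt c (2 * d + 1)
  refine ⟨c * (L + 1), ?_⟩
  intro n k s M C b Q h lam hd hw hrej T hT hcard hs
  classical
  -- orient the blocks
  let w : Fin M → ℤ := Q.pw fun _ => 1
  let neg : Fin M → Bool := fun k => decide (w k < 0)
  let pt : Finset (Fin M) → Fin M → Bool := fun z k => xor (neg k) (decide (k ∈ z))
  have hpt : ∀ z, wsum w (pt z) = wsum w neg + ∑ k ∈ z, |w k| := by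
    intro z
    unfold wsum
    rw [← Finset.sum_filter_add_sum_filter_not univ (fun k => k ∈ z),
      ← Finset.sum_filter_add_sum_filter_not univ (fun k => k ∈ z)
        (f := fun k => w k * bit (neg k))]
    have h1 : ∑ k ∈ univ.filter (fun k => k ∈ z), w k * bit (pt z k) =
        ∑ k ∈ univ.filter (fun k => k ∈ z), w k * bit (neg k) + ∑ k ∈ z, |w k| := by
      have h2 : univ.filter (fun k => k ∈ z) = z := by ext k; simp
      rw [h2, ← Finset.sum_add_distrib]
      refine Finset.sum_congr rfl fun k hk => ?_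
      simp only [pt, neg, bit, hk, decide_true, Bool.xor_true]
      by_cases h3 : w k < 0
      · simp [h3, abs_of_neg h3]
      · simp [h3, abs_of_nonneg (not_lt.1 h3)]
    have h2 : ∑ k ∈ univ.filter (fun k => k ∉ z), w k * bit (pt z k) =
        ∑ k ∈ univ.filter (fun k => k ∉ z), w k * bit (neg k) := by
      refine Finset.sum_congr rfl fun k hk => ?_
      have hk' := (mem_filter.1 hk).2
      simp only [pt, hk', decide_false, Bool.xor_false]
    rw [h1, h2]
    ring
  have hptinj : ∀ t : Fin M → Bool, pt (univ.filter fun k => xor (neg k) (t k) = true) = t := by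
    intro t
    funext k
    simp only [pt, mem_filter, mem_univ, true_and]
    cases neg k <;> cases t k <;> simp
  let inp : Finset (Fin M) → (Fin n ⊕ Fin k) → Bool := fun z => Sum.elim (Q.emb (pt z)) b
  let S : Finset (Finset (Fin M)) := univ.filter fun z => pt z ∈ T
  have hSc : T.card ≤ S.card := by
    have h1 : T ⊆ S.image pt := by
      intro t ht
      refine mem_image.2 ⟨_, ?_, hptinj t⟩
      rw [mem_filter, hptinj]
      exact ⟨mem_univ _, ht⟩
    exact (card_le_card h1).trans card_image_le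
  have hin : ∀ v, (∃ b, ∀ z, inp z v = b) ∨
      ∃ (i : Fin M) (b : Bool), ∀ z, inp z v = xor b (decide (i ∈ z)) := by
    intro v
    rcases v with i | j
    · rcases hb : Q.blk i with _ | m
      · left
        exact ⟨Q.base i, fun z => BCube.emb_none hb _⟩
      · right
        refine ⟨m, xor (Q.base i) (neg m), fun z => ?_⟩
        change Q.emb (pt z) i = _
        rw [BCube.emb_some hb, Bool.xor_assoc]
    · left
      exact ⟨b j, fun z => rfl⟩
  have hS : ∀ z ∈ S, C.Accepts p (inp z) ∧ ∀ y, y ⊂ z → ¬ C.Accepts p (inp y) := by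
    intro z hz
    have h1 := hT _ (mem_filter.1 hz).2
    refine ⟨h1.1, fun y hy hacc => ?_⟩
    have h2 := hrej _ hacc
    rw [← h1.2, BCube.wsum_emb, BCube.wsum_emb] at h2
    have h3 := hpt z
    have h4 := hpt y
    change Q.bw (fun _ => 1) + wsum w (pt z) ≤ Q.bw (fun _ => 1) + wsum w (pt y) at h2
    rw [h3, h4] at h2
    have h5 : ∑ k ∈ y, |w k| < ∑ k ∈ z, |w k| := by
      obtain ⟨j, hj, hjy⟩ := Finset.exists_of_ssubset hy
      refine Finset.sum_lt_sum_of_subset hy.1 hj hjy (abs_pos.2 (hw j)) fun k _ _ => abs_nonneg _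
    omega
  set μ := max (lam + 1) (Nat.clog 2 (M + 1)) with hμ
  have hμ1 : 1 ≤ μ := (Nat.le_add_left _ _).trans (le_max_left _ _)
  have hMμ : M + 1 ≤ 2 ^ μ :=
    (Nat.le_pow_clog (by omega) _).trans (Nat.pow_le_pow_right (by omega) (le_max_right _ _))
  have hlamμ : 2 ^ lam ≤ 2 ^ μ :=
    Nat.pow_le_pow_right (by omega) ((Nat.le_succ _).trans (le_max_left _ _))
  have hmain := dense_min (p := p) C inp hin S hS μ d hμ1
    (hcard.trans (Nat.mul_le_mul hlamμ hSc)) hMμ (hs.trans hlamμ) hd
  have hmain2 : M ≤ (c * μ) ^ (2 * d + 1) := hmain.trans (hc μ hμ1)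
  have hμL : μ ≤ (L + 1) * (lam + 1) := by
    by_contra hlt
    push Not at hlt
    have h1 : L ≤ μ := by
      have : L + 1 ≤ (L + 1) * (lam + 1) := Nat.le_mul_of_pos_right _ (by omega)
      omega
    have h2 : lam + 1 < μ := by
      have : lam + 1 ≤ (L + 1) * (lam + 1) := Nat.le_mul_of_pos_left _ (by omega)
      omega
    have h3 : μ = Nat.clog 2 (M + 1) := by
      rcases max_choice (lam + 1) (Nat.clog 2 (M + 1)) with h4 | h4
      · rw [← hμ] at h4; omega
      · rw [← hμ] at h4; exact h4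
    have h4 : 2 ^ (μ - 1) < M + 1 := by
      rw [h3]
      refine Nat.pow_pred_clog_lt_self (by omega) ?_
      have : 2 ≤ μ := by omega
      by_contra h5
      have : M + 1 ≤ 1 := by omega
      rw [Nat.clog_of_right_le_one this] at h3
      omega
    have h5 := hL μ h1
    omega
  calc M ≤ (c * μ) ^ (2 * d + 1) := hmain2
    _ ≤ (c * ((L + 1) * (lam + 1))) ^ (2 * d + 1) :=
      Nat.pow_le_pow_left (Nat.mul_le_mul_left _ hμL) _
    _ = (c * (L + 1) * (lam + 1)) ^ (2 * d + 1) := by rw [mul_assoc]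
    _ ≤ (c * (L + 1) * (lam + 1)) ^ (2 * d + 4) :=
      Nat.pow_le_pow_right (Nat.mul_pos (Nat.mul_pos hc1 (by omega)) (by omega)) (by omega)

end Pool.Agent.QuadSys
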