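import Pool.Agent.QuadSys.Cert
import Pool.Agent.QuadSys.Top
import Pool.Agent.Helper21.LinSys.Joint

/-!
# Majority, from a decomposition theorem for a class of bottom gates
-/

set_option autoImplicit false

namespace Pool.Agent.QuadSys

open Finset Pool.Agent.Helper21.LinSys Pool.Agent.RS

/-- A class of conditions with a decomposition theorem: every dense set `T` has a dense trace on
a large block cube on which `k` given conditions are constant. -/
def DecompProp (𝒢 : ∀ n : ℕ, ((Fin n → Bool) → Prop) → Prop) (C : ℕ) : Prop :=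
  ∀ {n k lam : ℕ} (M : ℕ) (P : Fin k → (Fin n → Bool) → Prop), (∀ i, 𝒢 n (P i)) →
    ∀ T : Finset (Fin n → Bool), 2 ^ n ≤ 2 ^ lam * T.card →
    pb C (M + k + lam + 1) ≤ n →
    ∃ (B M' : ℕ) (Q : BCube n M'), B ≤ pb C (k + lam + 1) ∧ M ≤ M' ∧
      (∀ j, Q.pw (fun _ => 1) j ≠ 0) ∧
      (∀ i, (∀ t, P i (Q.emb t)) ∨ ∀ t, ¬ P i (Q.emb t)) ∧
      2 ^ M' ≤ 2 ^ B * (univ.filter fun t => Q.emb t ∈ T).card

theorem wsum_one {n : ℕ} (x : Fin n → Bool) :
    wsum (fun _ => 1) x = ((univ.filter fun i => x i = true).card : ℤ) := by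
  unfold wsum bit
  simp

theorem clog_le_log {N : ℕ} (hN : 3 ≤ N) : (Nat.clog 2 N : ℝ) ≤ 3 * Real.log N := by
  set ℓ := Nat.clog 2 N with hℓ
  set lg := Real.log N with hlg
  have hN3 : (3 : ℝ) ≤ N := by exact_mod_cast hN
  have hlg1 : 1 ≤ lg := by
    rw [hlg, Real.le_log_iff_exp_le (by linarith)]
    have := Real.exp_one_lt_d9
    linarith
  have h1 := Nat.pow_pred_clog_lt_self (b := 2) (by norm_num) (x := N) (by omega)
  have h2 : 1 ≤ ℓ := Nat.clog_pos (by norm_num) (by omega)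
  have h3 : ((2 : ℝ) ^ (ℓ - 1)) < N := by
    have h4 : 2 ^ (ℓ - 1) < N := h1
    exact_mod_cast h4
  have h4 : ((ℓ - 1 : ℕ) : ℝ) * Real.log 2 < lg := by
    rw [← Real.log_pow, hlg]
    exact Real.log_lt_log (by positivity) h3
  have h5 : ((ℓ - 1 : ℕ) : ℝ) = ℓ - 1 := by
    rw [Nat.cast_sub h2, Nat.cast_one]
  rw [h5] at h4
  have h6 := Real.log_two_gt_d9
  have h7 : (0 : ℝ) ≤ ℓ - 1 := by
    have : (1 : ℝ) ≤ ℓ := by exact_mod_cast h2
    linarith
  nlinarith

/-- The integer form of the bound. -/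
theorem majority_nat (p : ℕ) [Fact p.Prime] (d : ℕ)
    {𝒢 : ∀ n : ℕ, ((Fin n → Bool) → Prop) → Prop} {C₀ : ℕ} (hdec : DecompProp 𝒢 C₀) :
    ∃ K : ℕ, ∀ n k s t : ℕ, 1 ≤ n → 1 ≤ s → 1 ≤ t →
      ∀ (C : Fin t → (Fin k → Bool) → Circuit (Fin n ⊕ Fin k) s)
        (P : Fin t → Fin k → (Fin n → Bool) → Bool),
        (∀ i b, (C i b).level (C i b).out + 1 ≤ d) →
        (∀ i j, 𝒢 n fun x => P i j x = true) →
        (∀ x : Fin n → Bool,
          (∃ i, (C i fun j => P i j x).Accepts p (Sum.elim x fun j => P i j x)) ↔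
            n ≤ 2 * (Finset.univ.filter fun i => x i = true).card) →
        n ≤ pb K (k + 2 * Nat.clog 2 (s + t + n) + 1) := by
  classical
  obtain ⟨K₁, hK₁⟩ := cube_bound p d
  refine ⟨((C₀ + 5) * (K₁ + 2 * d + 5) + 6) * (C₀ + 1), ?_⟩
  intro n k s t hn hs ht C P hlevel hP hmaj
  set L := Nat.clog 2 (s + t + n) with hL
  set u := k + 2 * L + 1 with hu
  have hu1 : 1 ≤ u := by omega
  have h2L : s + t + n ≤ 2 ^ L := Nat.le_pow_clog (by norm_num) _
  -- the slice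
  set h := (n + 1) / 2 with hh
  set T : Fin t → Finset (Fin n → Bool) := fun i => univ.filter fun x =>
    wt x = h ∧ (C i fun j => P i j x).Accepts p (Sum.elim x fun j => P i j x) with hTdef
  obtain ⟨i, hi⟩ := exists_large ht T (by
    intro x hx
    have hx' : (univ.filter fun i => x i = true).card = (n + 1) / 2 := hx
    obtain ⟨i, hi⟩ := (hmaj x).2 (by omega)
    exact ⟨i, Finset.mem_filter.2 ⟨Finset.mem_univ _, hx, hi⟩⟩)
  have hTi : 2 ^ n ≤ 2 ^ (2 * L) * (T i).card := by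
    refine hi.trans (Nat.mul_le_mul_right _ ?_)
    rw [two_mul, pow_add]
    exact Nat.mul_le_mul (by omega) (by omega)
  -- the dimension
  set X := pb C₀ u + L + 1 with hX
  set M := (K₁ * X) ^ (2 * d + 4) + 1 with hM
  by_contra hcon
  push Not at hcon
  have hXu : X ≤ pb (C₀ + 4) u := by
    have e1 : 1 * u ≤ pb 2 u := mul_le_pb 1 hu1
    have e2 : pb C₀ u + pb 2 u ≤ pb (C₀ + 2 + 2) u := pb_add_pb _ _ hu1
    have e3 : pb (C₀ + 2 + 2) u = pb (C₀ + 4) u := rfl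
    omega
  have hX1 : 1 ≤ X := by omega
  have hMu : M ≤ pb ((C₀ + 5) * (K₁ + 2 * d + 5)) u + 1 := by
    have e1 : (K₁ * X) ^ (2 * d + 4) ≤ pb (K₁ + 2 * d + 4) X := by
      unfold pb
      calc (K₁ * X) ^ (2 * d + 4) ≤ ((K₁ + 2 * d + 4) * X) ^ (2 * d + 4) :=
            Nat.pow_le_pow_left (Nat.mul_le_mul_right _ (by omega)) _
        _ ≤ _ := Nat.pow_le_pow_right (Nat.mul_pos (by omega) hX1) (by omega)
    have e2 : pb (K₁ + 2 * d + 4) X ≤ pb ((C₀ + 4 + 1) * (K₁ + 2 * d + 4 + 1)) u :=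
      (pb_mono le_rfl hX1 hXu).trans (pb_pb _ _ hu1)
    rw [hM]
    have e3 : (C₀ + 4 + 1) * (K₁ + 2 * d + 4 + 1) = (C₀ + 5) * (K₁ + 2 * d + 5) := by ring
    rw [e3] at e2
    omega
  have hsize : pb C₀ (M + k + 2 * L + 1) ≤ n := by
    have e1 : 2 * u ≤ pb 3 u := mul_le_pb 2 hu1
    have e2 : pb ((C₀ + 5) * (K₁ + 2 * d + 5)) u + pb 3 u ≤
        pb ((C₀ + 5) * (K₁ + 2 * d + 5) + 3 + 2) u := pb_add_pb _ _ hu1
    have e3 : M + k + 2 * L + 1 ≤ pb ((C₀ + 5) * (K₁ + 2 * d + 5) + 5) u := by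
      have e4 : pb ((C₀ + 5) * (K₁ + 2 * d + 5) + 3 + 2) u =
        pb ((C₀ + 5) * (K₁ + 2 * d + 5) + 5) u := rfl
      omega
    calc pb C₀ (M + k + 2 * L + 1) ≤ pb C₀ (pb ((C₀ + 5) * (K₁ + 2 * d + 5) + 5) u) :=
          pb_mono le_rfl (by omega) e3
      _ ≤ pb (((C₀ + 5) * (K₁ + 2 * d + 5) + 5 + 1) * (C₀ + 1)) u := pb_pb _ _ hu1
      _ ≤ n := hcon.le
  obtain ⟨B, M', Q, hB, hMM', hpw, hconst, hdens⟩ := hdec M (fun j x => P i j x = true) (hP i)
    (T i) hTi hsize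
  -- the constants on the block cube
  set T' : Finset (Fin M' → Bool) := univ.filter fun t => Q.emb t ∈ T i with hT'
  set b : Fin k → Bool := fun j => P i j Q.base with hb
  have hPb : ∀ t, (fun j => P i j (Q.emb t)) = b := by
    intro t
    funext j
    rw [hb]
    rcases hconst j with h1 | h1
    · have e1 := h1 t
      have e2 := h1 fun _ => false
      rw [BCube.emb_false] at e2
      exact e1.trans e2.symm
    · have e1 := h1 t
      have e2 := h1 fun _ => false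
      rw [BCube.emb_false] at e2
      simp only [Bool.not_eq_true] at e1 e2
      exact e1.trans e2.symm
  have key := hK₁ (C i b) b Q (h : ℤ) (B + L) (hlevel i b) hpw (by
    intro t hacc
    rw [wsum_one]
    have h1 := (hmaj (Q.emb t)).1 ⟨i, by rw [hPb t]; exact hacc⟩
    omega) T' (by
    intro t ht
    have h1 := (Finset.mem_filter.1 (Finset.mem_filter.1 ht).2).2
    rw [hPb t] at h1
    refine ⟨h1.2, ?_⟩
    rw [wsum_one]
    exact_mod_cast h1.1) (by
    refine hdens.trans (Nat.mul_le_mul_right _ (Nat.pow_le_pow_right (by norm_num) (by omega))))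
    (by
      have h1 : 2 ^ L ≤ 2 ^ (B + L) := Nat.pow_le_pow_right (by norm_num) (by omega)
      omega)
  have hBX : B + L + 1 ≤ X := by
    have h1 : B ≤ pb C₀ u := hB
    omega
  have h1 : (K₁ * (B + L + 1)) ^ (2 * d + 4) ≤ (K₁ * X) ^ (2 * d + 4) :=
    Nat.pow_le_pow_left (Nat.mul_le_mul_left _ hBX) _
  omega

/-- Majority, from a decomposition theorem. -/
theorem majority_of_decomp (p : ℕ) [Fact p.Prime] (d : ℕ)
    {𝒢 : ∀ n : ℕ, ((Fin n → Bool) → Prop) → Prop} {C₀ : ℕ} (hdec : DecompProp 𝒢 C₀) :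
    ∃ K : ℕ, ∀ n k s t : ℕ, 1 ≤ k →
      ∀ (C : Fin t → (Fin k → Bool) → Circuit (Fin n ⊕ Fin k) s)
        (P : Fin t → Fin k → (Fin n → Bool) → Bool),
        (∀ i b, (C i b).level (C i b).out + 1 ≤ d) →
        (∀ i j, 𝒢 n fun x => P i j x = true) →
        (∀ x : Fin n → Bool,
          (∃ i, (C i fun j => P i j x).Accepts p (Sum.elim x fun j => P i j x)) ↔
            n ≤ 2 * (Finset.univ.filter fun i => x i = true).card) →
        (n : ℝ) ≤ (K * k * Real.log (s + t + n)) ^ K := by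
  obtain ⟨K, hK⟩ := majority_nat p d hdec
  refine ⟨2 * (4 * K + 4), ?_⟩
  intro n k s t hk C P hlevel hP hmaj
  rcases Nat.eq_zero_or_pos n with rfl | hn
  · have h : Even (2 * (4 * K + 4)) := even_two_mul _
    have := h.pow_nonneg (((2 * (4 * K + 4) : ℕ) : ℝ) * k * Real.log (s + t + (0 : ℕ)))
    simpa using this
  obtain ⟨i, -⟩ := (hmaj fun _ => true).2 (by simp; omega)
  have ht : 1 ≤ t := by have := i.2; omega
  have hs : 1 ≤ s := by have := (C i fun _ => true).out.2; omega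
  have h1 := hK n k s t hn hs ht C P hlevel hP hmaj
  set L := Nat.clog 2 (s + t + n) with hL
  have hLlg : (L : ℝ) ≤ 3 * Real.log (s + t + n) := by
    have := clog_le_log (N := s + t + n) (by omega)
    push_cast at this
    exact this
  set lg := Real.log (s + t + n) with hlg
  have hsR : (1 : ℝ) ≤ s := by exact_mod_cast hs
  have htR : (1 : ℝ) ≤ t := by exact_mod_cast ht
  have hnR : (1 : ℝ) ≤ n := by exact_mod_cast hn
  have hkR : (1 : ℝ) ≤ k := by exact_mod_cast hk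
  have hlg1 : 1 ≤ lg := by
    rw [hlg, Real.le_log_iff_exp_le (by linarith)]
    have := Real.exp_one_lt_d9
    linarith
  have h2 : (n : ℝ) ≤ (K * (k + 2 * L + 1)) ^ K := by
    unfold pb at h1
    exact_mod_cast h1
  have hKk : (0 : ℝ) ≤ K := Nat.cast_nonneg _
  have hkl : (1 : ℝ) ≤ k * lg := one_le_mul_of_one_le_of_one_le hkR hlg1
  have h3 : (K : ℝ) * (k + 2 * L + 1) ≤ (2 * (4 * K + 4) : ℕ) * k * lg := by
    push_cast
    have h4 : (k : ℝ) + 2 * L + 1 ≤ 8 * (k * lg) := by nlinarith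
    nlinarith
  have h5 : (1 : ℝ) ≤ (2 * (4 * K + 4) : ℕ) * k * lg := by
    push_cast
    nlinarith
  calc (n : ℝ) ≤ (K * (k + 2 * L + 1)) ^ K := h2
    _ ≤ ((2 * (4 * K + 4) : ℕ) * k * lg) ^ K := pow_le_pow_left₀ (by positivity) h3 K
    _ ≤ ((2 * (4 * K + 4) : ℕ) * k * lg) ^ (2 * (4 * K + 4)) := pow_le_pow_right₀ h5 (by omega)

end Pool.Agent.QuadSys
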