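import Pool.Agent.QuadSys.Defs

/-!
# Systems of quadratic conditions modulo m: closure properties
-/

set_option autoImplicit false

namespace Pool.Agent.QuadSys

open Finset Pool.Agent.Helper21.LinSys

/-! ### Bits -/

@[simp] theorem bit_true : bit true = 1 := rfl
@[simp] theorem bit_false : bit false = 0 := rfl

theorem bit_xor (a b : Bool) : bit (xor a b) = bit a + (1 - 2 * bit a) * bit b := by
  cases a <;> cases b <;> simp

theorem bit_mul_self (a : Bool) : bit a * bit a = bit a := by cases a <;> simp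

/-! ### Affine and quadratic functions -/

/-- Integer valued affine functions on the cube. -/
def IsAff {n : ℕ} (φ : (Fin n → Bool) → ℤ) : Prop :=
  ∃ (c : ℤ) (a : Fin n → ℤ), ∀ x, φ x = c + ∑ i, a i * bit (x i)

section
variable {n : ℕ}

theorem IsAff.isQuad {φ : (Fin n → Bool) → ℤ} (h : IsAff φ) : IsQuad φ := by
  obtain ⟨c, a, h⟩ := h
  exact ⟨c, a, 0, fun x => by simp [h x]⟩

theorem IsAff.const (c : ℤ) : IsAff (fun _ : Fin n → Bool => c) := ⟨c, 0, fun x => by simp⟩

theorem IsQuad.const (c : ℤ) : IsQuad (fun _ : Fin n → Bool => c) := (IsAff.const c).isQuad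

theorem IsAff.add {f g : (Fin n → Bool) → ℤ} (hf : IsAff f) (hg : IsAff g) :
    IsAff fun x => f x + g x := by
  obtain ⟨c, a, hf⟩ := hf
  obtain ⟨c', a', hg⟩ := hg
  refine ⟨c + c', a + a', fun x => ?_⟩
  simp only [hf x, hg x, Pi.add_apply, add_mul, Finset.sum_add_distrib]
  ring

theorem IsAff.const_mul {f : (Fin n → Bool) → ℤ} (hf : IsAff f) (k : ℤ) :
    IsAff fun x => k * f x := by
  obtain ⟨c, a, hf⟩ := hf
  refine ⟨k * c, fun i => k * a i, fun x => ?_⟩
  simp only [hf x, mul_add, Finset.mul_sum, mul_assoc]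

theorem IsAff.sum {κ : Type*} (s : Finset κ) {f : κ → (Fin n → Bool) → ℤ}
    (hf : ∀ k ∈ s, IsAff (f k)) : IsAff fun x => ∑ k ∈ s, f k x := by
  classical
  induction s using Finset.induction_on with
  | empty => simpa using IsAff.const (n := n) 0
  | insert k s hk ih =>
    have h1 := (hf k (Finset.mem_insert_self k s)).add
      (ih fun j hj => hf j (Finset.mem_insert_of_mem hj))
    have h2 : (fun x => ∑ k ∈ insert k s, f k x) = fun x => f k x + ∑ k ∈ s, f k x := by
      funext x; rw [Finset.sum_insert hk]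
    rw [h2]; exact h1

theorem IsAff.of_bit (i : Fin n) : IsAff fun x : Fin n → Bool => QuadSys.bit (x i) :=
  ⟨0, fun j => if j = i then 1 else 0, fun x => by simp⟩

theorem IsQuad.add {f g : (Fin n → Bool) → ℤ} (hf : IsQuad f) (hg : IsQuad g) :
    IsQuad fun x => f x + g x := by
  obtain ⟨c, a, M, hf⟩ := hf
  obtain ⟨c', a', M', hg⟩ := hg
  refine ⟨c + c', a + a', M + M', fun x => ?_⟩
  simp only [hf x, hg x, Pi.add_apply, add_mul, Finset.sum_add_distrib]
  ring

theorem IsQuad.const_mul {f : (Fin n → Bool) → ℤ} (hf : IsQuad f) (k : ℤ) :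
    IsQuad fun x => k * f x := by
  obtain ⟨c, a, M, hf⟩ := hf
  refine ⟨k * c, fun i => k * a i, fun i j => k * M i j, fun x => ?_⟩
  simp only [hf x, mul_add, Finset.mul_sum, mul_assoc]

theorem IsQuad.sum {κ : Type*} (s : Finset κ) {f : κ → (Fin n → Bool) → ℤ}
    (hf : ∀ k ∈ s, IsQuad (f k)) : IsQuad fun x => ∑ k ∈ s, f k x := by
  classical
  induction s using Finset.induction_on with
  | empty => simpa using IsQuad.const (n := n) 0
  | insert k s hk ih =>
    have h1 := (hf k (Finset.mem_insert_self k s)).add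
      (ih fun j hj => hf j (Finset.mem_insert_of_mem hj))
    have h2 : (fun x => ∑ k ∈ insert k s, f k x) = fun x => f k x + ∑ k ∈ s, f k x := by
      funext x; rw [Finset.sum_insert hk]
    rw [h2]; exact h1

theorem IsAff.mul {f g : (Fin n → Bool) → ℤ} (hf : IsAff f) (hg : IsAff g) :
    IsQuad fun x => f x * g x := by
  obtain ⟨c, a, hf⟩ := hf
  obtain ⟨c', a', hg⟩ := hg
  refine ⟨c * c', fun i => c * a' i + c' * a i, fun i j => a i * a' j, fun x => ?_⟩
  have h1 : (∑ i, a i * QuadSys.bit (x i)) * ∑ j, a' j * QuadSys.bit (x j) =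
      ∑ i, ∑ j, a i * a' j * (QuadSys.bit (x i) * QuadSys.bit (x j)) := by
    rw [Finset.sum_mul_sum]
    exact Finset.sum_congr rfl fun i _ => Finset.sum_congr rfl fun j _ => by ring
  have h2 : ∑ i, (c * a' i + c' * a i) * QuadSys.bit (x i) =
      c * ∑ i, a' i * QuadSys.bit (x i) + c' * ∑ i, a i * QuadSys.bit (x i) := by
    rw [Finset.mul_sum, Finset.mul_sum, ← Finset.sum_add_distrib]
    exact Finset.sum_congr rfl fun i _ => by ring
  beta_reduce
  rw [hf x, hg x, h2, ← h1]
  ring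

end

/-! ### Block cubes -/

namespace BCube

variable {n M M' : ℕ}

/-- The coefficient of the bit of block `k` in the coordinate `i`. -/
def coe (Q : BCube n M) (i : Fin n) (k : Fin M) : ℤ :=
  if Q.blk i = some k then 1 - 2 * bit (Q.base i) else 0

theorem bit_emb (Q : BCube n M) (t : Fin M → Bool) (i : Fin n) :
    bit (Q.emb t i) = bit (Q.base i) + ∑ k, Q.coe i k * bit (t k) := by
  unfold emb coe
  rcases h : Q.blk i with _ | k
  · simp
  · simp only [Option.some.injEq, ite_mul, zero_mul, Finset.sum_ite_eq, Finset.mem_univ, if_true]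
    exact bit_xor _ _

theorem emb_none {Q : BCube n M} {i : Fin n} (h : Q.blk i = none) (t : Fin M → Bool) :
    Q.emb t i = Q.base i := by
  unfold emb; rw [h]

theorem emb_some {Q : BCube n M} {i : Fin n} {k : Fin M} (h : Q.blk i = some k)
    (t : Fin M → Bool) : Q.emb t i = xor (Q.base i) (t k) := by
  unfold emb; rw [h]

theorem emb_false (Q : BCube n M) : Q.emb (fun _ => false) = Q.base := by
  funext i
  rcases h : Q.blk i with _ | k
  · exact emb_none h _
  · rw [emb_some h]; simp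

theorem emb_comp (Q : BCube n M) (Q' : BCube M M') (t : Fin M' → Bool) :
    (Q.comp Q').emb t = Q.emb (Q'.emb t) := by
  funext i
  rcases h : Q.blk i with _ | k
  · have h1 : (Q.comp Q').blk i = none := by
      change (Q.blk i).bind Q'.blk = none
      rw [h]; rfl
    rw [emb_none h1, emb_none h]
    change Q.emb Q'.base i = _
    rw [emb_none h]
  · rcases h' : Q'.blk k with _ | k'
    · have h1 : (Q.comp Q').blk i = none := by
        change (Q.blk i).bind Q'.blk = none
        rw [h]; exact h'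
      rw [emb_none h1, emb_some h, emb_none h']
      change Q.emb Q'.base i = _
      rw [emb_some h]
    · have h1 : (Q.comp Q').blk i = some k' := by
        change (Q.blk i).bind Q'.blk = some k'
        rw [h]; exact h'
      rw [emb_some h1, emb_some h, emb_some h']
      change xor (Q.emb Q'.base i) _ = _
      rw [emb_some h, Bool.xor_assoc]

theorem refl_emb (t : Fin n → Bool) : (BCube.refl n).emb t = t := by
  funext i
  rw [emb_some (k := i) rfl]
  change xor false _ = _
  simp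

theorem coe_comp (Q : BCube n M) (Q' : BCube M M') (i : Fin n) (k : Fin M') :
    (Q.comp Q').coe i k = ∑ j, Q.coe i j * Q'.coe j k := by
  unfold coe
  rcases h : Q.blk i with _ | j
  · have h1 : (Q.comp Q').blk i = none := by
      change (Q.blk i).bind Q'.blk = none
      rw [h]; rfl
    simp [h1]
  · have h1 : (Q.comp Q').blk i = Q'.blk j := by
      change (Q.blk i).bind Q'.blk = _
      rw [h]; rfl
    rw [h1]
    simp only [Option.some.injEq, ite_mul, zero_mul, Finset.sum_ite_eq, Finset.mem_univ, if_true]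
    by_cases h2 : Q'.blk j = some k
    · rw [if_pos h2, if_pos h2]
      change 1 - 2 * bit (Q.emb Q'.base i) = _
      rw [emb_some h, bit_xor]
      ring
    · rw [if_neg h2, if_neg h2, mul_zero]

theorem pw_eq (Q : BCube n M) (v : Fin n → ℤ) (k : Fin M) :
    Q.pw v k = ∑ i, v i * Q.coe i k := by
  unfold pw coe
  exact Finset.sum_congr rfl fun i _ => by split <;> simp

theorem pw_comp (Q : BCube n M) (Q' : BCube M M') (v : Fin n → ℤ) (k : Fin M') :
    (Q.comp Q').pw v k = Q'.pw (Q.pw v) k := by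
  rw [pw_eq, pw_eq]
  simp only [pw_eq, coe_comp, Finset.mul_sum, Finset.sum_mul]
  rw [Finset.sum_comm]
  exact Finset.sum_congr rfl fun i _ => Finset.sum_congr rfl fun j _ => by ring

theorem wsum_emb (Q : BCube n M) (v : Fin n → ℤ) (t : Fin M → Bool) :
    wsum v (Q.emb t) = Q.bw v + wsum (Q.pw v) t := by
  unfold wsum bw
  simp only [bit_emb, mul_add, Finset.sum_add_distrib, pw_eq, Finset.mul_sum, Finset.sum_mul]
  congr 1
  rw [Finset.sum_comm]
  exact Finset.sum_congr rfl fun i _ => Finset.sum_congr rfl fun j _ => by ring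

/-- Linear forms restrict to affine forms. -/
def pf {ℓ : ℕ} (Q : BCube n M) (L : Fin n → ZMod ℓ) (k : Fin M) : ZMod ℓ :=
  ∑ i, L i * ((Q.coe i k : ℤ) : ZMod ℓ)

end BCube

theorem ev_eq {n ℓ : ℕ} (L : Fin n → ZMod ℓ) (x : Fin n → Bool) :
    ev L x = ∑ i, L i * ((bit (x i) : ℤ) : ZMod ℓ) := by
  unfold ev
  refine Finset.sum_congr rfl fun i _ => ?_
  cases x i <;> simp

theorem BCube.ev_emb {n M ℓ : ℕ} (Q : BCube n M) (L : Fin n → ZMod ℓ) (t : Fin M → Bool) :
    ev L (Q.emb t) = ev L Q.base + ev (Q.pf L) t := by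
  rw [ev_eq, ev_eq, ev_eq]
  simp only [BCube.bit_emb, BCube.pf, Int.cast_add, Int.cast_sum, Int.cast_mul, mul_add,
    Finset.sum_add_distrib, Finset.mul_sum, Finset.sum_mul]
  congr 1
  rw [Finset.sum_comm]
  exact Finset.sum_congr rfl fun i _ => Finset.sum_congr rfl fun j _ => by ring

theorem IsAff.comp_emb {n M : ℕ} {φ : (Fin n → Bool) → ℤ} (h : IsAff φ) (Q : BCube n M) :
    IsAff fun t => φ (Q.emb t) := by
  obtain ⟨c, a, h⟩ := h
  have h1 : ∀ i : Fin n, IsAff fun t => bit (Q.emb t i) := fun i =>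
    ⟨bit (Q.base i), fun k => Q.coe i k, fun t => Q.bit_emb t i⟩
  have h2 : (fun t => φ (Q.emb t)) = fun t => c + ∑ i, a i * bit (Q.emb t i) := by
    funext t; exact h _
  rw [h2]
  exact (IsAff.const c).add (IsAff.sum _ fun i _ => (h1 i).const_mul _)

theorem IsQuad.comp_emb {n M : ℕ} {φ : (Fin n → Bool) → ℤ} (h : IsQuad φ) (Q : BCube n M) :
    IsQuad fun t => φ (Q.emb t) := by
  obtain ⟨c, a, A, h⟩ := h
  have h1 : ∀ i : Fin n, IsAff fun t => bit (Q.emb t i) := fun i =>
    ⟨bit (Q.base i), fun k => Q.coe i k, fun t => Q.bit_emb t i⟩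
  have h2 : (fun t => φ (Q.emb t)) = fun t => (c + ∑ i, a i * bit (Q.emb t i)) +
      ∑ i, ∑ j, A i j * (bit (Q.emb t i) * bit (Q.emb t j)) := by
    funext t; exact h _
  rw [h2]
  exact ((IsAff.const c).add (IsAff.sum _ fun i _ => (h1 i).const_mul _)).isQuad.add
    (IsQuad.sum _ fun i _ => IsQuad.sum _ fun j _ => ((h1 i).mul (h1 j)).const_mul _)

/-! ### Structured functions -/

section
variable {ℓ n : ℕ} {α β : Type*}

theorem Struct.mono {ρ ρ' : ℕ} {σ : (Fin n → Bool) → α} (h : Struct ℓ ρ σ) (hρ : ρ ≤ ρ') :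
    Struct ℓ ρ' σ := by
  obtain ⟨K, l, hK, h⟩ := h
  refine ⟨K, fun j => if hj : j.1 < ρ then l ⟨j.1, hj⟩ else 0, hK.trans hρ, ?_⟩
  intro x y h1 h2
  refine h x y h1 fun j => ?_
  have := h2 ⟨j.1, j.2.trans_le hρ⟩
  simpa [j.2] using this

theorem Struct.map {ρ : ℕ} {σ : (Fin n → Bool) → α} (h : Struct ℓ ρ σ) (g : α → β) :
    Struct ℓ ρ fun x => g (σ x) := by
  obtain ⟨K, l, hK, h⟩ := h
  exact ⟨K, l, hK, fun x y h1 h2 => congrArg g (h x y h1 h2)⟩

theorem Struct.of_eq {ρ : ℕ} {σ : (Fin n → Bool) → α} {τ : (Fin n → Bool) → β}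
    (h : Struct ℓ ρ σ) (hτ : ∀ x y, σ x = σ y → τ x = τ y) : Struct ℓ ρ τ := by
  obtain ⟨K, l, hK, h⟩ := h
  exact ⟨K, l, hK, fun x y h1 h2 => hτ x y (h x y h1 h2)⟩

theorem Struct.const (c : α) (ρ : ℕ) : Struct ℓ ρ fun _ : Fin n → Bool => c :=
  ⟨∅, 0, by simp, fun _ _ _ _ => rfl⟩

/-- A function that is determined by two structured functions is structured. -/
theorem Struct.of_pair {ρ ρ' : ℕ} {γ : Type*} {σ : (Fin n → Bool) → α} {τ : (Fin n → Bool) → β}
    {υ : (Fin n → Bool) → γ} (h : Struct ℓ ρ σ) (h' : Struct ℓ ρ' τ)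
    (hυ : ∀ x y, σ x = σ y → τ x = τ y → υ x = υ y) : Struct ℓ (ρ + ρ') υ := by
  obtain ⟨K, l, hK, h⟩ := h
  obtain ⟨K', l', hK', h'⟩ := h'
  refine ⟨K ∪ K', Fin.append l l', (Finset.card_union_le _ _).trans (Nat.add_le_add hK hK'), ?_⟩
  intro x y h1 h2
  refine hυ x y (h x y (fun i hi => h1 i (Finset.mem_union_left _ hi)) fun j => ?_)
    (h' x y (fun i hi => h1 i (Finset.mem_union_right _ hi)) fun j => ?_)
  · simpa using h2 (Fin.castAdd ρ' j)
  · simpa using h2 (Fin.natAdd ρ j)

theorem Struct.comp_emb {ρ M : ℕ} {σ : (Fin n → Bool) → α} (h : Struct ℓ ρ σ)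
    (Q : BCube n M) : Struct ℓ ρ fun t => σ (Q.emb t) := by
  classical
  obtain ⟨K, l, hK, h⟩ := h
  refine ⟨univ.filter fun k => ∃ i ∈ K, Q.blk i = some k, fun j => Q.pf (l j), ?_, ?_⟩
  · have h1 : (univ.filter fun k => ∃ i ∈ K, Q.blk i = some k) ⊆
        K.biUnion fun i => univ.filter fun k => Q.blk i = some k := by
      intro k hk
      obtain ⟨i, hi, hik⟩ := (Finset.mem_filter.1 hk).2
      exact Finset.mem_biUnion.2 ⟨i, hi, Finset.mem_filter.2 ⟨Finset.mem_univ _, hik⟩⟩
    refine (Finset.card_le_card h1).trans (Finset.card_biUnion_le.trans ?_)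
    have h2 : ∀ i ∈ K, (univ.filter fun k => Q.blk i = some k).card ≤ 1 := by
      intro i _
      refine Finset.card_le_one.2 fun a ha b hb => ?_
      have ha' := (Finset.mem_filter.1 ha).2
      have hb' := (Finset.mem_filter.1 hb).2
      rw [ha'] at hb'
      exact Option.some.inj hb'
    calc ∑ i ∈ K, (univ.filter fun k => Q.blk i = some k).card ≤ ∑ _i ∈ K, 1 :=
          Finset.sum_le_sum h2
      _ ≤ ρ := by simpa using hK
  · intro t t' h1 h2
    refine h _ _ (fun i hi => ?_) fun j => ?_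
    · rcases hb : Q.blk i with _ | k
      · rw [BCube.emb_none hb, BCube.emb_none hb]
      · rw [BCube.emb_some hb, BCube.emb_some hb,
          h1 k (Finset.mem_filter.2 ⟨Finset.mem_univ _, i, hi, hb⟩)]
    · rw [BCube.ev_emb, BCube.ev_emb, h2 j]

end

end Pool.Agent.QuadSys
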