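import Pool.Agent.QuadSys.Basics

/-!
# Alternating sums of polynomials on small cubes
-/

set_option autoImplicit false

namespace Pool.Agent.QuadSys.Pair

open Finset

variable {ι R : Type*} [DecidableEq ι] [CommRing R]

/-- Sum over all bijections between `Fin r` and `A` of the products of the entries. -/
def perm : (r : ℕ) → (Fin r → ι → R) → Finset ι → R
  | 0, _, A => if A = ∅ then 1 else 0
  | r + 1, h, A => ∑ i ∈ A, h 0 i * perm r (fun k => h k.succ) (A.erase i)

theorem perm_zero (h : Fin 0 → ι → R) (A : Finset ι) : perm 0 h A = if A = ∅ then 1 else 0 := rfl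

theorem perm_succ (r : ℕ) (h : Fin (r + 1) → ι → R) (A : Finset ι) :
    perm (r + 1) h A = ∑ i ∈ A, h 0 i * perm r (fun k => h k.succ) (A.erase i) := rfl

theorem perm_eq_zero (r : ℕ) (h : Fin r → ι → R) (A : Finset ι) (hA : A.card ≠ r) :
    perm r h A = 0 := by
  induction r generalizing A with
  | zero =>
    rw [perm_zero, if_neg]
    intro h0
    exact hA (by rw [h0, Finset.card_empty])
  | succ r ih =>
    rw [perm_succ]
    refine Finset.sum_eq_zero fun i hi => ?_
    rw [ih, mul_zero]
    rw [Finset.card_erase_of_mem hi]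
    have := Finset.card_pos.mpr ⟨i, hi⟩
    omega

/-- The sign of a point. -/
def sg {r : ℕ} (s : Fin r → Bool) : R := ∏ k, if s k = true then 1 else -1

theorem sum_bool_succ {r : ℕ} (F : (Fin (r + 1) → Bool) → R) :
    ∑ s, F s = ∑ s : Fin r → Bool, (F (Fin.cons true s) + F (Fin.cons false s)) := by
  have h1 : ∑ t : Fin (r + 1) → Bool, F t =
      ∑ x₀ : Bool, ∑ xs : Fin r → Bool, F (Fin.cons x₀ xs) := by
    rw [← Fintype.sum_prod_type']
    exact (Fintype.sum_equiv (Fin.consEquiv fun _ => Bool) _ _ fun z => rfl).symm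
  rw [h1, Fintype.sum_bool, ← Finset.sum_add_distrib]

/-- The alternating sum of a product of affine forms in `r` variables, with at most `r`
factors. -/
theorem alt_prod (r : ℕ) (h : Fin r → ι → R) (b : ι → R) (A : Finset ι) (hA : A.card ≤ r) :
    ∑ s : Fin r → Bool, sg s * ∏ i ∈ A, (b i + ∑ k, h k i * ((bit (s k) : ℤ) : R)) =
      perm r h A := by
  induction r generalizing A b with
  | zero =>
    have hA0 : A = ∅ := Finset.card_eq_zero.mp (Nat.le_zero.mp hA)
    subst hA0
    rw [perm_zero, if_pos rfl, Fintype.sum_unique]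
    simp [sg]
  | succ r ih =>
    rw [sum_bool_succ, perm_succ]
    have e1 : ∀ s : Fin r → Bool, sg (R := R) (Fin.cons true s : Fin (r + 1) → Bool) = sg s := by
      intro s
      unfold sg
      rw [Fin.prod_univ_succ]
      simp
    have e2 : ∀ s : Fin r → Bool,
        sg (R := R) (Fin.cons false s : Fin (r + 1) → Bool) = - sg s := by
      intro s
      unfold sg
      rw [Fin.prod_univ_succ]
      simp
    have e3 : ∀ s : Fin r → Bool,
        sg (R := R) (Fin.cons true s : Fin (r + 1) → Bool) *
          ∏ i ∈ A, (b i + ∑ k, h k i * ((bit ((Fin.cons true s : Fin (r + 1) → Bool) k) : ℤ) : R)) +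
        sg (R := R) (Fin.cons false s : Fin (r + 1) → Bool) *
          ∏ i ∈ A, (b i + ∑ k, h k i * ((bit ((Fin.cons false s : Fin (r + 1) → Bool) k) : ℤ) : R)) =
        ∑ B ∈ A.powerset.erase ∅, (∏ i ∈ B, h 0 i) *
          (sg s * ∏ i ∈ A \ B, (b i + ∑ k : Fin r, h k.succ i * ((bit (s k) : ℤ) : R))) := by
      intro s
      rw [e1, e2]
      have f1 : ∀ i, b i + ∑ k, h k i *
          ((bit ((Fin.cons true s : Fin (r + 1) → Bool) k) : ℤ) : R) =
          h 0 i + (b i + ∑ k : Fin r, h k.succ i * ((bit (s k) : ℤ) : R)) := by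
        intro i
        rw [Fin.sum_univ_succ]
        simp only [Fin.cons_zero, Fin.cons_succ, bit_true]
        push_cast
        ring
      have f2 : ∀ i, b i + ∑ k, h k i *
          ((bit ((Fin.cons false s : Fin (r + 1) → Bool) k) : ℤ) : R) =
          (b i + ∑ k : Fin r, h k.succ i * ((bit (s k) : ℤ) : R)) := by
        intro i
        rw [Fin.sum_univ_succ]
        simp only [Fin.cons_zero, Fin.cons_succ, bit_false]
        push_cast
        ring
      rw [Finset.prod_congr rfl fun i _ => f1 i, Finset.prod_congr rfl fun i _ => f2 i,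
        Finset.prod_add]
      have f3 : (∅ : Finset ι) ∈ A.powerset := Finset.empty_mem_powerset A
      rw [← Finset.add_sum_erase _ _ f3]
      simp only [Finset.prod_empty, Finset.sdiff_empty, one_mul]
      rw [mul_add, neg_mul, add_comm (sg s * _), add_neg_cancel_right, Finset.mul_sum]
      refine Finset.sum_congr rfl fun B _ => ?_
      ring
    rw [Finset.sum_congr rfl fun s _ => e3 s, Finset.sum_comm]
    have e4 : ∀ B ∈ A.powerset.erase ∅, ∑ s : Fin r → Bool, (∏ i ∈ B, h 0 i) *
          (sg s * ∏ i ∈ A \ B, (b i + ∑ k : Fin r, h k.succ i * ((bit (s k) : ℤ) : R))) =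
        (∏ i ∈ B, h 0 i) * perm r (fun k => h k.succ) (A \ B) := by
      intro B hB
      rw [Finset.mem_erase, Finset.mem_powerset] at hB
      rw [← Finset.mul_sum, ih]
      rw [Finset.card_sdiff_of_subset hB.2]
      have := Finset.card_pos.mpr (Finset.nonempty_iff_ne_empty.mpr hB.1)
      omega
    rw [Finset.sum_congr rfl e4]
    -- only singletons contribute
    have e5 : ∀ B ∈ A.powerset.erase ∅, B ∉ A.image (fun i => ({i} : Finset ι)) →
        (∏ i ∈ B, h 0 i) * perm r (fun k => h k.succ) (A \ B) = 0 := by
      intro B hB hB'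
      rw [Finset.mem_erase, Finset.mem_powerset] at hB
      rw [perm_eq_zero, mul_zero]
      rw [Finset.card_sdiff_of_subset hB.2]
      have h1 := Finset.card_pos.mpr (Finset.nonempty_iff_ne_empty.mpr hB.1)
      have h2 : B.card ≠ 1 := by
        intro h1
        obtain ⟨i, rfl⟩ := Finset.card_eq_one.mp h1
        exact hB' (Finset.mem_image.mpr ⟨i, Finset.singleton_subset_iff.mp hB.2, rfl⟩)
      have h3 := Finset.card_le_card hB.2
      omega
    have e6 : A.image (fun i => ({i} : Finset ι)) ⊆ A.powerset.erase ∅ := by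
      intro B hB
      obtain ⟨i, hi, rfl⟩ := Finset.mem_image.mp hB
      rw [Finset.mem_erase, Finset.mem_powerset]
      exact ⟨Finset.singleton_ne_empty i, Finset.singleton_subset_iff.mpr hi⟩
    rw [← Finset.sum_subset e6 e5, Finset.sum_image (fun i _ j _ hij =>
      Finset.singleton_injective hij)]
    refine Finset.sum_congr rfl fun i hi => ?_
    rw [Finset.prod_singleton, Finset.erase_eq]

/-- The permanent of the indicator functions of distinct elements. -/
theorem perm_indicator (r : ℕ) (κ : Fin r → ι) (hκ : Function.Injective κ) (A : Finset ι) :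
    perm r (fun k i => if κ k = i then (1 : R) else 0) A =
      if A = Finset.univ.image κ then 1 else 0 := by
  induction r generalizing A with
  | zero =>
    rw [perm_zero]
    simp
  | succ r ih =>
    have hκ' : Function.Injective fun k : Fin r => κ k.succ :=
      hκ.comp (Fin.succ_injective r)
    rw [perm_succ]
    simp only [ih (fun k : Fin r => κ k.succ) hκ']
    have himg : Finset.univ.image κ = insert (κ 0) (Finset.univ.image fun k : Fin r => κ k.succ) := by
      ext x
      simp only [Finset.mem_image, Finset.mem_univ, true_and, Finset.mem_insert]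
      constructor
      · rintro ⟨k, rfl⟩
        refine Fin.cases (Or.inl rfl) (fun k => Or.inr ⟨k, rfl⟩) k
      · rintro (rfl | ⟨k, rfl⟩)
        · exact ⟨0, rfl⟩
        · exact ⟨k.succ, rfl⟩
    have hnot : κ 0 ∉ Finset.univ.image fun k : Fin r => κ k.succ := by
      intro hh
      obtain ⟨k, -, hk⟩ := Finset.mem_image.mp hh
      exact (Fin.succ_ne_zero k) (hκ hk)
    by_cases h0 : κ 0 ∈ A
    · rw [Finset.sum_eq_single_of_mem (κ 0) h0]
      · rw [if_pos rfl, one_mul]
        refine if_congr ?_ rfl rfl
        rw [himg]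
        constructor
        · intro hh
          rw [← hh, Finset.insert_erase h0]
        · intro hh
          rw [hh, Finset.erase_insert hnot]
      · intro i _ hi
        rw [if_neg (Ne.symm hi), zero_mul]
    · rw [if_neg]
      · refine Finset.sum_eq_zero fun i hi => ?_
        rw [if_neg, zero_mul]
        rintro rfl
        exact h0 hi
      · intro hh
        apply h0
        rw [hh, himg]
        exact Finset.mem_insert_self _ _

end Pool.Agent.QuadSys.Pair
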