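import Mathlib

/-!
# Bottom gates: arbitrary functions of few quadratic sums, and polynomial tests, modulo m
-/

set_option autoImplicit false

namespace Pool.Agent.QuadSys

/-- `g` is an arbitrary function of `w` quadratic sums `∑ i, ∑ j, c i j * x i * x j` modulo `m`
(the terms with `i = j` are linear). In other words, `g` is computed by an arbitrary gate of
fan-in `w` whose inputs are (general) `MOD_m` gates reading variables and conjunctions of two
variables, each with arbitrary multiplicities. -/
def QuadLocal (m w n : ℕ) (g : (Fin n → Bool) → Bool) : Prop :=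
  ∃ (c : Fin w → Fin n → Fin n → ZMod m) (A : (Fin w → ZMod m) → Bool),
    ∀ x, g x = A fun s => ∑ i, ∑ j, if x i = true ∧ x j = true then c s i j else 0

/-- `g` tests whether a polynomial of degree at most `D` in the variables vanishes modulo `m`. In
other words, `g` is computed by the negation of a `MOD_m` gate reading conjunctions of at most `D`
variables, with arbitrary multiplicities. -/
def PolyTest (m D n : ℕ) (g : (Fin n → Bool) → Bool) : Prop :=
  ∃ c : Finset (Fin n) → ZMod m,
    ∀ x, g x = true ↔ (∑ S, if S.card ≤ D ∧ ∀ i ∈ S, x i = true then c S else 0) = 0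

/-- `P` is computed by an `AND` gate of unbounded fan-in whose inputs are arbitrary functions of
`w` quadratic sums modulo `m` or tests for the zeros of polynomials of degree at most `D`
modulo `m`. -/
def AndOfTests (m w D n : ℕ) (P : (Fin n → Bool) → Bool) : Prop :=
  ∃ 𝒞 : Set ((Fin n → Bool) → Bool), (∀ g ∈ 𝒞, QuadLocal m w n g ∨ PolyTest m D n g) ∧
    ∀ x, P x = true ↔ ∀ g ∈ 𝒞, g x = true

end Pool.Agent.QuadSys
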