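import Pool.Agent.QuadSys.Deg
import Pool.Agent.QuadSys.GateDefs

/-!
# Bottom gates: arbitrary functions of few quadratic sums, and polynomial tests, modulo m
-/

set_option autoImplicit false

namespace Pool.Agent.QuadSys

open Finset Pool.Agent.Helper21.LinSys

theorem QuadLocal.exists_quad {m w n : ℕ} [NeZero m] {g : (Fin n → Bool) → Bool}
    (h : QuadLocal m w n g) : ∃ p : Fin w → (Fin n → Bool) → ℤ, (∀ s, IsQuad (p s)) ∧
      ∀ x x', (∀ s, ((p s x' : ℤ) : ZMod m) = p s x) → g x' = g x := by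
  obtain ⟨c, A, h⟩ := h
  refine ⟨fun s x => ∑ i, ∑ j, ((c s i j).val : ℤ) * (bit (x i) * bit (x j)), fun s =>
    ⟨0, 0, fun i j => ((c s i j).val : ℤ), fun x => by simp⟩, ?_⟩
  have key : ∀ (s : Fin w) (x : Fin n → Bool),
      (((∑ i, ∑ j, ((c s i j).val : ℤ) * (bit (x i) * bit (x j)) : ℤ)) : ZMod m) =
        ∑ i, ∑ j, if x i = true ∧ x j = true then c s i j else 0 := by
    intro s x
    rw [Int.cast_sum]
    refine Finset.sum_congr rfl fun i _ => ?_
    rw [Int.cast_sum]
    refine Finset.sum_congr rfl fun j _ => ?_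
    cases x i <;> cases x j <;> simp
  intro x x' hx
  rw [h x, h x']
  congr 1
  funext s
  rw [← key s x, ← key s x']
  exact hx s

theorem PolyTest.exists_deg {m D n : ℕ} [NeZero m] {g : (Fin n → Bool) → Bool}
    (h : PolyTest m D n g) : ∃ F : (Fin n → Bool) → ℤ, IsDeg D F ∧
      ∀ x, g x = true ↔ ((F x : ℤ) : ZMod m) = 0 := by
  classical
  obtain ⟨c, h⟩ := h
  refine ⟨fun x => ∑ S : Finset (Fin n), (if S.card ≤ D then ((c S).val : ℤ) else 0) *
    ∏ i ∈ S, bit (x i), ⟨fun S => if S.card ≤ D then ((c S).val : ℤ) else 0, ?_, fun x => rfl⟩, ?_⟩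
  · intro S hS
    exact if_neg (by omega)
  · intro x
    rw [h x]
    have key : (((∑ S : Finset (Fin n), (if S.card ≤ D then ((c S).val : ℤ) else 0) *
        ∏ i ∈ S, bit (x i) : ℤ)) : ZMod m) =
        ∑ S, if S.card ≤ D ∧ ∀ i ∈ S, x i = true then c S else 0 := by
      rw [Int.cast_sum]
      refine Finset.sum_congr rfl fun S _ => ?_
      have h1 : ∏ i ∈ S, bit (x i) = if ∀ i ∈ S, x i = true then 1 else 0 := by
        split_ifs with h2
        · exact Finset.prod_eq_one fun i hi => by rw [h2 i hi]; rfl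
        · push Not at h2
          obtain ⟨i, hi, hxi⟩ := h2
          refine Finset.prod_eq_zero hi ?_
          simp only [Bool.not_eq_true] at hxi
          rw [hxi]; rfl
      rw [h1]
      by_cases h3 : S.card ≤ D
      · by_cases h4 : ∀ i ∈ S, x i = true
        · simp [h3]
        · rw [if_neg h4, if_neg (c := S.card ≤ D ∧ _) (fun h => h4 h.2)]
          simp
      · rw [if_neg h3, if_neg (c := S.card ≤ D ∧ _) (fun h => h3 h.1)]
        simp
    rw [key]

/-- The class of conditions with a quadratic certificate part and an equation part. -/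
def Mixed (m ℓ w D : ℕ) (n : ℕ) (P : (Fin n → Bool) → Prop) : Prop :=
  ∃ P₁ P₂ : (Fin n → Bool) → Prop, (∀ x, P x ↔ P₁ x ∧ P₂ x) ∧ CertQ m ℓ w 0 1 P₁ ∧ EqSys m D P₂

theorem AndOfTests.mixed {m w D n : ℕ} [NeZero m] {P : (Fin n → Bool) → Bool} (ℓ : ℕ)
    (h : AndOfTests m w D n P) : Mixed m ℓ w D n fun x => P x = true := by
  classical
  obtain ⟨𝒞, h𝒞, hP⟩ := h
  refine ⟨fun x => ∀ g ∈ 𝒞, QuadLocal m w n g → g x = true,
    fun x => ∀ g ∈ 𝒞, PolyTest m D n g → g x = true, fun x => ?_, ?_, ?_⟩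
  · change P x = true ↔ _
    rw [hP x]
    constructor
    · exact fun h => ⟨fun g hg _ => h g hg, fun g hg _ => h g hg⟩
    · rintro ⟨h1, h2⟩ g hg
      rcases h𝒞 g hg with h3 | h3
      · exact h1 g hg h3
      · exact h2 g hg h3
  · intro x hx
    push Not at hx
    obtain ⟨g, hg, hq, hgx⟩ := hx
    obtain ⟨p, hp, hpg⟩ := hq.exists_quad
    refine ⟨p, ⊥, hp, Nat.card_pos, ?_, fun x' hx' h => hgx ?_⟩
    · have h1 : (fun x (a : (⊥ : AddSubgroup (Fin w → ZMod m))) =>
          comb p (a : Fin w → ZMod m) x) = fun _ _ => 0 := by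
        funext x a
        have h2 : (a : Fin w → ZMod m) = 0 := AddSubgroup.mem_bot.1 a.2
        rw [h2, comb_zero]
      rw [h1]
      exact Struct.const _ _
    · rw [← hpg x x' hx']
      exact h g hg hq
  · choose! F hF hFg using fun g (hg : PolyTest m D n g) => hg.exists_deg
    refine ⟨{f | ∃ g ∈ 𝒞, PolyTest m D n g ∧ f = F g}, ?_, fun x => ?_⟩
    · rintro f ⟨g, -, hg, rfl⟩
      exact hF g hg
    · constructor
      · rintro h f ⟨g, hg, hg', rfl⟩
        exact (hFg g hg' x).1 (h g hg hg')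
      · intro h g hg hg'
        exact (hFg g hg' x).2 (h (F g) ⟨g, hg, hg', rfl⟩)

end Pool.Agent.QuadSys
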