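import Pool.Agent.QuadSys.Decomp
import Pool.Agent.QuadSys.Gates
import Pool.Agent.QuadSys.Majority

/-!
# The decomposition theorem for quadratic certificates together with systems of equations
-/

set_option autoImplicit false

namespace Pool.Agent.QuadSys

open Finset Pool.Agent.Helper21.LinSys

theorem CertQ.comp_emb {m ℓ w ρ h n M : ℕ} {P : (Fin n → Bool) → Prop} (hP : CertQ m ℓ w ρ h P)
    (Q : BCube n M) : CertQ m ℓ w ρ h fun t => P (Q.emb t) := by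
  intro t ht
  obtain ⟨p, H, hp, hh, hS, hout⟩ := hP _ ht
  exact ⟨fun s t => p s (Q.emb t), H, fun s => (hp s).comp_emb Q, hh, hS.comp_emb Q,
    fun t' ht' => hout _ ht'⟩

/-- The decomposition theorem for quadratic certificates, with general weights. -/
theorem decomposition_gen (m : ℕ) [NeZero m] (ℓ : ℕ) [NeZero ℓ] (w : ℕ) {C₁ C₂ : ℕ}
    (hpath : PathProp m ℓ w C₁) (hpair : PairProp m ℓ C₂) :
    ∃ C : ℕ, ∀ {n k lam : ℕ} (M V : ℕ) (v : Fin n → ℤ), 1 ≤ V → OddMul V v →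
      ∀ (P : Fin k → (Fin n → Bool) → Prop), (∀ i, CertQ m ℓ w 0 1 (P i)) →
      ∀ T : Finset (Fin n → Bool), 2 ^ n ≤ 2 ^ lam * T.card →
      pb C (M + k + lam + V + 1) ≤ n →
      ∃ (B M' : ℕ) (Q : BCube n M'), B ≤ pb C (k + lam + 1) ∧ M ≤ M' ∧
        (∀ j, Q.pw v j ≠ 0) ∧
        (∀ i, (∀ t, P i (Q.emb t)) ∨ ∀ t, ¬ P i (Q.emb t)) ∧
        2 ^ M' ≤ 2 ^ B * (univ.filter fun t => Q.emb t ∈ T).card := by
  obtain ⟨C₀, hphase⟩ := phase_of m ℓ w hpath hpair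
  obtain ⟨C, hC⟩ := decomp_aux m ℓ w hphase (m ^ w)
  refine ⟨C, ?_⟩
  intro n k lam M V v hV hv P hP T hT hn
  have hmw : m ^ w < 2 ^ (m ^ w) * 1 := by rw [mul_one]; exact Nat.lt_two_pow_self
  exact hC M V v hV hv hmw P (fun i => Or.inr (hP i)) T hT hn

/-- The statement of the decomposition theorem for systems of equations, with constant `C`. -/
def EqProp (m ℓ D C : ℕ) : Prop :=
  ∀ {n k lam : ℕ} (M : ℕ) (P : Fin k → (Fin n → Bool) → Prop), (∀ i, EqSys m D (P i)) →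
    ∀ T : Finset (Fin n → Bool), 2 ^ n ≤ 2 ^ lam * T.card →
    pb C (M + k + lam + 1) ≤ n →
    ∃ Q : BCube n M, OddMul (ℓ ^ (D + 1)) (Q.pw fun _ => 1) ∧
      (∀ i, (∀ t, P i (Q.emb t)) ∨ ∀ t, ¬ P i (Q.emb t)) ∧
      2 ^ M ≤ 2 ^ (lam + 1) * (univ.filter fun t => Q.emb t ∈ T).card

theorem mixed_decomp (m : ℕ) [NeZero m] (ℓ : ℕ) [NeZero ℓ] (w D : ℕ) {C₁ C₂ C₃ : ℕ}
    (hpath : PathProp m ℓ w C₁) (hpair : PairProp m ℓ C₂) (heq : EqProp m ℓ D C₃) :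
    ∃ C, DecompProp (Mixed m ℓ w D) C := by
  classical
  obtain ⟨C₀, hdec⟩ := decomposition_gen m ℓ w hpath hpair
  have hℓ : 0 < ℓ := Nat.pos_of_ne_zero (NeZero.ne ℓ)
  set V := ℓ ^ (D + 1) with hV
  have hV1 : 1 ≤ V := Nat.pow_pos hℓ
  refine ⟨((V + 4) * (C₀ + 1) + 5) * (C₃ + 1) + 4 * (C₀ + 1), ?_⟩
  set C := ((V + 4) * (C₀ + 1) + 5) * (C₃ + 1) + 4 * (C₀ + 1) with hC
  intro n k lam M P hP T hT hn
  choose P₁ P₂ hP12 hP1 hP2 using hP
  set U := M + k + lam + 1 with hU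
  have hU1 : 1 ≤ U := by omega
  set M₁ := pb C₀ (M + k + (lam + 1) + V + 1) with hM₁
  have hM₁U : M₁ ≤ pb ((V + 4) * (C₀ + 1)) U := by
    have e1 : M + k + (lam + 1) + V + 1 ≤ pb (V + 2 + 1) U := by
      refine le_trans ?_ (mul_le_pb (V + 2) hU1)
      nlinarith
    exact (pb_mono le_rfl (by omega) e1).trans (pb_pb _ _ hU1)
  obtain ⟨Q₁, hQv, hQc, hQd⟩ := heq M₁ P₂ hP2 T hT (by
    have e1 : 1 * U ≤ pb 2 U := mul_le_pb 1 hU1
    have e2 : pb ((V + 4) * (C₀ + 1)) U + pb 2 U ≤ pb ((V + 4) * (C₀ + 1) + 2 + 2) U :=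
      pb_add_pb _ _ hU1
    have e3 : M₁ + k + lam + 1 ≤ pb ((V + 4) * (C₀ + 1) + 2 + 2) U := by omega
    calc pb C₃ (M₁ + k + lam + 1) ≤ pb C₃ (pb ((V + 4) * (C₀ + 1) + 2 + 2) U) :=
          pb_mono le_rfl (by omega) e3
      _ ≤ pb (((V + 4) * (C₀ + 1) + 2 + 2 + 1) * (C₃ + 1)) U := pb_pb _ _ hU1
      _ ≤ pb C U := by
          refine pb_mono ?_ hU1 le_rfl
          rw [hC, show (V + 4) * (C₀ + 1) + 2 + 2 + 1 = (V + 4) * (C₀ + 1) + 5 by ring]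
          omega
      _ ≤ n := hn)
  obtain ⟨B, M', Q₂, hB, hM', hpw, hconst, hdens⟩ := hdec (n := M₁) M V (Q₁.pw fun _ => 1) hV1 hQv
    (fun i t => P₁ i (Q₁.emb t)) (fun i => (hP1 i).comp_emb Q₁)
    (univ.filter fun t => Q₁.emb t ∈ T) hQd le_rfl
  refine ⟨B, M', Q₁.comp Q₂, ?_, hM', fun j => ?_, fun i => ?_, ?_⟩
  · set u := k + lam + 1 with hu
    have hu1 : 1 ≤ u := by omega
    have e1 : 2 * u ≤ pb 3 u := mul_le_pb 2 hu1
    calc B ≤ pb C₀ (k + (lam + 1) + 1) := hB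
      _ ≤ pb C₀ (pb 3 u) := pb_mono le_rfl (by omega) (by omega)
      _ ≤ pb ((3 + 1) * (C₀ + 1)) u := pb_pb _ _ hu1
      _ ≤ pb C u := pb_mono (by rw [hC]; omega) hu1 le_rfl
  · rw [BCube.pw_comp]; exact hpw j
  · simp only [BCube.emb_comp]
    rcases hQc i with h2 | h2
    · rcases hconst i with h1 | h1
      · exact Or.inl fun t => (hP12 i _).2 ⟨h1 t, h2 _⟩
      · exact Or.inr fun t h => h1 t ((hP12 i _).1 h).1
    · exact Or.inr fun t h => h2 _ ((hP12 i _).1 h).2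
  · simp only [BCube.emb_comp]
    simpa only [Finset.mem_filter, Finset.mem_univ, true_and] using hdens

/-- The final theorem, from the path theorem, the pairing theorem and the decomposition theorem
for systems of equations. -/
theorem final_of (p : ℕ) [Fact p.Prime] (m : ℕ) [NeZero m] (ℓ : ℕ) [NeZero ℓ] (w D d : ℕ)
    {C₁ C₂ C₃ : ℕ} (hpath : PathProp m ℓ w C₁) (hpair : PairProp m ℓ C₂) (heq : EqProp m ℓ D C₃) :
    ∃ K : ℕ, ∀ n k s t : ℕ, 1 ≤ k →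
      ∀ (C : Fin t → (Fin k → Bool) → RS.Circuit (Fin n ⊕ Fin k) s)
        (P : Fin t → Fin k → (Fin n → Bool) → Bool),
        (∀ i b, (C i b).level (C i b).out + 1 ≤ d) →
        (∀ i j, AndOfTests m w D n (P i j)) →
        (∀ x : Fin n → Bool,
          (∃ i, (C i fun j => P i j x).Accepts p (Sum.elim x fun j => P i j x)) ↔
            n ≤ 2 * (Finset.univ.filter fun i => x i = true).card) →
        (n : ℝ) ≤ (K * k * Real.log (s + t + n)) ^ K := by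
  obtain ⟨C₀, hdec⟩ := mixed_decomp m ℓ w D hpath hpair heq
  obtain ⟨K, hK⟩ := majority_of_decomp p d hdec
  exact ⟨K, fun n k s t hk C P hlevel hP hmaj => hK n k s t hk C P hlevel
    (fun i j => (hP i j).mixed ℓ) hmaj⟩

end Pool.Agent.QuadSys
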