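import Pool.Agent.QuadSys.DecompFun
import Pool.Agent.QuadSys.Majority

/-!
# Correlation with counting modulo a prime, from a decomposition theorem for real functions
-/

set_option autoImplicit false

namespace Pool.Agent.QuadSys

open Finset Pool.Agent.Helper21.LinSys

/-- The number of ones. -/
def ones {n : ℕ} (x : Fin n → Bool) : ℕ := (univ.filter fun i => x i = true).card

theorem sum_char_emb {n M r : ℕ} [NeZero r] (hr : r.Prime) (Q : BCube n M)
    (hQ : Indiv r (Q.pw fun _ => 1)) (a : ZMod r) (ha : a ≠ 0) :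
    ‖∑ t, (ZMod.stdAddChar (a * (ones (Q.emb t) : ZMod r)) : ℂ)‖ ≤ 2 ^ M * rho r ^ M := by
  classical
  have : Fact r.Prime := ⟨hr⟩
  have h1 : ∀ t, (ones (Q.emb t) : ZMod r) = ((Q.bw fun _ => 1 : ℤ) : ZMod r) +
      ev (fun j => ((Q.pw (fun _ => 1) j : ℤ) : ZMod r)) t := by
    intro t
    have h2 : ((ones (Q.emb t) : ℕ) : ℤ) = Q.bw (fun _ => 1) + wsum (Q.pw fun _ => 1) t := by
      rw [← BCube.wsum_emb, wsum_one]
      rfl
    have h3 : ((ones (Q.emb t) : ℕ) : ZMod r) = (((ones (Q.emb t) : ℕ) : ℤ) : ZMod r) := by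
      push_cast; rfl
    rw [h3, h2, ev_eq]
    unfold wsum
    push_cast
    rfl
  have h2 : ∀ t, (ZMod.stdAddChar (a * (ones (Q.emb t) : ZMod r)) : ℂ) =
      ZMod.stdAddChar (a * ((Q.bw fun _ => 1 : ℤ) : ZMod r)) *
        ZMod.stdAddChar (ev (fun j => a * ((Q.pw (fun _ => 1) j : ℤ) : ZMod r)) t) := by
    intro t
    rw [h1, mul_add, AddChar.map_add_eq_mul]
    congr 2
    rw [ev_eq, ev_eq, Finset.mul_sum]
    exact Finset.sum_congr rfl fun j _ => by ring
  simp only [h2]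
  rw [← Finset.mul_sum, norm_mul, norm_char, one_mul]
  have h3 : cube (∅ : Finset (Fin M)) (fun _ => false) = univ := by
    ext x; simp [mem_cube]
  have h4 := norm_sum_cube_le (fun j => a * ((Q.pw (fun _ => 1) j : ℤ) : ZMod r)) ∅
    (fun _ => false) M (by
      have h5 : (univ.filter fun i : Fin M => i ∉ (∅ : Finset (Fin M)) ∧
          a * ((Q.pw (fun _ => 1) i : ℤ) : ZMod r) ≠ 0) = univ := by
        refine Finset.filter_true_of_mem fun i _ => ⟨Finset.notMem_empty i, ?_⟩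
        refine mul_ne_zero ha fun h => hQ i ?_
        exact (ZMod.intCast_zmod_eq_zero_iff_dvd _ _).1 h
      rw [h5, Finset.card_univ, Fintype.card_fin])
  rw [h3, Finset.compl_empty, Finset.card_univ, Fintype.card_fin] at h4
  exact h4

/-- Exponentially small correlation with counting modulo `r`, for functions that have small
correlation on large block cubes once the conditions are replaced by constants. -/
theorem corr_bound {m : ℕ} {𝒢 : ∀ n : ℕ, ((Fin n → Bool) → Prop) → Prop} {C₀ : ℕ}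
    (hdec : DecompFun m 𝒢 C₀) (K₁ : ℕ) :
    ∃ K : ℕ, ∀ {n k lam σ r : ℕ} [NeZero r], r.Prime → ¬ r ∣ 2 * m →
      ∀ (P : Fin k → (Fin n → Bool) → Bool), (∀ j, 𝒢 n fun x => P j x = true) →
      ∀ (G : (Fin n → Bool) → (Fin k → Bool) → Bool) (a : ZMod r),
      (∀ (b : Fin k → Bool) {M lam' : ℕ} (Q : BCube n M), Indiv r (Q.pw fun _ => 1) →
        pb K₁ (lam' + r + σ + 1) ≤ M →
        ‖∑ t, if G (Q.emb t) b = true then
          (ZMod.stdAddChar (a * (ones (Q.emb t) : ZMod r)) : ℂ) else 0‖ ≤ 2 ^ M / 2 ^ lam') →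
      pb K (k + lam + σ + r + 1) ≤ n →
      ‖∑ x : Fin n → Bool, if G x (fun j => P j x) = true then
        (ZMod.stdAddChar (a * (ones x : ZMod r)) : ℂ) else 0‖ ≤ 2 ^ n / 2 ^ lam := by
  classical
  refine ⟨((C₀ + 5) * (K₁ + 1) + 8) * (C₀ + 1), ?_⟩
  intro n k lam σ r _ hr hr2m P hP G a hG hn
  by_contra hcon
  push Not at hcon
  set z : ℂ := ∑ x : Fin n → Bool, if G x (fun j => P j x) = true then
    (ZMod.stdAddChar (a * (ones x : ZMod r)) : ℂ) else 0 with hz
  have hz0 : 0 < ‖z‖ := lt_of_le_of_lt (by positivity) hcon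
  set ω : ℂ := (starRingEnd ℂ) z / ‖z‖ with hω
  have hωn : ‖ω‖ = 1 := by
    rw [hω, norm_div, RCLike.norm_conj, Complex.norm_real, norm_norm, div_self hz0.ne']
  set f : (Fin n → Bool) → ℝ := fun x => if G x (fun j => P j x) = true then
    (ω * (ZMod.stdAddChar (a * (ones x : ZMod r)) : ℂ)).re else 0 with hf
  have hf1 : ∀ x, |f x| ≤ 1 := by
    intro x
    rw [hf]
    dsimp only
    split
    · refine (Complex.abs_re_le_norm _).trans ?_
      rw [norm_mul, hωn, norm_char, one_mul]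
    · simp
  have hfs : ∑ x, f x = ‖z‖ := by
    have h1 : ∑ x, f x = (ω * z).re := by
      rw [hz, Finset.mul_sum, Complex.re_sum]
      refine Finset.sum_congr rfl fun x _ => ?_
      rw [hf]
      dsimp only
      split
      · rfl
      · simp
    rw [h1, hω, div_mul_eq_mul_div, mul_comm, Complex.mul_conj, Complex.normSq_eq_norm_sq]
    rw [← Complex.ofReal_div, Complex.ofReal_re]
    field_simp
  have hfn : (2 : ℝ) ^ n ≤ 2 ^ lam * ∑ x, f x := by
    rw [hfs]
    rw [div_lt_iff₀ (by positivity)] at hcon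
    linarith
  -- the dimension
  set u := k + lam + σ + r + 1 with hu
  have hu1 : 1 ≤ u := by omega
  set B₀ := pb C₀ (k + lam + 1) with hB₀
  set M := pb K₁ (B₀ + 1 + r + σ + 1) with hM
  have hB₀u : B₀ ≤ pb C₀ u := pb_mono le_rfl (by omega) (by omega)
  have hMu : M + k + lam + r + 1 ≤ pb ((C₀ + 5) * (K₁ + 1) + 4) u := by
    have e1 : 1 * u ≤ pb 2 u := mul_le_pb 1 hu1
    have e2 : pb C₀ u + pb 2 u ≤ pb (C₀ + 2 + 2) u := pb_add_pb _ _ hu1
    have e3 : B₀ + 1 + r + σ + 1 ≤ pb (C₀ + 4) u := by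
      have e4 : pb (C₀ + 2 + 2) u = pb (C₀ + 4) u := rfl
      have e5 : 1 ≤ k + lam := by
        by_contra h0
        have h00 : k = 0 ∧ lam = 0 := by omega
        have h01 : ‖z‖ ≤ 2 ^ n := by
          rw [hz]
          refine (norm_sum_le _ _).trans ?_
          have h02 : ∀ x ∈ (univ : Finset (Fin n → Bool)),
              ‖(if G x (fun j => P j x) = true then
                (ZMod.stdAddChar (a * (ones x : ZMod r)) : ℂ) else 0)‖ ≤ 1 := by
            intro x _
            split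
            · rw [norm_char]
            · simp
          refine (Finset.sum_le_sum h02).trans ?_
          simp
        rw [h00.2] at hcon
        simp at hcon
        linarith
      omega
    have e6 : M ≤ pb ((C₀ + 4 + 1) * (K₁ + 1)) u :=
      (pb_mono le_rfl (by omega) e3).trans (pb_pb _ _ hu1)
    have e7 : pb ((C₀ + 4 + 1) * (K₁ + 1)) u + pb 2 u ≤ pb ((C₀ + 4 + 1) * (K₁ + 1) + 2 + 2) u :=
      pb_add_pb _ _ hu1
    have e8 : (C₀ + 4 + 1) * (K₁ + 1) + 2 + 2 = (C₀ + 5) * (K₁ + 1) + 4 := by ring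
    rw [e8] at e7
    omega
  obtain ⟨B, M', Q, hB, hMM', hpw, hconst, hdens⟩ := hdec M r (fun _ => 1) hr hr2m
    (fun i h => hr.one_lt.ne' (by
      have h1 : (r : ℤ) ∣ 1 := h
      have h2 : r ∣ 1 := by exact_mod_cast h1
      exact Nat.dvd_one.1 h2))
    (fun j x => P j x = true) hP f hf1 hfn (by
      refine (pb_mono le_rfl (by omega) hMu).trans ((pb_pb _ _ hu1).trans (le_trans ?_ hn))
      exact pb_mono (Nat.mul_le_mul_right _ (by omega)) hu1 le_rfl)
  -- the conditions are constant on the block cube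
  have hPb : ∀ t, (fun j => P j (Q.emb t)) = fun j => P j Q.base := by
    intro t
    funext j
    rcases hconst j with h1 | h1
    · have e1 := h1 t
      have e2 := h1 fun _ => false
      rw [BCube.emb_false] at e2
      exact e1.trans e2.symm
    · have e1 := h1 t
      have e2 := h1 fun _ => false
      rw [BCube.emb_false] at e2
      simp only [Bool.not_eq_true] at e1 e2
      exact e1.trans e2.symm
  have hpos : (0 : ℝ) < 2 ^ M' := by positivity
  have h1 : ∑ t, f (Q.emb t) ≤ 2 ^ M' / 2 ^ (B₀ + 1) := by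
    have h2 : ∑ t, f (Q.emb t) =
        (ω * ∑ t, if G (Q.emb t) (fun j => P j Q.base) = true then
          (ZMod.stdAddChar (a * (ones (Q.emb t) : ZMod r)) : ℂ) else 0).re := by
      rw [Finset.mul_sum, Complex.re_sum]
      refine Finset.sum_congr rfl fun t _ => ?_
      rw [hf]
      dsimp only
      rw [hPb t]
      split
      · rfl
      · simp
    rw [h2]
    refine (Complex.re_le_norm _).trans ?_
    rw [norm_mul, hωn, one_mul]
    exact hG _ Q hpw hMM'
  have h3 : (2 : ℝ) ^ B ≤ 2 ^ B₀ := pow_le_pow_right₀ (by norm_num) hB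
  have h4 : (2 : ℝ) ^ M' ≤ 2 ^ B₀ * (2 ^ M' / 2 ^ (B₀ + 1)) := by
    have h5 : 0 ≤ ∑ t, f (Q.emb t) := by
      by_contra hneg
      push Not at hneg
      have h6 : (0 : ℝ) < 2 ^ B := by positivity
      nlinarith
    calc (2 : ℝ) ^ M' ≤ 2 ^ B * ∑ t, f (Q.emb t) := hdens
      _ ≤ 2 ^ B₀ * (2 ^ M' / 2 ^ (B₀ + 1)) := mul_le_mul h3 h1 h5 (by positivity)
  have h5 : (2 : ℝ) ^ B₀ * (2 ^ M' / 2 ^ (B₀ + 1)) = 2 ^ M' / 2 := by
    rw [pow_succ]; field_simp
  linarith

/-- The complete sum is small. -/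
theorem sum_char_emb_le {n M r lam : ℕ} [NeZero r] (hr : r.Prime) (Q : BCube n M)
    (hQ : Indiv r (Q.pw fun _ => 1)) (a : ZMod r) (ha : a ≠ 0) (hM : pb 3 (lam + r + 1) ≤ M) :
    ‖∑ t, (ZMod.stdAddChar (a * (ones (Q.emb t) : ZMod r)) : ℂ)‖ ≤ 2 ^ M / 2 ^ lam := by
  refine (sum_char_emb hr Q hQ a ha).trans ?_
  rw [div_eq_mul_inv]
  refine mul_le_mul_of_nonneg_left ?_ (by positivity)
  have hr0 : (0 : ℝ) < (r : ℝ) := by exact_mod_cast hr.pos
  have h1 : lam * r ^ 2 ≤ M := by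
    refine le_trans ?_ hM
    unfold pb
    have h2 : lam * r ^ 2 ≤ (lam + r + 1) * (lam + r + 1) ^ 2 :=
      Nat.mul_le_mul (by omega) (Nat.pow_le_pow_left (by omega) 2)
    calc lam * r ^ 2 ≤ (lam + r + 1) * (lam + r + 1) ^ 2 := h2
      _ = (lam + r + 1) ^ 3 := by ring
      _ ≤ (3 * (lam + r + 1)) ^ 3 := Nat.pow_le_pow_left (by omega) 3
  have h1R : (lam : ℝ) * r ^ 2 ≤ M := by exact_mod_cast h1
  have h2 : rho r ^ M = Real.exp (-(M * (2 / (r : ℝ) ^ 2))) := by
    unfold rho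
    rw [← Real.exp_nat_mul]
    congr 1
    ring
  have h3 : ((2 : ℝ) ^ lam)⁻¹ = (1 / 2) ^ lam := by
    rw [one_div, inv_pow]
  have h4 : Real.exp (-(2 * lam : ℝ)) ≤ (1 / 2) ^ lam := by
    have h12 : Real.exp (-(2 * lam : ℝ)) = Real.exp (-2) ^ lam := by
      rw [← Real.exp_nat_mul]; congr 1; ring
    rw [h12]
    refine pow_le_pow_left₀ (Real.exp_pos _).le ?_ _
    rw [Real.exp_neg, one_div]
    refine inv_anti₀ (by norm_num) ?_
    have := Real.add_one_le_exp (2 : ℝ)
    linarith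
  rw [h2, h3]
  refine le_trans (Real.exp_le_exp.2 ?_) h4
  have h5 : (2 : ℝ) * lam ≤ M * (2 / (r : ℝ) ^ 2) := by
    rw [mul_div_assoc', le_div_iff₀ (by positivity)]
    nlinarith
  linarith

end Pool.Agent.QuadSys
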