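import Pool.Agent.QuadSys.Basics

/-!
# Counting points of nodes by characters
-/

set_option autoImplicit false

namespace Pool.Agent.QuadSys

open Finset Pool.Agent.Helper21.LinSys

/-- The combination of the functions `p s` with coefficients `a`, modulo `m`. -/
def comb {m w n : ℕ} (p : Fin w → (Fin n → Bool) → ℤ) (a : Fin w → ZMod m) (x : Fin n → Bool) :
    ZMod m := ∑ s, a s * ((p s x : ℤ) : ZMod m)

/-- The node of the path: points of a linear fibre at which the quadratic polynomials `q` have the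
same values modulo `m` as at `y`. -/
noncomputable def node {ℓ n N : ℕ} (m : ℕ) (Γ : AddSubgroup (Fin n → ZMod ℓ)) (S : Finset (Fin n))
    (q : Fin N → (Fin n → Bool) → ℤ) (y : Fin n → Bool) : Finset (Fin n → Bool) :=
  (fibz Γ S y y).filter fun x => ∀ j, ((q j x : ℤ) : ZMod m) = q j y

section
variable {m n N w : ℕ}

theorem comb_add (p : Fin w → (Fin n → Bool) → ℤ) (a b : Fin w → ZMod m) (x : Fin n → Bool) :
    comb p (a + b) x = comb p a x + comb p b x := by
  simp only [comb, Pi.add_apply, add_mul, Finset.sum_add_distrib]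

theorem comb_zero (p : Fin w → (Fin n → Bool) → ℤ) (x : Fin n → Bool) :
    comb p (0 : Fin w → ZMod m) x = 0 := by
  simp [comb]

/-- The combination, as a homomorphism in the coefficients. -/
def combHom (p : Fin w → (Fin n → Bool) → ℤ) (x : Fin n → Bool) : (Fin w → ZMod m) →+ ZMod m where
  toFun a := comb p a x
  map_zero' := comb_zero p x
  map_add' a b := comb_add p a b x

@[simp] theorem combHom_apply (p : Fin w → (Fin n → Bool) → ℤ) (x : Fin n → Bool)
    (a : Fin w → ZMod m) : combHom p x a = comb p a x := rfl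

theorem comb_append (q : Fin N → (Fin n → Bool) → ℤ) (p : Fin w → (Fin n → Bool) → ℤ)
    (b : Fin N → ZMod m) (a : Fin w → ZMod m) (x : Fin n → Bool) :
    comb (Fin.append q p) (Fin.append b a) x = comb q b x + comb p a x := by
  unfold comb
  rw [Fin.sum_univ_add]
  simp

/-- Combinations of quadratic polynomials are quadratic polynomials. -/
theorem exists_quad_comb [NeZero m] {q : Fin N → (Fin n → Bool) → ℤ} (hq : ∀ j, IsQuad (q j))
    (b : Fin N → ZMod m) : ∃ φ : (Fin n → Bool) → ℤ, IsQuad φ ∧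
      ∀ x, ((φ x : ℤ) : ZMod m) = comb q b x := by
  refine ⟨fun x => ∑ j, ((b j).val : ℤ) * q j x,
    IsQuad.sum _ fun j _ => (hq j).const_mul _, fun x => ?_⟩
  unfold comb
  push_cast
  refine Finset.sum_congr rfl fun j _ => ?_
  rw [ZMod.natCast_zmod_val]

/-- Summation over a subgroup of coefficients detects equality of all combinations. -/
theorem sum_comb_group [NeZero m] (p : Fin w → (Fin n → Bool) → ℤ)
    (H : AddSubgroup (Fin w → ZMod m)) (x y : Fin n → Bool)
    [Decidable (∀ a ∈ H, comb p a x = comb p a y)] [Fintype H] :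
    ∑ a : H, (ZMod.stdAddChar (comb p (a : Fin w → ZMod m) x) : ℂ) *
      ZMod.stdAddChar (-comb p (a : Fin w → ZMod m) y) =
      if ∀ a ∈ H, comb p a x = comb p a y then (Nat.card H : ℂ) else 0 := by
  classical
  let ψ : AddChar H ℂ := ZMod.stdAddChar.compAddMonoidHom
    ((combHom p x - combHom p y : (Fin w → ZMod m) →+ ZMod m).comp H.subtype)
  have hψ : ∀ a : H, ψ a = (ZMod.stdAddChar (comb p (a : Fin w → ZMod m) x) : ℂ) *
      ZMod.stdAddChar (-comb p (a : Fin w → ZMod m) y) := by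
    intro a
    rw [← AddChar.map_add_eq_mul, ← sub_eq_add_neg]
    rfl
  rw [← Finset.sum_congr rfl fun a _ => hψ a, AddChar.sum_eq_ite, Nat.card_eq_fintype_card]
  have h0 : ψ = 0 ↔ ∀ a ∈ H, comb p a x = comb p a y := by
    rw [AddChar.eq_zero_iff]
    constructor
    · intro h a ha
      have h1 := h ⟨a, ha⟩
      have h2 : (ZMod.stdAddChar (comb p a x - comb p a y) : ℂ) =
          ZMod.stdAddChar (0 : ZMod m) := by
        rw [AddChar.map_zero_eq_one]
        exact h1
      exact sub_eq_zero.1 (ZMod.injective_stdAddChar h2)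
    · intro h a
      rw [hψ, h a a.2, ← AddChar.map_add_eq_mul, add_neg_cancel, AddChar.map_zero_eq_one]
  by_cases h : ∀ a ∈ H, comb p a x = comb p a y
  · rw [if_pos h, if_pos (h0.2 h)]
  · rw [if_neg h, if_neg (fun hc => h (h0.1 hc))]

theorem comb_single (p : Fin w → (Fin n → Bool) → ℤ) (s : Fin w) (x : Fin n → Bool) :
    comb p (Pi.single s (1 : ZMod m)) x = ((p s x : ℤ) : ZMod m) := by
  unfold comb
  rw [Finset.sum_eq_single s]
  · simp
  · intro b _ hb
    rw [Pi.single_eq_of_ne hb, zero_mul]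
  · intro h
    exact absurd (Finset.mem_univ s) h

theorem forall_comb_iff (p : Fin w → (Fin n → Bool) → ℤ) (x y : Fin n → Bool) :
    (∀ a ∈ (⊤ : AddSubgroup (Fin w → ZMod m)), comb p a x = comb p a y) ↔
      ∀ s, ((p s x : ℤ) : ZMod m) = p s y := by
  constructor
  · intro h s
    rw [← comb_single, ← comb_single]
    exact h _ trivial
  · intro h a _
    unfold comb
    exact Finset.sum_congr rfl fun s _ => by rw [h s]

/-- **Equidistribution.** If the combinations outside the group `Hq` have small exponential sums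
over `Y`, and those in `Hq` are constant on `Y`, then the number of points of `Y` with given
values of the `q j` is as expected. -/
theorem card_eq_of_bias [NeZero m] (q : Fin N → (Fin n → Bool) → ℤ)
    (Hq : AddSubgroup (Fin N → ZMod m)) (Y : Finset (Fin n → Bool)) (y : Fin n → Bool) (δ : ℝ)
    (hδ : 0 ≤ δ) (h1 : ∀ b ∈ Hq, ∀ x ∈ Y, comb q b x = comb q b y)
    (h2 : ∀ b, b ∉ Hq → ‖∑ x ∈ Y, (ZMod.stdAddChar (comb q b x) : ℂ)‖ ≤ δ) :
    |(((Y.filter fun x => ∀ j, ((q j x : ℤ) : ZMod m) = q j y).card : ℝ) * m ^ N) -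
      Nat.card Hq * Y.card| ≤ m ^ N * δ := by
  classical
  set Z := Y.filter fun x => ∀ j, ((q j x : ℤ) : ZMod m) = q j y with hZ
  -- the double sum
  have e1 : ((Z.card : ℂ) * m ^ N) = ∑ b : Fin N → ZMod m,
      (∑ x ∈ Y, (ZMod.stdAddChar (comb q b x) : ℂ)) * ZMod.stdAddChar (-comb q b y) := by
    have a1 : ∀ b : Fin N → ZMod m, (∑ x ∈ Y, (ZMod.stdAddChar (comb q b x) : ℂ)) *
        ZMod.stdAddChar (-comb q b y) = ∑ x ∈ Y, (ZMod.stdAddChar (comb q b x) : ℂ) *
        ZMod.stdAddChar (-comb q b y) := fun b => Finset.sum_mul _ _ _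
    rw [Finset.sum_congr rfl fun b _ => a1 b, Finset.sum_comm]
    have a2 : ∀ x ∈ Y, (∑ b : Fin N → ZMod m, (ZMod.stdAddChar (comb q b x) : ℂ) *
        ZMod.stdAddChar (-comb q b y)) =
        if ∀ j, ((q j x : ℤ) : ZMod m) = q j y then (m : ℂ) ^ N else 0 := by
      intro x _
      have a3 := sum_comb_group q (⊤ : AddSubgroup (Fin N → ZMod m)) x y
      rw [show (∑ b : Fin N → ZMod m, (ZMod.stdAddChar (comb q b x) : ℂ) *
        ZMod.stdAddChar (-comb q b y)) = ∑ a : (⊤ : AddSubgroup (Fin N → ZMod m)),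
          (ZMod.stdAddChar (comb q (a : Fin N → ZMod m) x) : ℂ) *
          ZMod.stdAddChar (-comb q (a : Fin N → ZMod m) y) from
        (Fintype.sum_equiv AddSubgroup.topEquiv.toEquiv _ _ fun a => rfl).symm, a3]
      have a4 : (Nat.card (⊤ : AddSubgroup (Fin N → ZMod m)) : ℂ) = (m : ℂ) ^ N := by
        rw [AddSubgroup.card_top, Nat.card_eq_fintype_card, Fintype.card_fun, ZMod.card,
          Fintype.card_fin]
        push_cast
        rfl
      rw [a4]
      by_cases h : ∀ j, ((q j x : ℤ) : ZMod m) = q j y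
      · rw [if_pos ((forall_comb_iff q x y).2 h), if_pos h]
      · rw [if_neg (fun hc => h ((forall_comb_iff q x y).1 hc)), if_neg h]
    rw [Finset.sum_congr rfl a2, ← Finset.sum_filter, Finset.sum_const, nsmul_eq_mul]
  have e2 : ((Nat.card Hq : ℂ) * Y.card) = ∑ b : Fin N → ZMod m,
      if b ∈ Hq then (Y.card : ℂ) else 0 := by
    rw [← Finset.sum_filter, Finset.sum_const, nsmul_eq_mul]
    congr 2
    rw [Nat.card_eq_fintype_card, Fintype.card_subtype]
  have e3 : ∀ b : Fin N → ZMod m, ‖(∑ x ∈ Y, (ZMod.stdAddChar (comb q b x) : ℂ)) *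
      ZMod.stdAddChar (-comb q b y) - (if b ∈ Hq then (Y.card : ℂ) else 0)‖ ≤ δ := by
    intro b
    by_cases hb : b ∈ Hq
    · rw [if_pos hb, Finset.sum_mul]
      have : ∀ x ∈ Y, (ZMod.stdAddChar (comb q b x) : ℂ) * ZMod.stdAddChar (-comb q b y) = 1 := by
        intro x hx
        rw [h1 b hb x hx, ← AddChar.map_add_eq_mul, add_neg_cancel, AddChar.map_zero_eq_one]
      rw [Finset.sum_congr rfl this, Finset.sum_const, nsmul_eq_mul]
      simpa using hδ
    · rw [if_neg hb, sub_zero, norm_mul, norm_char, mul_one]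
      exact h2 b hb
  have e4 : ‖((Z.card : ℂ) * m ^ N) - ((Nat.card Hq : ℂ) * Y.card)‖ ≤ m ^ N * δ := by
    rw [e1, e2, ← Finset.sum_sub_distrib]
    refine (norm_sum_le _ _).trans ((Finset.sum_le_sum fun b _ => e3 b).trans (le_of_eq ?_))
    rw [Finset.sum_const, nsmul_eq_mul, Finset.card_univ, Fintype.card_fun, ZMod.card,
      Fintype.card_fin]
    push_cast
    rfl
  have e5 : ((Z.card : ℂ) * m ^ N) - ((Nat.card Hq : ℂ) * Y.card) =
      (((Z.card : ℝ) * m ^ N - Nat.card Hq * Y.card : ℝ) : ℂ) := by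
    push_cast
    ring
  rw [e5, Complex.norm_real, Real.norm_eq_abs] at e4
  exact e4

/-- Exponential sums over a linear fibre are bounded by those over the subcube. -/
theorem norm_sum_fibz_le {ℓ : ℕ} [NeZero ℓ] (Γ : AddSubgroup (Fin n → ZMod ℓ))
    (S : Finset (Fin n)) (y : Fin n → Bool) (f : (Fin n → Bool) → ℂ) (δ : ℝ)
    (h : ∀ L ∈ Γ, ‖∑ x ∈ cube S y, f x * ZMod.stdAddChar (ev L x)‖ ≤ δ) :
    ‖∑ x ∈ fibz Γ S y y, f x‖ ≤ δ := by
  classical
  have : Fintype Γ := Fintype.ofFinite _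
  have e1 : (Nat.card Γ : ℂ) * ∑ x ∈ fibz Γ S y y, f x =
      ∑ L : Γ, (∑ x ∈ cube S y, f x * ZMod.stdAddChar (ev (L : Fin n → ZMod ℓ) x)) *
        ZMod.stdAddChar (-ev (L : Fin n → ZMod ℓ) y) := by
    have a1 : ∀ L : Γ, (∑ x ∈ cube S y, f x * ZMod.stdAddChar (ev (L : Fin n → ZMod ℓ) x)) *
        ZMod.stdAddChar (-ev (L : Fin n → ZMod ℓ) y) = ∑ x ∈ cube S y, f x *
        ((ZMod.stdAddChar (ev (L : Fin n → ZMod ℓ) x) : ℂ) *
        ZMod.stdAddChar (-ev (L : Fin n → ZMod ℓ) y)) := by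
      intro L
      rw [Finset.sum_mul]
      exact Finset.sum_congr rfl fun x _ => by ring
    rw [Finset.sum_congr rfl fun L _ => a1 L, Finset.sum_comm]
    have a2 : ∀ x ∈ cube S y, (∑ L : Γ, f x *
        ((ZMod.stdAddChar (ev (L : Fin n → ZMod ℓ) x) : ℂ) *
        ZMod.stdAddChar (-ev (L : Fin n → ZMod ℓ) y))) =
        if ∀ L ∈ Γ, ev L x = ev L y then (Nat.card Γ : ℂ) * f x else 0 := by
      intro x _
      rw [← Finset.mul_sum, sum_char_group Γ x y]
      split <;> ring
    rw [Finset.sum_congr rfl a2, ← Finset.sum_filter, ← Finset.mul_sum]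
    congr 1
    refine Finset.sum_congr ?_ fun _ _ => rfl
    unfold fibz
    ext x
    simp only [Finset.mem_filter]
  have e2 : (Nat.card Γ : ℝ) * ‖∑ x ∈ fibz Γ S y y, f x‖ ≤ Nat.card Γ * δ := by
    have : ‖(Nat.card Γ : ℂ) * ∑ x ∈ fibz Γ S y y, f x‖ =
        (Nat.card Γ : ℝ) * ‖∑ x ∈ fibz Γ S y y, f x‖ := by
      rw [norm_mul, Complex.norm_natCast]
    rw [← this, e1]
    refine (norm_sum_le _ _).trans ?_
    have a3 : ∀ L : Γ, ‖(∑ x ∈ cube S y, f x * ZMod.stdAddChar (ev (L : Fin n → ZMod ℓ) x)) *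
        ZMod.stdAddChar (-ev (L : Fin n → ZMod ℓ) y)‖ ≤ δ := by
      intro L
      rw [norm_mul, norm_char, mul_one]
      exact h L L.2
    refine (Finset.sum_le_sum fun L _ => a3 L).trans (le_of_eq ?_)
    rw [Finset.sum_const, nsmul_eq_mul, Finset.card_univ, Nat.card_eq_fintype_card]
  have h3 : (0 : ℝ) < Nat.card Γ := by exact_mod_cast (Nat.card_pos (α := Γ))
  exact le_of_mul_le_mul_left e2 h3

/-- Exponential sums over the points of a set at which the combinations of a group have the same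
values as at `y`. -/
theorem norm_sum_filter_le [NeZero m] (p : Fin w → (Fin n → Bool) → ℤ)
    (H : AddSubgroup (Fin w → ZMod m)) (X : Finset (Fin n → Bool)) (y : Fin n → Bool)
    [DecidablePred fun x => ∀ a ∈ H, comb p a x = comb p a y]
    (f : (Fin n → Bool) → ℂ) (δ : ℝ)
    (h : ∀ a ∈ H, ‖∑ x ∈ X, f x * ZMod.stdAddChar (comb p a x)‖ ≤ δ) :
    ‖∑ x ∈ X.filter (fun x => ∀ a ∈ H, comb p a x = comb p a y), f x‖ ≤ δ := by
  classical
  have : Fintype H := Fintype.ofFinite _
  have e1 : (Nat.card H : ℂ) * ∑ x ∈ X.filter (fun x => ∀ a ∈ H, comb p a x = comb p a y), f x =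
      ∑ a : H, (∑ x ∈ X, f x * ZMod.stdAddChar (comb p (a : Fin w → ZMod m) x)) *
        ZMod.stdAddChar (-comb p (a : Fin w → ZMod m) y) := by
    have a1 : ∀ a : H, (∑ x ∈ X, f x * ZMod.stdAddChar (comb p (a : Fin w → ZMod m) x)) *
        ZMod.stdAddChar (-comb p (a : Fin w → ZMod m) y) = ∑ x ∈ X, f x *
        ((ZMod.stdAddChar (comb p (a : Fin w → ZMod m) x) : ℂ) *
        ZMod.stdAddChar (-comb p (a : Fin w → ZMod m) y)) := by
      intro a
      rw [Finset.sum_mul]
      exact Finset.sum_congr rfl fun x _ => by ring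
    rw [Finset.sum_congr rfl fun a _ => a1 a, Finset.sum_comm]
    have a2 : ∀ x ∈ X, (∑ a : H, f x *
        ((ZMod.stdAddChar (comb p (a : Fin w → ZMod m) x) : ℂ) *
        ZMod.stdAddChar (-comb p (a : Fin w → ZMod m) y))) =
        if ∀ a ∈ H, comb p a x = comb p a y then (Nat.card H : ℂ) * f x else 0 := by
      intro x _
      rw [← Finset.mul_sum, sum_comb_group p H x y]
      split <;> ring
    rw [Finset.sum_congr rfl a2, ← Finset.sum_filter, ← Finset.mul_sum]
  have e2 : (Nat.card H : ℝ) *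
      ‖∑ x ∈ X.filter (fun x => ∀ a ∈ H, comb p a x = comb p a y), f x‖ ≤ Nat.card H * δ := by
    have : ‖(Nat.card H : ℂ) *
        ∑ x ∈ X.filter (fun x => ∀ a ∈ H, comb p a x = comb p a y), f x‖ =
        (Nat.card H : ℝ) *
        ‖∑ x ∈ X.filter (fun x => ∀ a ∈ H, comb p a x = comb p a y), f x‖ := by
      rw [norm_mul, Complex.norm_natCast]
    rw [← this, e1]
    refine (norm_sum_le _ _).trans ?_
    have a3 : ∀ a : H, ‖(∑ x ∈ X, f x * ZMod.stdAddChar (comb p (a : Fin w → ZMod m) x)) *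
        ZMod.stdAddChar (-comb p (a : Fin w → ZMod m) y)‖ ≤ δ := by
      intro a
      rw [norm_mul, norm_char, mul_one]
      exact h a a.2
    refine (Finset.sum_le_sum fun a _ => a3 a).trans (le_of_eq ?_)
    rw [Finset.sum_const, nsmul_eq_mul, Finset.card_univ, Nat.card_eq_fintype_card]
  have h3 : (0 : ℝ) < Nat.card H := by exact_mod_cast (Nat.card_pos (α := H))
  exact le_of_mul_le_mul_left e2 h3

end

end Pool.Agent.QuadSys
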