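import Pool.Agent.QuadSys.CountFinal
import Pool.Agent.SW.Defs

/-!
# Counting modulo a prime against majorities of AC0 circuits above unbounded systems of quadratic
# conditions
-/

set_option autoImplicit false

namespace Pool.Agent.QuadSys

open Finset Pool.Agent.Helper21.LinSys Pool.Agent.RS

open Classical in
/-- The statement of the correlation bound for circuits without counting gates. -/
def Ac0CorrProp (d K : ℕ) : Prop :=
  ∀ {V : Type} [Fintype V] {M s r lam : ℕ} [NeZero r] (p : ℕ)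
    (C : Circuit V s) (inp : (Fin M → Bool) → V → Bool), NoMod C → C.level C.out + 1 ≤ d →
    (∀ v, (∃ b, ∀ t, inp t v = b) ∨ ∃ (j : Fin M) (b : Bool), ∀ t, inp t v = xor b (t j)) →
    r.Prime → ∀ c : Fin M → ZMod r, (∀ j, c j ≠ 0) →
    pb K (lam + r + Nat.clog 2 s + 1) ≤ M →
    ‖∑ t, if C.Accepts p (inp t) then (ZMod.stdAddChar (ev c t) : ℂ) else 0‖ ≤ 2 ^ M / 2 ^ lam

theorem counting_ac0_of (m : ℕ) [NeZero m] (w D d : ℕ) {K₁ : ℕ} (hac : Ac0CorrProp d K₁) :
    ∃ K : ℕ, ∀ n k s t r : ℕ, r.Prime → ¬ r ∣ 2 * m → 1 ≤ k →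
      ∀ (C : Fin t → (Fin k → Bool) → Circuit (Fin n ⊕ Fin k) s)
        (P : Fin t → Fin k → (Fin n → Bool) → Bool),
        (∀ i b, NoMod (C i b)) → (∀ i b, (C i b).level (C i b).out + 1 ≤ d) →
        (∀ i j, AndOfTests m w D n (P i j)) →
        (∀ x : Fin n → Bool,
          t ≤ 2 * Nat.card {i // (C i fun j => P i j x).Accepts 2 (Sum.elim x fun j => P i j x)} ↔
            r ∣ (Finset.univ.filter fun i => x i = true).card) →
        (n : ℝ) ≤ (K * k * r * Real.log (s + t + 2)) ^ K := by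
  classical
  obtain ⟨C₀, hdec⟩ := mixed_decomp m w D
  obtain ⟨K, hK⟩ := corr_bound hdec (K₁ + 3)
  refine ⟨40 * (K + 3 + 1), ?_⟩
  intro n k s t r hr hr2m hk C P hC hd hP hmaj
  have : NeZero r := ⟨hr.ne_zero⟩
  have hr2 := hr.two_le
  by_contra hcon
  set lam := Nat.clog 2 (12 * r * t + 2 * r + 1) with hlam
  have hlam2 : 12 * r * t + 2 * r + 1 ≤ 2 ^ lam := Nat.le_pow_clog (by norm_num) _
  have hs0 : (0 : ℝ) ≤ s := Nat.cast_nonneg _
  have ht0 : (0 : ℝ) ≤ t := Nat.cast_nonneg _
  have hbig : pb (K + 3) (k + lam + Nat.clog 2 s + r + 1) ≤ n := by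
    by_contra h
    push Not at h
    refine hcon ?_
    have h2 : Real.log 2 ≤ Real.log ((s : ℝ) + t + 2) :=
      Real.log_le_log (by norm_num) (by linarith)
    have h3 := Real.log_two_gt_d9
    have h1 := final_real (K := K + 3) (n := n) (k := k) (t := t) (r := r) (σ := Nat.clog 2 s)
      (sg := Real.log (s + t + 2)) hk hr2 (by
        rcases Nat.lt_or_ge s 3 with hs | hs
        · have h4 : Nat.clog 2 s ≤ 1 := Nat.clog_le_of_le_pow (by omega)
          have h5 : (Nat.clog 2 s : ℝ) ≤ 1 := by exact_mod_cast h4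
          linarith
        · have h4 := clog_le_log (N := s) hs
          have h5 : Real.log s ≤ Real.log (s + t + 2) :=
            Real.log_le_log (by positivity) (by linarith)
          linarith) (by linarith)
        (Real.log_le_log (by positivity) (by linarith)) h
    exact h1
  have huniv : ∀ {M lam' : ℕ} (Q : BCube n M), Indiv r (Q.pw fun _ => 1) →
      ∀ a : ZMod r, a ≠ 0 → pb 3 (lam' + r + 1) ≤ M →
      ‖∑ t, (ZMod.stdAddChar (a * (ones (Q.emb t) : ZMod r)) : ℂ)‖ ≤ 2 ^ M / 2 ^ lam' :=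
    fun Q hQ a ha hM => sum_char_emb_le hr Q hQ a ha hM
  -- the bound on block cubes for circuits
  have hcirc : ∀ (i : Fin t) (b : Fin k → Bool) {M lam' : ℕ} (Q : BCube n M),
      Indiv r (Q.pw fun _ => 1) → ∀ a : ZMod r, a ≠ 0 →
      pb K₁ (lam' + r + Nat.clog 2 s + 1) ≤ M →
      ‖∑ t, if (C i b).Accepts 2 (Sum.elim (Q.emb t) b) then
        (ZMod.stdAddChar (a * (ones (Q.emb t) : ZMod r)) : ℂ) else 0‖ ≤ 2 ^ M / 2 ^ lam' := by
    intro i b M lam' Q hQ a ha hM
    have : Fact r.Prime := ⟨hr⟩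
    have h1 : ∀ t, (ones (Q.emb t) : ZMod r) = ((Q.bw fun _ => 1 : ℤ) : ZMod r) +
        ev (fun j => ((Q.pw (fun _ => 1) j : ℤ) : ZMod r)) t := by
      intro t
      have h2 : ((ones (Q.emb t) : ℕ) : ℤ) = Q.bw (fun _ => 1) + wsum (Q.pw fun _ => 1) t := by
        rw [← BCube.wsum_emb, wsum_one]
        rfl
      have h3 : ((ones (Q.emb t) : ℕ) : ZMod r) = (((ones (Q.emb t) : ℕ) : ℤ) : ZMod r) := by
        push_cast; rfl
      rw [h3, h2, ev_eq]
      unfold wsum
      push_cast
      rfl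
    have h2 : ∀ t, (ZMod.stdAddChar (a * (ones (Q.emb t) : ZMod r)) : ℂ) =
        ZMod.stdAddChar (a * ((Q.bw fun _ => 1 : ℤ) : ZMod r)) *
          ZMod.stdAddChar (ev (fun j => a * ((Q.pw (fun _ => 1) j : ℤ) : ZMod r)) t) := by
      intro t
      rw [h1, mul_add, AddChar.map_add_eq_mul]
      congr 2
      rw [ev_eq, ev_eq, Finset.mul_sum]
      exact Finset.sum_congr rfl fun j _ => by ring
    have h3 : ∀ t, (if (C i b).Accepts 2 (Sum.elim (Q.emb t) b) then
        (ZMod.stdAddChar (a * (ones (Q.emb t) : ZMod r)) : ℂ) else 0) =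
        ZMod.stdAddChar (a * ((Q.bw fun _ => 1 : ℤ) : ZMod r)) *
        (if (C i b).Accepts 2 (Sum.elim (Q.emb t) b) then
          (ZMod.stdAddChar (ev (fun j => a * ((Q.pw (fun _ => 1) j : ℤ) : ZMod r)) t) : ℂ)
          else 0) := by
      intro t
      rw [h2 t]
      split_ifs
      · rfl
      · simp
    simp only [h3]
    rw [← Finset.mul_sum, norm_mul, norm_char, one_mul]
    have h4 := hac (V := Fin n ⊕ Fin k) (M := M) (s := s) (r := r) (lam := lam') 2 (C i b)
      (fun t => Sum.elim (Q.emb t) b) (hC i b) (hd i b) (by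
        rintro (j | j)
        · rcases h : Q.blk j with _ | l
          · exact Or.inl ⟨Q.base j, fun t => BCube.emb_none h t⟩
          · exact Or.inr ⟨l, Q.base j, fun t => BCube.emb_some h t⟩
        · exact Or.inl ⟨b j, fun t => rfl⟩) hr
      (fun j => a * ((Q.pw (fun _ => 1) j : ℤ) : ZMod r)) (fun j => mul_ne_zero ha fun h =>
        hQ j ((ZMod.intCast_zmod_eq_zero_iff_dvd _ _).1 h)) hM
    convert h4 using 6
  refine not_majority (lam := lam) hr
    (fun i x => decide ((C i fun j => P i j x).Accepts 2 (Sum.elim x fun j => P i j x)))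
    ?_ ?_ hlam2 ?_
  · -- the full cube
    intro a ha
    have h1 := hK (k := k) (lam := lam) (σ := Nat.clog 2 s) (r := r) (n := n) hr hr2m
      (fun _ _ => true) (fun j => AndOfTests.mixed (2 * m) ⟨∅, by simp, by simp⟩)
      (fun _ _ => true) a (by
        intro b M lam' Q hQ hM
        simp only [if_true]
        exact huniv Q hQ a ha ((pb_mono (by omega) (by omega) (by omega)).trans hM))
      ((pb_mono (by omega) (by omega) le_rfl).trans hbig)
    simpa using h1
  · intro i a ha
    have h1 := hK (k := k) (lam := lam) (σ := Nat.clog 2 s) (r := r) (n := n) hr hr2m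
      (P i) (fun j => (hP i j).mixed (2 * m))
      (fun x b => decide ((C i b).Accepts 2 (Sum.elim x b))) a (by
        intro b M lam' Q hQ hM
        simp only [decide_eq_true_eq]
        exact hcirc i b Q hQ a ha ((pb_mono (by omega) (by omega) (by omega)).trans hM))
      ((pb_mono (by omega) (by omega) le_rfl).trans hbig)
    exact h1
  · intro x
    have h1 := hmaj x
    rw [Nat.card_eq_fintype_card, Fintype.card_subtype] at h1
    simp only [decide_eq_true_eq]
    exact h1

end Pool.Agent.QuadSys
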