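import Pool.Agent.QuadSys.CountAC
import Pool.Agent.SW.Corr

/-!
# Counting modulo a prime against majorities of AC0 circuits above unbounded systems of quadratic
# conditions: the theorem
-/

set_option autoImplicit false

namespace Pool.Agent.QuadSys

open Finset Pool.Agent.Helper21.LinSys Pool.Agent.RS

theorem counting_ac0 (m : ℕ) [NeZero m] (w D d : ℕ) :
    ∃ K : ℕ, ∀ n k s t r : ℕ, r.Prime → ¬ r ∣ 2 * m → 1 ≤ k →
      ∀ (C : Fin t → (Fin k → Bool) → Circuit (Fin n ⊕ Fin k) s)
        (P : Fin t → Fin k → (Fin n → Bool) → Bool),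
        (∀ i b, NoMod (C i b)) → (∀ i b, (C i b).level (C i b).out + 1 ≤ d) →
        (∀ i j, AndOfTests m w D n (P i j)) →
        (∀ x : Fin n → Bool,
          t ≤ 2 * Nat.card {i // (C i fun j => P i j x).Accepts 2 (Sum.elim x fun j => P i j x)} ↔
            r ∣ (Finset.univ.filter fun i => x i = true).card) →
        (n : ℝ) ≤ (K * k * r * Real.log (s + t + 2)) ^ K := by
  obtain ⟨K₁, hK₁⟩ : ∃ K, Ac0CorrProp d K := SW.ac0_corr d
  exact counting_ac0_of m w D d hK₁

end Pool.Agent.QuadSys
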