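import Pool.Agent.QuadSys.PhaseFun
import Pool.Agent.QuadSys.Gates

/-!
# The decomposition theorem for real functions
-/

set_option autoImplicit false

namespace Pool.Agent.QuadSys

open Finset Pool.Agent.Helper21.LinSys

theorem decomp_fun_aux (m : ℕ) [NeZero m] (ℓ : ℕ) [NeZero ℓ] (w : ℕ) {C₀ : ℕ}
    (hphase : ∀ {n k ρ h lam : ℕ} (M r : ℕ) (v : Fin n → ℤ), r.Prime → ¬ r ∣ ℓ → Indiv r v →
      ∀ (P : Fin k → (Fin n → Bool) → Prop),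
      (∀ i, (∀ x, ¬ P i x) ∨ CertQ m ℓ w ρ h (P i)) →
      ∀ f : (Fin n → Bool) → ℝ, (∀ x, |f x| ≤ 1) → (2 : ℝ) ^ n ≤ 2 ^ lam * ∑ x, f x →
      pb C₀ (M + k + lam + ρ + r + 1) ≤ n →
      ∃ (B : ℕ) (Q : BCube n M), B ≤ pb C₀ (k + lam + ρ + 1) ∧
        Indiv r (Q.pw v) ∧
        (∀ i, (∀ t, ¬ P i (Q.emb t)) ∨ CertQ m ℓ w B (2 * h) fun t => P i (Q.emb t)) ∧
        (2 : ℝ) ^ M ≤ 2 ^ B * ∑ t, f (Q.emb t)) (J : ℕ) :
    ∃ C : ℕ, ∀ {n k ρ h lam : ℕ} (M r : ℕ) (v : Fin n → ℤ), r.Prime → ¬ r ∣ ℓ → Indiv r v →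
      m ^ w < 2 ^ J * h →
      ∀ (P : Fin k → (Fin n → Bool) → Prop),
      (∀ i, (∀ x, ¬ P i x) ∨ CertQ m ℓ w ρ h (P i)) →
      ∀ f : (Fin n → Bool) → ℝ, (∀ x, |f x| ≤ 1) → (2 : ℝ) ^ n ≤ 2 ^ lam * ∑ x, f x →
      pb C (M + k + lam + ρ + r + 1) ≤ n →
      ∃ (B M' : ℕ) (Q : BCube n M'), B ≤ pb C (k + lam + ρ + 1) ∧ M ≤ M' ∧
        Indiv r (Q.pw v) ∧
        (∀ i, (∀ t, P i (Q.emb t)) ∨ ∀ t, ¬ P i (Q.emb t)) ∧
        (2 : ℝ) ^ M' ≤ 2 ^ B * ∑ t, f (Q.emb t) := by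
  classical
  induction J with
  | zero =>
    refine ⟨1, ?_⟩
    intro n k ρ h lam M r v hr hrℓ hv hJ P hP f hf hfn hn
    have hpb : ∀ u, pb 1 u = u := fun u => by unfold pb; simp
    rw [hpb] at hn
    have hpw : ∀ j, (BCube.refl n).pw v j = v j := by
      intro j
      unfold BCube.pw BCube.refl
      simp
    refine ⟨lam, n, BCube.refl n, ?_, by omega, fun j => ?_, fun i => ?_, ?_⟩
    · rw [hpb]; omega
    · rw [hpw]; exact hv j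
    · rcases hP i with h1 | h1
      · exact Or.inr fun t => h1 _
      · refine Or.inl fun t => ?_
        by_contra hcon
        obtain ⟨p, H, -, hh, -⟩ := h1 _ hcon
        have h2 : Nat.card H ≤ m ^ w := by
          have h3 : Nat.card (Fin w → ZMod m) = m ^ w := by
            rw [Nat.card_fun, Nat.card_zmod, Nat.card_fin]
          rw [← h3]
          exact Nat.card_le_card_of_injective (fun a : H => (a : Fin w → ZMod m))
            Subtype.val_injective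
        rw [pow_zero, one_mul] at hJ
        omega
    · simp only [BCube.refl_emb]
      exact hfn
  | succ J ih =>
    obtain ⟨C₁, ih⟩ := ih
    set c := 2 * C₀ + 8 with hc
    refine ⟨((c + 1) * (C₁ + 1) + 5) * (C₀ + 1) + (2 * C₀ + 7) * (C₁ + 1), ?_⟩
    set C := ((c + 1) * (C₁ + 1) + 5) * (C₀ + 1) + (2 * C₀ + 7) * (C₁ + 1) with hC
    intro n k ρ h lam M r v hr hrℓ hv hJ P hP f hf hfn hn
    set u := k + lam + ρ + 1 with hu
    set U := M + k + lam + ρ + r + 1 with hU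
    have hu1 : 1 ≤ u := by omega
    have hU1 : 1 ≤ U := by omega
    have huU : u ≤ U := by omega
    set M₁ := pb C₁ (M + k + pb C₀ u + pb C₀ u + r + 1) with hM₁
    have hinner : M + k + pb C₀ u + pb C₀ u + r + 1 ≤ pb c U := by
      have e1 : 1 * U ≤ pb 2 U := mul_le_pb 1 hU1
      have e2 : pb C₀ U + pb C₀ U ≤ pb (C₀ + C₀ + 2) U := pb_add_pb _ _ hU1
      have e3 : pb C₀ u ≤ pb C₀ U := pb_mono le_rfl hu1 huU
      have e5 : pb 2 U + pb (C₀ + C₀ + 2) U ≤ pb (2 + (C₀ + C₀ + 2) + 2) U :=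
        pb_add_pb _ _ hU1
      have e6 : pb (2 + (C₀ + C₀ + 2) + 2) U ≤ pb c U :=
        pb_mono (by rw [hc]; omega) hU1 le_rfl
      omega
    have hM₁le : M₁ ≤ pb ((c + 1) * (C₁ + 1)) U :=
      (pb_mono le_rfl (by omega) hinner).trans (pb_pb _ _ hU1)
    have hn₁ : pb C₀ (M₁ + k + lam + ρ + r + 1) ≤ n := by
      have e1 : 1 * U ≤ pb 2 U := mul_le_pb 1 hU1
      have e2 : pb ((c + 1) * (C₁ + 1)) U + pb 2 U ≤ pb ((c + 1) * (C₁ + 1) + 2 + 2) U :=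
        pb_add_pb _ _ hU1
      have e3 : M₁ + k + lam + ρ + r + 1 ≤ pb ((c + 1) * (C₁ + 1) + 2 + 2) U := by omega
      calc pb C₀ (M₁ + k + lam + ρ + r + 1) ≤ pb C₀ (pb ((c + 1) * (C₁ + 1) + 2 + 2) U) :=
            pb_mono le_rfl (by omega) e3
        _ ≤ pb (((c + 1) * (C₁ + 1) + 2 + 2 + 1) * (C₀ + 1)) U := pb_pb _ _ hU1
        _ ≤ pb C U := by
          refine pb_mono ?_ hU1 le_rfl
          rw [hC, show (c + 1) * (C₁ + 1) + 2 + 2 + 1 = (c + 1) * (C₁ + 1) + 5 by ring]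
          omega
        _ ≤ n := hn
    obtain ⟨B₁, Q₁, hB₁, hQv, hgate, hdens⟩ := hphase M₁ r v hr hrℓ hv P hP f hf hfn hn₁
    have hB₁' : B₁ ≤ pb C₀ u := hB₁
    obtain ⟨B₂, M', Q₂, hB₂, hM', hpw, hconst, hdens₂⟩ := ih (n := M₁) (ρ := B₁) (h := 2 * h)
      (lam := B₁) M r (Q₁.pw v) hr hrℓ hQv
      (by rw [pow_succ] at hJ; rw [← mul_assoc]; exact hJ)
      (fun i t => P i (Q₁.emb t)) hgate (fun t => f (Q₁.emb t)) (fun t => hf _) hdens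
      (pb_mono le_rfl (by omega) (by omega))
    refine ⟨B₂, M', Q₁.comp Q₂, ?_, hM', fun j => ?_, fun i => ?_, ?_⟩
    · have e1 : 1 * u ≤ pb 2 u := mul_le_pb 1 hu1
      have e2 : pb C₀ u + pb C₀ u ≤ pb (C₀ + C₀ + 2) u := pb_add_pb _ _ hu1
      have e3 : pb 2 u + pb (C₀ + C₀ + 2) u ≤ pb (2 + (C₀ + C₀ + 2) + 2) u :=
        pb_add_pb _ _ hu1
      have e4 : 2 + (C₀ + C₀ + 2) + 2 = 2 * C₀ + 6 := by ring
      rw [e4] at e3
      calc B₂ ≤ pb C₁ (k + B₁ + B₁ + 1) := hB₂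
        _ ≤ pb C₁ (pb (2 * C₀ + 6) u) := pb_mono le_rfl (by omega) (by omega)
        _ ≤ pb ((2 * C₀ + 6 + 1) * (C₁ + 1)) u := pb_pb _ _ hu1
        _ ≤ pb C u := by
          refine pb_mono ?_ hu1 le_rfl
          rw [hC, show 2 * C₀ + 6 + 1 = 2 * C₀ + 7 by ring]
          omega
    · rw [BCube.pw_comp]; exact hpw j
    · simp only [BCube.emb_comp]
      exact hconst i
    · simp only [BCube.emb_comp]
      exact hdens₂

theorem CertQ.comp_emb {m ℓ w ρ h n M : ℕ} {P : (Fin n → Bool) → Prop} (hP : CertQ m ℓ w ρ h P)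
    (Q : BCube n M) : CertQ m ℓ w ρ h fun t => P (Q.emb t) := by
  intro t ht
  obtain ⟨p, H, hp, hh, hS, hout⟩ := hP _ ht
  exact ⟨fun s t => p s (Q.emb t), H, fun s => (hp s).comp_emb Q, hh, hS.comp_emb Q,
    fun t' ht' => hout _ ht'⟩

/-- The statement of the decomposition theorem for systems of equations, with constant `C`. -/
def EqRProp (m D C : ℕ) : Prop :=
  ∀ {n k lam : ℕ} (M r : ℕ) (v : Fin n → ℤ), r.Prime → ¬ r ∣ m → Indiv r v →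
    ∀ (P : Fin k → (Fin n → Bool) → Prop), (∀ i, EqSys m D (P i)) →
    ∀ f : (Fin n → Bool) → ℝ, (∀ x, |f x| ≤ 1) → (2 : ℝ) ^ n ≤ 2 ^ lam * ∑ x, f x →
    pb C (M + k + lam + r + 1) ≤ n →
    ∃ Q : BCube n M, Indiv r (Q.pw v) ∧
      (∀ i, (∀ t, P i (Q.emb t)) ∨ ∀ t, ¬ P i (Q.emb t)) ∧
      (2 : ℝ) ^ M ≤ 2 ^ (lam + 1) * ∑ t, f (Q.emb t)

/-- A class of conditions with a decomposition theorem: every real function with a large average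
has a large average on a large block cube on which `k` given conditions are constant, and whose
block weights are not divisible by `r`. -/
def DecompFun (m : ℕ) (𝒢 : ∀ n : ℕ, ((Fin n → Bool) → Prop) → Prop) (C : ℕ) : Prop :=
  ∀ {n k lam : ℕ} (M r : ℕ) (v : Fin n → ℤ), r.Prime → ¬ r ∣ 2 * m → Indiv r v →
    ∀ (P : Fin k → (Fin n → Bool) → Prop), (∀ i, 𝒢 n (P i)) →
    ∀ f : (Fin n → Bool) → ℝ, (∀ x, |f x| ≤ 1) → (2 : ℝ) ^ n ≤ 2 ^ lam * ∑ x, f x →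
    pb C (M + k + lam + r + 1) ≤ n →
    ∃ (B M' : ℕ) (Q : BCube n M'), B ≤ pb C (k + lam + 1) ∧ M ≤ M' ∧
      Indiv r (Q.pw v) ∧
      (∀ i, (∀ t, P i (Q.emb t)) ∨ ∀ t, ¬ P i (Q.emb t)) ∧
      (2 : ℝ) ^ M' ≤ 2 ^ B * ∑ t, f (Q.emb t)

theorem mixed_decomp_fun (m : ℕ) [NeZero m] (w D : ℕ) {C₁ C₂ C₃ : ℕ}
    (hpath : PathFunProp m (2 * m) w C₁) (hpair : PairRProp m (2 * m) C₂)
    (heq : EqRProp m D C₃) :
    ∃ C, DecompFun m (Mixed m (2 * m) w D) C := by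
  classical
  obtain ⟨Cφ, hphase⟩ := phase_fun m (2 * m) w hpath hpair
  obtain ⟨C₀, hdec⟩ := decomp_fun_aux m (2 * m) w hphase (m ^ w)
  refine ⟨(4 * (C₀ + 1) + 5) * (C₃ + 1) + 4 * (C₀ + 1), ?_⟩
  set C := (4 * (C₀ + 1) + 5) * (C₃ + 1) + 4 * (C₀ + 1) with hC
  intro n k lam M r v hr hr2m hv P hP f hf hfn hn
  have hrm : ¬ r ∣ m := fun h => hr2m (h.mul_left 2)
  choose P₁ P₂ hP12 hP1 hP2 using hP
  set U := M + k + lam + r + 1 with hU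
  have hU1 : 1 ≤ U := by omega
  set M₁ := pb C₀ (M + k + (lam + 1) + 0 + r + 1) with hM₁
  have hM₁U : M₁ ≤ pb (4 * (C₀ + 1)) U := by
    have e1 : M + k + (lam + 1) + 0 + r + 1 ≤ pb (2 + 1) U := by
      refine le_trans ?_ (mul_le_pb 2 hU1)
      omega
    exact (pb_mono le_rfl (by omega) e1).trans (pb_pb _ _ hU1)
  obtain ⟨Q₁, hQv, hQc, hQd⟩ := heq M₁ r v hr hrm hv P₂ hP2 f hf hfn (by
    have e1 : 1 * U ≤ pb 2 U := mul_le_pb 1 hU1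
    have e2 : pb (4 * (C₀ + 1)) U + pb 2 U ≤ pb (4 * (C₀ + 1) + 2 + 2) U :=
      pb_add_pb _ _ hU1
    have e3 : M₁ + k + lam + r + 1 ≤ pb (4 * (C₀ + 1) + 2 + 2) U := by omega
    calc pb C₃ (M₁ + k + lam + r + 1) ≤ pb C₃ (pb (4 * (C₀ + 1) + 2 + 2) U) :=
          pb_mono le_rfl (by omega) e3
      _ ≤ pb ((4 * (C₀ + 1) + 2 + 2 + 1) * (C₃ + 1)) U := pb_pb _ _ hU1
      _ ≤ pb C U := by
          refine pb_mono ?_ hU1 le_rfl
          rw [hC, show 4 * (C₀ + 1) + 2 + 2 + 1 = 4 * (C₀ + 1) + 5 by ring]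
          omega
      _ ≤ n := hn)
  have hmw : m ^ w < 2 ^ (m ^ w) * 1 := by rw [mul_one]; exact Nat.lt_two_pow_self
  obtain ⟨B, M', Q₂, hB, hM', hpw, hconst, hdens⟩ := hdec (n := M₁) (ρ := 0) (h := 1) M r
    (Q₁.pw v) hr hr2m hQv hmw
    (fun i t => P₁ i (Q₁.emb t)) (fun i => Or.inr ((hP1 i).comp_emb Q₁))
    (fun t => f (Q₁.emb t)) (fun t => hf _) hQd le_rfl
  refine ⟨B, M', Q₁.comp Q₂, ?_, hM', fun j => ?_, fun i => ?_, ?_⟩
  · set u := k + lam + 1 with hu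
    have hu1 : 1 ≤ u := by omega
    have e1 : 2 * u ≤ pb 3 u := mul_le_pb 2 hu1
    calc B ≤ pb C₀ (k + (lam + 1) + 0 + 1) := hB
      _ ≤ pb C₀ (pb 3 u) := pb_mono le_rfl (by omega) (by omega)
      _ ≤ pb ((3 + 1) * (C₀ + 1)) u := pb_pb _ _ hu1
      _ ≤ pb C u := pb_mono (by rw [hC]; omega) hu1 le_rfl
  · rw [BCube.pw_comp]; exact hpw j
  · simp only [BCube.emb_comp]
    rcases hQc i with h2 | h2
    · rcases hconst i with h1 | h1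
      · exact Or.inl fun t => (hP12 i _).2 ⟨h1 t, h2 _⟩
      · exact Or.inr fun t h => h1 t ((hP12 i _).1 h).1
    · exact Or.inr fun t h => h2 _ ((hP12 i _).1 h).2
  · simp only [BCube.emb_comp]
    exact hdens

end Pool.Agent.QuadSys
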