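import Pool.Agent.QuadSys.PairRLevel

/-!
# Pairing with weights that are not divisible by a prime
-/

set_option autoImplicit false

namespace Pool.Agent.QuadSys

open Finset Pool.Agent.Helper21.LinSys

open Pair in
theorem pairing_r (m : ℕ) [NeZero m] (ℓ : ℕ) [NeZero ℓ] (hℓ : m ∣ ℓ) :
    ∃ C : ℕ, ∀ {n N : ℕ} (M Λ e r : ℕ) (v : Fin n → ℤ), r.Prime → ¬ r ∣ ℓ → Indiv r v →
      ∀ (q : Fin N → (Fin n → Bool) → ℤ), (∀ j, IsQuad (q j)) →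
      ∀ (Γ : AddSubgroup (Fin n → ZMod ℓ)), Nat.card Γ ≤ 2 ^ Λ →
      ∀ (S : Finset (Fin n)) (y : Fin n → Bool) (f : (Fin n → Bool) → ℝ), (∀ x, |f x| ≤ 1) →
      (C * (M + N + Λ + e + r + 1)) ^ C ≤ Sᶜ.card →
      ∃ Q : BCube n M, Indiv r (Q.pw v) ∧
        (∀ t, ∀ i ∈ S, Q.emb t i = y i) ∧
        (∀ L ∈ Γ, ∀ t, ev L (Q.emb t) = ev L Q.base) ∧
        (∀ j t, ((q j (Q.emb t) : ℤ) : ZMod m) = (q j Q.base : ℤ)) ∧
        (∑ x ∈ cube S y, f x) / 2 ^ Sᶜ.card - 1 / 2 ^ e ≤ avg fun t => f (Q.emb t) := by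
  classical
  have hℓpos : 0 < ℓ := Nat.pos_of_ne_zero (NeZero.ne ℓ)
  obtain ⟨A₂, hA₂⟩ : ∃ A₂, A₂ = m + 9 := ⟨_, rfl⟩
  obtain ⟨A₁, hA₁⟩ : ∃ A₁, A₁ = 8 + m * (ℓ ^ 2 * A₂) + 2 * (ℓ ^ 2 * A₂) := ⟨_, rfl⟩
  refine ⟨ℓ ^ 2 * A₂ * (ℓ ^ 2 * A₁) + 11, ?_⟩
  intro n N M Λ e r v hr hrℓ hv q hq Γ hΓ S y f hf hbig
  have hr0 : 0 < r := hr.pos
  have hrℓpos : 0 < r * ℓ := Nat.mul_pos hr0 hℓpos
  obtain ⟨X, hX⟩ : ∃ X, X = M + N + Λ + e + r + 1 := ⟨_, rfl⟩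
  rw [← hX] at hbig
  have hX1 : 1 ≤ X := by omega
  obtain ⟨L₂, hL₂⟩ : ∃ L₂, L₂ = 6 + Λ + m * N + 2 * (e + 1 + M) := ⟨_, rfl⟩
  obtain ⟨u₂, hu₂⟩ : ∃ u₂, u₂ = (r * ℓ) ^ 2 * L₂ := ⟨_, rfl⟩
  obtain ⟨M', hM'⟩ : ∃ M', M' = M * u₂ := ⟨_, rfl⟩
  obtain ⟨L₁, hL₁⟩ : ∃ L₁, L₁ = 6 + m * (N * M') + 2 * (e + 1 + M') := ⟨_, rfl⟩
  obtain ⟨u₁, hu₁⟩ : ∃ u₁, u₁ = (r * ℓ) ^ 2 * L₁ := ⟨_, rfl⟩
  -- sizes
  have hrX : (r * ℓ) ^ 2 ≤ X ^ 2 * ℓ ^ 2 := by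
    rw [← mul_pow]
    exact Nat.pow_le_pow_left (Nat.mul_le_mul_right _ (by omega)) 2
  have hL₂X : L₂ ≤ A₂ * X := by
    have h1 : m * N ≤ m * X := Nat.mul_le_mul_left _ (by omega)
    calc L₂ ≤ 6 * X + X + m * X + 2 * X := by omega
      _ = A₂ * X := by rw [hA₂]; ring
  have hu₂X : u₂ ≤ ℓ ^ 2 * A₂ * X ^ 3 := by
    rw [hu₂]
    calc (r * ℓ) ^ 2 * L₂ ≤ (X ^ 2 * ℓ ^ 2) * (A₂ * X) := Nat.mul_le_mul hrX hL₂X
      _ = _ := by ring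
  have hM'X : M' ≤ ℓ ^ 2 * A₂ * X ^ 4 := by
    calc M' = M * u₂ := hM'
      _ ≤ X * (ℓ ^ 2 * A₂ * X ^ 3) := Nat.mul_le_mul (by omega) hu₂X
      _ = _ := by ring
  have hX3 : X ≤ X ^ 5 := by
    calc X = X ^ 1 := (pow_one X).symm
      _ ≤ X ^ 5 := Nat.pow_le_pow_right hX1 (by norm_num)
  have hX23 : X ^ 4 ≤ X ^ 5 := Nat.pow_le_pow_right hX1 (by norm_num)
  have hL₁X : L₁ ≤ A₁ * X ^ 5 := by
    have h1 : m * (N * M') ≤ m * (ℓ ^ 2 * A₂) * X ^ 5 := by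
      calc m * (N * M') ≤ m * (X * (ℓ ^ 2 * A₂ * X ^ 4)) :=
            Nat.mul_le_mul_left _ (Nat.mul_le_mul (by omega) hM'X)
        _ = _ := by ring
    have h2 : 2 * M' ≤ 2 * (ℓ ^ 2 * A₂) * X ^ 5 := by
      calc 2 * M' ≤ 2 * (ℓ ^ 2 * A₂ * X ^ 4) := Nat.mul_le_mul_left _ hM'X
        _ ≤ 2 * (ℓ ^ 2 * A₂ * X ^ 5) := Nat.mul_le_mul_left _ (Nat.mul_le_mul_left _ hX23)
        _ = _ := by ring
    calc L₁ ≤ 6 * X ^ 5 + m * (ℓ ^ 2 * A₂) * X ^ 5 + 2 * X ^ 5 +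
          2 * (ℓ ^ 2 * A₂) * X ^ 5 := by omega
      _ = A₁ * X ^ 5 := by rw [hA₁]; ring
  have hM'u₁ : M' * u₁ ≤ Sᶜ.card := by
    refine le_trans ?_ hbig
    obtain ⟨C, hC⟩ : ∃ C, C = ℓ ^ 2 * A₂ * (ℓ ^ 2 * A₁) + 11 := ⟨_, rfl⟩
    rw [← hC]
    have hCX : 1 ≤ C * X := Nat.mul_pos (by omega) hX1
    calc M' * u₁ ≤ (ℓ ^ 2 * A₂ * X ^ 4) * ((X ^ 2 * ℓ ^ 2) * (A₁ * X ^ 5)) := by
          rw [hu₁]
          exact Nat.mul_le_mul hM'X (Nat.mul_le_mul hrX hL₁X)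
      _ = (ℓ ^ 2 * A₂ * (ℓ ^ 2 * A₁)) * X ^ 11 := by ring
      _ ≤ C * X ^ 11 := Nat.mul_le_mul_right _ (by omega)
      _ ≤ C ^ 11 * X ^ 11 := by
          refine Nat.mul_le_mul_right _ ?_
          calc C = C ^ 1 := (pow_one C).symm
            _ ≤ C ^ 11 := Nat.pow_le_pow_right (by omega) (by norm_num)
      _ = (C * X) ^ 11 := by rw [mul_pow]
      _ ≤ (C * X) ^ C := Nat.pow_le_pow_right hCX (by omega)
  -- analytic parameters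
  have hgeo : ∀ L : ℕ, (1 - 1 / ((r * ℓ : ℕ) : ℝ) ^ 2) ^ ((r * ℓ) ^ 2 * L) ≤ (1 / 2 : ℝ) ^ L :=
    fun L => Pool.Agent.RS.geom_bound (r * ℓ) L hrℓpos
  have hmpow : ∀ a : ℕ, (m : ℝ) ^ a ≤ 2 ^ (m * a) := by
    intro a
    have h1 : (m : ℝ) ≤ 2 ^ m := by exact_mod_cast (Nat.lt_two_pow_self (n := m)).le
    calc (m : ℝ) ^ a ≤ (2 ^ m) ^ a := pow_le_pow_left₀ (Nat.cast_nonneg _) h1 a
      _ = 2 ^ (m * a) := by rw [pow_mul]
  have hnat : ∀ a : ℕ, (a : ℝ) ≤ 2 ^ a := by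
    intro a; exact_mod_cast (Nat.lt_two_pow_self (n := a)).le
  have hε₁ : 64 * (m ^ (N * M') : ℕ) * (1 - 1 / ((r * ℓ : ℕ) : ℝ) ^ 2) ^ u₁ ≤
      ((1 : ℝ) / 2 ^ (e + 1 + M')) ^ 2 := by
    rw [hu₁]
    have h0 : (0 : ℝ) ≤ 64 * (m ^ (N * M') : ℕ) := by positivity
    refine (mul_le_mul_of_nonneg_left (hgeo L₁) h0).trans ?_
    have h1 : (64 : ℝ) * (m ^ (N * M') : ℕ) ≤ 2 ^ (6 + m * (N * M')) := by
      push_cast
      calc (64 : ℝ) * (m : ℝ) ^ (N * M') ≤ 2 ^ 6 * 2 ^ (m * (N * M')) := by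
            have e1 := hmpow (N * M')
            have e4 : (64 : ℝ) = 2 ^ 6 := by norm_num
            rw [e4]
            gcongr
        _ = _ := by rw [pow_add]
    calc (64 : ℝ) * (m ^ (N * M') : ℕ) * (1 / 2) ^ L₁ ≤
        2 ^ (6 + m * (N * M')) * (1 / 2) ^ L₁ :=
          mul_le_mul_of_nonneg_right h1 (by positivity)
      _ = (1 / 2 ^ (e + 1 + M')) ^ 2 := by
          rw [hL₁, pow_add _ (6 + m * (N * M')), one_div_pow,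
            one_div_pow, one_div_pow, ← pow_mul, mul_comm (e + 1 + M') 2]
          field_simp
  have hε₂ : 64 * (Nat.card Γ * m ^ N : ℕ) *
      (1 - 1 / ((r * ℓ : ℕ) : ℝ) ^ 2) ^ u₂ ≤ ((1 : ℝ) / 2 ^ (e + 1 + M)) ^ 2 := by
    rw [hu₂]
    have h0 : (0 : ℝ) ≤ 64 * (Nat.card Γ * m ^ N : ℕ) := by positivity
    refine (mul_le_mul_of_nonneg_left (hgeo L₂) h0).trans ?_
    have h1 : (64 : ℝ) * (Nat.card Γ * m ^ N : ℕ) ≤ 2 ^ (6 + Λ + m * N) := by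
      push_cast
      calc (64 : ℝ) * ((Nat.card Γ : ℝ) * (m : ℝ) ^ N) ≤
          2 ^ 6 * (2 ^ Λ * 2 ^ (m * N)) := by
            have e1 := hmpow N
            have e4 : (64 : ℝ) = 2 ^ 6 := by norm_num
            have e5 : (Nat.card Γ : ℝ) ≤ 2 ^ Λ := by exact_mod_cast hΓ
            rw [e4]
            gcongr
        _ = _ := by rw [pow_add, pow_add]; ring
    calc (64 : ℝ) * (Nat.card Γ * m ^ N : ℕ) * (1 / 2) ^ L₂ ≤
        2 ^ (6 + Λ + m * N) * (1 / 2) ^ L₂ :=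
          mul_le_mul_of_nonneg_right h1 (by positivity)
      _ = (1 / 2 ^ (e + 1 + M)) ^ 2 := by
          rw [hL₂, pow_add _ (6 + Λ + m * N), one_div_pow,
            one_div_pow, one_div_pow, ← pow_mul, mul_comm (e + 1 + M) 2]
          field_simp
  have hsmall : ∀ a : ℕ, (0 : ℝ) < 1 / 2 ^ (e + 1 + a) ∧ (1 : ℝ) / 2 ^ (e + 1 + a) ≤ 1 ∧
      (a : ℝ) * (1 / 2 ^ (e + 1 + a)) ≤ 1 / 2 ^ (e + 1) := by
    intro a
    refine ⟨by positivity, ?_, ?_⟩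
    · rw [div_le_one (by positivity)]
      exact one_le_pow₀ (by norm_num)
    · rw [mul_one_div, div_le_div_iff₀ (by positivity) (by positivity), pow_add _ (e + 1) a]
      have := hnat a
      have h2 : (0 : ℝ) < 2 ^ (e + 1) := by positivity
      nlinarith
  -- first level
  obtain ⟨e₁⟩ : Nonempty (Fin M' × Fin u₁ ↪ {x // x ∈ Sᶜ}) := by
    refine Function.Embedding.nonempty_of_card_le ?_
    rw [Fintype.card_prod, Fintype.card_fin, Fintype.card_fin, Fintype.card_coe]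
    exact hM'u₁
  let E₁ : Fin M' × Fin u₁ ↪ Fin n := e₁.trans (Function.Embedding.subtype _)
  have hE₁ : ∀ x, E₁ x ∉ S := fun x => Finset.mem_compl.mp (e₁ x).2
  obtain ⟨z₁, hz₁, hz₁f⟩ := exists_rest E₁ S hE₁ y f
  obtain ⟨p₁, hp₁a, hp₁b, hp₁c⟩ := stage_one_r m ℓ r hℓpos hℓ hr hrℓ E₁ z₁ q hq v hv f hf
    (1 / 2 ^ (e + 1 + M')) (hsmall M').1 (hsmall M').2.1 hε₁
  choose γ lam hlam using hp₁a
  set Q₁ := mkQ E₁ z₁ p₁ with hQ₁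
  -- second level
  obtain ⟨e₂⟩ : Nonempty (Fin M × Fin u₂ ↪ Fin M') := by
    refine Function.Embedding.nonempty_of_card_le ?_
    rw [Fintype.card_prod, Fintype.card_fin, Fintype.card_fin, Fintype.card_fin, hM']
  let P : Γ →+ (Fin M' → ZMod ℓ) :=
    { toFun := fun L => Q₁.pf (L : Fin n → ZMod ℓ)
      map_zero' := by
        funext k
        simp [BCube.pf]
      map_add' := fun L L' => by
        funext k
        simp only [BCube.pf, AddSubgroup.coe_add, Pi.add_apply, add_mul,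
          Finset.sum_add_distrib] }
  obtain ⟨z₂, -, hz₂f⟩ := exists_rest e₂ ∅ (fun _ => Finset.notMem_empty _) (fun _ => false)
    (fun t => f (Q₁.emb t))
  obtain ⟨p₂, hp₂a, hp₂b, hp₂c, hp₂d⟩ := stage_two_r m ℓ r hℓ hr hrℓ e₂ z₂
    P lam (Q₁.pw v) hp₁b (fun t => f (Q₁.emb t)) (fun t => hf _)
    (1 / 2 ^ (e + 1 + M)) (hsmall M).1 (hsmall M).2.1 hε₂
  set Q₂ := mkQ e₂ z₂ p₂ with hQ₂
  refine ⟨Q₁.comp Q₂, ?_, ?_, ?_, ?_, ?_⟩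
  · intro k
    have h1 := hp₂c k
    rw [BCube.pw_comp]
    exact h1
  · intro t i hi
    have hne : ∀ x, E₁ x ≠ i := by
      rintro x rfl; exact hE₁ x hi
    rw [BCube.emb_comp, BCube.emb_none (mkQ_blk_of_ne z₁ p₁ hne)]
    change glue E₁ z₁ (fun k => (p₁ k).1) i = y i
    rw [glue_of_ne _ _ hne, hz₁ i hi]
  · intro L hL t
    have hbase : (Q₁.comp Q₂).base = Q₁.emb Q₂.base := rfl
    rw [BCube.emb_comp, hbase, BCube.ev_emb, BCube.ev_emb, BCube.ev_emb]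
    have h1 : Q₂.pf (Q₁.pf L) = 0 := by
      funext k
      exact hp₂a ⟨L, hL⟩ k
    rw [h1, ev_zero, add_zero]
  · intro j t
    have hbase : (Q₁.comp Q₂).base = Q₁.emb Q₂.base := rfl
    rw [BCube.emb_comp, hbase, hlam, hlam]
    congr 1
    have h1 : ∀ i, lam j i * ((bit (Q₂.emb t i) : ℤ) : ZMod m) =
        lam j i * ((bit (Q₂.base i) : ℤ) : ZMod m) +
        ∑ k, lam j i * ((Q₂.coe i k : ℤ) : ZMod m) * ((bit (t k) : ℤ) : ZMod m) := by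
      intro i
      rw [Q₂.bit_emb t i]
      push_cast
      rw [mul_add, Finset.mul_sum]
      congr 1
      exact Finset.sum_congr rfl fun k _ => by ring
    rw [Finset.sum_congr rfl fun i _ => h1 i, Finset.sum_add_distrib, Finset.sum_comm]
    have h2 : ∑ k, ∑ i, lam j i * ((Q₂.coe i k : ℤ) : ZMod m) * ((bit (t k) : ℤ) : ZMod m) =
        0 := by
      refine Finset.sum_eq_zero fun k _ => ?_
      rw [← Finset.sum_mul, hp₂b j k, zero_mul]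
    rw [h2, add_zero]
  · have h1 : avg (fun t => f ((Q₁.comp Q₂).emb t)) = avg fun t => f (Q₁.emb (Q₂.emb t)) := by
      simp only [BCube.emb_comp]
    rw [h1]
    have h2 : avg (fun t => f (Q₁.emb t)) =
        (∑ t ∈ cube (∅ : Finset (Fin M')) (fun _ => false), f (Q₁.emb t)) /
          2 ^ (∅ : Finset (Fin M'))ᶜ.card := by
      unfold avg
      have h3 : cube (∅ : Finset (Fin M')) (fun _ => false) = Finset.univ := by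
        ext t; simp [mem_cube]
      rw [h3]
      simp
    have h4 := (hsmall M').2.2
    have h5 := (hsmall M).2.2
    have h6 : (1 : ℝ) / 2 ^ e = 1 / 2 ^ (e + 1) + 1 / 2 ^ (e + 1) := by
      rw [pow_succ]; field_simp; norm_num
    rw [← h2] at hz₂f
    rw [h6]
    linarith

end Pool.Agent.QuadSys
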