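import Pool.Agent.QuadSys.Path

/-!
# The path theorem for real functions
-/

set_option autoImplicit false

namespace Pool.Agent.QuadSys

open Finset Pool.Agent.Helper21.LinSys

/-- Some class of a partition has at least the average of the whole set. -/
theorem exists_class_fun {α : Type*} [DecidableEq α] (Y : Finset α) (f : α → ℝ)
    (hY : Y.Nonempty) (cl : α → Finset α) (h1 : ∀ x ∈ Y, x ∈ cl x) (h2 : ∀ x ∈ Y, cl x ⊆ Y)
    (h3 : ∀ x ∈ Y, ∀ x' ∈ cl x, cl x' = cl x) :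
    ∃ x ∈ Y, (∑ a ∈ Y, f a) * (cl x).card ≤ (∑ a ∈ cl x, f a) * Y.card := by
  classical
  by_contra hcon
  push Not at hcon
  have hclass : ∀ c ∈ Y.image cl, Y.filter (fun a => cl a = c) = c := by
    intro c hc
    obtain ⟨u, hu, rfl⟩ := Finset.mem_image.1 hc
    ext a
    rw [Finset.mem_filter]
    constructor
    · rintro ⟨ha, hac⟩
      rw [← hac]
      exact h1 a ha
    · intro ha
      exact ⟨h2 _ hu ha, h3 _ hu a ha⟩
  have hs1 : Y.card = ∑ c ∈ Y.image cl, c.card := by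
    rw [Finset.card_eq_sum_card_image cl Y]
    exact Finset.sum_congr rfl fun c hc => by rw [hclass c hc]
  have hs1' : (Y.card : ℝ) = ∑ c ∈ Y.image cl, (c.card : ℝ) := by exact_mod_cast hs1
  have hs2 : (∑ a ∈ Y, f a) = ∑ c ∈ Y.image cl, ∑ a ∈ c, f a := by
    rw [← Finset.sum_fiberwise_of_maps_to (fun a ha => Finset.mem_image_of_mem cl ha) f]
    exact Finset.sum_congr rfl fun c hc => by rw [hclass c hc]
  have hlt : ∑ c ∈ Y.image cl, (∑ a ∈ c, f a) * (Y.card : ℝ) <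
      ∑ c ∈ Y.image cl, (∑ a ∈ Y, f a) * (c.card : ℝ) := by
    refine Finset.sum_lt_sum_of_nonempty (hY.image cl) fun c hc => ?_
    obtain ⟨u, hu, rfl⟩ := Finset.mem_image.1 hc
    exact hcon u hu
  rw [← Finset.sum_mul, ← Finset.mul_sum, ← hs1', ← hs2] at hlt
  exact lt_irrefl _ hlt

section

variable {m ℓ : ℕ} [NeZero m] [NeZero ℓ]

/-- A node of the path, after `j` steps, with the set `U` of undecided gates and the number `s` of
steps left. -/
structure FState (m ℓ w : ℕ) [NeZero m] [NeZero ℓ] {n k : ℕ} (P : Fin k → (Fin n → Bool) → Prop)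
    (f : (Fin n → Bool) → ℝ) (ρ R ρp c : ℕ) (j : ℕ) (U : Finset (Fin k)) (s : ℕ) where
  N : ℕ
  hN : N ≤ w * j
  q : Fin N → (Fin n → Bool) → ℤ
  hq : ∀ i, IsQuad (q i)
  Γ : AddSubgroup (Fin n → ZMod ℓ)
  S : Finset (Fin n)
  y : Fin n → Bool
  Hq : AddSubgroup (Fin N → ZMod m)
  hReg : Reg Γ S R
  hΓ : Nat.card Γ ≤ ℓ ^ (ρ * j)
  t : ℕ
  hS : S.card ≤ ρ * j + R * t
  ht : 2 ^ t ≤ Nat.card (Γ ⊓ sup ℓ S : AddSubgroup (Fin n → ZMod ℓ))
  hb : ∀ b ∈ Hq, ∀ x ∈ fibz Γ S y y, comb q b x = comb q b y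
  hc : ∀ b, b ∉ Hq → ¬ Struct ℓ (ρp - j * ρ) (fun x => comb q b x)
  hd : ∀ i, i ∉ U → ∀ x ∈ node m Γ S q y, ¬ P i x
  he : (2 * c : ℝ) ^ U.card * (node m Γ S q y).card ≤
    (∑ x ∈ node m Γ S q y, f x) * (1 + 1 / (2 * c : ℝ)) ^ s

/-- One step of the path. -/
theorem FState.step {w n k : ℕ} {P : Fin k → (Fin n → Bool) → Prop}
    {f : (Fin n → Bool) → ℝ} {ρ R ρp c j : ℕ} {U : Finset (Fin k)} {s : ℕ}
    (hf : ∀ x, |f x| ≤ 1) (hc1 : 1 ≤ c) (hprog : Prog m ℓ w c) (st : FState m ℓ w P f ρ R ρp c j U s)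
    (Λ : ℕ) (hΛ : ℓ ^ (ρ * (j + 1)) ≤ 2 ^ Λ) (hR : c * (ρ + 1) * (Λ + 1) ≤ R)
    (hρp : c * (Λ + w * j + (ρ * j + R * Λ) + 1) ^ 2 + (j + 1) * ρ ≤ ρp)
    (i : Fin k) (hi : i ∈ U) (x : Fin n → Bool) (hx : x ∈ node m st.Γ st.S st.q st.y)
    (p : Fin w → (Fin n → Bool) → ℤ) (hp : ∀ s, IsQuad (p s))
    (H : AddSubgroup (Fin w → ZMod m))
    (hH : Struct ℓ ρ (fun x (a : H) => comb p (a : Fin w → ZMod m) x))
    (hPx : ∀ x', (∀ s, ((p s x' : ℤ) : ZMod m) = p s x) → ¬ P i x')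
    (hno : ∀ a, a ∉ H → ∀ b : Fin st.N → ZMod m,
      ¬ Struct ℓ ρp (fun x => comb st.q b x + comb p a x)) :
    Nonempty (FState m ℓ w P f ρ R ρp c (j + 1) (U.erase i) s) ∨
      ∃ s', s = s' + 1 ∧ Nonempty (FState m ℓ w P f ρ R ρp c (j + 1) U s') := by
  classical
  obtain ⟨N, hN, q, hq, Γ, S, y, Hq, hReg, hΓ, t, hS, ht, hb, hc, hd, he⟩ := st
  dsimp only at hx hno
  have hℓ : 0 < ℓ := Nat.pos_of_ne_zero (NeZero.ne ℓ)
  have hxf := (mem_node.1 hx).1
  have hXx := node_eq hx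
  set X := node m Γ S q y with hX
  set W := X.filter (fun x' => ∀ s, ((p s x' : ℤ) : ZMod m) = p s x) with hW
  have hxW : x ∈ W := Finset.mem_filter.2 ⟨hx, fun _ => rfl⟩
  -- size of the group
  have hΓΛ : Nat.card Γ * ℓ ^ ρ ≤ 2 ^ Λ := by
    refine le_trans ?_ hΛ
    rw [Nat.mul_succ, pow_add]
    exact Nat.mul_le_mul_right _ hΓ
  have hℓρ : 1 ≤ ℓ ^ ρ := Nat.one_le_pow _ _ hℓ
  have hΓ2 : Nat.card Γ ≤ 2 ^ Λ := le_trans (Nat.le_mul_of_pos_right _ hℓρ) hΓΛ
  have hcl : Nat.card (Γ ⊓ sup ℓ S : AddSubgroup (Fin n → ZMod ℓ)) ≤ Nat.card Γ :=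
    Nat.card_le_card_of_injective (AddSubgroup.inclusion inf_le_left)
      (AddSubgroup.inclusion_injective _)
  have htΛ : t ≤ Λ := by
    have h1 : 2 ^ t ≤ 2 ^ Λ := ht.trans (hcl.trans hΓ2)
    exact (Nat.pow_le_pow_iff_right (by norm_num)).1 h1
  have hScard : S.card ≤ ρ * j + R * Λ := hS.trans (Nat.add_le_add_left
    (Nat.mul_le_mul_left _ htΛ) _)
  have hthr : c * (Λ + N + S.card + 1) ^ 2 ≤ ρp - (j + 1) * ρ := by
    have h1 : c * (Λ + N + S.card + 1) ^ 2 ≤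
        c * (Λ + w * j + (ρ * j + R * Λ) + 1) ^ 2 :=
      Nat.mul_le_mul_left _ (Nat.pow_le_pow_left (by omega) 2)
    omega
  -- no structured combinations
  have hcomb : ∀ (b : Fin N → ZMod m) (a : Fin w → ZMod m), ¬ (b ∈ Hq ∧ a ∈ H) →
      ¬ Struct ℓ (ρp - (j + 1) * ρ) (fun x => comb q b x + comb p a x) := by
    intro b a hba hstr
    by_cases ha : a ∈ H
    · have hbq : b ∉ Hq := fun h => hba ⟨h, ha⟩
      have h1 : Struct ℓ ρ (fun x => comb p a x) :=
        hH.of_eq fun x x' h => congrFun h ⟨a, ha⟩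
      have h2 := hstr.of_pair h1 (υ := fun x => comb q b x) (fun x x' e1 e2 => by
        rw [e2] at e1
        exact add_right_cancel e1)
      refine hc b hbq (h2.mono (le_of_eq ?_))
      have h3 : (j + 1) * ρ = j * ρ + ρ := by ring
      omega
    · exact hno a ha b (hstr.mono (Nat.sub_le _ _))
  -- progress
  have hXW : X.card ≤ c * W.card := by
    have h1 := hprog n N ρ Γ S x q hq Hq (fun b hb' x' hx' => by
      rw [fibz_eq hxf] at hx'
      rw [hb b hb' x' hx', hb b hb' x hxf]) p hp H hH Λ R hΓΛ hReg hR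
      (fun b a hba hstr => hcomb b a hba (hstr.mono hthr))
    rw [hXx] at h1
    exact h1
  -- the children
  obtain ⟨K, l, hK, hKl⟩ := id hH
  obtain ⟨t', -, S', hSS, hcS', hpow, hor⟩ :=
    regularise (adj Γ l) (S ∪ K) R (Nat.card (adj Γ l))
  have hSS' : S ⊆ S' := Finset.subset_union_left.trans hSS
  have hKS' : K ⊆ S' := Finset.subset_union_right.trans hSS
  have h0 : Nat.card (adj Γ l ⊓ sup ℓ S' : AddSubgroup (Fin n → ZMod ℓ)) ≤
      Nat.card (adj Γ l) :=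
    Nat.card_le_card_of_injective (AddSubgroup.inclusion inf_le_left)
      (AddSubgroup.inclusion_injective _)
  have hreg' : Reg (adj Γ l) S' R := by
    rcases hor with h | h
    · exact h
    · exfalso
      have h1 : 2 ^ t' ≤ Nat.card (adj Γ l) := by
        calc 2 ^ t' ≤ 2 ^ t' * Nat.card (adj Γ l ⊓ sup ℓ (S ∪ K) :
              AddSubgroup (Fin n → ZMod ℓ)) := Nat.le_mul_of_pos_right _ Nat.card_pos
          _ ≤ _ := hpow.trans h0
      rw [h] at h1
      exact absurd Nat.lt_two_pow_self (not_lt.2 h1)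
  have hΓ' : Nat.card (adj Γ l) ≤ ℓ ^ (ρ * (j + 1)) := by
    refine (card_adj_le Γ l).trans ?_
    rw [Nat.mul_succ, pow_add]
    exact Nat.mul_le_mul_right _ hΓ
  have hS'card : S'.card ≤ ρ * (j + 1) + R * (t + t') := by
    have h1 : S'.card = (S' \ (S ∪ K)).card + (S ∪ K).card := by
      rw [Finset.card_sdiff_of_subset hSS]
      have := Finset.card_le_card hSS
      omega
    have h2 := Finset.card_union_le S K
    rw [Nat.mul_succ, Nat.mul_add]
    omega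
  have ht' : 2 ^ (t + t') ≤ Nat.card (adj Γ l ⊓ sup ℓ S' : AddSubgroup (Fin n → ZMod ℓ)) := by
    calc 2 ^ (t + t') = 2 ^ t' * 2 ^ t := by rw [pow_add, mul_comm]
      _ ≤ 2 ^ t' * Nat.card (Γ ⊓ sup ℓ S : AddSubgroup (Fin n → ZMod ℓ)) :=
          Nat.mul_le_mul_left _ ht
      _ ≤ 2 ^ t' * Nat.card (adj Γ l ⊓ sup ℓ (S ∪ K) : AddSubgroup (Fin n → ZMod ℓ)) := by
          refine Nat.mul_le_mul_left _ ?_
          have hle : (Γ ⊓ sup ℓ S : AddSubgroup (Fin n → ZMod ℓ)) ≤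
              adj Γ l ⊓ sup ℓ (S ∪ K) :=
            inf_le_inf (le_adj Γ l) (sup_mono Finset.subset_union_left)
          exact Nat.card_le_card_of_injective (AddSubgroup.inclusion hle)
            (AddSubgroup.inclusion_injective _)
      _ ≤ _ := hpow
  set q' : Fin (N + w) → (Fin n → Bool) → ℤ := Fin.append q p with hq'
  have hq'q : ∀ i, IsQuad (q' i) := by
    intro i
    refine Fin.addCases (fun i => ?_) (fun i => ?_) i
    · rw [hq', Fin.append_left]; exact hq i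
    · rw [hq', Fin.append_right]; exact hp i
  let πl : (Fin (N + w) → ZMod m) →+ (Fin N → ZMod m) :=
    { toFun := fun b i => b (Fin.castAdd w i)
      map_zero' := rfl
      map_add' := fun _ _ => rfl }
  let πr : (Fin (N + w) → ZMod m) →+ (Fin w → ZMod m) :=
    { toFun := fun b i => b (Fin.natAdd N i)
      map_zero' := rfl
      map_add' := fun _ _ => rfl }
  set Hq' : AddSubgroup (Fin (N + w) → ZMod m) := Hq.comap πl ⊓ H.comap πr with hHq'
  have hmemH : ∀ b, b ∈ Hq' ↔ πl b ∈ Hq ∧ πr b ∈ H := fun b => Iff.rfl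
  have hdec : ∀ b : Fin (N + w) → ZMod m, b = Fin.append (πl b) (πr b) := by
    intro b
    funext i
    refine Fin.addCases (fun i => ?_) (fun i => ?_) i
    · rw [Fin.append_left]; rfl
    · rw [Fin.append_right]; rfl
  have hcombq' : ∀ (b : Fin (N + w) → ZMod m) (x : Fin n → Bool),
      comb q' b x = comb q (πl b) x + comb p (πr b) x := by
    intro b x
    conv_lhs => rw [hdec b]
    exact comb_append q p _ _ x
  -- properties of the classes
  have hcl_mem : ∀ z, z ∈ node m (adj Γ l) S' q' z := fun z => self_mem_node _ _ _ z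
  have hcl_q : ∀ z, ∀ u ∈ node m (adj Γ l) S' q' z,
      (∀ j, ((q j u : ℤ) : ZMod m) = q j z) ∧ ∀ j, ((p j u : ℤ) : ZMod m) = p j z := by
    intro z u hu
    have h1 := (mem_node.1 hu).2
    refine ⟨fun j => ?_, fun j => ?_⟩
    · have h2 := h1 (Fin.castAdd w j)
      rw [hq', Fin.append_left] at h2
      exact h2
    · have h2 := h1 (Fin.natAdd N j)
      rw [hq', Fin.append_right] at h2
      exact h2
  have hcl_fib : ∀ z, ∀ u ∈ node m (adj Γ l) S' q' z, u ∈ fibz Γ S z z := by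
    intro z u hu
    have h1 := (mem_node.1 hu).1
    rw [mem_fibz] at h1 ⊢
    exact ⟨fun i hi => h1.1 i (hSS' hi), fun L hL => h1.2 L (le_adj Γ l hL)⟩
  have hclX : ∀ z ∈ X, node m (adj Γ l) S' q' z ⊆ X := by
    intro z hz u hu
    have h1 : u ∈ node m Γ S q z := mem_node.2 ⟨hcl_fib z u hu, (hcl_q z u hu).1⟩
    rw [node_eq hz] at h1
    exact h1
  have hclW : ∀ z ∈ W, node m (adj Γ l) S' q' z ⊆ W := by
    intro z hz u hu
    obtain ⟨hz1, hz2⟩ := Finset.mem_filter.1 hz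
    exact Finset.mem_filter.2 ⟨hclX z hz1 hu, fun s => ((hcl_q z u hu).2 s).trans (hz2 s)⟩
  have hclXW : ∀ z ∈ X \ W, node m (adj Γ l) S' q' z ⊆ X \ W := by
    intro z hz u hu
    obtain ⟨hz1, hz2⟩ := Finset.mem_sdiff.1 hz
    refine Finset.mem_sdiff.2 ⟨hclX z hz1 hu, fun huW => hz2 ?_⟩
    refine Finset.mem_filter.2 ⟨hz1, fun s => ?_⟩
    rw [← (hcl_q z u hu).2 s]
    exact (Finset.mem_filter.1 huW).2 s
  have hfib_child : ∀ z ∈ X, ∀ b ∈ Hq', ∀ u ∈ fibz (adj Γ l) S' z z,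
      comb q' b u = comb q' b z := by
    intro z hz b hb' u hu
    rw [hmemH] at hb'
    rw [hcombq', hcombq']
    rw [mem_fibz] at hu
    congr 1
    · have hzf := (mem_node.1 hz).1
      have huf : u ∈ fibz Γ S y y := by
        rw [← fibz_eq hzf, mem_fibz]
        exact ⟨fun i hi => hu.1 i (hSS' hi), fun L hL => hu.2 L (le_adj Γ l hL)⟩
      rw [hb _ hb'.1 u huf, hb _ hb'.1 z hzf]
    · exact congrFun (hKl u z (fun i hi => hu.1 i (hKS' hi))
        (fun j => hu.2 _ (mem_adj Γ l j))) ⟨πr b, hb'.2⟩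
  have hc' : ∀ b, b ∉ Hq' → ¬ Struct ℓ (ρp - (j + 1) * ρ) (fun x => comb q' b x) := by
    intro b hb' hstr
    refine hcomb (πl b) (πr b) (fun h => hb' ((hmemH b).2 h)) ?_
    have : (fun x => comb q' b x) = fun x => comb q (πl b) x + comb p (πr b) x :=
      funext fun x => hcombq' b x
    rw [this] at hstr
    exact hstr
  have hN' : N + w ≤ w * (j + 1) := by
    rw [Nat.mul_succ]
    omega
  -- sizes
  have hcR : (1 : ℝ) ≤ c := by exact_mod_cast hc1
  have hXpos : (0 : ℝ) < X.card := by exact_mod_cast Finset.card_pos.2 ⟨x, hx⟩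
  have hWpos : (0 : ℝ) < W.card := by exact_mod_cast Finset.card_pos.2 ⟨x, hxW⟩
  have hWX : W ⊆ X := Finset.filter_subset _ _
  have hTsplit : ∑ x ∈ X, f x = ∑ x ∈ W, f x + ∑ x ∈ X \ W, f x := by
    rw [add_comm, Finset.sum_sdiff hWX]
  have hXsplit : (X.card : ℝ) = W.card + (X \ W).card := by
    have h1 : X.card = W.card + (X \ W).card := by
      rw [Finset.card_sdiff_of_subset hWX]
      have := Finset.card_le_card hWX
      omega
    exact_mod_cast h1
  have hXWr : (X.card : ℝ) ≤ c * W.card := by exact_mod_cast hXW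
  have hg : (0 : ℝ) < (1 + 1 / (2 * c : ℝ)) := by positivity
  rcases le_or_gt (∑ x ∈ X, f x) (2 * c * ∑ x ∈ W, f x) with hcase | hcase
  · -- the gate is decided
    left
    obtain ⟨z, hzW, hz⟩ := exists_class_fun W f ⟨x, hxW⟩ (fun z => node m (adj Γ l) S' q' z)
      (fun z _ => hcl_mem z) hclW (fun z _ u hu => node_eq hu)
    have hzX := hWX hzW
    refine ⟨⟨N + w, hN', q', hq'q, adj Γ l, S', z, Hq', hreg', hΓ', t + t', hS'card, ht',
      fun b hb' u hu => hfib_child z hzX b hb' u hu, hc', ?_, ?_⟩⟩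
    · intro i' hi' u hu
      by_cases hii : i' = i
      · rw [hii]
        refine hPx u fun s => ?_
        exact (Finset.mem_filter.1 (hclW z hzW hu)).2 s
      · exact hd i' (fun h => hi' (Finset.mem_erase.2 ⟨hii, h⟩)) u (hclX z hzX hu)
    · have hU : U.card = (U.erase i).card + 1 := by
        rw [Finset.card_erase_of_mem hi]
        have := Finset.card_pos.2 ⟨i, hi⟩
        omega
      rw [hU, pow_succ] at he
      exact arith_b (by linarith) (pow_nonneg (by linarith) _) (pow_nonneg hg.le _)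
        (Nat.cast_nonneg _) hWpos (by exact_mod_cast Finset.card_le_card hWX) he hcase hz
  · -- density increment
    right
    have hgs : (0 : ℝ) < (1 + 1 / (2 * c : ℝ)) ^ s := pow_pos hg _
    have hTX : 0 < ∑ x ∈ X, f x := by
      have h1 : (0 : ℝ) < (2 * c : ℝ) ^ U.card * X.card :=
        mul_pos (pow_pos (by linarith) _) hXpos
      exact pos_of_mul_pos_left (lt_of_lt_of_le h1 he) hgs.le
    have hdiff : (0 : ℝ) < ∑ x ∈ X \ W, f x := by
      have h2 : (2 : ℝ) ≤ 2 * c := by linarith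
      by_contra hcon
      push Not at hcon
      have h3 : 0 < ∑ x ∈ W, f x := by linarith
      nlinarith
    have hne : (X \ W).Nonempty := by
      by_contra hcon
      rw [Finset.not_nonempty_iff_eq_empty] at hcon
      rw [hcon, Finset.sum_empty] at hdiff
      exact lt_irrefl _ hdiff
    obtain ⟨z, hzXW, hz⟩ := exists_class_fun (X \ W) f hne
      (fun z => node m (adj Γ l) S' q' z) (fun z _ => hcl_mem z) hclXW
      (fun z _ u hu => node_eq hu)
    have hzX := (Finset.mem_sdiff.1 hzXW).1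
    have hUpos : 1 ≤ U.card := Finset.card_pos.2 ⟨i, hi⟩
    have hclpos : (0 : ℝ) < (node m (adj Γ l) S' q' z).card := by
      exact_mod_cast Finset.card_pos.2 ⟨z, hcl_mem z⟩
    have hDpos : (0 : ℝ) < (X \ W).card := by
      exact_mod_cast Finset.card_pos.2 hne
    have hTcl : 0 ≤ ∑ x ∈ node m (adj Γ l) S' q' z, f x := by
      have h1 := lt_of_lt_of_le (mul_pos hdiff hclpos) hz
      exact (pos_of_mul_pos_left h1 hDpos.le).le
    obtain ⟨s', rfl⟩ : ∃ s', s = s' + 1 := by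
      rcases Nat.eq_zero_or_pos s with h | h
      · exfalso
        rw [h, pow_zero, mul_one] at he
        have h1 : (∑ x ∈ X, f x) ≤ X.card := by
          calc (∑ x ∈ X, f x) ≤ ∑ _x ∈ X, (1 : ℝ) :=
                Finset.sum_le_sum fun x _ => (abs_le.1 (hf x)).2
            _ = X.card := by rw [Finset.sum_const, nsmul_eq_mul, mul_one]
        have h2 : (2 : ℝ) ≤ (2 * c : ℝ) ^ U.card := by
          calc (2 : ℝ) ≤ 2 * c := by linarith
            _ = (2 * c) ^ 1 := (pow_one _).symm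
            _ ≤ _ := pow_le_pow_right₀ (by linarith) hUpos
        nlinarith
      · exact ⟨s - 1, by omega⟩
    refine ⟨s', rfl, ⟨⟨N + w, hN', q', hq'q, adj Γ l, S', z, Hq', hreg', hΓ', t + t',
      hS'card, ht', fun b hb' u hu => hfib_child z hzX b hb' u hu, hc', ?_, ?_⟩⟩⟩
    · intro i' hi' u hu
      exact hd i' hi' u (hclX z hzX hu)
    · rw [pow_succ] at he
      exact arith_a hcR (pow_nonneg (by linarith) _) (pow_nonneg hg.le _) hTcl
        hTX.le hXsplit hXWr hTsplit hcase hdiff he hz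

/-- The path ends at a node at which no further step is possible. -/
theorem FState.run {w n k : ℕ} {P : Fin k → (Fin n → Bool) → Prop}
    {f : (Fin n → Bool) → ℝ} {ρ R ρp c J : ℕ}
    (hf : ∀ x, |f x| ≤ 1) (hc1 : 1 ≤ c) (hprog : Prog m ℓ w c)
    (Λ : ℕ) (hΛ : ℓ ^ (ρ * (J + 1)) ≤ 2 ^ Λ) (hR : c * (ρ + 1) * (Λ + 1) ≤ R)
    (hρp : c * (Λ + w * J + (ρ * J + R * Λ) + 1) ^ 2 + (J + 1) * ρ ≤ ρp) :
    ∀ (μ j : ℕ) (U : Finset (Fin k)) (s : ℕ), U.card + s = μ → j + μ ≤ J →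
      ∀ _st : FState m ℓ w P f ρ R ρp c j U s,
      ∃ (j' : ℕ) (U' : Finset (Fin k)) (s' : ℕ) (st' : FState m ℓ w P f ρ R ρp c j' U' s'),
        j' ≤ J ∧ s' ≤ s ∧ ∀ i ∈ U', ∀ x ∈ node m st'.Γ st'.S st'.q st'.y,
          ∀ (p : Fin w → (Fin n → Bool) → ℤ) (H : AddSubgroup (Fin w → ZMod m)),
          (∀ s, IsQuad (p s)) →
          Struct ℓ ρ (fun x (a : H) => comb p (a : Fin w → ZMod m) x) →
          (∀ x', (∀ s, ((p s x' : ℤ) : ZMod m) = p s x) → ¬ P i x') →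
          ∃ a, a ∉ H ∧ ∃ b : Fin st'.N → ZMod m,
            Struct ℓ ρp (fun x => comb st'.q b x + comb p a x) := by
  intro μ
  induction μ with
  | zero =>
    intro j U s hUs hj st
    refine ⟨j, U, s, st, by omega, le_rfl, fun i hi => ?_⟩
    have : U.card = 0 := by omega
    rw [Finset.card_eq_zero.1 this] at hi
    exact absurd hi (Finset.notMem_empty i)
  | succ μ ih =>
    intro j U s hUs hj st
    by_cases hstop : ∀ i ∈ U, ∀ x ∈ node m st.Γ st.S st.q st.y,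
          ∀ (p : Fin w → (Fin n → Bool) → ℤ) (H : AddSubgroup (Fin w → ZMod m)),
          (∀ s, IsQuad (p s)) →
          Struct ℓ ρ (fun x (a : H) => comb p (a : Fin w → ZMod m) x) →
          (∀ x', (∀ s, ((p s x' : ℤ) : ZMod m) = p s x) → ¬ P i x') →
          ∃ a, a ∉ H ∧ ∃ b : Fin st.N → ZMod m,
            Struct ℓ ρp (fun x => comb st.q b x + comb p a x)
    · exact ⟨j, U, s, st, by omega, le_rfl, hstop⟩
    · push Not at hstop
      obtain ⟨i, hi, x, hx, p, H, hp, hH, hPx, hno⟩ := hstop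
      have hℓ : 0 < ℓ := Nat.pos_of_ne_zero (NeZero.ne ℓ)
      have hΛj : ℓ ^ (ρ * (j + 1)) ≤ 2 ^ Λ :=
        (Nat.pow_le_pow_right hℓ (Nat.mul_le_mul_left _ (by omega))).trans hΛ
      have hρpj : c * (Λ + w * j + (ρ * j + R * Λ) + 1) ^ 2 + (j + 1) * ρ ≤ ρp := by
        refine le_trans (Nat.add_le_add (Nat.mul_le_mul_left _ (Nat.pow_le_pow_left ?_ 2))
          (Nat.mul_le_mul_right _ (by omega))) hρp
        have h1 : w * j ≤ w * J := Nat.mul_le_mul_left _ (by omega)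
        have h2 : ρ * j ≤ ρ * J := Nat.mul_le_mul_left _ (by omega)
        omega
      rcases st.step hf hc1 hprog Λ hΛj hR hρpj i hi x hx p hp H hH hPx
        (fun a ha b => hno a ha b) with ⟨⟨st'⟩⟩ | ⟨s', hs', ⟨st'⟩⟩
      · have hcard : (U.erase i).card + 1 = U.card := by
          rw [Finset.card_erase_of_mem hi]
          have := Finset.card_pos.2 ⟨i, hi⟩
          omega
        exact ih (j + 1) (U.erase i) s (by omega) (by omega) st'
      · obtain ⟨j', U', s'', st'', h1, h2, h3⟩ := ih (j + 1) U s' (by omega) (by omega) st'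
        exact ⟨j', U', s'', st'', h1, by omega, h3⟩

end

/-- **The path theorem for functions.** -/
theorem path_fun (m : ℕ) [NeZero m] (ℓ : ℕ) [NeZero ℓ] (hℓ : 2 * m ∣ ℓ) (w : ℕ) :
    ∃ C : ℕ, ∀ {n k ρ h lam : ℕ} (P : Fin k → (Fin n → Bool) → Prop),
      (∀ i, (∀ x, ¬ P i x) ∨ CertQ m ℓ w ρ h (P i)) →
      ∀ f : (Fin n → Bool) → ℝ, (∀ x, |f x| ≤ 1) → (2 : ℝ) ^ n ≤ 2 ^ lam * ∑ x, f x →
      ∃ (B N : ℕ) (q : Fin N → (Fin n → Bool) → ℤ) (Γ : AddSubgroup (Fin n → ZMod ℓ))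
        (S : Finset (Fin n)) (y : Fin n → Bool),
        B ≤ (C * (k + lam + ρ + 1)) ^ C ∧ (∀ j, IsQuad (q j)) ∧ N ≤ B ∧ Nat.card Γ ≤ 2 ^ B ∧
        S.card ≤ B ∧ (2 : ℝ) ^ Sᶜ.card ≤ 2 ^ B * ∑ x ∈ node m Γ S q y, f x ∧
        ∀ i, (∀ x ∈ node m Γ S q y, ¬ P i x) ∨ ∀ x ∈ node m Γ S q y, ¬ P i x →
          ∃ (p : Fin w → (Fin n → Bool) → ℤ) (H : AddSubgroup (Fin w → ZMod m)),
            (∀ s, IsQuad (p s)) ∧ h ≤ Nat.card H ∧
            Struct ℓ ρ (fun x (a : H) => comb p (a : Fin w → ZMod m) x) ∧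
            (∀ x', (∀ s, ((p s x' : ℤ) : ZMod m) = p s x) → ¬ P i x') ∧
            ∃ a, a ∉ H ∧ ∃ b : Fin N → ZMod m,
              Struct ℓ B (fun x => comb q b x + comb p a x) := by
  classical
  obtain ⟨c, hc1, hprog₀⟩ := progress₂ m ℓ hℓ w
  obtain ⟨Cn, hCn⟩ := node_large m ℓ hℓ
  have hprog : Prog m ℓ w c := fun n N ρ Γ S y q hq Hq hb p hp H hH Λ R hΛ hReg hR hI2 =>
    hprog₀ Γ S y q hq Hq hb p hp H hH Λ R hΛ hReg hR hI2
  set C0 := c + Cn with hC0
  set a1 := 4 * c ^ 2 + 2 with ha1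
  set a2 := ℓ * a1 + 1 with ha2
  set a3 := a1 + C0 * a2 ^ 2 with ha3
  set a4 := a2 + w * a1 + a3 with ha4
  set a5 := (C0 * a4 ^ 2 + a1) + Cn * (a2 + w * a1) + 4 * c ^ 2 + a3 + a2 + w * a1 with ha5
  refine ⟨a5 + 10, ?_⟩
  intro n k ρ h lam P hP f hf hT
  set s0 := 2 * c * (lam + 2 * c * k) with hs0
  set J := s0 + k with hJ
  set Λ := ℓ * (ρ * (J + 1)) with hΛd
  set R := C0 * (ρ + 1) * (Λ + 1) with hRd
  set ρp := C0 * (Λ + w * J + (ρ * J + R * Λ) + 1) ^ 2 + (J + 1) * ρ with hρpd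
  have hℓ0 : 0 < ℓ := Nat.pos_of_ne_zero (NeZero.ne ℓ)
  have hΛ : ℓ ^ (ρ * (J + 1)) ≤ 2 ^ Λ := by
    rw [hΛd, pow_mul 2 ℓ]
    exact Nat.pow_le_pow_left Nat.lt_two_pow_self.le _
  have hcC0 : c ≤ C0 := by omega
  have hCnC0 : Cn ≤ C0 := by omega
  have hR : c * (ρ + 1) * (Λ + 1) ≤ R :=
    Nat.mul_le_mul_right _ (Nat.mul_le_mul_right _ hcC0)
  have hρp : c * (Λ + w * J + (ρ * J + R * Λ) + 1) ^ 2 + (J + 1) * ρ ≤ ρp :=
    Nat.add_le_add_right (Nat.mul_le_mul_right _ hcC0) _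
  -- the initial state
  have hcR : (1 : ℝ) ≤ c := by exact_mod_cast hc1
  have huniv : node m (⊥ : AddSubgroup (Fin n → ZMod ℓ)) ∅
      (Fin.elim0 : Fin 0 → (Fin n → Bool) → ℤ) (fun _ => false) = univ := by
    ext x
    rw [mem_node, mem_fibz]
    simp only [Finset.mem_univ, iff_true]
    refine ⟨⟨fun i hi => absurd hi (Finset.notMem_empty i), fun L hL => ?_⟩,
      fun j => j.elim0⟩
    rw [AddSubgroup.mem_bot] at hL
    rw [hL, ev_zero, ev_zero]
  have he0 : (2 * c : ℝ) ^ k * 2 ^ n ≤ (∑ x, f x) * (1 + 1 / (2 * c : ℝ)) ^ s0 := by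
    have h1 : (2 * c : ℝ) ^ k ≤ 2 ^ (2 * c * k) := by
      rw [pow_mul]
      refine pow_le_pow_left₀ (by linarith) ?_ k
      have : (2 * c : ℕ) ≤ 2 ^ (2 * c) := Nat.lt_two_pow_self.le
      exact_mod_cast this
    have h2 : (2 : ℝ) ^ (lam + 2 * c * k) ≤ (1 + 1 / (2 * c : ℝ)) ^ s0 := by
      rw [hs0, pow_mul]
      exact pow_le_pow_left₀ (by norm_num) (two_le_pow c hc1) _
    have hf0 : 0 ≤ ∑ x, f x := by
      have h4 : (0 : ℝ) < 2 ^ lam * ∑ x, f x := lt_of_lt_of_le (by positivity) hT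
      exact (pos_of_mul_pos_right h4 (by positivity)).le
    calc (2 * c : ℝ) ^ k * 2 ^ n ≤ 2 ^ (2 * c * k) * (2 ^ lam * ∑ x, f x) :=
          mul_le_mul h1 hT (by positivity) (by positivity)
      _ = (∑ x, f x) * 2 ^ (lam + 2 * c * k) := by rw [pow_add]; ring
      _ ≤ _ := mul_le_mul_of_nonneg_left h2 hf0
  have st0 : FState m ℓ w P f ρ R ρp c 0 univ s0 :=
    { N := 0
      hN := Nat.zero_le _
      q := Fin.elim0
      hq := fun i => i.elim0
      Γ := ⊥
      S := ∅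
      y := fun _ => false
      Hq := ⊤
      hReg := by
        intro L hL
        rw [AddSubgroup.mem_bot] at hL
        left
        rw [hL]
        exact (sup ℓ ∅).zero_mem
      hΓ := by
        rw [AddSubgroup.card_bot]
        exact Nat.one_le_pow _ _ hℓ0
      t := 0
      hS := by simp
      ht := by
        rw [pow_zero]
        exact Nat.card_pos
      hb := by
        intro b _ x _
        unfold comb
        simp
      hc := fun b hb => absurd (AddSubgroup.mem_top b) hb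
      hd := fun i hi => absurd (Finset.mem_univ i) hi
      he := by
        rw [huniv, Finset.card_univ, Finset.card_univ, Fintype.card_fin,
          Fintype.card_fun, Fintype.card_bool, Fintype.card_fin]
        push_cast
        exact he0 }
  obtain ⟨j', U', s', st, hj', hs', hstop⟩ := FState.run hf hc1 hprog Λ hΛ hR hρp (k + s0) 0
    univ s0 (by rw [Finset.card_univ, Fintype.card_fin]) (by omega) st0
  have hJΛ : st.t ≤ Λ ∧ Nat.card st.Γ ≤ 2 ^ Λ := by
    have h1 : Nat.card st.Γ ≤ 2 ^ Λ := st.hΓ.trans ((Nat.pow_le_pow_right hℓ0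
      (Nat.mul_le_mul_left _ (by omega))).trans hΛ)
    refine ⟨?_, h1⟩
    have hcl : Nat.card (st.Γ ⊓ sup ℓ st.S : AddSubgroup (Fin n → ZMod ℓ)) ≤
        Nat.card st.Γ :=
      Nat.card_le_card_of_injective (AddSubgroup.inclusion inf_le_left)
        (AddSubgroup.inclusion_injective _)
    exact (Nat.pow_le_pow_iff_right (by norm_num)).1 (st.ht.trans (hcl.trans h1))
  have hNw : st.N ≤ w * J := st.hN.trans (Nat.mul_le_mul_left _ hj')
  have hSc : st.S.card ≤ ρ * J + R * Λ :=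
    st.hS.trans (Nat.add_le_add (Nat.mul_le_mul_left _ hj') (Nat.mul_le_mul_left _ hJΛ.1))
  set B := ρp + Cn * (Λ + w * J + 1) + s0 + (ρ * J + R * Λ) + Λ + w * J with hB
  refine ⟨B, st.N, st.q, st.Γ, st.S, st.y, ?_, st.hq, by omega,
    hJΛ.2.trans (Nat.pow_le_pow_right (by norm_num) (by omega)), by omega, ?_, ?_⟩
  · exact poly_bound hc1 rfl rfl rfl rfl rfl rfl rfl rfl rfl rfl rfl rfl
  · -- the size of the node
    have h1 := hCn st.Γ st.S st.y st.q st.hq st.Hq st.hb Λ R hJΛ.2 st.hReg (by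
      calc Cn * (Λ + 1) ≤ C0 * (Λ + 1) := Nat.mul_le_mul_right _ hCnC0
        _ = C0 * 1 * (Λ + 1) := by rw [mul_one]
        _ ≤ C0 * (ρ + 1) * (Λ + 1) :=
            Nat.mul_le_mul_right _ (Nat.mul_le_mul_left _ (by omega))) (by
      intro b hb hstr
      refine st.hc b hb (hstr.mono ?_)
      have e1 : Cn * (Λ + st.N + st.S.card + 1) ^ 2 ≤
          C0 * (Λ + w * J + (ρ * J + R * Λ) + 1) ^ 2 :=
        Nat.mul_le_mul hCnC0 (Nat.pow_le_pow_left (by omega) 2)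
      have e2 : j' * ρ ≤ (J + 1) * ρ := Nat.mul_le_mul_right _ (by omega)
      omega)
    set X := node m st.Γ st.S st.q st.y with hX
    have he := st.he
    have hXpos : (0 : ℝ) < X.card := by
      exact_mod_cast Finset.card_pos.2 ⟨st.y, self_mem_node _ _ _ _⟩
    have e4 : (0 : ℝ) < 1 + 1 / (2 * c : ℝ) := by positivity
    have e1 : (1 : ℝ) ≤ (2 * c : ℝ) ^ U'.card := one_le_pow₀ (by linarith)
    have hfX : 0 ≤ ∑ x ∈ X, f x := by
      have h2 : (0 : ℝ) < (2 * c : ℝ) ^ U'.card * X.card :=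
        mul_pos (lt_of_lt_of_le one_pos e1) hXpos
      exact (pos_of_mul_pos_left (lt_of_lt_of_le h2 he) (pow_pos e4 _).le).le
    have h2 : (X.card : ℝ) ≤ (∑ x ∈ X, f x) * 2 ^ s0 := by
      have e2 : (1 + 1 / (2 * c : ℝ)) ^ s' ≤ 2 ^ s0 := by
        have e3 : (1 + 1 / (2 * c : ℝ)) ≤ 2 := by
          have : 1 / (2 * c : ℝ) ≤ 1 := by
            rw [div_le_one (by linarith)]
            linarith
          linarith
        calc (1 + 1 / (2 * c : ℝ)) ^ s' ≤ 2 ^ s' := pow_le_pow_left₀ e4.le e3 _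
          _ ≤ 2 ^ s0 := pow_le_pow_right₀ (by norm_num) hs'
      calc (X.card : ℝ) = 1 * X.card := (one_mul _).symm
        _ ≤ (2 * c : ℝ) ^ U'.card * X.card :=
            mul_le_mul_of_nonneg_right e1 (Nat.cast_nonneg _)
        _ ≤ (∑ x ∈ X, f x) * (1 + 1 / (2 * c : ℝ)) ^ s' := he
        _ ≤ _ := mul_le_mul_of_nonneg_left e2 hfX
    have h1' : (2 : ℝ) ^ st.Sᶜ.card ≤ 2 ^ (Cn * (Λ + st.N + 1)) * X.card := by
      exact_mod_cast h1
    calc (2 : ℝ) ^ st.Sᶜ.card ≤ 2 ^ (Cn * (Λ + st.N + 1)) * X.card := h1'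
      _ ≤ 2 ^ (Cn * (Λ + st.N + 1)) * ((∑ x ∈ X, f x) * 2 ^ s0) :=
          mul_le_mul_of_nonneg_left h2 (by positivity)
      _ = 2 ^ (Cn * (Λ + st.N + 1) + s0) * ∑ x ∈ X, f x := by rw [pow_add]; ring
      _ ≤ 2 ^ B * ∑ x ∈ X, f x := by
          refine mul_le_mul_of_nonneg_right (pow_le_pow_right₀ (by norm_num) ?_) hfX
          have e1 : Cn * (Λ + st.N + 1) ≤ Cn * (Λ + w * J + 1) :=
            Nat.mul_le_mul_left _ (by omega)
          omega
  · -- the gates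
    intro i
    by_cases hi : i ∈ U'
    · rcases hP i with h0 | h0
      · exact Or.inl fun x _ => h0 x
      · refine Or.inr fun x hx hPx => ?_
        obtain ⟨p, H, hp, hcard, hH, hcert⟩ := h0 x hPx
        obtain ⟨a, ha, b, hb⟩ := hstop i hi x hx p H hp hH hcert
        exact ⟨p, H, hp, hcard, hH, hcert, a, ha, b, hb.mono (by omega)⟩
    · exact Or.inl (st.hd i hi)

end Pool.Agent.QuadSys
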