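import Pool.Agent.QuadSys.MajMod
import Pool.Agent.QuadSys.Gates
import Pool.Agent.QuadSys.PathFun
import Pool.Agent.QuadSys.PairR
import Pool.Agent.QuadSys.EqDecompR

/-!
# Counting modulo a prime against majorities of functions of systems of quadratic conditions
-/

set_option autoImplicit false

namespace Pool.Agent.QuadSys

open Finset Pool.Agent.Helper21.LinSys

theorem mixed_decomp (m : ℕ) [NeZero m] (w D : ℕ) :
    ∃ C, DecompFun m (Mixed m (2 * m) w D) C := by
  obtain ⟨C₁, h1⟩ : ∃ C, PathFunProp m (2 * m) w C := path_fun m (2 * m) dvd_rfl w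
  obtain ⟨C₂, h2⟩ : ∃ C, PairRProp m (2 * m) C := pairing_r m (2 * m) (Dvd.intro_left 2 rfl)
  obtain ⟨C₃, h3⟩ : ∃ C, EqRProp m D C := eq_decomp_r m D
  exact mixed_decomp_fun m w D h1 h2 h3

theorem counting_final (m : ℕ) [NeZero m] (w D : ℕ) :
    ∃ K : ℕ, ∀ n k t r : ℕ, r.Prime → ¬ r ∣ 2 * m → 1 ≤ k →
      ∀ (F : Fin t → (Fin k → Bool) → Bool) (P : Fin t → Fin k → (Fin n → Bool) → Bool),
        (∀ i j, AndOfTests m w D n (P i j)) →
        (∀ x : Fin n → Bool,
          t ≤ 2 * (Finset.univ.filter fun i => (F i fun j => P i j x) = true).card ↔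
            r ∣ (Finset.univ.filter fun i => x i = true).card) →
        (n : ℝ) ≤ (K * k * r * Real.log (t + 2)) ^ K := by
  classical
  obtain ⟨C₀, hdec⟩ := mixed_decomp m w D
  obtain ⟨K, hK⟩ := corr_bound hdec 3
  refine ⟨40 * (K + 3 + 1), ?_⟩
  intro n k t r hr hr2m hk F P hP hmaj
  have : NeZero r := ⟨hr.ne_zero⟩
  have hr2 := hr.two_le
  by_contra hcon
  set lam := Nat.clog 2 (12 * r * t + 2 * r + 1) with hlam
  have hlam2 : 12 * r * t + 2 * r + 1 ≤ 2 ^ lam := Nat.le_pow_clog (by norm_num) _
  have hbig : pb (K + 3) (k + lam + 0 + r + 1) ≤ n := by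
    by_contra h
    push Not at h
    refine hcon ?_
    have h1 := final_real (K := K + 3) (n := n) (k := k) (t := t) (r := r) (σ := 0)
      (sg := Real.log (t + 2)) hk hr2 (by
        have h2 : 0 ≤ Real.log ((t : ℝ) + 2) := Real.log_nonneg (by
          have : (0 : ℝ) ≤ t := Nat.cast_nonneg _
          linarith)
        rw [Nat.cast_zero]
        linarith) (by
        have h2 : Real.log 2 ≤ Real.log ((t : ℝ) + 2) := Real.log_le_log (by norm_num) (by
          have : (0 : ℝ) ≤ t := Nat.cast_nonneg _
          linarith)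
        have h3 := Real.log_two_gt_d9
        linarith) le_rfl h
    exact h1
  have huniv : ∀ {M lam' : ℕ} (Q : BCube n M), Indiv r (Q.pw fun _ => 1) →
      ∀ a : ZMod r, a ≠ 0 → pb 3 (lam' + r + 1) ≤ M →
      ‖∑ t, (ZMod.stdAddChar (a * (ones (Q.emb t) : ZMod r)) : ℂ)‖ ≤ 2 ^ M / 2 ^ lam' :=
    fun Q hQ a ha hM => sum_char_emb_le hr Q hQ a ha hM
  refine not_majority (lam := lam) hr (fun i x => F i fun j => P i j x) ?_ ?_ hlam2 hmaj
  · -- the full cube
    intro a ha
    have h1 := hK (k := k) (lam := lam) (σ := 0) (r := r) (n := n) hr hr2m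
      (fun _ _ => true) (fun j => AndOfTests.mixed (2 * m) ⟨∅, by simp, by simp⟩)
      (fun _ _ => true) a (by
        intro b M lam' Q hQ hM
        simp only [if_true]
        exact huniv Q hQ a ha (by simpa using hM)) ((pb_mono (by omega) (by omega) le_rfl).trans hbig)
    simpa using h1
  · intro i a ha
    exact hK (k := k) (lam := lam) (σ := 0) (r := r) (n := n) hr hr2m
      (P i) (fun j => (hP i j).mixed (2 * m))
      (fun _ b => F i b) a (by
        intro b M lam' Q hQ hM
        by_cases hF : F i b = true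
        · simp only [hF, if_true]
          exact huniv Q hQ a ha (by simpa using hM)
        · simp only [hF]
          simp only [Bool.false_eq_true, if_false, Finset.sum_const_zero, norm_zero]
          positivity) ((pb_mono (by omega) (by omega) le_rfl).trans hbig)

end Pool.Agent.QuadSys
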