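import Pool.Agent.QuadSys.Phase

/-!
# The decomposition theorem, from the path theorem and the pairing theorem
-/

set_option autoImplicit false

namespace Pool.Agent.QuadSys

open Finset Pool.Agent.Helper21.LinSys

theorem decomp_aux (m : ℕ) [NeZero m] (ℓ : ℕ) [NeZero ℓ] (w : ℕ) {C₀ : ℕ}
    (hphase : ∀ {n k ρ h lam : ℕ} (M V : ℕ) (v : Fin n → ℤ), 1 ≤ V → OddMul V v →
      ∀ (P : Fin k → (Fin n → Bool) → Prop),
      (∀ i, (∀ x, ¬ P i x) ∨ CertQ m ℓ w ρ h (P i)) →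
      ∀ T : Finset (Fin n → Bool), 2 ^ n ≤ 2 ^ lam * T.card →
      pb C₀ (M + k + lam + ρ + V + 1) ≤ n →
      ∃ (B : ℕ) (Q : BCube n M), B ≤ pb C₀ (k + lam + ρ + 1) ∧
        OddMul (V * ℓ ^ 2) (Q.pw v) ∧
        (∀ i, (∀ t, ¬ P i (Q.emb t)) ∨ CertQ m ℓ w B (2 * h) fun t => P i (Q.emb t)) ∧
        2 ^ M ≤ 2 ^ B * (univ.filter fun t => Q.emb t ∈ T).card) (J : ℕ) :
    ∃ C : ℕ, ∀ {n k ρ h lam : ℕ} (M V : ℕ) (v : Fin n → ℤ), 1 ≤ V → OddMul V v →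
      m ^ w < 2 ^ J * h →
      ∀ (P : Fin k → (Fin n → Bool) → Prop),
      (∀ i, (∀ x, ¬ P i x) ∨ CertQ m ℓ w ρ h (P i)) →
      ∀ T : Finset (Fin n → Bool), 2 ^ n ≤ 2 ^ lam * T.card →
      pb C (M + k + lam + ρ + V + 1) ≤ n →
      ∃ (B M' : ℕ) (Q : BCube n M'), B ≤ pb C (k + lam + ρ + 1) ∧ M ≤ M' ∧
        (∀ j, Q.pw v j ≠ 0) ∧
        (∀ i, (∀ t, P i (Q.emb t)) ∨ ∀ t, ¬ P i (Q.emb t)) ∧
        2 ^ M' ≤ 2 ^ B * (univ.filter fun t => Q.emb t ∈ T).card := by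
  classical
  induction J with
  | zero =>
    refine ⟨1, ?_⟩
    intro n k ρ h lam M V v hV hv hJ P hP T hT hn
    have hpb : ∀ u, pb 1 u = u := fun u => by unfold pb; simp
    rw [hpb] at hn
    have hpw : ∀ j, (BCube.refl n).pw v j = v j := by
      intro j
      unfold BCube.pw BCube.refl
      simp
    refine ⟨lam, n, BCube.refl n, ?_, by omega, fun j => ?_, fun i => ?_, ?_⟩
    · rw [hpb]; omega
    · rw [hpw]; exact hv.ne_zero hV j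
    · rcases hP i with h1 | h1
      · exact Or.inr fun t => h1 _
      · refine Or.inl fun t => ?_
        by_contra hcon
        obtain ⟨p, H, -, hh, -⟩ := h1 _ hcon
        have h2 : Nat.card H ≤ m ^ w := by
          have h3 : Nat.card (Fin w → ZMod m) = m ^ w := by
            rw [Nat.card_fun, Nat.card_zmod, Nat.card_fin]
          rw [← h3]
          exact Nat.card_le_card_of_injective (fun a : H => (a : Fin w → ZMod m))
            Subtype.val_injective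
        rw [pow_zero, one_mul] at hJ
        omega
    · simp only [BCube.refl_emb]
      rw [Finset.filter_mem_eq_inter, Finset.univ_inter]
      exact hT
  | succ J ih =>
    obtain ⟨C₁, ih⟩ := ih
    have hℓ : 0 < ℓ := Nat.pos_of_ne_zero (NeZero.ne ℓ)
    set c := 2 * C₀ + ℓ ^ 2 + 9 with hc
    refine ⟨((c + 1) * (C₁ + 1) + 5) * (C₀ + 1) + (2 * C₀ + 7) * (C₁ + 1), ?_⟩
    set C := ((c + 1) * (C₁ + 1) + 5) * (C₀ + 1) + (2 * C₀ + 7) * (C₁ + 1) with hC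
    intro n k ρ h lam M V v hV hv hJ P hP T hT hn
    set u := k + lam + ρ + 1 with hu
    set U := M + k + lam + ρ + V + 1 with hU
    have hu1 : 1 ≤ u := by omega
    have hU1 : 1 ≤ U := by omega
    have huU : u ≤ U := by omega
    set M₁ := pb C₁ (M + k + pb C₀ u + pb C₀ u + V * ℓ ^ 2 + 1) with hM₁
    have hinner : M + k + pb C₀ u + pb C₀ u + V * ℓ ^ 2 + 1 ≤ pb c U := by
      have e1 : 1 * U ≤ pb 2 U := mul_le_pb 1 hU1
      have e2 : pb C₀ U + pb C₀ U ≤ pb (C₀ + C₀ + 2) U := pb_add_pb _ _ hU1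
      have e3 : pb C₀ u ≤ pb C₀ U := pb_mono le_rfl hu1 huU
      have e4 : V * ℓ ^ 2 ≤ pb (ℓ ^ 2 + 1) U := by
        refine le_trans ?_ (mul_le_pb (ℓ ^ 2) hU1)
        rw [mul_comm]
        exact Nat.mul_le_mul_left _ (by omega)
      have e5 : pb 2 U + pb (C₀ + C₀ + 2) U ≤ pb (2 + (C₀ + C₀ + 2) + 2) U :=
        pb_add_pb _ _ hU1
      have e6 : pb (2 + (C₀ + C₀ + 2) + 2) U + pb (ℓ ^ 2 + 1) U ≤
          pb (2 + (C₀ + C₀ + 2) + 2 + (ℓ ^ 2 + 1) + 2) U := pb_add_pb _ _ hU1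
      have e7 : 2 + (C₀ + C₀ + 2) + 2 + (ℓ ^ 2 + 1) + 2 = c := by rw [hc]; ring
      rw [e7] at e6
      omega
    have hM₁le : M₁ ≤ pb ((c + 1) * (C₁ + 1)) U :=
      (pb_mono le_rfl (by omega) hinner).trans (pb_pb _ _ hU1)
    have hn₁ : pb C₀ (M₁ + k + lam + ρ + V + 1) ≤ n := by
      have e1 : 1 * U ≤ pb 2 U := mul_le_pb 1 hU1
      have e2 : pb ((c + 1) * (C₁ + 1)) U + pb 2 U ≤ pb ((c + 1) * (C₁ + 1) + 2 + 2) U :=
        pb_add_pb _ _ hU1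
      have e3 : M₁ + k + lam + ρ + V + 1 ≤ pb ((c + 1) * (C₁ + 1) + 2 + 2) U := by omega
      calc pb C₀ (M₁ + k + lam + ρ + V + 1) ≤ pb C₀ (pb ((c + 1) * (C₁ + 1) + 2 + 2) U) :=
            pb_mono le_rfl (by omega) e3
        _ ≤ pb (((c + 1) * (C₁ + 1) + 2 + 2 + 1) * (C₀ + 1)) U := pb_pb _ _ hU1
        _ ≤ pb C U := by
          refine pb_mono ?_ hU1 le_rfl
          rw [hC, show (c + 1) * (C₁ + 1) + 2 + 2 + 1 = (c + 1) * (C₁ + 1) + 5 by ring]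
          omega
        _ ≤ n := hn
    obtain ⟨B₁, Q₁, hB₁, hQv, hgate, hdens⟩ := hphase M₁ V v hV hv P hP T hT hn₁
    have hB₁' : B₁ ≤ pb C₀ u := hB₁
    obtain ⟨B₂, M', Q₂, hB₂, hM', hpw, hconst, hdens₂⟩ := ih (n := M₁) (ρ := B₁) (h := 2 * h)
      (lam := B₁) M (V * ℓ ^ 2) (Q₁.pw v) (Nat.mul_pos hV (by positivity)) hQv
      (by rw [pow_succ] at hJ; rw [← mul_assoc]; exact hJ)
      (fun i t => P i (Q₁.emb t)) hgate (univ.filter fun t => Q₁.emb t ∈ T) hdens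
      (pb_mono le_rfl (by omega) (by omega))
    refine ⟨B₂, M', Q₁.comp Q₂, ?_, hM', fun j => ?_, fun i => ?_, ?_⟩
    · have e1 : 1 * u ≤ pb 2 u := mul_le_pb 1 hu1
      have e2 : pb C₀ u + pb C₀ u ≤ pb (C₀ + C₀ + 2) u := pb_add_pb _ _ hu1
      have e3 : pb 2 u + pb (C₀ + C₀ + 2) u ≤ pb (2 + (C₀ + C₀ + 2) + 2) u :=
        pb_add_pb _ _ hu1
      have e4 : 2 + (C₀ + C₀ + 2) + 2 = 2 * C₀ + 6 := by ring
      rw [e4] at e3
      calc B₂ ≤ pb C₁ (k + B₁ + B₁ + 1) := hB₂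
        _ ≤ pb C₁ (pb (2 * C₀ + 6) u) := pb_mono le_rfl (by omega) (by omega)
        _ ≤ pb ((2 * C₀ + 6 + 1) * (C₁ + 1)) u := pb_pb _ _ hu1
        _ ≤ pb C u := by
          refine pb_mono ?_ hu1 le_rfl
          rw [hC, show 2 * C₀ + 6 + 1 = 2 * C₀ + 7 by ring]
          omega
    · rw [BCube.pw_comp]; exact hpw j
    · simp only [BCube.emb_comp]
      exact hconst i
    · simp only [BCube.emb_comp]
      simpa only [Finset.mem_filter, Finset.mem_univ, true_and] using hdens₂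

/-- The decomposition theorem. -/
theorem decomposition_of (m : ℕ) [NeZero m] (ℓ : ℕ) [NeZero ℓ] (w : ℕ) {C₁ C₂ : ℕ}
    (hpath : PathProp m ℓ w C₁) (hpair : PairProp m ℓ C₂) :
    ∃ C : ℕ, ∀ {n k lam : ℕ} (M : ℕ) (P : Fin k → (Fin n → Bool) → Prop),
      (∀ i, CertQ m ℓ w 0 1 (P i)) →
      ∀ T : Finset (Fin n → Bool), 2 ^ n ≤ 2 ^ lam * T.card →
      pb C (M + k + lam + 1) ≤ n →
      ∃ (B M' : ℕ) (Q : BCube n M'), B ≤ pb C (k + lam + 1) ∧ M ≤ M' ∧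
        (∀ j, Q.pw (fun _ => 1) j ≠ 0) ∧
        (∀ i, (∀ t, P i (Q.emb t)) ∨ ∀ t, ¬ P i (Q.emb t)) ∧
        2 ^ M' ≤ 2 ^ B * (univ.filter fun t => Q.emb t ∈ T).card := by
  obtain ⟨C₀, hphase⟩ := phase_of m ℓ w hpath hpair
  obtain ⟨C, hC⟩ := decomp_aux m ℓ w hphase (m ^ w)
  refine ⟨(3 + 1) * (C + 1), ?_⟩
  intro n k lam M P hP T hT hn
  have hmw : m ^ w < 2 ^ (m ^ w) * 1 := by rw [mul_one]; exact Nat.lt_two_pow_self
  obtain ⟨B, M', Q, hB, hM', h1, h2, h3⟩ := hC M 1 (fun _ => 1) le_rfl (OddMul.one n) hmw P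
    (fun i => Or.inr (hP i)) T hT (by
      refine le_trans ?_ hn
      have hU1 : 1 ≤ M + k + lam + 1 := by omega
      calc pb C (M + k + lam + 0 + 1 + 1) ≤ pb C (2 * (M + k + lam + 1)) :=
            pb_mono le_rfl (by omega) (by omega)
        _ ≤ pb C (pb 3 (M + k + lam + 1)) :=
            pb_mono le_rfl (by omega) (mul_le_pb 2 hU1)
        _ ≤ pb ((3 + 1) * (C + 1)) (M + k + lam + 1) := pb_pb _ _ hU1)
  refine ⟨B, M', Q, hB.trans (pb_mono (by omega) (by omega) (by omega)), hM', h1, h2, h3⟩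

end Pool.Agent.QuadSys
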