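import Pool.Agent.Helper21.LinSys.Regular

/-!
# Systems of quadratic conditions modulo m: basic definitions

Points of the cube are functions `Fin n → Bool`. Quadratic polynomials have integer coefficients,
and are reduced modulo `m` where needed. Linear forms have coefficients modulo `ℓ` (`ev` in
`LinSys`), where `2 * m ∣ ℓ`.
-/

set_option autoImplicit false

namespace Pool.Agent.QuadSys

open Finset Pool.Agent.Helper21.LinSys

/-- The bit `0` or `1`, as an integer. -/
def bit (b : Bool) : ℤ := if b = true then 1 else 0

/-- Integer valued functions on the cube that are given by a polynomial of degree at most two. -/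
def IsQuad {n : ℕ} (φ : (Fin n → Bool) → ℤ) : Prop :=
  ∃ (c : ℤ) (a : Fin n → ℤ) (M : Fin n → Fin n → ℤ),
    ∀ x, φ x = c + ∑ i, a i * bit (x i) + ∑ i, ∑ j, M i j * (bit (x i) * bit (x j))

/-- The function `σ` is determined by at most `ρ` coordinates and at most `ρ` linear forms modulo
`ℓ`. -/
def Struct (ℓ ρ : ℕ) {n : ℕ} {α : Type*} (σ : (Fin n → Bool) → α) : Prop :=
  ∃ (K : Finset (Fin n)) (l : Fin ρ → Fin n → ZMod ℓ), K.card ≤ ρ ∧
    ∀ x y, (∀ i ∈ K, x i = y i) → (∀ j, ev (l j) x = ev (l j) y) → σ x = σ y

/-- The point `x` with the coordinates in `B` flipped. -/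
def flip {n : ℕ} (x : Fin n → Bool) (B : Finset (Fin n)) : Fin n → Bool :=
  fun i => if i ∈ B then !(x i) else x i

/-- No isolated points in the fibres of `σ` on `D`-dimensional block cubes. -/
def NI (D : ℕ) {n : ℕ} {α : Type*} (σ : (Fin n → Bool) → α) : Prop :=
  ∀ (x : Fin n → Bool) (B : Fin D → Finset (Fin n)), (∀ i j, i ≠ j → Disjoint (B i) (B j)) →
    ∃ I : Finset (Fin D), I.Nonempty ∧ σ (flip x (I.biUnion B)) = σ x

/-- A block cube of dimension `M` inside the `n`-dimensional cube: every coordinate is fixed or
belongs to one of the `M` blocks. -/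
structure BCube (n M : ℕ) where
  base : Fin n → Bool
  blk : Fin n → Option (Fin M)

namespace BCube

variable {n M M' : ℕ}

/-- The points of the block cube. -/
def emb (Q : BCube n M) (t : Fin M → Bool) : Fin n → Bool := fun i =>
  match Q.blk i with
  | none => Q.base i
  | some k => xor (Q.base i) (t k)

/-- The weight of the blocks: the change of `∑ i, v i * bit (x i)` when the block is flipped,
starting from the base point. -/
def pw (Q : BCube n M) (v : Fin n → ℤ) (k : Fin M) : ℤ :=
  ∑ i, if Q.blk i = some k then v i * (1 - 2 * bit (Q.base i)) else 0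

/-- The weight of the base point. -/
def bw (Q : BCube n M) (v : Fin n → ℤ) : ℤ := ∑ i, v i * bit (Q.base i)

/-- Composition: a block cube inside a block cube. -/
def comp (Q : BCube n M) (Q' : BCube M M') : BCube n M' where
  base := Q.emb Q'.base
  blk := fun i => (Q.blk i).bind Q'.blk

/-- The trivial block cube. -/
def refl (n : ℕ) : BCube n n where
  base := fun _ => false
  blk := fun i => some i

end BCube

/-- The average of a real function on the cube. -/
noncomputable def avg {M : ℕ} (f : (Fin M → Bool) → ℝ) : ℝ := (∑ t, f t) / 2 ^ M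

/-- Weighted sum of the coordinates. -/
def wsum {n : ℕ} (v : Fin n → ℤ) (x : Fin n → Bool) : ℤ := ∑ i, v i * bit (x i)

end Pool.Agent.QuadSys
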