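import Pool.Agent.QuadSys.Cert

/-!
# Polynomials of degree at most D on the cube: closure properties and density of nonzeros
-/

set_option autoImplicit false

namespace Pool.Agent.QuadSys

open Finset Pool.Agent.Helper21.LinSys

/-- Integer valued functions on the cube that are given by a polynomial of degree at most `D`. -/
def IsDeg (D : ℕ) {n : ℕ} (φ : (Fin n → Bool) → ℤ) : Prop :=
  ∃ c : Finset (Fin n) → ℤ, (∀ A, D < A.card → c A = 0) ∧
    ∀ x, φ x = ∑ A, c A * ∏ i ∈ A, bit (x i)

/-- A system of equations of degree at most `D` modulo `m`, with any number of equations. -/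
def EqSys (m D : ℕ) {n : ℕ} (P : (Fin n → Bool) → Prop) : Prop :=
  ∃ E : Set ((Fin n → Bool) → ℤ), (∀ F ∈ E, IsDeg D F) ∧
    ∀ x, P x ↔ ∀ F ∈ E, ((F x : ℤ) : ZMod m) = 0

section
variable {n M D D' : ℕ}

theorem IsDeg.mono {φ : (Fin n → Bool) → ℤ} (h : IsDeg D φ) (hD : D ≤ D') : IsDeg D' φ := by
  obtain ⟨c, hc, h⟩ := h
  exact ⟨c, fun A hA => hc A (hD.trans_lt hA), h⟩

theorem IsDeg.monomial (A : Finset (Fin n)) (hA : A.card ≤ D) :
    IsDeg D fun x : Fin n → Bool => ∏ i ∈ A, bit (x i) := by
  refine ⟨fun B => if B = A then 1 else 0, fun B hB => ?_, fun x => ?_⟩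
  · beta_reduce
    rw [if_neg]
    rintro rfl
    omega
  · simp [ite_mul, Finset.sum_ite_eq']

theorem IsDeg.zero : IsDeg D (fun _ : Fin n → Bool => 0) :=
  ⟨0, fun _ _ => rfl, fun x => by simp⟩

theorem IsDeg.add {f g : (Fin n → Bool) → ℤ} (hf : IsDeg D f) (hg : IsDeg D g) :
    IsDeg D fun x => f x + g x := by
  obtain ⟨c, hc, hf⟩ := hf
  obtain ⟨c', hc', hg⟩ := hg
  refine ⟨c + c', fun A hA => by rw [Pi.add_apply, hc A hA, hc' A hA, add_zero], fun x => ?_⟩
  simp only [hf x, hg x, Pi.add_apply, add_mul, Finset.sum_add_distrib]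

theorem IsDeg.const_mul {f : (Fin n → Bool) → ℤ} (hf : IsDeg D f) (k : ℤ) :
    IsDeg D fun x => k * f x := by
  obtain ⟨c, hc, hf⟩ := hf
  refine ⟨fun A => k * c A, fun A hA => by beta_reduce; rw [hc A hA, mul_zero], fun x => ?_⟩
  simp only [hf x, Finset.mul_sum, mul_assoc]

theorem IsDeg.const (k : ℤ) : IsDeg D (fun _ : Fin n → Bool => k) := by
  have h := (IsDeg.monomial (D := D) (∅ : Finset (Fin n)) (by simp)).const_mul k
  simpa using h

theorem IsDeg.neg {f : (Fin n → Bool) → ℤ} (hf : IsDeg D f) : IsDeg D fun x => - f x := by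
  have h := hf.const_mul (-1)
  simpa using h

theorem IsDeg.sub {f g : (Fin n → Bool) → ℤ} (hf : IsDeg D f) (hg : IsDeg D g) :
    IsDeg D fun x => f x - g x := by
  have h := hf.add hg.neg
  simpa [sub_eq_add_neg] using h

theorem IsDeg.sum {κ : Type*} (s : Finset κ) {f : κ → (Fin n → Bool) → ℤ}
    (hf : ∀ k ∈ s, IsDeg D (f k)) : IsDeg D fun x => ∑ k ∈ s, f k x := by
  classical
  induction s using Finset.induction_on with
  | empty => simpa using IsDeg.zero (n := n) (D := D)
  | insert k s hk ih =>
    have h1 := (hf k (Finset.mem_insert_self k s)).add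
      (ih fun j hj => hf j (Finset.mem_insert_of_mem hj))
    have h2 : (fun x => ∑ k ∈ insert k s, f k x) = fun x => f k x + ∑ k ∈ s, f k x := by
      funext x; rw [Finset.sum_insert hk]
    rw [h2]; exact h1

/-- Products of monomials are monomials, since the square of a bit is the bit. -/
theorem prod_bit_mul_prod_bit (A B : Finset (Fin n)) (x : Fin n → Bool) :
    (∏ i ∈ A, bit (x i)) * ∏ i ∈ B, bit (x i) = ∏ i ∈ A ∪ B, bit (x i) := by
  classical
  have h1 : ∀ S : Finset (Fin n), ∏ i ∈ S, bit (x i) = if ∀ i ∈ S, x i = true then 1 else 0 := by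
    intro S
    induction S using Finset.induction_on with
    | empty => simp
    | insert i S hi ih =>
      rw [Finset.prod_insert hi, ih]
      by_cases h : x i = true
      · simp [h]
      · have h' : x i = false := by simpa using h
        simp [h']
  rw [h1, h1, h1]
  by_cases hA : ∀ i ∈ A, x i = true
  · by_cases hB : ∀ i ∈ B, x i = true
    · have hAB : ∀ i ∈ A ∪ B, x i = true := by
        intro i hi
        rcases Finset.mem_union.1 hi with h | h
        · exact hA i h
        · exact hB i h
      rw [if_pos hA, if_pos hB, if_pos hAB, mul_one]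
    · have hAB : ¬ ∀ i ∈ A ∪ B, x i = true :=
        fun h => hB fun i hi => h i (Finset.mem_union_right _ hi)
      rw [if_neg hB, if_neg hAB, mul_zero]
  · have hAB : ¬ ∀ i ∈ A ∪ B, x i = true :=
      fun h => hA fun i hi => h i (Finset.mem_union_left _ hi)
    rw [if_neg hA, if_neg hAB, zero_mul]

theorem IsDeg.mul {f g : (Fin n → Bool) → ℤ} (hf : IsDeg D f) (hg : IsDeg D' g) :
    IsDeg (D + D') fun x => f x * g x := by
  obtain ⟨c, hc, hf⟩ := hf
  obtain ⟨c', hc', hg⟩ := hg
  have h1 : (fun x => f x * g x) = fun x => ∑ A, ∑ B,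
      c A * c' B * ∏ i ∈ A ∪ B, bit (x i) := by
    funext x
    rw [hf x, hg x, Finset.sum_mul_sum]
    refine Finset.sum_congr rfl fun A _ => Finset.sum_congr rfl fun B _ => ?_
    rw [← prod_bit_mul_prod_bit]
    ring
  rw [h1]
  refine IsDeg.sum _ fun A _ => IsDeg.sum _ fun B _ => ?_
  by_cases hA : D < A.card
  · simpa [hc A hA] using IsDeg.zero (n := n) (D := D + D')
  by_cases hB : D' < B.card
  · simpa [hc' B hB] using IsDeg.zero (n := n) (D := D + D')
  refine (IsDeg.monomial (A ∪ B) ?_).const_mul _
  have := Finset.card_union_le A B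
  omega

theorem IsDeg.prod {κ : Type*} (s : Finset κ) {f : κ → (Fin n → Bool) → ℤ}
    (hf : ∀ k ∈ s, IsDeg 1 (f k)) : IsDeg s.card fun x => ∏ k ∈ s, f k x := by
  classical
  induction s using Finset.induction_on with
  | empty => simpa using IsDeg.const (n := n) (D := 0) 1
  | insert k s hk ih =>
    have h1 := (ih fun j hj => hf j (Finset.mem_insert_of_mem hj)).mul
      (hf k (Finset.mem_insert_self k s))
    have h2 : (fun x => ∏ k ∈ insert k s, f k x) = fun x => (∏ k ∈ s, f k x) * f k x := by
      funext x; rw [Finset.prod_insert hk, mul_comm]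
    rw [h2, Finset.card_insert_of_notMem hk]; exact h1

theorem IsAff.isDeg {φ : (Fin n → Bool) → ℤ} (h : IsAff φ) : IsDeg 1 φ := by
  obtain ⟨c, a, h⟩ := h
  have h1 : φ = fun x => c + ∑ i, a i * bit (x i) := funext h
  rw [h1]
  refine (IsDeg.const c).add (IsDeg.sum _ fun i _ => IsDeg.const_mul ?_ _)
  have h2 := IsDeg.monomial (D := 1) ({i} : Finset (Fin n)) (by simp)
  simpa using h2

theorem IsQuad.isDeg {φ : (Fin n → Bool) → ℤ} (h : IsQuad φ) : IsDeg 2 φ := by
  obtain ⟨c, a, A, h⟩ := h
  have h1 : φ = fun x => c + ∑ i, a i * bit (x i) + ∑ i, ∑ j, A i j * (bit (x i) * bit (x j)) :=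
    funext h
  rw [h1]
  have h2 : ∀ i : Fin n, IsDeg 1 fun x : Fin n → Bool => bit (x i) := fun i =>
    (IsAff.of_bit i).isDeg
  refine ((IsDeg.const c).add (IsDeg.sum _ fun i _ =>
    ((h2 i).mono (by norm_num)).const_mul _)).add
    (IsDeg.sum _ fun i _ => IsDeg.sum _ fun j _ => ((h2 i).mul (h2 j)).const_mul _)

theorem IsDeg.comp_emb {φ : (Fin n → Bool) → ℤ} (h : IsDeg D φ) (Q : BCube n M) :
    IsDeg D fun t => φ (Q.emb t) := by
  obtain ⟨c, hc, h⟩ := h
  have h1 : ∀ i : Fin n, IsDeg 1 fun t => bit (Q.emb t i) := fun i =>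
    IsAff.isDeg ⟨bit (Q.base i), fun k => Q.coe i k, fun t => Q.bit_emb t i⟩
  have h2 : (fun t => φ (Q.emb t)) = fun t => ∑ A, c A * ∏ i ∈ A, bit (Q.emb t i) := by
    funext t; exact h _
  rw [h2]
  refine IsDeg.sum _ fun A _ => ?_
  by_cases hA : D < A.card
  · simpa [hc A hA] using IsDeg.zero (n := M) (D := D)
  · exact ((IsDeg.prod A fun i _ => h1 i).mono (not_lt.1 hA)).const_mul _

/-- The difference of a polynomial of degree at most `D + 1` in a coordinate direction. -/
theorem IsDeg.diff {φ : (Fin n → Bool) → ℤ} (h : IsDeg (D + 1) φ) (i : Fin n) :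
    IsDeg D fun x => φ (Function.update x i true) - φ (Function.update x i false) := by
  classical
  obtain ⟨c, hc, h⟩ := h
  have h1 : (fun x => φ (Function.update x i true) - φ (Function.update x i false)) =
      fun x => ∑ A, c A * (∏ j ∈ A, bit (Function.update x i true j) -
        ∏ j ∈ A, bit (Function.update x i false j)) := by
    funext x
    rw [h, h, ← Finset.sum_sub_distrib]
    exact Finset.sum_congr rfl fun A _ => by ring
  rw [h1]
  refine IsDeg.sum _ fun A _ => ?_
  by_cases hA : D + 1 < A.card
  · simpa [hc A hA] using IsDeg.zero (n := n) (D := D)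
  refine IsDeg.const_mul ?_ _
  by_cases hi : i ∈ A
  · have h2 : (fun x : Fin n → Bool => ∏ j ∈ A, bit (Function.update x i true j) -
        ∏ j ∈ A, bit (Function.update x i false j)) =
        fun x => ∏ j ∈ A.erase i, bit (x j) := by
      funext x
      have e : ∀ b : Bool, ∏ j ∈ A, bit (Function.update x i b j) =
          bit b * ∏ j ∈ A.erase i, bit (x j) := by
        intro b
        rw [← Finset.mul_prod_erase A _ hi, Function.update_self]
        congr 1
        refine Finset.prod_congr rfl fun j hj => ?_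
        rw [Function.update_of_ne (Finset.ne_of_mem_erase hj)]
      rw [e, e]
      simp
    rw [h2]
    refine IsDeg.monomial _ ?_
    rw [Finset.card_erase_of_mem hi]
    omega
  · have h2 : (fun x : Fin n → Bool => ∏ j ∈ A, bit (Function.update x i true j) -
        ∏ j ∈ A, bit (Function.update x i false j)) = fun x => 0 := by
      funext x
      have e : ∀ b : Bool, ∏ j ∈ A, bit (Function.update x i b j) =
          ∏ j ∈ A, bit (x j) := by
        intro b
        refine Finset.prod_congr rfl fun j hj => ?_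
        rw [Function.update_of_ne]
        rintro rfl
        exact hi hj
      rw [e, e, sub_self]
    rw [h2]
    exact IsDeg.zero

/-- A function on the cube that does not change along any coordinate is constant. -/
theorem const_of_update {β : Type*} (g : (Fin n → Bool) → β)
    (h : ∀ i x, g (Function.update x i true) = g (Function.update x i false)) (x y : Fin n → Bool) :
    g x = g y := by
  classical
  have h1 : ∀ i x b, g (Function.update x i b) = g x := by
    intro i x b
    have e : g (Function.update x i (x i)) = g x := by rw [Function.update_eq_self]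
    rcases b with _ | _ <;> rcases hx : x i with _ | _
    · rw [hx] at e; exact e
    · rw [hx] at e; rw [← h, e]
    · rw [hx] at e; rw [h, e]
    · rw [hx] at e; exact e
  have h2 : ∀ S : Finset (Fin n), ∀ x y : Fin n → Bool, (∀ i, i ∉ S → x i = y i) → g x = g y := by
    intro S
    induction S using Finset.induction_on with
    | empty => intro x y hxy; exact congrArg g (funext fun i => hxy i (by simp))
    | insert i S hi ih =>
      intro x y hxy
      rw [← h1 i y (x i)]
      refine ih _ _ fun j hj => ?_
      by_cases hji : j = i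
      · subst hji; rw [Function.update_self]
      · rw [Function.update_of_ne hji]
        exact hxy j fun hc => (Finset.mem_insert.1 hc).elim hji hj
  exact h2 univ x y fun i hi => absurd (Finset.mem_univ i) hi

/-- A nonzero polynomial of degree at most `D` modulo `m` is nonzero at `2 ^ (-D)` of the cube. -/
theorem IsDeg.card_ne_zero {m D M : ℕ} {φ : (Fin M → Bool) → ℤ} (h : IsDeg D φ)
    (hne : ∃ t, ((φ t : ℤ) : ZMod m) ≠ 0) :
    2 ^ M ≤ 2 ^ D * (univ.filter fun t => ((φ t : ℤ) : ZMod m) ≠ 0).card := by
  classical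
  have hconst : (∀ s t, ((φ s : ℤ) : ZMod m) = φ t) → ∀ d : ℕ,
      2 ^ M ≤ 2 ^ d * (univ.filter fun t => ((φ t : ℤ) : ZMod m) ≠ 0).card := by
    intro hc d
    obtain ⟨t₀, ht₀⟩ := hne
    have e : (univ.filter fun t => ((φ t : ℤ) : ZMod m) ≠ 0) = univ := by
      refine Finset.filter_true_of_mem fun t _ => ?_
      rw [hc t t₀]; exact ht₀
    rw [e, Finset.card_univ, Fintype.card_fun, Fintype.card_bool, Fintype.card_fin]
    exact Nat.le_mul_of_pos_left _ (by positivity)
  induction D generalizing φ with
  | zero =>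
    obtain ⟨c, hc, h⟩ := h
    refine hconst (fun s t => ?_) 0
    have e : ∀ s, φ s = c ∅ := by
      intro s
      rw [h s, Finset.sum_eq_single ∅]
      · simp
      · intro B _ hB
        rw [hc B (Finset.card_pos.2 (Finset.nonempty_iff_ne_empty.2 hB)), zero_mul]
      · intro hB; exact absurd (Finset.mem_univ _) hB
    rw [e, e]
  | succ D ih =>
    by_cases hall : ∀ i t, ((φ (Function.update t i true) : ℤ) : ZMod m) =
        φ (Function.update t i false)
    · exact hconst (fun s t => const_of_update (fun t => ((φ t : ℤ) : ZMod m)) hall s t) _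
    · push Not at hall
      obtain ⟨i, t₀, ht₀⟩ := hall
      set ψ : (Fin M → Bool) → ℤ := fun x =>
        φ (Function.update x i true) - φ (Function.update x i false) with hψ
      have h1 : ∃ t, ((ψ t : ℤ) : ZMod m) ≠ 0 := by
        refine ⟨t₀, ?_⟩
        rw [hψ]
        push_cast
        exact sub_ne_zero.2 ht₀
      have hψc : (∀ s t, ((ψ s : ℤ) : ZMod m) = ψ t) → ∀ d : ℕ,
          2 ^ M ≤ 2 ^ d * (univ.filter fun t => ((ψ t : ℤ) : ZMod m) ≠ 0).card := by
        intro hc d
        obtain ⟨t₁, ht₁⟩ := h1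
        have e : (univ.filter fun t => ((ψ t : ℤ) : ZMod m) ≠ 0) = univ := by
          refine Finset.filter_true_of_mem fun t _ => ?_
          rw [hc t t₁]; exact ht₁
        rw [e, Finset.card_univ, Fintype.card_fun, Fintype.card_bool, Fintype.card_fin]
        exact Nat.le_mul_of_pos_left _ (by positivity)
      have h2 := ih (h.diff i) h1 hψc
      set Z := univ.filter fun t => ((φ t : ℤ) : ZMod m) ≠ 0 with hZ
      have h3 : (univ.filter fun t => ((ψ t : ℤ) : ZMod m) ≠ 0) ⊆
          Z ∪ Z.image fun t => Function.update t i (!(t i)) := by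
        intro t ht
        have ht' := (Finset.mem_filter.1 ht).2
        rw [hψ] at ht'
        push_cast at ht'
        have h4 : ∃ b, ((φ (Function.update t i b) : ℤ) : ZMod m) ≠ 0 := by
          by_contra hcon
          push Not at hcon
          rw [hcon true, hcon false, sub_zero] at ht'
          exact ht' rfl
        obtain ⟨b, hb⟩ := h4
        rw [Finset.mem_union]
        by_cases hbt : b = t i
        · left
          rw [hbt, Function.update_eq_self] at hb
          exact Finset.mem_filter.2 ⟨Finset.mem_univ _, hb⟩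
        · right
          refine Finset.mem_image.2 ⟨Function.update t i b,
            Finset.mem_filter.2 ⟨Finset.mem_univ _, hb⟩, ?_⟩
          rw [Function.update_self, Function.update_idem]
          have : (!b) = t i := by
            cases b <;> cases hti : t i <;> simp_all
          rw [this, Function.update_eq_self]
      have h4 : (univ.filter fun t => ((ψ t : ℤ) : ZMod m) ≠ 0).card ≤ 2 * Z.card := by
        refine (Finset.card_le_card h3).trans ((Finset.card_union_le _ _).trans ?_)
        have := Finset.card_image_le (s := Z) (f := fun t => Function.update t i (!(t i)))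
        omega
      calc 2 ^ M ≤ 2 ^ D * (univ.filter fun t => ((ψ t : ℤ) : ZMod m) ≠ 0).card := h2
        _ ≤ 2 ^ D * (2 * Z.card) := Nat.mul_le_mul_left _ h4
        _ = 2 ^ (D + 1) * Z.card := by ring

theorem EqSys.comp_emb {m : ℕ} {P : (Fin n → Bool) → Prop} (h : EqSys m D P) (Q : BCube n M) :
    EqSys m D fun t => P (Q.emb t) := by
  obtain ⟨E, hE, h⟩ := h
  refine ⟨{G | ∃ F ∈ E, G = fun t => F (Q.emb t)}, ?_, fun t => ?_⟩
  · rintro G ⟨F, hF, rfl⟩
    exact (hE F hF).comp_emb Q
  · beta_reduce
    rw [h]
    constructor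
    · rintro h1 G ⟨F, hF, rfl⟩
      exact h1 F hF
    · intro h1 F hF
      exact h1 _ ⟨F, hF, rfl⟩

end

end Pool.Agent.QuadSys
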