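import Pool.Agent.QuadSys.Isolated
import Pool.Agent.Helper32.QS.DStr

/-!
# Fibres of structured maps on regular linear fibres are dense
-/

set_option autoImplicit false

namespace Pool.Agent.QuadSys

open Finset Pool.Agent.Helper21.LinSys Pool.Agent.Helper32.QS

theorem card_le_of_le' {n ℓ : ℕ} [NeZero ℓ] {A B : AddSubgroup (Fin n → ZMod ℓ)} (h : A ≤ B) :
    Nat.card A ≤ Nat.card B :=
  Nat.card_le_card_of_injective (AddSubgroup.inclusion h) (AddSubgroup.inclusion_injective _)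

theorem gap (ℓ : ℕ) [NeZero ℓ] (D : ℕ) :
    ∃ C : ℕ, ∀ {n h : ℕ} {α : Type} [DecidableEq α] (Γ : AddSubgroup (Fin n → ZMod ℓ))
      (S : Finset (Fin n)) (y : Fin n → Bool) (σ : (Fin n → Bool) → α),
      NI D σ → ∀ (K : Finset (Fin n)) (l : Fin h → Fin n → ZMod ℓ),
      (∀ x x', (∀ i ∈ K, x i = x' i) → (∀ j, ev (l j) x = ev (l j) x') → σ x = σ x') →
      ∀ Λ R : ℕ, Nat.card Γ * ℓ ^ h ≤ 2 ^ Λ → Reg Γ S R →
      K.card + C * (h + 1) * (Λ + 1) ≤ R →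
      (fibz Γ S y y).card ≤
        2 ^ (2 * D + 4) * ((fibz Γ S y y).filter fun x => σ x = σ y).card := by
  classical
  have hℓ : 0 < ℓ := Nat.pos_of_ne_zero (NeZero.ne ℓ)
  rcases Nat.eq_zero_or_pos D with rfl | hD1
  · refine ⟨0, fun {n h α} _ Γ S y σ hNI => ?_⟩
    obtain ⟨I, ⟨i, -⟩, -⟩ := hNI y (fun k => k.elim0) (fun k => k.elim0)
    exact i.elim0
  have hk0 : 0 ≤ kap ℓ D := kap_nonneg ℓ D hD1
  have hk1 : kap ℓ D < 1 := kap_lt_one (by omega) D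
  obtain ⟨c, hc⟩ := exists_pow_lt_of_lt_one (show (0 : ℝ) < 1 / 2 ^ (D + 1) by positivity) hk1
  refine ⟨(c + 1) * (ℓ + 2), ?_⟩
  intro n h α _ Γ S y σ hNI K l hσ Λ R hcard hReg hR
  rw [NI_iff] at hNI
  obtain ⟨N, hN⟩ : ∃ N, N = Λ + 1 := ⟨_, rfl⟩
  rw [← hN] at hR
  set r := c * N + 1 with hr
  obtain ⟨t₁, ht₁⟩ : ∃ t₁, t₁ = ℓ * h + 1 := ⟨_, rfl⟩
  set Γ' := adj Γ l with hΓ'
  have hΓΓ' : Γ ≤ Γ' := le_adj Γ l
  have hcard' : Nat.card Γ' ≤ Nat.card Γ * ℓ ^ h := card_adj_le Γ l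
  -- analytic parameters
  have hkr : kap ℓ D ^ r ≤ (1 / 2 ^ (D + 1)) ^ N := by
    rw [hr]
    calc kap ℓ D ^ (c * N + 1) ≤ kap ℓ D ^ (c * N) :=
          pow_le_pow_of_le_one hk0 hk1.le (Nat.le_succ _)
      _ = (kap ℓ D ^ c) ^ N := by rw [pow_mul]
      _ ≤ (1 / 2 ^ (D + 1)) ^ N := pow_le_pow_left₀ (pow_nonneg hk0 _) hc.le N
  have hcardR : (Nat.card Γ' : ℝ) ≤ 2 ^ N := by
    have h1 : Nat.card Γ' ≤ 2 ^ N := by
      rw [hN]
      exact (hcard'.trans hcard).trans (Nat.pow_le_pow_right (by norm_num) (by omega))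
    exact_mod_cast h1
  have hhalf : ((2 : ℝ) ^ N) ^ D * (1 / 2 ^ (D + 1)) ^ N = (1 / 2) ^ N := by
    rw [div_pow, div_pow, one_pow, ← pow_mul, ← pow_mul, mul_one_div, mul_comm N D]
    rw [show (D + 1) * N = D * N + N by ring, pow_add]
    field_simp
  have hlt : ((1 : ℝ) / 2) ^ N ≤ 1 / 2 := by
    rw [hN]
    calc ((1 : ℝ) / 2) ^ (Λ + 1) ≤ (1 / 2) ^ 1 :=
          pow_le_pow_of_le_one (by norm_num) (by norm_num) (by omega)
      _ = 1 / 2 := pow_one _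
  have hbig : ∀ G : ℝ, 0 ≤ G → G ≤ 2 ^ N → G ^ D * kap ℓ D ^ r < 1 := by
    intro G hG0 hG
    calc G ^ D * kap ℓ D ^ r ≤ ((2 : ℝ) ^ N) ^ D * (1 / 2 ^ (D + 1)) ^ N := by
          refine mul_le_mul (pow_le_pow_left₀ hG0 hG D) hkr (pow_nonneg hk0 _) (by positivity)
      _ = (1 / 2) ^ N := hhalf
      _ ≤ 1 / 2 := hlt
      _ < 1 := by norm_num
  have hrho : ∀ G : ℝ, 0 ≤ G → G ≤ 2 ^ N → G * rho ℓ ^ r ≤ 1 / 2 := by
    intro G hG0 hG
    have h1 : rho ℓ ^ r ≤ kap ℓ D ^ r :=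
      pow_le_pow_left₀ (rho_pos ℓ).le (rho_le_kap D hD1) r
    have h2 : (2 : ℝ) ^ N ≤ ((2 : ℝ) ^ N) ^ D := by
      calc (2 : ℝ) ^ N = ((2 : ℝ) ^ N) ^ 1 := (pow_one _).symm
        _ ≤ _ := pow_le_pow_right₀ (one_le_pow₀ (by norm_num)) hD1
    calc G * rho ℓ ^ r ≤ ((2 : ℝ) ^ N) ^ D * (1 / 2 ^ (D + 1)) ^ N := by
          refine mul_le_mul (hG.trans h2) (h1.trans hkr)
            (pow_nonneg (rho_pos ℓ).le _) (by positivity)
      _ = (1 / 2) ^ N := hhalf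
      _ ≤ 1 / 2 := hlt
  have hΓcard : (Nat.card Γ : ℝ) ≤ 2 ^ N := by
    refine le_trans ?_ hcardR
    exact_mod_cast card_le_of_le' hΓΓ'
  -- the regularised set
  obtain ⟨t, htt, S', hSS, hScard, hpow, hor⟩ := regularise Γ' (S ∪ K) r t₁
  have hS' : S ⊆ S' := Finset.subset_union_left.trans hSS
  have hK' : K ⊆ S' := Finset.subset_union_right.trans hSS
  have hdiff : (S' \ S).card ≤ K.card + r * t₁ := by
    have h1 : S' \ S ⊆ K ∪ (S' \ (S ∪ K)) := by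
      intro i hi
      rw [Finset.mem_sdiff] at hi
      rw [Finset.mem_union, Finset.mem_sdiff, Finset.mem_union]
      by_cases hiK : i ∈ K
      · exact Or.inl hiK
      · exact Or.inr ⟨hi.1, by tauto⟩
    refine (Finset.card_le_card h1).trans ((Finset.card_union_le _ _).trans ?_)
    exact Nat.add_le_add_left (hScard.trans (Nat.mul_le_mul_left _ htt)) _
  have hRbig : K.card + r * t₁ + r ≤ R := by
    refine le_trans ?_ hR
    have hN1 : 1 ≤ N := by omega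
    have h1 : r * t₁ + r ≤ (c + 1) * (ℓ + 2) * (h + 1) * N := by
      have h2 : r ≤ (c + 1) * N := by rw [hr]; nlinarith
      have h3 : t₁ + 1 ≤ (ℓ + 2) * (h + 1) := by rw [ht₁]; nlinarith
      calc r * t₁ + r = r * (t₁ + 1) := by ring
        _ ≤ ((c + 1) * N) * ((ℓ + 2) * (h + 1)) := Nat.mul_le_mul h2 h3
        _ = _ := by ring
    omega
  have hsupeq : ∀ L ∈ Γ, L ∈ sup ℓ S' → L ∈ sup ℓ S := by
    intro L hL hLs
    rcases hReg L hL with h1 | h1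
    · exact h1
    · exfalso
      have h2 : off S L ≤ (S' \ S).card := by
        unfold off
        refine Finset.card_le_card fun i hi => ?_
        rw [Finset.mem_filter] at hi
        rw [Finset.mem_sdiff]
        refine ⟨?_, hi.2.1⟩
        by_contra hc
        exact hi.2.2 (hLs i hc)
      omega
  have hreg' : Reg Γ' S' r := by
    rcases hor with h1 | h1
    · exact h1
    · exfalso
      set N₁ := sup ℓ S' with hN₁
      have h2 : Nat.card (Γ' ⊓ N₁ : AddSubgroup (Fin n → ZMod ℓ)) * Nat.card Γ ≤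
          Nat.card Γ' * Nat.card (Γ ⊓ N₁ : AddSubgroup (Fin n → ZMod ℓ)) := by
        have e1 : Nat.card (Γ ⊓ (Γ' ⊓ N₁) : AddSubgroup (Fin n → ZMod ℓ)) *
            (Γ ⊓ (Γ' ⊓ N₁)).relIndex (Γ' ⊓ N₁) =
            Nat.card (Γ' ⊓ N₁ : AddSubgroup (Fin n → ZMod ℓ)) := by
          rw [← AddSubgroup.relIndex_bot_left, ← AddSubgroup.relIndex_bot_left]
          exact AddSubgroup.relIndex_mul_relIndex _ _ _ bot_le inf_le_right
        have e2 : Nat.card Γ * Γ.relIndex Γ' = Nat.card Γ' := by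
          rw [← AddSubgroup.relIndex_bot_left, ← AddSubgroup.relIndex_bot_left]
          exact AddSubgroup.relIndex_mul_relIndex _ _ _ bot_le hΓΓ'
        have e3 : (Γ ⊓ (Γ' ⊓ N₁)).relIndex (Γ' ⊓ N₁) ≤ Γ.relIndex Γ' := by
          rw [AddSubgroup.inf_relIndex_right]
          refine AddSubgroup.relIndex_le_of_le_right inf_le_left ?_
          intro h0
          rw [h0, mul_zero] at e2
          have := Nat.card_pos (α := Γ')
          omega
        have e4 : (Γ ⊓ (Γ' ⊓ N₁) : AddSubgroup (Fin n → ZMod ℓ)) = Γ ⊓ N₁ := by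
          rw [← inf_assoc, inf_eq_left.mpr hΓΓ']
        rw [← e1, ← e2, e4]
        rw [e4] at e3
        calc Nat.card (Γ ⊓ N₁ : AddSubgroup (Fin n → ZMod ℓ)) * (Γ ⊓ N₁).relIndex (Γ' ⊓ N₁) *
              Nat.card Γ ≤ Nat.card (Γ ⊓ N₁ : AddSubgroup (Fin n → ZMod ℓ)) * Γ.relIndex Γ' *
              Nat.card Γ := Nat.mul_le_mul_right _ (Nat.mul_le_mul_left _ e3)
          _ = _ := by ring
      have h3 : Nat.card (Γ' ⊓ N₁ : AddSubgroup (Fin n → ZMod ℓ)) ≤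
          ℓ ^ h * Nat.card (Γ ⊓ N₁ : AddSubgroup (Fin n → ZMod ℓ)) := by
        have h4 : Nat.card (Γ' ⊓ N₁ : AddSubgroup (Fin n → ZMod ℓ)) * Nat.card Γ ≤
            (ℓ ^ h * Nat.card (Γ ⊓ N₁ : AddSubgroup (Fin n → ZMod ℓ))) * Nat.card Γ := by
          refine h2.trans ?_
          calc Nat.card Γ' * Nat.card (Γ ⊓ N₁ : AddSubgroup (Fin n → ZMod ℓ)) ≤
              (Nat.card Γ * ℓ ^ h) * Nat.card (Γ ⊓ N₁ : AddSubgroup (Fin n → ZMod ℓ)) :=
                Nat.mul_le_mul_right _ hcard'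
            _ = _ := by ring
        exact Nat.le_of_mul_le_mul_right h4 Nat.card_pos
      have h5 : (Γ ⊓ N₁ : AddSubgroup (Fin n → ZMod ℓ)) ≤ Γ' ⊓ sup ℓ (S ∪ K) := fun L hL =>
        ⟨hΓΓ' hL.1, sup_mono Finset.subset_union_left (hsupeq L hL.1 hL.2)⟩
      have h6 : Nat.card (Γ ⊓ N₁ : AddSubgroup (Fin n → ZMod ℓ)) ≤
          Nat.card (Γ' ⊓ sup ℓ (S ∪ K) : AddSubgroup (Fin n → ZMod ℓ)) :=
        Nat.card_le_card_of_injective (AddSubgroup.inclusion h5)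
          (AddSubgroup.inclusion_injective _)
      have h7 : 2 ^ t * Nat.card (Γ' ⊓ sup ℓ (S ∪ K) : AddSubgroup (Fin n → ZMod ℓ)) ≤
          ℓ ^ h * Nat.card (Γ' ⊓ sup ℓ (S ∪ K) : AddSubgroup (Fin n → ZMod ℓ)) :=
        hpow.trans (h3.trans (Nat.mul_le_mul_left _ h6))
      have h8 := Nat.le_of_mul_le_mul_right h7 Nat.card_pos
      rw [h1, ht₁] at h8
      have h9 : ℓ ^ h ≤ 2 ^ (ℓ * h) := by
        rw [pow_mul]
        exact Nat.pow_le_pow_left Nat.lt_two_pow_self.le h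
      have h10 : 2 ^ (ℓ * h) < 2 ^ (ℓ * h + 1) := Nat.pow_lt_pow_right (by norm_num) (by omega)
      omega
  -- the two stages
  have hmain := stage1 Γ S S' hS' y R r D hReg (by omega) (by omega)
    (hbig _ (Nat.cast_nonneg _) hΓcard) (hrho _ (Nat.cast_nonneg _) hΓcard) σ hNI
    (3 * 2 ^ D) (by positivity) (by
      intro x hx _ Y hY
      exact stage2 Γ Γ' hΓΓ' S' x r D hreg' (hbig _ (Nat.cast_nonneg _) hcardR)
        (hrho _ (Nat.cast_nonneg _) hcardR) σ hNI (by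
          intro u hu v hv huv
          rw [mem_fibz] at hu hv
          refine hσ u v (fun i hi => ?_) fun j => huv _ (mem_adj Γ l j)
          rw [hu.1 i (hK' hi), hv.1 i (hK' hi)]) Y hY)
    ((fibz Γ S y y).filter fun x => σ x = σ y) (by
      intro u hu hσu
      exact Finset.mem_filter.mpr ⟨hu, hσu⟩)
  have h11 : ((fibz Γ S y y).card : ℝ) ≤
      2 ^ (2 * D + 4) * ((fibz Γ S y y).filter fun x => σ x = σ y).card := by
    refine hmain.trans ?_
    refine mul_le_mul_of_nonneg_right ?_ (Nat.cast_nonneg _)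
    have e1 : (3 : ℝ) * 2 ^ D * (3 * 2 ^ D) = 9 * 2 ^ (2 * D) := by
      rw [two_mul, pow_add]; ring
    have e2 : (2 : ℝ) ^ (2 * D + 4) = 16 * 2 ^ (2 * D) := by
      rw [pow_add]; ring
    rw [e1, e2]
    have : (0 : ℝ) < 2 ^ (2 * D) := by positivity
    linarith
  exact_mod_cast h11

end Pool.Agent.QuadSys
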