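import Mathlib

/-!
# Symmetric matrices that have small rank outside the diagonal
-/

set_option autoImplicit false

namespace Pool.Agent.QuadSys

open Finset

/-- a symmetric matrix whose rows lie in the span of few vectors factors through a small symmetric
matrix -/
theorem exists_factor {F κ : Type*} [Field F] [Finite κ] {s : ℕ} (N : κ → κ → F)
    (hN : ∀ i j, N i j = N j i) (V : Fin s → κ → F)
    (hV : ∀ i, N i ∈ Submodule.span F (Set.range V)) :
    ∃ (s' : ℕ) (X : κ → Fin s' → F) (G : Fin s' → Fin s' → F), s' ≤ s ∧
      (∀ u v, G u v = G v u) ∧ ∀ i j, N i j = ∑ u, ∑ v, X i u * G u v * X j v := by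
  classical
  have := Fintype.ofFinite κ
  obtain ⟨f, hf, hspan, -⟩ := Submodule.exists_fun_fin_finrank_span_eq F (Set.range N)
  choose c hc using hf
  have hX : ∀ i, ∃ x : Fin (Module.finrank F (Submodule.span F (Set.range N))) → F,
      ∑ u, x u • f u = N i := by
    intro i
    rw [← Submodule.mem_span_range_iff_exists_fun, hspan]
    exact Submodule.subset_span ⟨i, rfl⟩
  choose X hX using hX
  refine ⟨_, X, fun u v => N (c u) (c v), ?_, fun u v => hN _ _, fun i j => ?_⟩
  · have h1 : Submodule.span F (Set.range N) ≤ Submodule.span F (Set.range V) := by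
      rw [Submodule.span_le]
      rintro _ ⟨i, rfl⟩
      exact hV i
    refine (Submodule.finrank_mono h1).trans ?_
    simpa [Set.finrank] using finrank_range_le_card (R := F) V
  · have h1 : ∀ i j, N i j = ∑ u, X i u * N (c u) j := by
      intro i j
      conv_lhs => rw [← hX i]
      rw [Finset.sum_apply]
      refine Finset.sum_congr rfl fun u _ => ?_
      rw [Pi.smul_apply, smul_eq_mul, hc]
    rw [h1 i j]
    refine Finset.sum_congr rfl fun u _ => ?_
    rw [hN (c u) j, h1 j (c u), Finset.mul_sum]
    refine Finset.sum_congr rfl fun v _ => ?_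
    rw [hN (c v) (c u)]
    ring

/-- one more row or column index -/
def push {ι : Type*} {s : ℕ} (i : ι) (a : Fin s → ι) : Fin (s + 1) → ι :=
  fun u => Fin.cases (motive := fun _ => ι) i a u

theorem push_zero {ι : Type*} {s : ℕ} (i : ι) (a : Fin s → ι) : push i a 0 = i := rfl

theorem push_succ {ι : Type*} {s : ℕ} (i : ι) (a : Fin s → ι) (u : Fin s) :
    push i a u.succ = a u := rfl

/-- the bordered minor -/
theorem bordered {F ι : Type*} [Field F] {s : ℕ} (P : ι → ι → F) (a b : Fin s → ι)
    (hdet : (Matrix.of fun u v => P (a u) (b v)).det ≠ 0) {i j : ι}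
    (h0 : (Matrix.of fun u v => P (push i a u) (push j b v)).det = 0) :
    P i j = ∑ u, P i (b u) *
      ∑ v, ((Matrix.of fun u v => P (a u) (b v))⁻¹ : Matrix (Fin s) (Fin s) F) u v * P (a v) j := by
  classical
  set Q : Matrix (Fin s) (Fin s) F := Matrix.of fun u v => P (a u) (b v) with hQ
  have hinv : Invertible Q := Matrix.invertibleOfIsUnitDet Q (isUnit_iff_ne_zero.2 hdet)
  set B : Matrix (Fin s) Unit F := Matrix.of fun u _ => P (a u) j with hB
  set C : Matrix Unit (Fin s) F := Matrix.of fun _ v => P i (b v) with hC
  set D : Matrix Unit Unit F := Matrix.of fun _ _ => P i j with hD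
  have h1 : (Matrix.fromBlocks Q B C D).det = 0 := by
    have hbij : Function.Bijective (Sum.elim Fin.succ (fun _ => 0) : Fin s ⊕ Unit → Fin (s + 1)) := by
      constructor
      · rintro (u | u) (v | v) h
        · simpa using h
        · exact absurd h (Fin.succ_ne_zero u)
        · exact absurd h.symm (Fin.succ_ne_zero v)
        · rfl
      · intro u
        refine Fin.cases ⟨Sum.inr (), rfl⟩ (fun u => ⟨Sum.inl u, rfl⟩) u
    rw [← h0, ← Matrix.det_submatrix_equiv_self (Equiv.ofBijective _ hbij)]
    congr 1
    ext (u | u) (v | v) <;> rfl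
  rw [Matrix.det_fromBlocks₁₁] at h1
  have h2 : (D - C * ⅟Q * B).det = 0 := by
    rcases mul_eq_zero.1 h1 with h | h
    · exact absurd h hdet
    · exact h
  rw [Matrix.det_unique, Matrix.sub_apply] at h2
  have h3 : P i j = (C * ⅟Q * B) () () := by
    have := sub_eq_zero.1 h2
    simpa [hD] using this
  rw [h3, Matrix.mul_assoc, Matrix.mul_apply]
  refine Finset.sum_congr rfl fun u _ => ?_
  rw [Matrix.mul_apply, Matrix.invOf_eq_nonsing_inv]
  rfl

/-- a nonsingular minor with disjoint sets of rows and columns, both outside `S` -/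
def Minor {F : Type*} [Field F] {n : ℕ} (P : Fin n → Fin n → F) (S : Finset (Fin n)) {s : ℕ}
    (a b : Fin s → Fin n) : Prop :=
  Function.Injective a ∧ Function.Injective b ∧ (∀ u v, a u ≠ b v) ∧ (∀ u, a u ∉ S) ∧
    (∀ u, b u ∉ S) ∧ (Matrix.of fun u v => P (a u) (b v)).det ≠ 0

/-- If all disjoint nonsingular minors of a symmetric matrix are small then, outside of a small set
and outside of the diagonal, the matrix factors through a small symmetric matrix. -/
theorem exists_structure {F : Type*} [Field F] {n : ℕ} (P : Fin n → Fin n → F)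
    (hP : ∀ i j, P i j = P j i) (S : Finset (Fin n)) {R : ℕ}
    (hR : ∀ (s : ℕ) (a b : Fin s → Fin n), Minor P S a b → s ≤ R) :
    ∃ (K : Finset (Fin n)) (s : ℕ) (X : Fin n → Fin s → F) (G : Fin s → Fin s → F), S ⊆ K ∧
      K.card ≤ S.card + 2 * R ∧ s ≤ R ∧ (∀ u v, G u v = G v u) ∧ (∀ i ∈ K, ∀ u, X i u = 0) ∧
      ∀ i j, i ≠ j → i ∉ K → j ∉ K → P i j = ∑ u, ∑ v, X i u * G u v * X j v := by
  classical
  -- a maximal minor
  obtain ⟨s, ⟨a, b, hab⟩, hmax⟩ : ∃ s, (∃ a b : Fin s → Fin n, Minor P S a b) ∧
      ∀ a b : Fin (s + 1) → Fin n, ¬ Minor P S a b := by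
    by_contra hcon
    push Not at hcon
    have hall : ∀ s, ∃ a b : Fin s → Fin n, Minor P S a b := by
      intro s
      induction s with
      | zero =>
        refine ⟨Fin.elim0, Fin.elim0, fun u => u.elim0, fun u => u.elim0, fun u => u.elim0,
          fun u => u.elim0, fun u => u.elim0, ?_⟩
        rw [Matrix.det_isEmpty]; exact one_ne_zero
      | succ s ih => exact hcon s ih
    obtain ⟨a, b, h⟩ := hall (R + 1)
    have := hR _ a b h
    omega
  have hsR : s ≤ R := hR s a b hab
  obtain ⟨ha, hb, hdisj, haS, hbS, hdet⟩ := hab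
  set K := S ∪ (univ.image a ∪ univ.image b) with hK
  have hKa : ∀ {i}, i ∉ K → ∀ u, a u ≠ i := by
    intro i hi u h
    exact hi (by rw [hK]; simp [← h])
  have hKb : ∀ {i}, i ∉ K → ∀ u, b u ≠ i := by
    intro i hi u h
    exact hi (by rw [hK]; simp [← h])
  have hKS : ∀ {i}, i ∉ K → i ∉ S := by
    intro i hi h
    exact hi (by rw [hK]; simp [h])
  set N : Fin n → Fin n → F := fun i j => ∑ u, P i (b u) *
      ∑ v, ((Matrix.of fun u v => P (a u) (b v))⁻¹ : Matrix (Fin s) (Fin s) F) u v * P (a v) j
    with hN
  have key : ∀ i j, i ≠ j → i ∉ K → j ∉ K → P i j = N i j := by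
    intro i j hij hi hj
    refine bordered P a b hdet ?_
    by_contra h
    refine hmax (push i a) (push j b) ⟨?_, ?_, ?_, ?_, ?_, h⟩
    · intro u v huv
      induction u using Fin.cases with
      | zero =>
        induction v using Fin.cases with
        | zero => rfl
        | succ v => exact absurd huv.symm (hKa hi v)
      | succ u =>
        induction v using Fin.cases with
        | zero => exact absurd huv (hKa hi u)
        | succ v => exact congrArg _ (ha huv)
    · intro u v huv
      induction u using Fin.cases with
      | zero =>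
        induction v using Fin.cases with
        | zero => rfl
        | succ v => exact absurd huv.symm (hKb hj v)
      | succ u =>
        induction v using Fin.cases with
        | zero => exact absurd huv (hKb hj u)
        | succ v => exact congrArg _ (hb huv)
    · intro u v
      induction u using Fin.cases with
      | zero =>
        induction v using Fin.cases with
        | zero => exact hij
        | succ v => exact (hKb hi v).symm
      | succ u =>
        induction v using Fin.cases with
        | zero => exact hKa hj u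
        | succ v => exact hdisj u v
    · intro u
      induction u using Fin.cases with
      | zero => exact hKS hi
      | succ u => exact haS u
    · intro u
      induction u using Fin.cases with
      | zero => exact hKS hj
      | succ u => exact hbS u
  -- restrict to the complement of `K`
  obtain ⟨s', X, G, hs', hG, hX⟩ := exists_factor (κ := {i // i ∉ K})
    (fun i j => N i j) (by
      intro i j
      by_cases hij : i = j
      · rw [hij]
      · have hij' : (i : Fin n) ≠ j := fun h => hij (Subtype.ext h)
        change N i j = N j i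
        rw [← key i j hij' i.2 j.2, ← key j i hij'.symm j.2 i.2, hP])
    (fun (u : Fin s) j =>
      ∑ v, ((Matrix.of fun u v => P (a u) (b v))⁻¹ : Matrix (Fin s) (Fin s) F) u v * P (a v) j)
    (by
      intro i
      rw [Submodule.mem_span_range_iff_exists_fun]
      refine ⟨fun u => P i (b u), ?_⟩
      funext j
      rw [Finset.sum_apply]
      rfl)
  refine ⟨K, s', fun i u => if h : i ∉ K then X ⟨i, h⟩ u else 0, G, ?_, ?_, hs'.trans hsR, hG,
    ?_, ?_⟩
  · exact Finset.subset_union_left
  · calc K.card ≤ S.card + (univ.image a ∪ univ.image b).card := Finset.card_union_le _ _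
      _ ≤ S.card + (s + s) := by
        refine Nat.add_le_add_left ((Finset.card_union_le _ _).trans ?_) _
        refine Nat.add_le_add ?_ ?_
        · exact Finset.card_image_le.trans (by simp)
        · exact Finset.card_image_le.trans (by simp)
      _ ≤ S.card + 2 * R := by omega
  · intro i hi u
    simp [hi]
  · intro i j hij hi hj
    rw [key i j hij hi hj]
    have := hX ⟨i, hi⟩ ⟨j, hj⟩
    simp only at this
    rw [this]
    simp only [hi, hj, not_false_eq_true, dif_pos]

end Pool.Agent.QuadSys
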