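import Pool.Agent.QuadSys.Defs
import Pool.Agent.Helper27.QS.Rank

/-!
# Inverse theorem for quadratic phases on the cube
-/

set_option autoImplicit false

namespace Pool.Agent.QuadSys

open Finset Pool.Agent.Helper21.LinSys
open Pool.Agent.Helper27.QS (qv Sym qv_eq_bl bl kA hc struct_of_bias one_le_hc)

theorem char_lift (m k : ℕ) [NeZero m] [NeZero (2 * m * k)] (a : ℤ) :
    (ZMod.stdAddChar ((a : ℤ) : ZMod m) : ℂ) =
      ZMod.stdAddChar (((2 * k * a : ℤ)) : ZMod (2 * m * k)) := by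
  rw [ZMod.stdAddChar_coe, ZMod.stdAddChar_coe]
  congr 1
  have h1 : ((2 * m * k : ℕ) : ℂ) ≠ 0 := by exact_mod_cast NeZero.ne (2 * m * k)
  push_cast at h1 ⊢
  have hm : (m : ℂ) ≠ 0 := by
    intro h
    rw [h] at h1
    simp at h1
  have hk : (k : ℂ) ≠ 0 := by
    intro h
    rw [h] at h1
    simp at h1
  field_simp

/-- A finite set of forms as a family. -/
theorem exists_family {V : Type*} [Inhabited V] (𝓛 : Finset V) (ρ : ℕ) (h : 𝓛.card ≤ ρ) :
    ∃ l : Fin ρ → V, ∀ L ∈ 𝓛, ∃ j, l j = L := by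
  classical
  refine ⟨fun j => if h' : (j : ℕ) < 𝓛.card then (𝓛.equivFin.symm ⟨j, h'⟩ : V) else default, ?_⟩
  intro L hL
  set j := 𝓛.equivFin ⟨L, hL⟩ with hj
  refine ⟨⟨j, lt_of_lt_of_le j.2 h⟩, ?_⟩
  dsimp only
  rw [dif_pos j.2]
  have : (⟨(j : ℕ), j.2⟩ : Fin 𝓛.card) = j := rfl
  rw [this, hj, Equiv.symm_apply_apply]

theorem inverse (m : ℕ) [NeZero m] (ℓ : ℕ) [NeZero ℓ] (hℓ : 2 * m ∣ ℓ) :
    ∃ C : ℕ, ∀ (n : ℕ) (φ : (Fin n → Bool) → ℤ), IsQuad φ →
      ∀ (S : Finset (Fin n)) (z : Fin n → Bool) (L : Fin n → ZMod ℓ) (r : ℕ),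
        (2 : ℝ) ^ Sᶜ.card < 2 ^ r * ‖∑ x ∈ cube S z,
          (ZMod.stdAddChar ((φ x : ℤ) : ZMod m) : ℂ) * ZMod.stdAddChar (ev L x)‖ →
        Struct ℓ (C * (r + S.card + 1) ^ 2) (fun x => ((φ x : ℤ) : ZMod m)) := by
  classical
  obtain ⟨k, rfl⟩ := hℓ
  refine ⟨4 * (hc (2 * m * k) * (1 + hc (2 * m * k))) + 2 * (2 * m * k + 1) + 2, ?_⟩
  set ℓ := 2 * m * k with hℓdef
  intro n φ hφ S z L r hr
  obtain ⟨c, a, M, hφ⟩ := hφ
  -- the symmetric matrix
  set A : Fin n → Fin n → ZMod ℓ := fun i j =>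
    (((k : ℤ) * (M i j + M j i) + (if i = j then 2 * k * a i else 0) : ℤ) : ZMod ℓ) with hA
  have hsym : Sym A := by
    intro i j
    rw [hA]
    dsimp only
    by_cases h : i = j
    · rw [h]
    · rw [if_neg h, if_neg (Ne.symm h), add_comm (M i j)]
  have hqv : ∀ x : Fin n → Bool, qv A x = ((2 * k * (φ x - c) : ℤ) : ZMod ℓ) := by
    intro x
    have h1 : qv A x = ((∑ i, ∑ j, ((k : ℤ) * (M i j + M j i) +
        (if i = j then 2 * k * a i else 0)) * bit (x i) * bit (x j) : ℤ) : ZMod ℓ) := by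
      rw [qv_eq_bl]
      unfold bl
      push_cast
      refine Finset.sum_congr rfl fun i _ => Finset.sum_congr rfl fun j _ => ?_
      have h2 : ∀ b : Bool, Pool.Agent.Helper27.QS.bit ℓ b = ((bit b : ℤ) : ZMod ℓ) := by
        intro b
        cases b <;> simp [bit, Pool.Agent.Helper27.QS.bit]
      rw [h2, h2, hA]
      dsimp only
      push_cast
      rfl
    rw [h1]
    congr 1
    have h3 : ∑ i, ∑ j, ((k : ℤ) * (M i j + M j i) +
        (if i = j then 2 * k * a i else 0)) * bit (x i) * bit (x j) =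
        k * (∑ i, ∑ j, M i j * (bit (x i) * bit (x j))) +
        k * (∑ i, ∑ j, M j i * (bit (x j) * bit (x i))) +
        2 * k * ∑ i, a i * bit (x i) := by
      rw [Finset.mul_sum, Finset.mul_sum, Finset.mul_sum, ← Finset.sum_add_distrib,
        ← Finset.sum_add_distrib]
      refine Finset.sum_congr rfl fun i _ => ?_
      have h4 : 2 * (k : ℤ) * (a i * bit (x i)) =
          ∑ j, (if i = j then 2 * k * a i else 0) * bit (x i) * bit (x j) := by
        rw [Finset.sum_eq_single i]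
        · rw [if_pos rfl]
          have : bit (x i) * bit (x i) = bit (x i) := by cases x i <;> simp [bit]
          linear_combination (-(2 * (k : ℤ) * a i)) * this
        · intro j _ hj
          rw [if_neg (Ne.symm hj)]
          ring
        · intro h; exact absurd (Finset.mem_univ i) h
      rw [h4, Finset.mul_sum, Finset.mul_sum, ← Finset.sum_add_distrib,
        ← Finset.sum_add_distrib]
      refine Finset.sum_congr rfl fun j _ => ?_
      ring
    have h5 : ∑ i, ∑ j, M j i * (bit (x j) * bit (x i)) =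
        ∑ i, ∑ j, M i j * (bit (x i) * bit (x j)) := by
      rw [Finset.sum_comm]
    rw [h3, h5, hφ x]
    ring
  -- the sum
  have hsum : ‖∑ x ∈ cube S z, (ZMod.stdAddChar ((φ x : ℤ) : ZMod m) : ℂ) *
      ZMod.stdAddChar (ev L x)‖ = ‖∑ x ∈ cube S z,
        (ZMod.stdAddChar (qv A x + ev L x) : ℂ)‖ := by
    have h1 : ∀ x ∈ cube S z, (ZMod.stdAddChar ((φ x : ℤ) : ZMod m) : ℂ) *
        ZMod.stdAddChar (ev L x) = (ZMod.stdAddChar (((2 * k * c : ℤ)) : ZMod ℓ) : ℂ) *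
          ZMod.stdAddChar (qv A x + ev L x) := by
      intro x _
      rw [char_lift m k (φ x), ← AddChar.map_add_eq_mul, ← AddChar.map_add_eq_mul, hqv x]
      congr 1
      push_cast
      ring
    rw [Finset.sum_congr rfl h1, ← Finset.mul_sum, norm_mul, norm_char, one_mul]
  rw [hsum] at hr
  have hb : (1 / 2 : ℝ) ^ r * 2 ^ Sᶜ.card ≤
      ‖∑ x ∈ cube S z, (ZMod.stdAddChar (qv A x + ev L x) : ℂ)‖ := by
    rw [one_div, inv_pow, inv_mul_le_iff₀ (by positivity)]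
    exact hr.le
  obtain ⟨K, 𝓛, -, hK, h𝓛, hdet⟩ := struct_of_bias hsym L S z r hb
  set C := 4 * (hc ℓ * (1 + hc ℓ)) + 2 * (ℓ + 1) + 2 with hC
  have hbig : S.card + kA ℓ r + (ℓ + 1) * (2 * r + 2) + 1 ≤ C * (r + S.card + 1) ^ 2 := by
    have e1 : kA ℓ r ≤ 4 * (hc ℓ * (1 + hc ℓ)) * (r + 1) ^ 2 := by
      unfold kA
      calc hc ℓ * (2 * r + 1) * (2 * r + 2 + hc ℓ * (2 * r + 2)) =
          hc ℓ * (1 + hc ℓ) * ((2 * r + 1) * (2 * r + 2)) := by ring
        _ ≤ hc ℓ * (1 + hc ℓ) * ((2 * r + 2) * (2 * r + 2)) :=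
            Nat.mul_le_mul_left _ (Nat.mul_le_mul_right _ (by omega))
        _ = _ := by ring
    have e2 : (r + 1) ^ 2 ≤ (r + S.card + 1) ^ 2 := Nat.pow_le_pow_left (by omega) 2
    have e3 : r + S.card + 1 ≤ (r + S.card + 1) ^ 2 := Nat.le_self_pow (by norm_num) _
    calc S.card + kA ℓ r + (ℓ + 1) * (2 * r + 2) + 1 ≤
        4 * (hc ℓ * (1 + hc ℓ)) * (r + 1) ^ 2 + 2 * (ℓ + 1) * (r + 1) + (S.card + 1) := by
          have : (ℓ + 1) * (2 * r + 2) = 2 * (ℓ + 1) * (r + 1) := by ring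
          omega
      _ ≤ 4 * (hc ℓ * (1 + hc ℓ)) * (r + S.card + 1) ^ 2 +
          2 * (ℓ + 1) * (r + S.card + 1) ^ 2 + 2 * (r + S.card + 1) ^ 2 := by
          have f1 := Nat.mul_le_mul_left (4 * (hc ℓ * (1 + hc ℓ))) e2
          have f2 : 2 * (ℓ + 1) * (r + 1) ≤ 2 * (ℓ + 1) * (r + S.card + 1) ^ 2 :=
            Nat.mul_le_mul_left _ (by omega)
          omega
      _ = _ := by rw [hC]; ring
  have hK' : K.card ≤ C * (r + S.card + 1) ^ 2 := by
    refine le_trans ?_ hbig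
    have : (2 * r + 2) ≤ (ℓ + 1) * (2 * r + 2) := Nat.le_mul_of_pos_left _ (by omega)
    omega
  obtain ⟨l, hl⟩ := exists_family 𝓛 (C * (r + S.card + 1) ^ 2) (h𝓛.trans hbig)
  refine ⟨K, l, hK', fun x y hxy hlxy => ?_⟩
  have h1 := hdet x y hxy (fun L' hL' => by
    obtain ⟨j, hj⟩ := hl L' hL'
    rw [← hj]
    exact hlxy j)
  rw [hqv x, hqv y] at h1
  rw [ZMod.intCast_eq_intCast_iff_dvd_sub] at h1
  rw [ZMod.intCast_eq_intCast_iff_dvd_sub]
  have hk : (0 : ℤ) < 2 * k := by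
    have h2 : ℓ ≠ 0 := NeZero.ne ℓ
    have : 0 < k := by
      rcases Nat.eq_zero_or_pos k with h | h
      · exfalso; apply h2; rw [hℓdef, h, mul_zero]
      · exact h
    positivity
  have h2 : (2 * k : ℤ) * m ∣ (2 * k : ℤ) * (φ y - φ x) := by
    have h3 : ((ℓ : ℕ) : ℤ) = (2 * k : ℤ) * m := by
      rw [hℓdef]; push_cast; ring
    rw [← h3]
    have h4 : (2 * k : ℤ) * (φ y - φ x) = 2 * k * (φ y - c) - 2 * k * (φ x - c) := by ring
    rw [h4]
    exact h1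
  exact Int.dvd_of_mul_dvd_mul_left hk.ne' h2

end Pool.Agent.QuadSys
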