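import Pool.Agent.QuadSys.Basics
import Pool.Agent.Helper32.QS.Density

/-!
# No isolated points in the fibres of systems of quadratic polynomials modulo m
-/

set_option autoImplicit false

namespace Pool.Agent.QuadSys

open Finset Pool.Agent.Helper21.LinSys Pool.Agent.Helper32.QS

theorem flip_eq {n : ℕ} (x : Fin n → Bool) (B : Finset (Fin n)) :
    flip x B = Pool.Agent.Helper32.QS.flip x B := by
  funext i
  unfold flip Pool.Agent.Helper32.QS.flip
  by_cases h : i ∈ B <;> simp [h]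

theorem NI_iff {D n : ℕ} {α : Type*} (σ : (Fin n → Bool) → α) : NI D σ ↔ NoIso D σ := by
  unfold NI NoIso
  simp only [flip_eq]

theorem IsQuad.mem_lowDeg {n : ℕ} {φ : (Fin n → Bool) → ℤ} (h : IsQuad φ) :
    (fun z : Finset (Fin n) => φ (fun i => decide (i ∈ z))) ∈ lowDeg ℤ (Fin n) 2 := by
  obtain ⟨c, a, M, h⟩ := h
  have hbit : ∀ (z : Finset (Fin n)) (i : Fin n), bit (decide (i ∈ z)) = mono ℤ {i} z := by
    intro z i
    by_cases hi : i ∈ z <;> simp [bit, mono, hi]
  have h1 : (fun z : Finset (Fin n) => φ (fun i => decide (i ∈ z))) =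
      (fun _ => c) + ∑ i, a i • mono ℤ {i} + ∑ i, ∑ j, M i j • (mono ℤ {i} * mono ℤ {j}) := by
    funext z
    rw [h]
    simp only [hbit, Pi.add_apply, Finset.sum_apply, Pi.smul_apply, smul_eq_mul, Pi.mul_apply]
  rw [h1]
  refine Submodule.add_mem _ (Submodule.add_mem _ (const_mem_lowDeg _ _) ?_) ?_
  · refine Submodule.sum_mem _ fun i _ => Submodule.smul_mem _ _ (mono_mem _ (by simp))
  · refine Submodule.sum_mem _ fun i _ => Submodule.sum_mem _ fun j _ =>
      Submodule.smul_mem _ _ ?_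
    exact mul_mem_lowDeg (D := 1) (E := 1) (mono_mem _ (by simp)) (mono_mem _ (by simp))

theorem IsQuad.LD {n m : ℕ} {φ : (Fin n → Bool) → ℤ} (h : IsQuad φ) :
    LD m 2 (fun x => ((φ x : ℤ) : ZMod m)) :=
  map_mem_lowDeg (Int.castRingHom (ZMod m)) h.mem_lowDeg

theorem no_isolated (m : ℕ) [NeZero m] (w : ℕ) :
    ∃ D : ℕ, ∀ (n : ℕ) (p : Fin w → (Fin n → Bool) → ℤ), (∀ s, IsQuad (p s)) →
      NI D (fun x s => ((p s x : ℤ) : ZMod m)) := by
  refine ⟨ZB (w * (m * 2)) 2 m.primeFactorsList.length, fun n p hp => ?_⟩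
  rw [NI_iff]
  exact noIso_of_LD (NeZero.ne m) (fun s x => ((p s x : ℤ) : ZMod m)) (fun s => (hp s).LD)
    (le_refl _)

end Pool.Agent.QuadSys
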