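import Pool.Agent.QuadSys.Corr

/-!
# Counting modulo a prime is not a majority of few functions of conditions with a decomposition
-/

set_option autoImplicit false

namespace Pool.Agent.QuadSys

open Finset Pool.Agent.Helper21.LinSys

section
variable {n r : ℕ} [NeZero r]

/-- The indicator of a residue, as a sum of characters. -/
theorem sum_char_residue (c : ℕ) (x : Fin n → Bool) :
    ∑ a : ZMod r, (ZMod.stdAddChar (-(a * (c : ZMod r))) : ℂ) *
      ZMod.stdAddChar (a * (ones x : ZMod r)) =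
      if (ones x : ZMod r) = c then (r : ℂ) else 0 := by
  have h1 : ∀ a : ZMod r, (ZMod.stdAddChar (-(a * (c : ZMod r))) : ℂ) *
      ZMod.stdAddChar (a * (ones x : ZMod r)) =
      ZMod.stdAddChar (a * ((ones x : ZMod r) - (c : ZMod r))) := by
    intro a
    rw [← AddChar.map_add_eq_mul]
    congr 1
    ring
  simp only [h1]
  have h2 := AddChar.sum_mulShift ((ones x : ZMod r) - (c : ZMod r)) (ZMod.isPrimitive_stdAddChar r)
  rw [h2, ZMod.card]
  by_cases h : (ones x : ZMod r) = c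
  · rw [if_pos h, if_pos (sub_eq_zero.2 h)]
  · rw [if_neg h, if_neg (sub_ne_zero.2 h), Nat.cast_zero]

/-- Differences of counts are controlled by the nontrivial characters. -/
theorem count_diff (A : Finset (Fin n → Bool)) (ε : ℝ) (hε : 0 ≤ ε)
    (hA : ∀ a : ZMod r, a ≠ 0 → ‖∑ x ∈ A, (ZMod.stdAddChar (a * (ones x : ZMod r)) : ℂ)‖ ≤ ε) :
    |((A.filter fun x => (ones x : ZMod r) = (0 : ℕ)).card : ℝ) -
      (A.filter fun x => (ones x : ZMod r) = (1 : ℕ)).card| ≤ 2 * ε := by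
  classical
  have hr0 : (0 : ℝ) < (r : ℝ) := by exact_mod_cast Nat.pos_of_ne_zero (NeZero.ne r)
  have key : ∀ c : ℕ, (r : ℂ) * (A.filter fun x => (ones x : ZMod r) = (c : ℕ)).card =
      ∑ a : ZMod r, (ZMod.stdAddChar (-(a * (c : ZMod r))) : ℂ) *
        ∑ x ∈ A, ZMod.stdAddChar (a * (ones x : ZMod r)) := by
    intro c
    simp only [Finset.mul_sum]
    rw [Finset.sum_comm, Finset.sum_congr rfl fun x _ => sum_char_residue c x,
      ← Finset.sum_filter, Finset.sum_const, nsmul_eq_mul, mul_comm]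
  have h1 : (r : ℂ) * (((A.filter fun x => (ones x : ZMod r) = (0 : ℕ)).card : ℂ) -
      (A.filter fun x => (ones x : ZMod r) = (1 : ℕ)).card) =
      ∑ a : ZMod r, ((ZMod.stdAddChar (-(a * ((0 : ℕ) : ZMod r))) : ℂ) -
        ZMod.stdAddChar (-(a * ((1 : ℕ) : ZMod r)))) *
        ∑ x ∈ A, ZMod.stdAddChar (a * (ones x : ZMod r)) := by
    rw [mul_sub, key 0, key 1, ← Finset.sum_sub_distrib]
    exact Finset.sum_congr rfl fun a _ => (sub_mul _ _ _).symm
  have h2 : ‖(r : ℂ) * (((A.filter fun x => (ones x : ZMod r) = (0 : ℕ)).card : ℂ) -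
      (A.filter fun x => (ones x : ZMod r) = (1 : ℕ)).card)‖ ≤ r * (2 * ε) := by
    rw [h1]
    refine (norm_sum_le _ _).trans ?_
    have h3 : ∀ a ∈ (univ : Finset (ZMod r)),
        ‖((ZMod.stdAddChar (-(a * ((0 : ℕ) : ZMod r))) : ℂ) -
        ZMod.stdAddChar (-(a * ((1 : ℕ) : ZMod r)))) *
        ∑ x ∈ A, ZMod.stdAddChar (a * (ones x : ZMod r))‖ ≤ 2 * ε := by
      intro a _
      rw [norm_mul]
      by_cases ha : a = 0
      · rw [ha]
        simp
        exact hε
      · have h4 : ‖(ZMod.stdAddChar (-(a * ((0 : ℕ) : ZMod r))) : ℂ) -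
            ZMod.stdAddChar (-(a * ((1 : ℕ) : ZMod r)))‖ ≤ 2 := by
          refine (norm_sub_le _ _).trans ?_
          rw [norm_char, norm_char]
          norm_num
        exact mul_le_mul h4 (hA a ha) (norm_nonneg _) (by norm_num)
    refine (Finset.sum_le_sum h3).trans ?_
    rw [Finset.sum_const, Finset.card_univ, ZMod.card, nsmul_eq_mul]
  rw [norm_mul, Complex.norm_natCast] at h2
  have h5 := le_of_mul_le_mul_left h2 hr0
  rw [← Complex.ofReal_natCast, ← Complex.ofReal_natCast, ← Complex.ofReal_sub,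
    Complex.norm_real, Real.norm_eq_abs] at h5
  exact h5

/-- Many points have a number of ones that is `1` modulo `r`. -/
theorem count_one (ε : ℝ) (hε0 : 0 ≤ ε) (hε : r * ε ≤ 2 ^ n / 2)
    (hA : ∀ a : ZMod r, a ≠ 0 →
      ‖∑ x : Fin n → Bool, (ZMod.stdAddChar (a * (ones x : ZMod r)) : ℂ)‖ ≤ ε) :
    (2 : ℝ) ^ n / 2 ≤
      r * (univ.filter fun x : Fin n → Bool => (ones x : ZMod r) = (1 : ℕ)).card := by
  have key : (r : ℂ) * (univ.filter fun x : Fin n → Bool => (ones x : ZMod r) = (1 : ℕ)).card =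
      ∑ a : ZMod r, (ZMod.stdAddChar (-(a * ((1 : ℕ) : ZMod r))) : ℂ) *
        ∑ x : Fin n → Bool, ZMod.stdAddChar (a * (ones x : ZMod r)) := by
    simp only [Finset.mul_sum]
    rw [Finset.sum_comm, Finset.sum_congr rfl fun x _ => sum_char_residue 1 x,
      ← Finset.sum_filter, Finset.sum_const, nsmul_eq_mul, mul_comm]
  rw [← Finset.add_sum_erase _ _ (Finset.mem_univ (0 : ZMod r))] at key
  have h0 : (ZMod.stdAddChar (-((0 : ZMod r) * ((1 : ℕ) : ZMod r))) : ℂ) *
        ∑ x : Fin n → Bool, (ZMod.stdAddChar ((0 : ZMod r) * (ones x : ZMod r)) : ℂ) =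
      (2 : ℂ) ^ n := by
    simp
  rw [h0] at key
  have h1 : ‖∑ a ∈ (univ : Finset (ZMod r)).erase 0,
      (ZMod.stdAddChar (-(a * ((1 : ℕ) : ZMod r))) : ℂ) *
        ∑ x : Fin n → Bool, ZMod.stdAddChar (a * (ones x : ZMod r))‖ ≤ r * ε := by
    refine (norm_sum_le _ _).trans ?_
    have h3 : ∀ a ∈ (univ : Finset (ZMod r)).erase 0,
        ‖(ZMod.stdAddChar (-(a * ((1 : ℕ) : ZMod r))) : ℂ) *
        ∑ x : Fin n → Bool, ZMod.stdAddChar (a * (ones x : ZMod r))‖ ≤ ε := by
      intro a ha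
      rw [norm_mul, norm_char, one_mul]
      exact hA a (Finset.mem_erase.1 ha).1
    refine (Finset.sum_le_sum h3).trans ?_
    rw [Finset.sum_const, nsmul_eq_mul]
    refine mul_le_mul_of_nonneg_right ?_ hε0
    have h4 : ((univ : Finset (ZMod r)).erase 0).card ≤ r := by
      refine (Finset.card_erase_le).trans ?_
      rw [Finset.card_univ, ZMod.card]
    exact_mod_cast h4
  have h2 : (2 : ℝ) ^ n ≤ r * (univ.filter fun x : Fin n → Bool =>
      (ones x : ZMod r) = (1 : ℕ)).card + r * ε := by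
    have h3 : ((2 : ℂ) ^ n) = (r : ℂ) * (univ.filter fun x : Fin n → Bool =>
        (ones x : ZMod r) = (1 : ℕ)).card - ∑ a ∈ (univ : Finset (ZMod r)).erase 0,
        (ZMod.stdAddChar (-(a * ((1 : ℕ) : ZMod r))) : ℂ) *
        ∑ x : Fin n → Bool, ZMod.stdAddChar (a * (ones x : ZMod r)) := by
      rw [key]; ring
    have h4 := congrArg norm h3
    rw [norm_pow, Complex.norm_ofNat] at h4
    rw [h4]
    refine (norm_sub_le _ _).trans (add_le_add ?_ h1)
    rw [norm_mul, Complex.norm_natCast, Complex.norm_natCast]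
  have h5 := h2.trans (add_le_add_right hε _)
  refine le_of_add_le_add_right (a := (2 : ℝ) ^ n / 2) ?_
  rw [add_halves]
  exact h5

end

/-- A majority of functions with small correlation is not counting modulo `r`. -/
theorem not_majority {n t r lam : ℕ} [NeZero r] (hr : r.Prime)
    (h : Fin t → (Fin n → Bool) → Bool)
    (huniv : ∀ a : ZMod r, a ≠ 0 →
      ‖∑ x : Fin n → Bool, (ZMod.stdAddChar (a * (ones x : ZMod r)) : ℂ)‖ ≤ 2 ^ n / 2 ^ lam)
    (hcorr : ∀ i (a : ZMod r), a ≠ 0 → ‖∑ x : Fin n → Bool, if h i x = true then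
      (ZMod.stdAddChar (a * (ones x : ZMod r)) : ℂ) else 0‖ ≤ 2 ^ n / 2 ^ lam)
    (hlam2 : 12 * r * t + 2 * r + 1 ≤ 2 ^ lam)
    (hmaj : ∀ x : Fin n → Bool,
      t ≤ 2 * (univ.filter fun i => h i x = true).card ↔ r ∣ ones x) : False := by
  classical
  have : Fact r.Prime := ⟨hr⟩
  have hrR : (0 : ℝ) < (r : ℝ) := by exact_mod_cast hr.pos
  have hlamR : (12 : ℝ) * r * t + 2 * r + 1 ≤ 2 ^ lam := by exact_mod_cast hlam2
  set ε : ℝ := 2 ^ n / 2 ^ lam with hε
  have hε0 : 0 < ε := by positivity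
  have hεl : ε * 2 ^ lam = 2 ^ n := by rw [hε]; field_simp
  set A : Fin t → Finset (Fin n → Bool) := fun i =>
    univ.filter fun x => h i x = true with hA
  have hAi : ∀ i (a : ZMod r), a ≠ 0 →
      ‖∑ x ∈ A i, (ZMod.stdAddChar (a * (ones x : ZMod r)) : ℂ)‖ ≤ ε := by
    intro i a ha
    rw [hA]
    dsimp only
    rw [Finset.sum_filter]
    exact hcorr i a ha
  -- counts
  set Z : Finset (Fin n → Bool) := univ.filter fun x => (ones x : ZMod r) = (0 : ℕ) with hZ
  set O : Finset (Fin n → Bool) := univ.filter fun x => (ones x : ZMod r) = (1 : ℕ) with hO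
  have hOl : (2 : ℝ) ^ n / 2 ≤ r * O.card := by
    refine count_one ε hε0.le ?_ huniv
    have h1 : 2 * r * ε ≤ 2 ^ lam * ε := by
      refine mul_le_mul_of_nonneg_right ?_ hε0.le
      have : (0 : ℝ) ≤ 12 * r * t := by positivity
      linarith
    linarith
  have hZO : |(Z.card : ℝ) - O.card| ≤ 2 * ε := count_diff univ ε hε0.le (by simpa using huniv)
  have hdiff : ∀ i, |(((A i).filter fun x => (ones x : ZMod r) = (0 : ℕ)).card : ℝ) -
      ((A i).filter fun x => (ones x : ZMod r) = (1 : ℕ)).card| ≤ 2 * ε := fun i =>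
    count_diff (A i) ε hε0.le (hAi i)
  -- double counting
  have hcount : ∀ Y : Finset (Fin n → Bool), ∑ i, ((A i ∩ Y).card : ℝ) =
      ∑ x ∈ Y, ((univ.filter fun i => h i x = true).card : ℝ) := by
    intro Y
    have h1 : ∀ i, ((A i ∩ Y).card : ℝ) =
        ∑ x ∈ Y, if h i x = true then (1 : ℝ) else 0 := by
      intro i
      rw [Finset.sum_boole]
      congr 2
      ext x
      simp [hA, and_comm]
    simp only [h1]
    rw [Finset.sum_comm]
    refine Finset.sum_congr rfl fun x _ => ?_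
    rw [Finset.sum_boole]
  have hsub0 : ∀ i, (A i).filter (fun x => (ones x : ZMod r) = (0 : ℕ)) = A i ∩ Z := by
    intro i; ext x; simp [hZ]
  have hsub1 : ∀ i, (A i).filter (fun x => (ones x : ZMod r) = (1 : ℕ)) = A i ∩ O := by
    intro i; ext x; simp [hO]
  have hZc : ∀ x ∈ Z, (t : ℝ) / 2 ≤ ((univ.filter fun i => h i x = true).card : ℝ) := by
    intro x hx
    have h1 : r ∣ ones x := by
      have h2 := (Finset.mem_filter.1 hx).2
      rw [Nat.cast_zero] at h2
      exact (ZMod.natCast_eq_zero_iff _ _).1 h2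
    have h3 := (hmaj x).2 h1
    have h4 : (t : ℝ) ≤ 2 * ((univ.filter fun i => h i x = true).card : ℝ) := by
      exact_mod_cast h3
    linarith
  have hOc : ∀ x ∈ O, ((univ.filter fun i => h i x = true).card : ℝ) ≤ (t : ℝ) / 2 - 1 / 2 := by
    intro x hx
    have h1 : ¬ r ∣ ones x := by
      intro h
      have h2 := (Finset.mem_filter.1 hx).2
      rw [(ZMod.natCast_eq_zero_iff _ _).2 h, Nat.cast_one] at h2
      exact zero_ne_one h2
    have h3 : ¬ t ≤ 2 * (univ.filter fun i => h i x = true).card := fun h => h1 ((hmaj x).1 h)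
    have h4 : 2 * (univ.filter fun i => h i x = true).card + 1 ≤ t := by omega
    have h5 : (2 * ((univ.filter fun i => h i x = true).card : ℝ) + 1) ≤ t := by
      exact_mod_cast h4
    linarith
  have hZs : (Z.card : ℝ) * (t / 2) ≤ ∑ i, ((A i ∩ Z).card : ℝ) := by
    rw [hcount Z, ← nsmul_eq_mul]
    exact Finset.card_nsmul_le_sum _ _ _ hZc
  have hOs : ∑ i, ((A i ∩ O).card : ℝ) ≤ (O.card : ℝ) * (t / 2 - 1 / 2) := by
    rw [hcount O, ← nsmul_eq_mul]
    exact Finset.sum_le_card_nsmul _ _ _ hOc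
  have hd : ∑ i, ((A i ∩ Z).card : ℝ) - ∑ i, ((A i ∩ O).card : ℝ) ≤ t * (2 * ε) := by
    rw [← Finset.sum_sub_distrib]
    refine (Finset.sum_le_card_nsmul _ _ (2 * ε) fun i _ => ?_).trans (by simp)
    have h1 := hdiff i
    rw [hsub0, hsub1] at h1
    exact (le_abs_self _).trans h1
  have hZO' := (abs_le.1 hZO).1
  have ht0 : (0 : ℝ) ≤ t := Nat.cast_nonneg _
  have hfin : (O.card : ℝ) / 2 ≤ 3 * t * ε := by nlinarith
  have h1 : (2 : ℝ) ^ n / 2 ≤ 6 * r * t * ε := by
    calc (2 : ℝ) ^ n / 2 ≤ r * O.card := hOl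
      _ = 2 * r * (O.card / 2) := by ring
      _ ≤ 2 * r * (3 * t * ε) := mul_le_mul_of_nonneg_left hfin (by positivity)
      _ = _ := by ring
  have h2 : (12 * r * t) * ε < 2 ^ lam * ε := by
    refine mul_lt_mul_of_pos_right ?_ hε0
    linarith
  linarith

/-- The final estimate. -/
theorem final_real {K n k t r σ : ℕ} {sg : ℝ} (hk : 1 ≤ k) (hr2 : 2 ≤ r) (hσ : (σ : ℝ) ≤ 3 * sg)
    (hsg : (0.69 : ℝ) ≤ sg) (htsg : Real.log (t + 2) ≤ sg)
    (h1 : n < pb K (k + Nat.clog 2 (12 * r * t + 2 * r + 1) + σ + r + 1)) :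
    (n : ℝ) ≤ ((40 * (K + 1) : ℕ) * k * r * sg) ^ (40 * (K + 1)) := by
  set L := Nat.clog 2 (12 * r * t + 2 * r + 1) with hL
  have hL1 := clog_le_log (N := 12 * r * t + 2 * r + 1) (by nlinarith)
  have hkR : (1 : ℝ) ≤ k := by exact_mod_cast hk
  have hrR : (2 : ℝ) ≤ r := by exact_mod_cast hr2
  have htR : (0 : ℝ) ≤ t := Nat.cast_nonneg _
  have hlogN : Real.log ((12 * r * t + 2 * r + 1 : ℕ) : ℝ) ≤ 3 + r + sg := by
    have h2 : ((12 * r * t + 2 * r + 1 : ℕ) : ℝ) ≤ 12 * (r * (t + 2)) := by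
      push_cast
      nlinarith
    have h3 : (0 : ℝ) < ((12 * r * t + 2 * r + 1 : ℕ) : ℝ) := by positivity
    refine (Real.log_le_log h3 h2).trans ?_
    rw [Real.log_mul (by norm_num) (by positivity), Real.log_mul (by positivity) (by positivity)]
    have h4 : Real.log 12 ≤ 3 := by
      rw [Real.log_le_iff_le_exp (by norm_num)]
      have h5 : Real.exp 3 = Real.exp 1 * Real.exp 1 * Real.exp 1 := by
        rw [← Real.exp_add, ← Real.exp_add]; norm_num
      have := Real.exp_one_gt_d9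
      rw [h5]
      nlinarith [mul_self_nonneg (Real.exp 1 - 2.7)]
    have h6 : Real.log r ≤ r := (Real.log_le_self (by positivity))
    linarith
  have hx : (1.38 : ℝ) ≤ k * r * sg := by
    have h2 : (2 : ℝ) ≤ k * r := by nlinarith
    nlinarith
  have hbase : (K : ℝ) * (k + L + σ + r + 1) ≤ (40 * (K + 1) : ℕ) * k * r * sg := by
    push_cast
    have h2 : (L : ℝ) ≤ 9 + 3 * r + 3 * sg := by linarith
    have h3 : (k : ℝ) + L + σ + r + 1 ≤ 40 * (k * r * sg) := by
      have e1 : (k : ℝ) ≤ k * r * sg := by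
        have h5 : (1 : ℝ) ≤ r * sg := by nlinarith
        have h6 : (k : ℝ) * 1 ≤ k * (r * sg) := mul_le_mul_of_nonneg_left h5 (by linarith)
        linarith
      have e2 : (r : ℝ) * 0.69 ≤ k * r * sg := by
        have : (r : ℝ) * sg ≤ k * (r * sg) := le_mul_of_one_le_left (by positivity) hkR
        nlinarith
      have e3 : (2 : ℝ) * sg ≤ k * r * sg := by
        have h4 : (2 : ℝ) ≤ k * r := by nlinarith
        nlinarith
      linarith
    have hK0 : (0 : ℝ) ≤ K := Nat.cast_nonneg _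
    have h4 : (0 : ℝ) ≤ k * r * sg := by linarith
    nlinarith
  have hone : (1 : ℝ) ≤ (40 * (K + 1) : ℕ) * k * r * sg := by
    push_cast
    have hK0 : (0 : ℝ) ≤ K := Nat.cast_nonneg _
    nlinarith
  have h2 : (n : ℝ) ≤ (K * (k + L + σ + r + 1)) ^ K := by
    unfold pb at h1
    have h3 := h1.le
    exact_mod_cast h3
  calc (n : ℝ) ≤ (K * (k + L + σ + r + 1)) ^ K := h2
    _ ≤ ((40 * (K + 1) : ℕ) * k * r * sg) ^ K := pow_le_pow_left₀ (by positivity) hbase K
    _ ≤ ((40 * (K + 1) : ℕ) * k * r * sg) ^ (40 * (K + 1)) := pow_le_pow_right₀ hone (by omega)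

end Pool.Agent.QuadSys
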