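import Pool.Agent.QuadSys.PairSeq
import Pool.Agent.QuadSys.Cert

/-!
# One level of pairing: a block cube whose blocks are chosen region by region
-/

set_option autoImplicit false

namespace Pool.Agent.QuadSys

open Finset Pool.Agent.Helper21.LinSys

namespace Pair

variable {n M u : ℕ}

open Classical in
/-- The region and the place in the region of a coordinate. -/
noncomputable def loc (e : Fin M × Fin u ↪ Fin n) (i : Fin n) : Option (Fin M × Fin u) :=
  if h : ∃ q, e q = i then some h.choose else none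

theorem loc_apply (e : Fin M × Fin u ↪ Fin n) (q : Fin M × Fin u) : loc e (e q) = some q := by
  unfold loc
  have h : ∃ q', e q' = e q := ⟨q, rfl⟩
  rw [dif_pos h]
  exact congrArg some (e.injective h.choose_spec)

theorem loc_eq_some {e : Fin M × Fin u ↪ Fin n} {i : Fin n} {q : Fin M × Fin u}
    (h : loc e i = some q) : e q = i := by
  unfold loc at h
  by_cases h' : ∃ q, e q = i
  · rw [dif_pos h'] at h
    rw [← Option.some_injective _ h]
    exact h'.choose_spec
  · rw [dif_neg h'] at h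
    exact absurd h (by simp)

theorem loc_eq_none {e : Fin M × Fin u ↪ Fin n} {i : Fin n} (h : ∀ q, e q ≠ i) :
    loc e i = none := by
  unfold loc
  rw [dif_neg]
  rintro ⟨q, hq⟩
  exact h q hq

/-- The point given by `x` on the regions and by `z` elsewhere. -/
noncomputable def glue (e : Fin M × Fin u ↪ Fin n) (z : Fin n → Bool)
    (x : Fin M → Finset (Fin u)) : Fin n → Bool := fun i =>
  match loc e i with
  | some q => decide (q.2 ∈ x q.1)
  | none => z i

theorem glue_apply (e : Fin M × Fin u ↪ Fin n) (z : Fin n → Bool) (x : Fin M → Finset (Fin u))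
    (q : Fin M × Fin u) : glue e z x (e q) = decide (q.2 ∈ x q.1) := by
  unfold glue
  rw [loc_apply]

theorem glue_of_ne {e : Fin M × Fin u ↪ Fin n} (z : Fin n → Bool) (x : Fin M → Finset (Fin u))
    {i : Fin n} (h : ∀ q, e q ≠ i) : glue e z x i = z i := by
  unfold glue
  rw [loc_eq_none h]

/-- Averaging over the coordinates outside `S` and outside the regions. -/
theorem exists_rest (e : Fin M × Fin u ↪ Fin n) (S : Finset (Fin n)) (hS : ∀ q, e q ∉ S)
    (y : Fin n → Bool) (f : (Fin n → Bool) → ℝ) :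
    ∃ z : Fin n → Bool, (∀ i ∈ S, z i = y i) ∧
      (∑ x ∈ cube S y, f x) / 2 ^ Sᶜ.card ≤
        (∑ x : Fin M → Finset (Fin u), f (glue e z x)) / ((2 : ℝ) ^ u) ^ M := by
  classical
  set E : Finset (Fin n) := Finset.univ.map e with hE
  have hmemE : ∀ i, i ∈ E ↔ ∃ q, e q = i := by
    intro i; rw [hE, Finset.mem_map]; simp
  have hdisj : Disjoint S E := by
    rw [Finset.disjoint_left]
    intro i hi hiE
    obtain ⟨q, rfl⟩ := (hmemE i).mp hiE
    exact hS q hi
  have hEcard : E.card = M * u := by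
    rw [hE, Finset.card_map, Finset.card_univ, Fintype.card_prod, Fintype.card_fin,
      Fintype.card_fin]
  set Z := cube (S ∪ E) y with hZ
  have hsum : ∑ x ∈ cube S y, f x =
      ∑ z ∈ Z, ∑ x : Fin M → Finset (Fin u), f (glue e z x) := by
    rw [← Finset.sum_product']
    symm
    refine Finset.sum_bij' (fun zx _ => glue e zx.1 zx.2)
      (fun w _ => (fun i => if i ∈ E then y i else w i,
        fun k => univ.filter fun c => w (e (k, c)) = true)) ?_ ?_ ?_ ?_ ?_
    · rintro ⟨z, x⟩ hzx
      rw [Finset.mem_product] at hzx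
      rw [mem_cube]
      intro i hi
      have h1 : ∀ q, e q ≠ i := by
        rintro q rfl; exact hS q hi
      rw [glue_of_ne _ _ h1]
      exact mem_cube.mp hzx.1 i (Finset.mem_union_left _ hi)
    · intro w hw
      rw [Finset.mem_product]
      refine ⟨?_, Finset.mem_univ _⟩
      rw [hZ, mem_cube]
      intro i hi
      by_cases hiE : i ∈ E
      · simp [hiE]
      · simp only [if_neg hiE]
        rcases Finset.mem_union.mp hi with h | h
        · exact mem_cube.mp hw i h
        · exact absurd h hiE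
    · rintro ⟨z, x⟩ hzx
      rw [Finset.mem_product] at hzx
      simp only [Prod.mk.injEq]
      constructor
      · funext i
        by_cases hiE : i ∈ E
        · rw [if_pos hiE]
          exact (mem_cube.mp hzx.1 i (Finset.mem_union_right _ hiE)).symm
        · rw [if_neg hiE]
          refine glue_of_ne _ _ fun q hq => hiE ((hmemE i).mpr ⟨q, hq⟩)
      · funext k
        ext c
        rw [Finset.mem_filter, glue_apply]
        simp
    · intro w hw
      funext i
      by_cases hiE : i ∈ E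
      · obtain ⟨q, rfl⟩ := (hmemE i).mp hiE
        rw [glue_apply]
        simp
      · rw [glue_of_ne _ _ fun q hq => hiE ((hmemE i).mpr ⟨q, hq⟩)]
        simp [hiE]
    · rintro ⟨z, x⟩ _
      rfl
  have hZcard : (Z.card : ℝ) * ((2 : ℝ) ^ u) ^ M = 2 ^ Sᶜ.card := by
    rw [hZ, card_cube]
    push_cast
    rw [← pow_mul, ← pow_add]
    congr 1
    have h1 : (S ∪ E)ᶜ.card + (S ∪ E).card = Fintype.card (Fin n) :=
      Finset.card_compl_add_card _
    have h2 : Sᶜ.card + S.card = Fintype.card (Fin n) := Finset.card_compl_add_card _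
    rw [Finset.card_union_of_disjoint hdisj, hEcard] at h1
    have h3 : M * u = u * M := Nat.mul_comm _ _
    omega
  have hZne : Z.Nonempty := ⟨y, mem_cube.mpr fun _ _ => rfl⟩
  have hZpos : (0 : ℝ) < Z.card := by exact_mod_cast hZne.card_pos
  have h2pos : (0 : ℝ) < ((2 : ℝ) ^ u) ^ M := by positivity
  obtain ⟨z, hz, hmax⟩ := Finset.exists_max_image Z
    (fun z => ∑ x : Fin M → Finset (Fin u), f (glue e z x)) hZne
  refine ⟨z, fun i hi => mem_cube.mp hz i (Finset.mem_union_left _ hi), ?_⟩
  rw [← hZcard, hsum, div_le_div_iff₀ (mul_pos hZpos h2pos) h2pos]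
  have h4 : ∑ z' ∈ Z, ∑ x : Fin M → Finset (Fin u), f (glue e z' x) ≤
      Z.card * ∑ x : Fin M → Finset (Fin u), f (glue e z x) := by
    have := Finset.sum_le_sum hmax
    simpa using this
  calc (∑ z' ∈ Z, ∑ x : Fin M → Finset (Fin u), f (glue e z' x)) * ((2 : ℝ) ^ u) ^ M ≤
      (Z.card * ∑ x : Fin M → Finset (Fin u), f (glue e z x)) * ((2 : ℝ) ^ u) ^ M :=
        mul_le_mul_of_nonneg_right h4 h2pos.le
    _ = _ := by ring

open Classical in
/-- The block cube given by pairs of subsets of the regions. -/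
noncomputable def mkQ (e : Fin M × Fin u ↪ Fin n) (z : Fin n → Bool)
    (p : Fin M → Finset (Fin u) × Finset (Fin u)) : BCube n M where
  base := glue e z fun k => (p k).1
  blk := fun i =>
    match loc e i with
    | some q => if q.2 ∈ symmDiff (p q.1).1 (p q.1).2 then some q.1 else none
    | none => none

theorem mkQ_blk_apply (e : Fin M × Fin u ↪ Fin n) (z : Fin n → Bool)
    (p : Fin M → Finset (Fin u) × Finset (Fin u)) (q : Fin M × Fin u) :
    (mkQ e z p).blk (e q) =
      if q.2 ∈ symmDiff (p q.1).1 (p q.1).2 then some q.1 else none := by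
  change (match loc e (e q) with
    | some q => if q.2 ∈ symmDiff (p q.1).1 (p q.1).2 then some q.1 else none
    | none => none) = _
  rw [loc_apply]

theorem mkQ_blk_of_ne {e : Fin M × Fin u ↪ Fin n} (z : Fin n → Bool)
    (p : Fin M → Finset (Fin u) × Finset (Fin u)) {i : Fin n} (h : ∀ q, e q ≠ i) :
    (mkQ e z p).blk i = none := by
  change (match loc e i with
    | some q => if q.2 ∈ symmDiff (p q.1).1 (p q.1).2 then some q.1 else none
    | none => none) = _
  rw [loc_eq_none h]

theorem mkQ_emb (e : Fin M × Fin u ↪ Fin n) (z : Fin n → Bool)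
    (p : Fin M → Finset (Fin u) × Finset (Fin u)) (t : Fin M → Bool) :
    (mkQ e z p).emb t = glue e z fun k => if t k = true then (p k).2 else (p k).1 := by
  funext i
  by_cases hi : ∃ q, e q = i
  · obtain ⟨q, rfl⟩ := hi
    rw [glue_apply]
    have hb : (mkQ e z p).base (e q) = decide (q.2 ∈ (p q.1).1) :=
      glue_apply e z (fun k => (p k).1) q
    by_cases hq : q.2 ∈ symmDiff (p q.1).1 (p q.1).2
    · have h1 : (mkQ e z p).blk (e q) = some q.1 := by rw [mkQ_blk_apply, if_pos hq]
      rw [BCube.emb_some h1, hb]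
      rw [Finset.mem_symmDiff] at hq
      rcases hq with ⟨h2, h3⟩ | ⟨h2, h3⟩
      · cases ht : t q.1 <;> simp [h2, h3]
      · cases ht : t q.1 <;> simp [h2, h3]
    · have h1 : (mkQ e z p).blk (e q) = none := by rw [mkQ_blk_apply, if_neg hq]
      rw [BCube.emb_none h1, hb]
      rw [Finset.mem_symmDiff] at hq
      push Not at hq
      cases ht : t q.1
      · simp
      · by_cases h2 : q.2 ∈ (p q.1).1
        · simp [h2, hq.1 h2]
        · have h3 : q.2 ∉ (p q.1).2 := fun h => h2 (hq.2 h)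
          simp [h2, h3]
  · push Not at hi
    rw [BCube.emb_none (mkQ_blk_of_ne z p hi), glue_of_ne _ _ hi]
    exact glue_of_ne z (fun k => (p k).1) hi

theorem mkQ_coe_apply (e : Fin M × Fin u ↪ Fin n) (z : Fin n → Bool)
    (p : Fin M → Finset (Fin u) × Finset (Fin u)) (q : Fin M × Fin u) (k : Fin M) :
    (mkQ e z p).coe (e q) k =
      if q.1 = k then (if q.2 ∈ (p k).2 then 1 else 0) - (if q.2 ∈ (p k).1 then 1 else 0)
        else 0 := by
  unfold BCube.coe
  have hb : (mkQ e z p).base (e q) = decide (q.2 ∈ (p q.1).1) :=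
      glue_apply e z (fun k => (p k).1) q
  rw [mkQ_blk_apply, hb]
  by_cases hk : q.1 = k
  · subst hk
    rw [if_pos rfl]
    by_cases h1 : q.2 ∈ (p q.1).1 <;> by_cases h2 : q.2 ∈ (p q.1).2 <;>
      simp [Finset.mem_symmDiff, h1, h2]
  · rw [if_neg hk, if_neg]
    split
    · simpa using hk
    · simp

theorem mkQ_coe_of_ne {e : Fin M × Fin u ↪ Fin n} (z : Fin n → Bool)
    (p : Fin M → Finset (Fin u) × Finset (Fin u)) {i : Fin n} (h : ∀ q, e q ≠ i) (k : Fin M) :
    (mkQ e z p).coe i k = 0 := by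
  unfold BCube.coe
  rw [mkQ_blk_of_ne z p h]
  simp

/-- Sums against the direction of a block. -/
theorem sum_mkQ_coe {R : Type*} [CommRing R] (e : Fin M × Fin u ↪ Fin n) (z : Fin n → Bool)
    (p : Fin M → Finset (Fin u) × Finset (Fin u)) (k : Fin M) (w : Fin n → R) :
    ∑ i, w i * (((mkQ e z p).coe i k : ℤ) : R) =
      ∑ c ∈ (p k).2, w (e (k, c)) - ∑ c ∈ (p k).1, w (e (k, c)) := by
  classical
  set E : Finset (Fin n) := Finset.univ.map e with hE
  have h1 : ∑ i, w i * (((mkQ e z p).coe i k : ℤ) : R) =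
      ∑ i ∈ E, w i * (((mkQ e z p).coe i k : ℤ) : R) := by
    symm
    refine Finset.sum_subset (Finset.subset_univ _) fun i _ hi => ?_
    have h2 : ∀ q, e q ≠ i := by
      intro q hq
      exact hi (Finset.mem_map.mpr ⟨q, Finset.mem_univ _, hq⟩)
    rw [mkQ_coe_of_ne z p h2]
    simp
  rw [h1, hE, Finset.sum_map, ← Finset.univ_product_univ, Finset.sum_product]
  rw [Finset.sum_eq_single k]
  · have h3 : ∀ c : Fin u, w (e (k, c)) * (((mkQ e z p).coe (e (k, c)) k : ℤ) : R) =
        (if c ∈ (p k).2 then w (e (k, c)) else 0) -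
          (if c ∈ (p k).1 then w (e (k, c)) else 0) := by
      intro c
      rw [mkQ_coe_apply]
      by_cases h1 : c ∈ (p k).1 <;> by_cases h2 : c ∈ (p k).2 <;> simp [h1, h2]
    rw [Finset.sum_congr rfl fun c _ => h3 c, Finset.sum_sub_distrib]
    simp
  · intro k' _ hk'
    refine Finset.sum_eq_zero fun c _ => ?_
    rw [mkQ_coe_apply, if_neg hk']
    simp
  · intro h; exact absurd (Finset.mem_univ _) h

/-- One level of pairing. -/
theorem level {G : Type*} [AddCommGroup G] [Fintype G] [DecidableEq G] (l V : ℕ) (hl : 0 < l)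
    (hV : 0 < V) (e : Fin M × Fin u ↪ Fin n) (z : Fin n → Bool)
    (g : List (Finset (Fin u) × Finset (Fin u)) → Fin u → G) (hg : ∀ h c, l • g h c = 0)
    (v : Fin n → ℤ) (hv : OddMul V v) (f : (Fin n → Bool) → ℝ) (hf : ∀ x, |f x| ≤ 1)
    (ε : ℝ) (hε0 : 0 < ε) (hε1 : ε ≤ 1)
    (hε : 16 * (Fintype.card G * (V * l : ℕ)) * (1 - 1 / (l : ℝ) ^ 2) ^ u ≤ ε ^ 2) :
    ∃ p : Fin M → Finset (Fin u) × Finset (Fin u),
      (∀ k : Fin M, ∑ c ∈ (p k).1, g (List.ofFn fun j : Fin k.1 => p ⟨j.1, j.2.trans k.2⟩) c =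
        ∑ c ∈ (p k).2, g (List.ofFn fun j : Fin k.1 => p ⟨j.1, j.2.trans k.2⟩) c) ∧
      OddMul (V * l) ((mkQ e z p).pw v) ∧
      (∑ x : Fin M → Finset (Fin u), f (glue e z x)) / ((2 : ℝ) ^ u) ^ M - M * ε ≤
        avg fun t => f ((mkQ e z p).emb t) := by
  classical
  let Adm : List (Finset (Fin u) × Finset (Fin u)) → Finset (Fin u) → Finset (Fin u) → Prop :=
    fun hist a b => ∑ c ∈ a, g hist c = ∑ c ∈ b, g hist c ∧
      ∀ h : hist.length < M, ((2 * (V * l) : ℕ) : ℤ) ∣
        (∑ c ∈ b, v (e (⟨hist.length, h⟩, c)) - ∑ c ∈ a, v (e (⟨hist.length, h⟩, c))) -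
          (V * l : ℕ)
  have hXcard : Fintype.card (Finset (Fin u)) = 2 ^ u := by simp
  obtain ⟨p, hp1, hp2⟩ := seq_pairs (X := Finset (Fin u)) (by rw [hXcard]; positivity) ε M Adm
    (by
      intro hist hh F hF
      obtain ⟨a, b, -, -, h1, h2, h3⟩ := pair_one l V hl hV (g hist) (hg hist)
        (fun c => v (e (⟨hist.length, hh⟩, c))) (fun c => hv _) (Finset.univ : Finset (Fin u))
        F hF ε hε0 hε1 (by simpa using hε)
      refine ⟨a, b, ⟨h1, fun _ => h2⟩, ?_⟩
      rw [hXcard]
      simpa using h3)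
    (fun x => f (glue e z x)) (fun x => hf _)
  refine ⟨p, fun k => (hp1 k).1, ?_, ?_⟩
  · intro k
    have h1 := (hp1 k).2 (by simp)
    have h2 : (⟨(List.ofFn fun j : Fin k.1 => p ⟨j.1, j.2.trans k.2⟩).length, by simp⟩ : Fin M) =
        k := by
      apply Fin.ext
      simp
    rw [h2] at h1
    rw [BCube.pw_eq]
    have h3 := sum_mkQ_coe (R := ℤ) e z p k v
    simp only [Int.cast_id] at h3
    rw [h3]
    exact h1
  · rw [hXcard] at hp2
    unfold avg
    simp only [mkQ_emb]
    have e1 : (((2 ^ u : ℕ) : ℝ)) = 2 ^ u := by push_cast; rfl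
    rw [e1] at hp2
    exact hp2

end Pair

end Pool.Agent.QuadSys
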