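import Pool.Agent.QuadSys.Alt
import Pool.Agent.QuadSys.Deg
import Pool.Agent.QuadSys.PairLevel

/-!
# Lowering the degree on a block cube
-/

set_option autoImplicit false

namespace Pool.Agent.QuadSys

open Finset Pool.Agent.Helper21.LinSys

namespace Pair

variable {n M u : ℕ}

/-- The alternating sum of a polynomial of degree at most `r` in affine forms. -/
theorem alt_poly {ι R : Type*} [DecidableEq ι] [Fintype ι] [CommRing R] (r : ℕ)
    (h : Fin r → ι → R) (b : ι → R) (c : Finset ι → R) (hc : ∀ A, r < A.card → c A = 0) :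
    ∑ s : Fin r → Bool, sg s * ∑ A, c A *
      ∏ i ∈ A, (b i + ∑ k, h k i * ((bit (s k) : ℤ) : R)) = ∑ A, c A * perm r h A := by
  have h1 : ∀ A, ∑ s : Fin r → Bool, c A *
      (sg s * ∏ i ∈ A, (b i + ∑ k, h k i * ((bit (s k) : ℤ) : R))) = c A * perm r h A := by
    intro A
    rw [← Finset.mul_sum]
    by_cases hA : A.card ≤ r
    · rw [alt_prod r h b A hA]
    · rw [hc A (not_le.mp hA), zero_mul, zero_mul]
  rw [← Finset.sum_congr rfl fun A _ => h1 A, Finset.sum_comm]
  refine Finset.sum_congr rfl fun s _ => ?_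
  rw [Finset.mul_sum]
  exact Finset.sum_congr rfl fun A _ => by ring

/-- The point of the cube with the bits `s` at the places `κ` and zeros elsewhere. -/
def place {r : ℕ} (κ : Fin r → Fin M) (s : Fin r → Bool) : Fin M → Bool :=
  fun k => decide (∃ a, κ a = k ∧ s a = true)

theorem bit_place {r : ℕ} (κ : Fin r → Fin M) (hκ : Function.Injective κ) (s : Fin r → Bool)
    (k : Fin M) : bit (place κ s k) = ∑ a, (if κ a = k then 1 else 0) * bit (s a) := by
  unfold place
  by_cases hk : ∃ a, κ a = k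
  · obtain ⟨a, rfl⟩ := hk
    rw [Finset.sum_eq_single a]
    · cases hs : s a
      · have : ¬ ∃ a', κ a' = κ a ∧ s a' = true := by
          rintro ⟨a', h1, h2⟩
          rw [hκ h1, hs] at h2
          exact absurd h2 (by simp)
        simp [this]
      · have : ∃ a', κ a' = κ a ∧ s a' = true := ⟨a, rfl, hs⟩
        simp [this]
    · intro a' _ ha'
      rw [if_neg (fun h => ha' (hκ h)), zero_mul]
    · intro h; exact absurd (Finset.mem_univ _) h
  · rw [Finset.sum_eq_zero]
    · have : ¬ ∃ a', κ a' = k ∧ s a' = true := by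
        rintro ⟨a', h1, _⟩
        exact hk ⟨a', h1⟩
      simp [this]
    · intro a _
      rw [if_neg (fun h => hk ⟨a, h⟩), zero_mul]

theorem sum_mul_bit_place {R : Type*} [CommRing R] {r : ℕ} (κ : Fin r → Fin M)
    (hκ : Function.Injective κ) (s : Fin r → Bool) (w : Fin M → R) :
    ∑ k, w k * ((bit (place κ s k) : ℤ) : R) = ∑ a, w (κ a) * ((bit (s a) : ℤ) : R) := by
  simp only [bit_place κ hκ]
  push_cast
  simp only [Finset.mul_sum]
  rw [Finset.sum_comm]
  refine Finset.sum_congr rfl fun a _ => ?_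
  rw [Finset.sum_eq_single (κ a)]
  · simp
  · intro k _ hk
    rw [if_neg (Ne.symm hk)]
    simp
  · intro h; exact absurd (Finset.mem_univ _) h

/-- The top coefficients on a block cube. -/
theorem coeff_eq {m r : ℕ} (Q : BCube n M) (c : Finset (Fin n) → ℤ)
    (hc : ∀ A, r < A.card → c A = 0) (C : Finset (Fin M) → ℤ) (hC : ∀ I, r < I.card → C I = 0)
    (h : ∀ t, ∑ A, c A * ∏ i ∈ A, bit (Q.emb t i) = ∑ I, C I * ∏ k ∈ I, bit (t k))
    (κ : Fin r → Fin M) (hκ : Function.Injective κ) :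
    ((C (Finset.univ.image κ) : ℤ) : ZMod m) =
      ∑ A, ((c A : ℤ) : ZMod m) * perm r (fun a i => ((Q.coe i (κ a) : ℤ) : ZMod m)) A := by
  classical
  have h1 : ∑ s : Fin r → Bool, sg s * ((∑ A, c A * ∏ i ∈ A, bit (Q.emb (place κ s) i) : ℤ) :
      ZMod m) = ∑ A, ((c A : ℤ) : ZMod m) *
        perm r (fun a i => ((Q.coe i (κ a) : ℤ) : ZMod m)) A := by
    rw [← alt_poly r (fun a i => ((Q.coe i (κ a) : ℤ) : ZMod m))
      (fun i => ((bit (Q.base i) : ℤ) : ZMod m)) (fun A => ((c A : ℤ) : ZMod m))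
      (fun A hA => by beta_reduce; rw [hc A hA, Int.cast_zero])]
    refine Finset.sum_congr rfl fun s _ => ?_
    congr 1
    push_cast
    refine Finset.sum_congr rfl fun A _ => ?_
    congr 1
    refine Finset.prod_congr rfl fun i _ => ?_
    rw [Q.bit_emb (place κ s) i]
    push_cast
    congr 1
    exact sum_mul_bit_place κ hκ s (fun k => ((Q.coe i k : ℤ) : ZMod m))
  have h2 : ∑ s : Fin r → Bool, sg s * ((∑ I, C I * ∏ k ∈ I, bit (place κ s k) : ℤ) :
      ZMod m) = ((C (Finset.univ.image κ) : ℤ) : ZMod m) := by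
    have h3 := alt_poly r (fun a k => if κ a = k then (1 : ZMod m) else 0)
      (fun _ => 0) (fun I => ((C I : ℤ) : ZMod m))
      (fun A hA => by beta_reduce; rw [hC A hA, Int.cast_zero])
    have h4 : ∑ I, ((C I : ℤ) : ZMod m) * perm r (fun a k => if κ a = k then (1 : ZMod m) else 0) I
        = ((C (Finset.univ.image κ) : ℤ) : ZMod m) := by
      simp only [perm_indicator r κ hκ]
      simp
    rw [h4] at h3
    rw [← h3]
    refine Finset.sum_congr rfl fun s _ => ?_
    congr 1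
    push_cast
    refine Finset.sum_congr rfl fun A _ => ?_
    congr 1
    refine Finset.prod_congr rfl fun i _ => ?_
    rw [bit_place κ hκ s i, zero_add]
    push_cast
    rfl
  rw [← h1, ← h2]
  refine Finset.sum_congr rfl fun s _ => ?_
  rw [h]

/-- If the top coefficients vanish modulo `m` then the degree on the block cube is smaller. -/
theorem lower_of_cross {m D : ℕ} (φ : (Fin n → Bool) → ℤ) (c : Finset (Fin n) → ℤ)
    (hc : ∀ A, D + 1 < A.card → c A = 0) (hφ : ∀ x, φ x = ∑ A, c A * ∏ i ∈ A, bit (x i))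
    (Q : BCube n M)
    (hcross : ∀ κ : Fin (D + 1) → Fin M, StrictAnti κ → ∑ A, ((c A : ℤ) : ZMod m) *
      perm (D + 1) (fun a i => ((Q.coe i (κ a) : ℤ) : ZMod m)) A = 0) :
    ∃ ψ : (Fin M → Bool) → ℤ, IsDeg D ψ ∧
      ∀ t, ((ψ t : ℤ) : ZMod m) = (φ (Q.emb t) : ℤ) := by
  classical
  have hdeg : IsDeg (D + 1) φ := ⟨c, hc, hφ⟩
  obtain ⟨C, hC, hCφ₀⟩ := hdeg.comp_emb Q
  have hCφ : ∀ t, φ (Q.emb t) = ∑ I, C I * ∏ k ∈ I, bit (t k) := hCφ₀
  have htop : ∀ I : Finset (Fin M), I.card = D + 1 → ((C I : ℤ) : ZMod m) = 0 := by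
    intro I hI
    let κ : Fin (D + 1) → Fin M := fun a => I.orderEmbOfFin hI (Fin.rev a)
    have hanti : StrictAnti κ := by
      intro a b hab
      exact (I.orderEmbOfFin hI).strictMono (Fin.rev_lt_rev.mpr hab)
    have himg : Finset.univ.image κ = I := by
      ext k
      rw [Finset.mem_image]
      constructor
      · rintro ⟨a, -, rfl⟩
        exact Finset.orderEmbOfFin_mem I hI _
      · intro hk
        have h1 : k ∈ Set.range (I.orderEmbOfFin hI) := by
          rw [Finset.range_orderEmbOfFin]; exact hk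
        obtain ⟨a, rfl⟩ := h1
        exact ⟨Fin.rev a, Finset.mem_univ _, by simp [κ]⟩
    rw [← himg, coeff_eq Q c hc C hC (fun t => by rw [← hφ, hCφ t]) κ hanti.injective]
    exact hcross κ hanti
  refine ⟨fun t => ∑ I, (if I.card ≤ D then C I else 0) * ∏ k ∈ I, bit (t k), ?_, ?_⟩
  · refine ⟨fun I => if I.card ≤ D then C I else 0, fun I hI => ?_, fun t => rfl⟩
    beta_reduce
    rw [if_neg (not_le.mpr hI)]
  · intro t
    beta_reduce
    rw [hCφ t]
    push_cast
    refine Finset.sum_congr rfl fun I _ => ?_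
    by_cases h1 : I.card ≤ D
    · rw [if_pos h1]
    · rw [if_neg h1]
      rcases Nat.lt_or_ge (D + 1) I.card with h2 | h2
      · rw [hC I h2]
        simp
      · have h3 : I.card = D + 1 := by omega
        rw [htop I h3]

open Classical in
/-- The directions of the earlier regions, read off from the history. -/
noncomputable def hcoe (m : ℕ) (e : Fin M × Fin u ↪ Fin n)
    (hist : List (Finset (Fin u) × Finset (Fin u))) (k : Fin M) (i : Fin n) : ZMod m :=
  if h : k.1 < hist.length then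
    match loc e i with
    | some q => if q.1 = k then (if q.2 ∈ (hist[k.1]'h).2 then 1 else 0) -
        (if q.2 ∈ (hist[k.1]'h).1 then 1 else 0) else 0
    | none => 0
  else 0

theorem hcoe_ofFn (m : ℕ) (e : Fin M × Fin u ↪ Fin n) (z : Fin n → Bool)
    (p : Fin M → Finset (Fin u) × Finset (Fin u)) (k k' : Fin M) (hk : k < k') (i : Fin n) :
    hcoe m e (List.ofFn fun j : Fin k'.1 => p ⟨j.1, j.2.trans k'.2⟩) k i =
      (((mkQ e z p).coe i k : ℤ) : ZMod m) := by
  unfold hcoe
  have hlen : (List.ofFn fun j : Fin k'.1 => p ⟨j.1, j.2.trans k'.2⟩).length = k'.1 := by simp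
  have hcond : k.1 < (List.ofFn fun j : Fin k'.1 => p ⟨j.1, j.2.trans k'.2⟩).length := by
    rw [hlen]; exact hk
  rw [dif_pos hcond]
  have hget : (List.ofFn fun j : Fin k'.1 => p ⟨j.1, j.2.trans k'.2⟩)[k.1]'hcond = p k := by
    simp
  rw [hget]
  by_cases hi : ∃ q, e q = i
  · obtain ⟨q, rfl⟩ := hi
    rw [loc_apply, mkQ_coe_apply]
    by_cases h1 : q.1 = k
    · simp only [h1, if_true]
      push_cast
      rfl
    · simp only [h1, if_false]
      push_cast
      rfl
  · push Not at hi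
    rw [loc_eq_none hi, mkQ_coe_of_ne z p hi]
    push_cast
    rfl

open Classical in
/-- The class of a coordinate: top coefficients against the earlier directions. -/
noncomputable def gd {N : ℕ} (m D : ℕ) (e : Fin M × Fin u ↪ Fin n)
    (c : Fin N → Finset (Fin n) → ℤ) (hist : List (Finset (Fin u) × Finset (Fin u)))
    (c' : Fin u) : Fin N × (Fin D → Fin M) → ZMod m := fun jκ =>
  if h : hist.length < M then
    ∑ A ∈ univ.filter (fun A => e (⟨hist.length, h⟩, c') ∈ A), ((c jκ.1 A : ℤ) : ZMod m) *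
      perm D (fun a i => hcoe m e hist (jκ.2 a) i) (A.erase (e (⟨hist.length, h⟩, c')))
  else 0

/-- One level: a block cube on which the degree is smaller. -/
theorem stage_deg {N : ℕ} (m D l V : ℕ) [NeZero m] (hl : 0 < l) (hml : m ∣ l) (hV : 0 < V)
    (e : Fin M × Fin u ↪ Fin n) (z : Fin n → Bool)
    (q : Fin N → (Fin n → Bool) → ℤ) (hq : ∀ j, IsDeg (D + 1) (q j))
    (v : Fin n → ℤ) (hv : OddMul V v) (f : (Fin n → Bool) → ℝ) (hf : ∀ x, |f x| ≤ 1)
    (ε : ℝ) (hε0 : 0 < ε) (hε1 : ε ≤ 1)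
    (hε : 16 * ((m ^ (N * M ^ D) : ℕ) * (V * l : ℕ)) * (1 - 1 / (l : ℝ) ^ 2) ^ u ≤ ε ^ 2) :
    ∃ Q : BCube n M,
      (∀ j, ∃ ψ : (Fin M → Bool) → ℤ, IsDeg D ψ ∧
        ∀ t, ((ψ t : ℤ) : ZMod m) = (q j (Q.emb t) : ℤ)) ∧
      OddMul (V * l) (Q.pw v) ∧
      (∑ x : Fin M → Finset (Fin u), f (glue e z x)) / ((2 : ℝ) ^ u) ^ M - M * ε ≤
        avg fun t => f (Q.emb t) := by
  classical
  choose c hc hφ using hq
  have hcard : (Fintype.card (Fin N × (Fin D → Fin M) → ZMod m) : ℝ) =
      (m ^ (N * M ^ D) : ℕ) := by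
    rw [Fintype.card_fun, ZMod.card, Fintype.card_prod, Fintype.card_fin, Fintype.card_fun,
      Fintype.card_fin, Fintype.card_fin]
  obtain ⟨p, hp1, hp2, hp3⟩ := level (G := Fin N × (Fin D → Fin M) → ZMod m) l V hl hV e z
    (gd m D e c) (by
      intro h c'
      funext jκ
      rw [Pi.smul_apply, Pi.zero_apply]
      obtain ⟨d, rfl⟩ := hml
      rw [nsmul_eq_mul]
      push_cast
      simp) v hv f hf ε hε0 hε1 (by rw [hcard]; exact hε)
  refine ⟨mkQ e z p, fun j => ?_, hp2, hp3⟩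
  refine lower_of_cross (q j) (c j) (hc j) (hφ j) (mkQ e z p) fun κ hκ => ?_
  -- the weights
  let W : Fin n → ZMod m := fun x => ∑ A ∈ univ.filter (fun A => x ∈ A), ((c j A : ℤ) : ZMod m) *
    perm D (fun a i => (((mkQ e z p).coe i (κ a.succ) : ℤ) : ZMod m)) (A.erase x)
  have h1 : ∑ A, ((c j A : ℤ) : ZMod m) *
      perm (D + 1) (fun a i => (((mkQ e z p).coe i (κ a) : ℤ) : ZMod m)) A =
      ∑ x, W x * (((mkQ e z p).coe x (κ 0) : ℤ) : ZMod m) := by
    simp only [perm_succ, W, Finset.mul_sum, Finset.sum_mul]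
    have h2 : ∀ A : Finset (Fin n), ∑ i ∈ A, ((c j A : ℤ) : ZMod m) *
        ((((mkQ e z p).coe i (κ 0) : ℤ) : ZMod m) *
          perm D (fun a i => (((mkQ e z p).coe i (κ a.succ) : ℤ) : ZMod m)) (A.erase i)) =
        ∑ i, if i ∈ A then ((c j A : ℤ) : ZMod m) *
          perm D (fun a i => (((mkQ e z p).coe i (κ a.succ) : ℤ) : ZMod m)) (A.erase i) *
          (((mkQ e z p).coe i (κ 0) : ℤ) : ZMod m) else 0 := by
      intro A
      rw [Finset.sum_ite_mem, Finset.univ_inter]
      exact Finset.sum_congr rfl fun i _ => by ring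
    rw [Finset.sum_congr rfl fun A _ => h2 A, Finset.sum_comm]
    refine Finset.sum_congr rfl fun x _ => ?_
    rw [Finset.sum_filter]
  rw [h1, sum_mkQ_coe (R := ZMod m) e z p (κ 0) W]
  have h3 : ∀ c' : Fin u, gd m D e c
      (List.ofFn fun j : Fin (κ 0).1 => p ⟨j.1, j.2.trans (κ 0).2⟩) c'
      (j, fun a => κ a.succ) = W (e (κ 0, c')) := by
    intro c'
    unfold gd
    have hlen : (List.ofFn fun j : Fin (κ 0).1 => p ⟨j.1, j.2.trans (κ 0).2⟩).length =
        (κ 0).1 := by simp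
    have hcond : (List.ofFn fun j : Fin (κ 0).1 => p ⟨j.1, j.2.trans (κ 0).2⟩).length < M := by
      rw [hlen]; exact (κ 0).2
    rw [dif_pos hcond]
    have hk' : (⟨(List.ofFn fun j : Fin (κ 0).1 => p ⟨j.1, j.2.trans (κ 0).2⟩).length, hcond⟩ :
        Fin M) = κ 0 := Fin.ext hlen
    rw [hk']
    simp only [W]
    refine Finset.sum_congr rfl fun A _ => ?_
    congr 1
    congr 1
    funext a i
    exact hcoe_ofFn m e z p (κ a.succ) (κ 0) (hκ (Fin.succ_pos a)) i
  have h4 := congrFun (hp1 (κ 0)) (j, fun a => κ a.succ)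
  rw [Finset.sum_apply, Finset.sum_apply] at h4
  simp only [h3] at h4
  rw [h4, sub_self]

end Pair

end Pool.Agent.QuadSys
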