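import Mathlib

/-!
# One-region pairing lemma: two subsets of the same class, with weights differing by an odd
multiple, on which a given function is large on average
-/

set_option autoImplicit false

namespace Pool.Agent.QuadSys.Pair

open Finset

variable {ι G : Type*} [DecidableEq ι] [AddCommGroup G] [Fintype G] [DecidableEq G]

/-- Twisted translation. -/
noncomputable def twc (c : ℂ) (g : G) (f : EuclideanSpace ℂ G) : EuclideanSpace ℂ G :=
  WithLp.toLp 2 fun γ => c * f (γ - g)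

omit [DecidableEq G] in
lemma norm_twc (c : ℂ) (hc : ‖c‖ = 1) (g : G) (f : EuclideanSpace ℂ G) : ‖twc c g f‖ = ‖f‖ := by
  rw [EuclideanSpace.norm_eq, EuclideanSpace.norm_eq]
  congr 1
  refine Fintype.sum_equiv (Equiv.subRight g) _ _ fun γ => ?_
  simp [twc, hc]

omit [DecidableEq G] [Fintype G] in
lemma twc_sub (c : ℂ) (g : G) (f f' : EuclideanSpace ℂ G) :
    twc c g f - twc c g f' = twc c g (f - f') := by
  ext γ
  simp [twc, mul_sub]

omit [DecidableEq G] [Fintype G] in
lemma iterate_twc (c : ℂ) (g : G) (f : EuclideanSpace ℂ G) (k : ℕ) (γ : G) :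
    ((twc c g)^[k] f) γ = c ^ k * f (γ - k • g) := by
  induction k generalizing γ with
  | zero => simp
  | succ k ih =>
    rw [Function.iterate_succ_apply']
    have : (twc c g ((twc c g)^[k] f)) γ = c * ((twc c g)^[k] f) (γ - g) := rfl
    rw [this, ih, pow_succ, succ_nsmul]
    have h : γ - g - k • g = γ - (k • g + g) := by abel
    rw [h]
    ring

omit [DecidableEq G] in
/-- The key contraction. -/
lemma norm_add_twc (l : ℕ) (hl : 0 < l) (c : ℂ) (hc : ‖c‖ = 1) (hcl : c ^ l = -1) (g : G)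
    (hg : l • g = 0) (f : EuclideanSpace ℂ G) :
    ‖f + twc c g f‖ ^ 2 ≤ 4 * (1 - 1 / (l : ℝ) ^ 2) * ‖f‖ ^ 2 := by
  have hl' : (0 : ℝ) < l := by exact_mod_cast hl
  have h1 : (twc c g)^[l] f = -f := by
    ext γ
    rw [iterate_twc, hcl, hg]
    simp
  have h2 : ∀ k : ℕ, dist ((twc c g)^[k] f) ((twc c g)^[k + 1] f) = ‖f - twc c g f‖ := by
    intro k
    induction k with
    | zero => simp [dist_eq_norm]
    | succ k ih =>
      rw [Function.iterate_succ_apply', Function.iterate_succ_apply' (twc c g) (k + 1),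
        dist_eq_norm, twc_sub, norm_twc c hc, ← dist_eq_norm]
      exact ih
  have h3 : ‖f - (twc c g)^[l] f‖ ≤ l * ‖f - twc c g f‖ := by
    have := dist_le_range_sum_dist (fun k => (twc c g)^[k] f) l
    simp only [h2] at this
    rw [Finset.sum_const, Finset.card_range, nsmul_eq_mul, dist_eq_norm] at this
    exact this
  rw [h1, sub_neg_eq_add, ← two_smul ℝ f, norm_smul] at h3
  have h4 : ‖f‖ ≤ (l / 2) * ‖f - twc c g f‖ := by
    rw [Real.norm_of_nonneg (by norm_num : (0:ℝ) ≤ 2)] at h3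
    linarith
  have h5 := parallelogram_law_with_norm ℂ f (twc c g f)
  rw [norm_twc c hc] at h5
  have h6 : 4 / (l : ℝ) ^ 2 * ‖f‖ ^ 2 ≤ ‖f - twc c g f‖ ^ 2 := by
    have h7 : ‖f‖ ^ 2 ≤ ((l / 2) * ‖f - twc c g f‖) ^ 2 :=
      pow_le_pow_left₀ (norm_nonneg _) h4 2
    rw [div_mul_eq_mul_div, div_le_iff₀ (by positivity)]
    nlinarith
  have h8 : 4 * (1 - 1 / (l : ℝ) ^ 2) * ‖f‖ ^ 2 = 4 * ‖f‖ ^ 2 - 4 / (l : ℝ) ^ 2 * ‖f‖ ^ 2 := by
    ring
  rw [h8]
  nlinarith

/-- The generating function of the phases of subsets of `s` with given sum. -/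
noncomputable def genc (om : ι → ℂ) (g : ι → G) (s : Finset ι) : EuclideanSpace ℂ G :=
  WithLp.toLp 2 fun γ => ∑ u ∈ s.powerset.filter (fun u => ∑ i ∈ u, g i = γ), ∏ i ∈ u, om i

omit [Fintype G] [DecidableEq ι] in
lemma genc_apply (om : ι → ℂ) (g : ι → G) (s : Finset ι) (γ : G) :
    genc om g s γ = ∑ u ∈ s.powerset.filter (fun u => ∑ i ∈ u, g i = γ), ∏ i ∈ u, om i := rfl

omit [Fintype G] in
lemma genc_insert (om : ι → ℂ) (g : ι → G) (s : Finset ι) (i : ι) (hi : i ∉ s) :
    genc om g (insert i s) = genc om g s + twc (om i) (g i) (genc om g s) := by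
  ext γ
  change (∑ u ∈ (insert i s).powerset.filter (fun u => ∑ i ∈ u, g i = γ), ∏ j ∈ u, om j) =
    (∑ u ∈ s.powerset.filter (fun u => ∑ i ∈ u, g i = γ), ∏ j ∈ u, om j) +
    om i * (∑ u ∈ s.powerset.filter (fun u => ∑ i ∈ u, g i = γ - g i), ∏ j ∈ u, om j)
  rw [Finset.sum_filter, Finset.sum_powerset_insert hi, Finset.sum_filter, Finset.sum_filter,
    Finset.mul_sum]
  congr 1
  refine Finset.sum_congr rfl fun u hu => ?_
  have hiu : i ∉ u := fun h => hi (mem_powerset.mp hu h)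
  rw [Finset.sum_insert hiu, Finset.prod_insert hiu]
  by_cases h : ∑ j ∈ u, g j = γ - g i
  · rw [if_pos h, if_pos (by rw [h]; abel)]
  · rw [if_neg h, if_neg, mul_zero]
    intro h'
    exact h (by rw [← h']; abel)

lemma norm_genc_sq (l : ℕ) (hl : 0 < l) (om : ι → ℂ) (hom : ∀ i, ‖om i‖ = 1)
    (homl : ∀ i, om i ^ l = -1) (g : ι → G) (hg : ∀ i, l • g i = 0) (s : Finset ι) :
    ‖genc om g s‖ ^ 2 ≤ (4 * (1 - 1 / (l : ℝ) ^ 2)) ^ s.card := by
  induction s using Finset.induction_on with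
  | empty =>
    rw [EuclideanSpace.norm_sq_eq]
    have : ∀ γ : G, ‖(genc om g (∅ : Finset ι)) γ‖ ^ 2 = if γ = 0 then 1 else 0 := by
      intro γ
      change ‖∑ u ∈ (∅ : Finset ι).powerset.filter (fun u => ∑ i ∈ u, g i = γ), ∏ j ∈ u, om j‖ ^ 2
        = _
      rw [Finset.powerset_empty, Finset.sum_filter, Finset.sum_singleton]
      by_cases h : γ = 0
      · simp [h]
      · simp [h, Ne.symm h]
    simp [this]
  | insert i s hi ih =>
    have hm' : (1 : ℝ) ≤ l := by exact_mod_cast hl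
    have h0 : (0 : ℝ) ≤ 4 * (1 - 1 / (l : ℝ) ^ 2) := by
      have : 1 / (l : ℝ) ^ 2 ≤ 1 := by
        rw [div_le_one (by positivity)]
        exact one_le_pow₀ hm'
      linarith
    rw [genc_insert om g s i hi, card_insert_of_notMem hi]
    calc ‖genc om g s + twc (om i) (g i) (genc om g s)‖ ^ 2
        ≤ (4 * (1 - 1 / (l : ℝ) ^ 2)) * ‖genc om g s‖ ^ 2 :=
          norm_add_twc l hl (om i) (hom i) (homl i) (g i) (hg i) _
      _ ≤ (4 * (1 - 1 / (l : ℝ) ^ 2)) * (4 * (1 - 1 / (l : ℝ) ^ 2)) ^ s.card :=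
          mul_le_mul_of_nonneg_left ih h0
      _ = (4 * (1 - 1 / (l : ℝ) ^ 2)) ^ (s.card + 1) := by ring

/-- The sum of the absolute values of the generating function. -/
lemma sum_norm_genc_le (l : ℕ) (hl : 0 < l) (om : ι → ℂ) (hom : ∀ i, ‖om i‖ = 1)
    (homl : ∀ i, om i ^ l = -1) (g : ι → G) (hg : ∀ i, l • g i = 0) (s : Finset ι) :
    (∑ γ, ‖genc om g s γ‖) ^ 2 ≤
      Fintype.card G * (4 * (1 - 1 / (l : ℝ) ^ 2)) ^ s.card := by
  have h1 := Finset.sum_mul_sq_le_sq_mul_sq (Finset.univ : Finset G) (fun _ => (1 : ℝ))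
    (fun γ => ‖genc om g s γ‖)
  simp only [one_mul, one_pow, Finset.sum_const, Finset.card_univ, nsmul_eq_mul, mul_one] at h1
  have h2 : ∑ γ, ‖genc om g s γ‖ ^ 2 = ‖genc om g s‖ ^ 2 := by
    rw [EuclideanSpace.norm_sq_eq]
  rw [h2] at h1
  exact h1.trans (mul_le_mul_of_nonneg_left (norm_genc_sq l hl om hom homl g hg s)
    (Nat.cast_nonneg _))

/-- Two sides of a class: if all mixed pairs have sum less than `2 c` then the total is small. -/
lemma two_sides {α : Type*} (A B : Finset α) (f : α → ℝ) (hf : ∀ a, |f a| ≤ 1) (c : ℝ)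
    (hc : -1 ≤ c) (h : ∀ a ∈ A, ∀ b ∈ B, (f a + f b) / 2 < c) :
    ∑ a ∈ A, f a + ∑ b ∈ B, f b ≤ c * (A.card + B.card) + 2 * |(A.card : ℝ) - B.card| := by
  have hle1 : ∀ a, f a ≤ 1 := fun a => (abs_le.mp (hf a)).2
  have hge1 : ∀ a, -1 ≤ f a := fun a => (abs_le.mp (hf a)).1
  rcases A.eq_empty_or_nonempty with rfl | hA
  · rcases B.eq_empty_or_nonempty with rfl | hB
    · simp
    · have h1 : ∑ b ∈ B, f b ≤ B.card := by
        have := Finset.sum_le_sum fun b (_ : b ∈ B) => hle1 b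
        simpa using this
      simp only [Finset.sum_empty, Finset.card_empty, Nat.cast_zero, zero_add, zero_sub, abs_neg,
        Nat.abs_cast]
      have : (0 : ℝ) ≤ B.card := Nat.cast_nonneg _
      nlinarith
  rcases B.eq_empty_or_nonempty with rfl | hB
  · have h1 : ∑ b ∈ A, f b ≤ A.card := by
      have := Finset.sum_le_sum fun b (_ : b ∈ A) => hle1 b
      simpa using this
    simp only [Finset.sum_empty, Finset.card_empty, Nat.cast_zero, add_zero, sub_zero,
      Nat.abs_cast]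
    have : (0 : ℝ) ≤ A.card := Nat.cast_nonneg _
    nlinarith
  obtain ⟨a₀, ha₀, hamax⟩ := Finset.exists_max_image A f hA
  obtain ⟨b₀, hb₀, hbmax⟩ := Finset.exists_max_image B f hB
  have h1 : ∑ a ∈ A, f a ≤ A.card * f a₀ := by
    have := Finset.sum_le_sum fun a ha => hamax a ha
    simpa using this
  have h2 : ∑ b ∈ B, f b ≤ B.card * f b₀ := by
    have := Finset.sum_le_sum fun b hb => hbmax b hb
    simpa using this
  have h3 := h a₀ ha₀ b₀ hb₀
  have hA0 : (0 : ℝ) ≤ A.card := Nat.cast_nonneg _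
  have hB0 : (0 : ℝ) ≤ B.card := Nat.cast_nonneg _
  have h4 : (A.card : ℝ) * f a₀ + B.card * f b₀ =
      (A.card + B.card) * ((f a₀ + f b₀) / 2) +
      ((A.card : ℝ) - B.card) * ((f a₀ - f b₀) / 2) := by ring
  have h5 : ((A.card : ℝ) - B.card) * ((f a₀ - f b₀) / 2) ≤ 2 * |(A.card : ℝ) - B.card| := by
    have h6 : |(f a₀ - f b₀) / 2| ≤ 2 := by
      rw [abs_le]
      constructor <;> linarith [hle1 a₀, hge1 a₀, hle1 b₀, hge1 b₀]
    calc ((A.card : ℝ) - B.card) * ((f a₀ - f b₀) / 2) ≤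
        |((A.card : ℝ) - B.card) * ((f a₀ - f b₀) / 2)| := le_abs_self _
      _ = |(A.card : ℝ) - B.card| * |(f a₀ - f b₀) / 2| := abs_mul _ _
      _ ≤ |(A.card : ℝ) - B.card| * 2 := mul_le_mul_of_nonneg_left h6 (abs_nonneg _)
      _ = _ := by ring
  have h7 : ((A.card : ℝ) + B.card) * ((f a₀ + f b₀) / 2) ≤ c * (A.card + B.card) := by
    nlinarith
  linarith

/-- One-region pairing lemma. -/
theorem pair_one (l V : ℕ) (hl : 0 < l) (hV : 0 < V) (g : ι → G) (hg : ∀ i, l • g i = 0)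
    (v : ι → ℤ) (hv : ∀ i, ((2 * V : ℕ) : ℤ) ∣ v i - V) (s : Finset ι) (f : Finset ι → ℝ)
    (hf : ∀ a, |f a| ≤ 1) (ε : ℝ) (hε0 : 0 < ε) (hε1 : ε ≤ 1)
    (hε : 16 * (Fintype.card G * (V * l : ℕ)) * (1 - 1 / (l : ℝ) ^ 2) ^ s.card ≤ ε ^ 2) :
    ∃ a b : Finset ι, a ⊆ s ∧ b ⊆ s ∧ ∑ i ∈ a, g i = ∑ i ∈ b, g i ∧
      ((2 * (V * l) : ℕ) : ℤ) ∣ (∑ i ∈ b, v i - ∑ i ∈ a, v i) - (V * l : ℕ) ∧
      (∑ a ∈ s.powerset, f a) / 2 ^ s.card - ε ≤ (f a + f b) / 2 := by
  classical
  have hVl : 0 < V * l := Nat.mul_pos hV hl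
  have : NeZero (V * l) := ⟨hVl.ne'⟩
  set W : ℕ := V * l with hW
  have hWr : (W : ℂ) ≠ 0 := by exact_mod_cast hVl.ne'
  -- phases
  let om : ι → ℂ := fun i => Complex.exp (((Real.pi * v i / W : ℝ) : ℂ) * Complex.I)
  have hom : ∀ i, ‖om i‖ = 1 := fun i => Complex.norm_exp_ofReal_mul_I _
  have homl : ∀ i, om i ^ l = -1 := by
    intro i
    obtain ⟨k, hk⟩ := hv i
    simp only [om]
    rw [← Complex.exp_nat_mul]
    have hvi : (v i : ℂ) = V + 2 * V * k := by
      have : v i = V + 2 * V * k := by push_cast at hk; linarith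
      rw [this]; push_cast; ring
    have hV' : (V : ℂ) ≠ 0 := by exact_mod_cast hV.ne'
    have hl' : (l : ℂ) ≠ 0 := by exact_mod_cast hl.ne'
    have h1 : (l : ℂ) * (((Real.pi * v i / W : ℝ) : ℂ) * Complex.I) =
        Real.pi * Complex.I + k * (2 * Real.pi * Complex.I) := by
      push_cast
      rw [hvi, hW]
      push_cast
      field_simp
    rw [h1, Complex.exp_add, Complex.exp_pi_mul_I, Complex.exp_int_mul_two_pi_mul_I, mul_one]
  let g' : ι → G × ZMod W := fun i => (g i, ((v i : ℤ) : ZMod W))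
  have hg' : ∀ i, l • g' i = 0 := by
    intro i
    ext
    · simpa [g'] using hg i
    · simp only [g', Prod.smul_mk]
      obtain ⟨k, hk⟩ := hv i
      have : v i = V + 2 * V * k := by push_cast at hk; linarith
      have h2 : (l : ℤ) * v i = (W : ℤ) * (1 + 2 * k) := by
        rw [this, hW]; push_cast; ring
      have h3 : (((l : ℤ) * v i : ℤ) : ZMod W) = 0 := by
        rw [h2]; push_cast; simp
      push_cast at h3
      rw [nsmul_eq_mul]
      simpa using h3
  have hprod : ∀ u : Finset ι, ∏ i ∈ u, om i =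
      Complex.exp (((Real.pi * (∑ i ∈ u, v i : ℤ) / W : ℝ) : ℂ) * Complex.I) := by
    intro u
    simp only [om]
    rw [← Complex.exp_sum]
    congr 1
    push_cast
    rw [← Finset.sum_mul, Finset.mul_sum, Finset.sum_div]
  -- bound for the generating function
  have hsum := sum_norm_genc_le l hl om hom homl g' hg' s
  have hcardG' : (Fintype.card (G × ZMod W) : ℝ) = Fintype.card G * W := by
    rw [Fintype.card_prod, ZMod.card]; push_cast; ring
  have h4pow : (4 * (1 - 1 / (l : ℝ) ^ 2)) ^ s.card =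
      (2 ^ s.card) ^ 2 * (1 - 1 / (l : ℝ) ^ 2) ^ s.card := by
    rw [mul_pow, ← pow_mul, mul_comm s.card 2, pow_mul]
    norm_num
  set Sg : ℝ := ∑ γ, ‖genc om g' s γ‖ with hSg
  have hSg0 : 0 ≤ Sg := Finset.sum_nonneg fun _ _ => norm_nonneg _
  have hSgle : Sg ≤ 2 ^ s.card * (ε / 4) := by
    have h2p : (0 : ℝ) < 2 ^ s.card := by positivity
    have h5 : Sg ^ 2 ≤ (2 ^ s.card * (ε / 4)) ^ 2 := by
      rw [hcardG', h4pow] at hsum
      calc Sg ^ 2 ≤ (Fintype.card G * W : ℝ) * ((2 ^ s.card) ^ 2 *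
            (1 - 1 / (l : ℝ) ^ 2) ^ s.card) := hsum
        _ = (2 ^ s.card) ^ 2 * (16 * (Fintype.card G * W) *
            (1 - 1 / (l : ℝ) ^ 2) ^ s.card) / 16 := by ring
        _ ≤ (2 ^ s.card) ^ 2 * ε ^ 2 / 16 := by
            have h6 := mul_le_mul_of_nonneg_left hε (by positivity : (0 : ℝ) ≤ (2 ^ s.card) ^ 2)
            linarith
        _ = _ := by ring
    exact le_of_sq_le_sq h5 (by positivity)
  by_contra hcon
  push Not at hcon
  -- the classes
  let cls : G × ZMod W → Finset (Finset ι) := fun γ =>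
    s.powerset.filter fun u => ∑ i ∈ u, g' i = γ
  have hclsfst : ∀ γ, ∀ u ∈ cls γ, ∀ u' ∈ cls γ, ∑ i ∈ u, g i = ∑ i ∈ u', g i := by
    intro γ u hu u' hu'
    have h1 := (Finset.mem_filter.mp hu).2
    have h2 := (Finset.mem_filter.mp hu').2
    have h3 : (∑ i ∈ u, g' i).1 = (∑ i ∈ u', g' i).1 := by rw [h1, h2]
    rw [Prod.fst_sum, Prod.fst_sum] at h3
    exact h3
  have hclssnd : ∀ γ, ∀ u ∈ cls γ, ∀ u' ∈ cls γ, (W : ℤ) ∣ ∑ i ∈ u', v i - ∑ i ∈ u, v i := by
    intro γ u hu u' hu'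
    have h1 := (Finset.mem_filter.mp hu).2
    have h2 := (Finset.mem_filter.mp hu').2
    have h3 : (∑ i ∈ u, g' i).2 = (∑ i ∈ u', g' i).2 := by rw [h1, h2]
    rw [Prod.snd_sum, Prod.snd_sum] at h3
    have h4 : ((∑ i ∈ u', v i - ∑ i ∈ u, v i : ℤ) : ZMod W) = 0 := by
      push_cast
      rw [sub_eq_zero]
      exact h3.symm
    exact (ZMod.intCast_zmod_eq_zero_iff_dvd _ _).mp h4
  -- the two sides of a class
  have hside : ∀ γ, ∃ A B : Finset (Finset ι), A ⊆ cls γ ∧ B ⊆ cls γ ∧ Disjoint A B ∧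
      A ∪ B = cls γ ∧ ‖genc om g' s γ‖ = |(A.card : ℝ) - B.card| ∧
      ∀ a ∈ A, ∀ b ∈ B, ((2 * W : ℕ) : ℤ) ∣ (∑ i ∈ b, v i - ∑ i ∈ a, v i) - W := by
    intro γ
    rcases (cls γ).eq_empty_or_nonempty with he | ⟨u₀, hu₀⟩
    · refine ⟨∅, ∅, by simp, by simp, by simp, by simp [he], ?_, by simp⟩
      rw [genc_apply]
      have : s.powerset.filter (fun u => ∑ i ∈ u, g' i = γ) = ∅ := he
      rw [this]; simp
    · let par : Finset ι → Prop := fun u => ((2 * W : ℕ) : ℤ) ∣ ∑ i ∈ u, v i - ∑ i ∈ u₀, v i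
      refine ⟨(cls γ).filter par, (cls γ).filter fun u => ¬ par u, Finset.filter_subset _ _,
        Finset.filter_subset _ _, Finset.disjoint_filter_filter_not _ _ _,
        Finset.filter_union_filter_not_eq _ _, ?_, ?_⟩
      · have hdec : ∀ u ∈ cls γ, ∏ i ∈ u, om i = (∏ i ∈ u₀, om i) * (if par u then 1 else -1) := by
          intro u hu
          obtain ⟨k, hk⟩ := hclssnd γ u₀ hu₀ u hu
          have hk' : ((∑ i ∈ u, v i : ℤ) : ℝ) = (∑ i ∈ u₀, v i : ℤ) + W * k := by
            have : (∑ i ∈ u, v i : ℤ) = (∑ i ∈ u₀, v i : ℤ) + W * k := by linarith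
            rw [this]; push_cast; ring
          have hWr' : (W : ℝ) ≠ 0 := by exact_mod_cast hVl.ne'
          have e1 : Real.pi * ((∑ i ∈ u, v i : ℤ) : ℝ) / W =
              Real.pi * ((∑ i ∈ u₀, v i : ℤ) : ℝ) / W + Real.pi * k := by
            rw [hk']; field_simp
          rw [hprod u, hprod u₀, e1]
          push_cast
          rw [add_mul, Complex.exp_add]
          congr 1
          rcases Int.even_or_odd' k with ⟨j, hj | hj⟩
          · have hp : par u := by
              refine ⟨j, ?_⟩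
              rw [hk, hj]; push_cast; ring
            rw [if_pos hp, hj]
            have : ((Real.pi : ℂ) * ((2 * j : ℤ) : ℂ)) * Complex.I =
                j * (2 * Real.pi * Complex.I) := by push_cast; ring
            rw [this, Complex.exp_int_mul_two_pi_mul_I]
          · have hp : ¬ par u := by
              rintro ⟨i, hi⟩
              rw [hk, hj] at hi
              push_cast at hi
              have h5 : (W : ℤ) * (2 * j + 1) = W * (2 * i) := by linarith
              have h6 : (2 * j + 1) = 2 * i :=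
                mul_left_cancel₀ (by exact_mod_cast hVl.ne') h5
              omega
            rw [if_neg hp, hj]
            have : ((Real.pi : ℂ) * ((2 * j + 1 : ℤ) : ℂ)) * Complex.I =
                j * (2 * Real.pi * Complex.I) + Real.pi * Complex.I := by push_cast; ring
            rw [this, Complex.exp_add, Complex.exp_int_mul_two_pi_mul_I, Complex.exp_pi_mul_I,
              one_mul]
        have h7 : genc om g' s γ = (∏ i ∈ u₀, om i) *
            ((((cls γ).filter par).card : ℂ) - ((cls γ).filter fun u => ¬ par u).card) := by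
          rw [genc_apply]
          change ∑ u ∈ cls γ, ∏ i ∈ u, om i = _
          rw [Finset.sum_congr rfl hdec, ← Finset.mul_sum]
          congr 1
          rw [Finset.sum_ite]
          simp [sub_eq_add_neg]
        rw [h7, norm_mul, norm_prod, Finset.prod_congr rfl fun i _ => hom i]
        simp only [Finset.prod_const_one, one_mul]
        have h8 : ((((cls γ).filter par).card : ℂ) - ((cls γ).filter fun u => ¬ par u).card) =
            (((((cls γ).filter par).card : ℝ) - ((cls γ).filter fun u => ¬ par u).card : ℝ) : ℂ) := by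
          push_cast; rfl
        rw [h8, Complex.norm_real, Real.norm_eq_abs]
      · intro a ha b hb
        rw [Finset.mem_filter] at ha hb
        obtain ⟨i, hi⟩ := ha.2
        obtain ⟨k, hk⟩ := hclssnd γ u₀ hu₀ b hb.1
        rcases Int.even_or_odd' k with ⟨j, hj | hj⟩
        · exfalso
          apply hb.2
          refine ⟨j, ?_⟩
          rw [hk, hj]; push_cast; ring
        · refine ⟨j - i, ?_⟩
          rw [hj] at hk
          push_cast at hi hk ⊢
          linarith
  choose A B hA hB hAB hABu hnorm hpair using hside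
  -- all mixed pairs are bad
  set c : ℝ := (∑ a ∈ s.powerset, f a) / 2 ^ s.card - ε with hc
  have hbad : ∀ γ, ∀ a ∈ A γ, ∀ b ∈ B γ, (f a + f b) / 2 < c := by
    intro γ a ha b hb
    have ha' := hA γ ha
    have hb' := hB γ hb
    exact hcon a b (Finset.mem_powerset.mp (Finset.mem_filter.mp ha').1)
      (Finset.mem_powerset.mp (Finset.mem_filter.mp hb').1) (hclsfst γ a ha' b hb')
      (hpair γ a ha b hb)
  have h2p : (0 : ℝ) < 2 ^ s.card := by positivity
  have hcardsum : ∑ γ, (((A γ).card : ℝ) + (B γ).card) = 2 ^ s.card := by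
    have h9 : ∀ γ, ((A γ).card : ℝ) + (B γ).card = (cls γ).card := by
      intro γ
      rw [← hABu γ, Finset.card_union_of_disjoint (hAB γ)]
      push_cast; ring
    rw [Finset.sum_congr rfl fun γ _ => h9 γ]
    have h10 := Finset.card_eq_sum_card_fiberwise (s := s.powerset)
      (t := (univ : Finset (G × ZMod W))) (f := fun u => ∑ i ∈ u, g' i)
      (fun u _ => Finset.mem_coe.mpr (Finset.mem_univ _))
    rw [Finset.card_powerset] at h10
    have h11 : ((2 ^ s.card : ℕ) : ℝ) = ∑ γ, ((cls γ).card : ℝ) := by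
      rw [h10]; push_cast; rfl
    rw [← h11]; push_cast; rfl
  rcases le_or_gt (-1) c with hc1 | hc1
  · -- the total sum is small
    have h12 : ∑ a ∈ s.powerset, f a ≤ c * 2 ^ s.card + 2 * Sg := by
      have h13 : ∑ a ∈ s.powerset, f a = ∑ γ, (∑ a ∈ A γ, f a + ∑ b ∈ B γ, f b) := by
        have h14 : ∀ γ, ∑ a ∈ A γ, f a + ∑ b ∈ B γ, f b = ∑ a ∈ cls γ, f a := by
          intro γ
          rw [← hABu γ, Finset.sum_union (hAB γ)]
        rw [Finset.sum_congr rfl fun γ _ => h14 γ]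
        exact (Finset.sum_fiberwise _ _ _).symm
      rw [h13]
      calc ∑ γ, (∑ a ∈ A γ, f a + ∑ b ∈ B γ, f b) ≤
          ∑ γ, (c * ((A γ).card + (B γ).card) + 2 * |((A γ).card : ℝ) - (B γ).card|) :=
            Finset.sum_le_sum fun γ _ => two_sides (A γ) (B γ) f hf c hc1 (hbad γ)
        _ = c * 2 ^ s.card + 2 * Sg := by
            rw [Finset.sum_add_distrib, ← Finset.mul_sum, hcardsum, ← Finset.mul_sum, hSg]
            congr 2
            exact Finset.sum_congr rfl fun γ _ => (hnorm γ).symm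
    have h15 : ∑ a ∈ s.powerset, f a = (c + ε) * 2 ^ s.card := by
      rw [hc]; field_simp; ring
    rw [h15] at h12
    nlinarith
  · -- there are no mixed pairs at all
    have hge1 : ∀ a, -1 ≤ f a := fun a => (abs_le.mp (hf a)).1
    have hone : ∀ γ, (A γ = ∅ ∨ B γ = ∅) := by
      intro γ
      by_contra hne
      push Not at hne
      obtain ⟨a, ha⟩ := hne.1
      obtain ⟨b, hb⟩ := hne.2
      have := hbad γ a ha b hb
      linarith [hge1 a, hge1 b]
    have h16 : Sg = 2 ^ s.card := by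
      rw [hSg, ← hcardsum]
      refine Finset.sum_congr rfl fun γ _ => ?_
      rw [hnorm γ]
      rcases hone γ with h | h
      · rw [h]; simp
      · rw [h]; simp
    rw [h16] at hSgle
    nlinarith

end Pool.Agent.QuadSys.Pair
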