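import Pool.Agent.QuadSys.Phase

/-!
# A phase, for real functions, with weights that are not divisible by a prime
-/

set_option autoImplicit false

namespace Pool.Agent.QuadSys

open Finset Pool.Agent.Helper21.LinSys

/-- No weight is divisible by `r`. -/
def Indiv {n : ℕ} (r : ℕ) (v : Fin n → ℤ) : Prop := ∀ i, ¬ (r : ℤ) ∣ v i

/-- The statement of the pairing theorem with constant `C`. -/
def PairRProp (m ℓ C : ℕ) : Prop :=
  ∀ {n N : ℕ} (M Λ e r : ℕ) (v : Fin n → ℤ), r.Prime → ¬ r ∣ ℓ → Indiv r v →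
    ∀ (q : Fin N → (Fin n → Bool) → ℤ), (∀ j, IsQuad (q j)) →
    ∀ (Γ : AddSubgroup (Fin n → ZMod ℓ)), Nat.card Γ ≤ 2 ^ Λ →
    ∀ (S : Finset (Fin n)) (y : Fin n → Bool) (f : (Fin n → Bool) → ℝ), (∀ x, |f x| ≤ 1) →
    (C * (M + N + Λ + e + r + 1)) ^ C ≤ Sᶜ.card →
    ∃ Q : BCube n M, Indiv r (Q.pw v) ∧
      (∀ t, ∀ i ∈ S, Q.emb t i = y i) ∧
      (∀ L ∈ Γ, ∀ t, ev L (Q.emb t) = ev L Q.base) ∧
      (∀ j t, ((q j (Q.emb t) : ℤ) : ZMod m) = (q j Q.base : ℤ)) ∧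
      (∑ x ∈ cube S y, f x) / 2 ^ Sᶜ.card - 1 / 2 ^ e ≤ avg fun t => f (Q.emb t)

/-- The statement of the path theorem with constant `C`. -/
def PathFunProp (m ℓ w C : ℕ) : Prop :=
  ∀ {n k ρ h lam : ℕ} (P : Fin k → (Fin n → Bool) → Prop),
    (∀ i, (∀ x, ¬ P i x) ∨ CertQ m ℓ w ρ h (P i)) →
    ∀ f : (Fin n → Bool) → ℝ, (∀ x, |f x| ≤ 1) → (2 : ℝ) ^ n ≤ 2 ^ lam * ∑ x, f x →
    ∃ (B N : ℕ) (q : Fin N → (Fin n → Bool) → ℤ) (Γ : AddSubgroup (Fin n → ZMod ℓ))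
      (S : Finset (Fin n)) (y : Fin n → Bool),
      B ≤ (C * (k + lam + ρ + 1)) ^ C ∧ (∀ j, IsQuad (q j)) ∧ N ≤ B ∧ Nat.card Γ ≤ 2 ^ B ∧
      S.card ≤ B ∧ (2 : ℝ) ^ Sᶜ.card ≤ 2 ^ B * ∑ x ∈ node m Γ S q y, f x ∧
      ∀ i, (∀ x ∈ node m Γ S q y, ¬ P i x) ∨ ∀ x ∈ node m Γ S q y, ¬ P i x →
        ∃ (p : Fin w → (Fin n → Bool) → ℤ) (H : AddSubgroup (Fin w → ZMod m)),
          (∀ s, IsQuad (p s)) ∧ h ≤ Nat.card H ∧
          Struct ℓ ρ (fun x (a : H) => comb p (a : Fin w → ZMod m) x) ∧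
          (∀ x', (∀ s, ((p s x' : ℤ) : ZMod m) = p s x) → ¬ P i x') ∧
          ∃ a, a ∉ H ∧ ∃ b : Fin N → ZMod m,
            Struct ℓ B (fun x => comb q b x + comb p a x)

theorem phase_fun (m : ℕ) [NeZero m] (ℓ : ℕ) [NeZero ℓ] (w : ℕ) {C₁ C₂ : ℕ}
    (hpath : PathFunProp m ℓ w C₁) (hpair : PairRProp m ℓ C₂) :
    ∃ C : ℕ, ∀ {n k ρ h lam : ℕ} (M r : ℕ) (v : Fin n → ℤ), r.Prime → ¬ r ∣ ℓ → Indiv r v →
      ∀ (P : Fin k → (Fin n → Bool) → Prop),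
      (∀ i, (∀ x, ¬ P i x) ∨ CertQ m ℓ w ρ h (P i)) →
      ∀ f : (Fin n → Bool) → ℝ, (∀ x, |f x| ≤ 1) → (2 : ℝ) ^ n ≤ 2 ^ lam * ∑ x, f x →
      pb C (M + k + lam + ρ + r + 1) ≤ n →
      ∃ (B : ℕ) (Q : BCube n M), B ≤ pb C (k + lam + ρ + 1) ∧
        Indiv r (Q.pw v) ∧
        (∀ i, (∀ t, ¬ P i (Q.emb t)) ∨ CertQ m ℓ w B (2 * h) fun t => P i (Q.emb t)) ∧
        (2 : ℝ) ^ M ≤ 2 ^ B * ∑ t, f (Q.emb t) := by
  classical
  refine ⟨(C₁ + 7) * (C₂ + 1) + C₁ + 4, ?_⟩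
  set C := (C₁ + 7) * (C₂ + 1) + C₁ + 4 with hC
  intro n k ρ h lam M r v hr hrℓ hv P hP f hf hfn hn
  obtain ⟨B₀, N, q, Γ, S, y, hB₀, hq, hN, hΓ, hS, hTn, hgate⟩ := hpath P hP f hf hfn
  set u := k + lam + ρ + 1 with hu
  set U := M + k + lam + ρ + r + 1 with hU
  have hu1 : 1 ≤ u := by omega
  have hU1 : 1 ≤ U := by omega
  have huU : u ≤ U := by omega
  have hB₀u : B₀ ≤ pb C₁ u := hB₀
  have hB₀' : B₀ ≤ pb C₁ U := hB₀u.trans (pb_mono le_rfl hu1 huU)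
  -- the size condition for the pairing theorem
  have hsize : (C₂ * (M + N + B₀ + (B₀ + 1) + r + 1)) ^ C₂ ≤ Sᶜ.card := by
    have h1 : M + N + B₀ + (B₀ + 1) + r + 1 ≤ pb (C₁ + 6) U := by
      have e0 : 1 ≤ pb C₁ U := one_le_pb hU1
      have e1 : M + N + B₀ + (B₀ + 1) + r + 1 ≤ 3 * pb C₁ U + 2 * U := by omega
      have e2 : pb C₁ U * U ≤ pb (C₁ + 1) U := by
        have := pb_mul_pb C₁ 1 U
        have e : pb 1 U = U := by unfold pb; simp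
        rwa [e] at this
      have e3 : 5 ≤ pb 5 U := by
        have h5 : (5 * 1) ^ 5 ≤ (5 * U) ^ 5 := Nat.pow_le_pow_left (Nat.mul_le_mul_left _ hU1) 5
        unfold pb
        omega
      calc M + N + B₀ + (B₀ + 1) + r + 1 ≤ 3 * pb C₁ U + 2 * U := e1
        _ ≤ (pb C₁ U * U) * 5 := by nlinarith
        _ ≤ pb (C₁ + 1) U * pb 5 U := Nat.mul_le_mul e2 e3
        _ ≤ pb (C₁ + 1 + 5) U := pb_mul_pb _ _ _
    have h2 : (C₂ * (M + N + B₀ + (B₀ + 1) + r + 1)) ^ C₂ ≤ pb ((C₁ + 7) * (C₂ + 1)) U :=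
      calc (C₂ * (M + N + B₀ + (B₀ + 1) + r + 1)) ^ C₂
          ≤ pb C₂ (pb (C₁ + 6) U) := Nat.pow_le_pow_left (Nat.mul_le_mul_left _ h1) _
        _ ≤ pb ((C₁ + 6 + 1) * (C₂ + 1)) U := pb_pb _ _ hU1
    have h3 : pb ((C₁ + 7) * (C₂ + 1)) U + pb C₁ U ≤ n := by
      refine (pb_add_pb _ _ hU1).trans (le_trans (pb_mono ?_ hU1 le_rfl) hn)
      rw [hC]; omega
    have h4 : Sᶜ.card = n - S.card := by
      rw [Finset.card_compl, Fintype.card_fin]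
    omega
  -- the block cube
  obtain ⟨Q, hQv, hQS, hQΓ, hQq, hQf⟩ := hpair M B₀ (B₀ + 1) r v hr hrℓ hv q hq Γ hΓ S y
    (fun x => if x ∈ node m Γ S q y then f x else 0) (by
      intro x
      split
      · exact hf x
      · simp) hsize
  have hsub : node m Γ S q y ⊆ cube S y := by
    intro x hx
    exact mem_cube.2 (mem_fibz.1 (Finset.mem_filter.1 hx).1).1
  have hsum : (∑ x ∈ cube S y, if x ∈ node m Γ S q y then f x else 0) =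
      ∑ x ∈ node m Γ S q y, f x := by
    rw [Finset.sum_ite_mem, Finset.inter_eq_right.2 hsub]
  have hdens : (1 : ℝ) / 2 ^ (B₀ + 1) ≤
      avg fun t => if Q.emb t ∈ node m Γ S q y then f (Q.emb t) else 0 := by
    refine le_trans ?_ hQf
    rw [hsum]
    have h2 : (1 : ℝ) / 2 ^ B₀ ≤ (∑ x ∈ node m Γ S q y, f x) / 2 ^ Sᶜ.card := by
      rw [div_le_div_iff₀ (by positivity) (by positivity)]
      linarith
    have h3 : (1 : ℝ) / 2 ^ B₀ = 1 / 2 ^ (B₀ + 1) + 1 / 2 ^ (B₀ + 1) := by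
      rw [pow_succ]; field_simp; norm_num
    linarith
  obtain ⟨t₀, ht₀⟩ : ∃ t₀, Q.emb t₀ ∈ node m Γ S q y := by
    by_contra hcon
    push Not at hcon
    have h1 : (avg fun t => if Q.emb t ∈ node m Γ S q y then f (Q.emb t) else 0) = 0 := by
      unfold avg
      rw [Finset.sum_eq_zero fun t _ => if_neg (hcon t), zero_div]
    rw [h1] at hdens
    have : (0 : ℝ) < 1 / 2 ^ (B₀ + 1) := by positivity
    linarith
  have hnode : ∀ t, Q.emb t ∈ node m Γ S q y := by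
    intro t
    have h0 := Finset.mem_filter.1 ht₀
    have h1 := mem_fibz.1 h0.1
    refine Finset.mem_filter.2 ⟨mem_fibz.2 ⟨hQS t, fun L hL => ?_⟩, fun j => ?_⟩
    · rw [hQΓ L hL t, ← h1.2 L hL, hQΓ L hL t₀]
    · rw [hQq j t, ← h0.2 j, hQq j t₀]
  have hcount : (2 : ℝ) ^ M ≤ 2 ^ (B₀ + 1) * ∑ t, f (Q.emb t) := by
    unfold avg at hdens
    rw [div_le_div_iff₀ (by positivity) (by positivity),
      Finset.sum_congr rfl fun t _ => if_pos (hnode t)] at hdens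
    linarith
  refine ⟨ρ + B₀ + 1, Q, ?_, hQv, fun i => ?_, ?_⟩
  · have e1 : 1 * u ≤ pb 2 u := mul_le_pb 1 hu1
    have e2 : pb C₁ u + pb 2 u ≤ pb (C₁ + 2 + 2) u := pb_add_pb _ _ hu1
    have e3 : pb (C₁ + 2 + 2) u ≤ pb C u := pb_mono (by rw [hC]; omega) hu1 le_rfl
    omega
  · rcases hgate i with h | h
    · exact Or.inl fun t => h _ (hnode t)
    · exact Or.inr ((cert_step Q hQq fun t ht => h _ (hnode t) ht).mono (by omega))
  · have h0 : 0 ≤ ∑ t, f (Q.emb t) := by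
      have h1 : (0 : ℝ) < 2 ^ M := by positivity
      have h2 : (0 : ℝ) < 2 ^ (B₀ + 1) := by positivity
      by_contra hcon
      push Not at hcon
      nlinarith
    calc (2 : ℝ) ^ M ≤ 2 ^ (B₀ + 1) * ∑ t, f (Q.emb t) := hcount
      _ ≤ 2 ^ (ρ + B₀ + 1) * ∑ t, f (Q.emb t) :=
          mul_le_mul_of_nonneg_right (pow_le_pow_right₀ (by norm_num) (by omega)) h0

end Pool.Agent.QuadSys
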