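import Pool.Agent.QuadSys.PairROne
import Pool.Agent.QuadSys.Pairing
import Pool.Agent.QuadSys.PairLower
import Pool.Agent.QuadSys.PhaseFun

/-!
# One level of pairing, with weights that are not divisible by a prime
-/

set_option autoImplicit false

namespace Pool.Agent.QuadSys

open Finset Pool.Agent.Helper21.LinSys

namespace Pair

variable {n M u : ℕ}

/-- One level of pairing. -/
theorem level_r {G : Type*} [AddCommGroup G] [Fintype G] [DecidableEq G] (l r : ℕ) (hl : 0 < l)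
    (hr : r.Prime) (hrl : ¬ r ∣ l) (e : Fin M × Fin u ↪ Fin n) (z : Fin n → Bool)
    (g : List (Finset (Fin u) × Finset (Fin u)) → Fin u → G) (hg : ∀ h c, l • g h c = 0)
    (v : Fin n → ℤ) (hv : Indiv r v) (f : (Fin n → Bool) → ℝ) (hf : ∀ x, |f x| ≤ 1)
    (ε : ℝ) (hε0 : 0 < ε) (hε1 : ε ≤ 1)
    (hε : 64 * Fintype.card G * (1 - 1 / ((r * l : ℕ) : ℝ) ^ 2) ^ u ≤ ε ^ 2) :
    ∃ p : Fin M → Finset (Fin u) × Finset (Fin u),
      (∀ k : Fin M, ∑ c ∈ (p k).1, g (List.ofFn fun j : Fin k.1 => p ⟨j.1, j.2.trans k.2⟩) c =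
        ∑ c ∈ (p k).2, g (List.ofFn fun j : Fin k.1 => p ⟨j.1, j.2.trans k.2⟩) c) ∧
      Indiv r ((mkQ e z p).pw v) ∧
      (∑ x : Fin M → Finset (Fin u), f (glue e z x)) / ((2 : ℝ) ^ u) ^ M - M * ε ≤
        avg fun t => f ((mkQ e z p).emb t) := by
  classical
  let Adm : List (Finset (Fin u) × Finset (Fin u)) → Finset (Fin u) → Finset (Fin u) → Prop :=
    fun hist a b => ∑ c ∈ a, g hist c = ∑ c ∈ b, g hist c ∧
      ∀ h : hist.length < M, ¬ (r : ℤ) ∣
        (∑ c ∈ b, v (e (⟨hist.length, h⟩, c)) - ∑ c ∈ a, v (e (⟨hist.length, h⟩, c)))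
  have hXcard : Fintype.card (Finset (Fin u)) = 2 ^ u := by simp
  obtain ⟨p, hp1, hp2⟩ := seq_pairs (X := Finset (Fin u)) (by rw [hXcard]; positivity) ε M Adm
    (by
      intro hist hh F hF
      obtain ⟨a, b, -, -, h1, h2, h3⟩ := pair_one_r l r hl hr hrl (g hist) (hg hist)
        (fun c => v (e (⟨hist.length, hh⟩, c))) (fun c => hv _) (Finset.univ : Finset (Fin u))
        F hF ε hε0 hε1 (by simpa using hε)
      refine ⟨a, b, ⟨h1, fun _ => h2⟩, ?_⟩
      rw [hXcard]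
      simpa using h3)
    (fun x => f (glue e z x)) (fun x => hf _)
  refine ⟨p, fun k => (hp1 k).1, ?_, ?_⟩
  · intro k
    have h1 := (hp1 k).2 (by simp)
    have h2 : (⟨(List.ofFn fun j : Fin k.1 => p ⟨j.1, j.2.trans k.2⟩).length, by simp⟩ : Fin M) =
        k := by
      apply Fin.ext
      simp
    rw [h2] at h1
    rw [BCube.pw_eq]
    have h3 := sum_mkQ_coe (R := ℤ) e z p k v
    simp only [Int.cast_id] at h3
    rw [h3]
    exact h1
  · rw [hXcard] at hp2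
    unfold avg
    simp only [mkQ_emb]
    have e1 : (((2 ^ u : ℕ) : ℝ)) = 2 ^ u := by push_cast; rfl
    rw [e1] at hp2
    exact hp2

/-- First stage: a block cube on which the quadratic polynomials are affine. -/
theorem stage_one_r {n M u N : ℕ} (m l r : ℕ) [NeZero m] (hl : 0 < l) (hml : m ∣ l) (hr : r.Prime)
    (hrl : ¬ r ∣ l)
    (e : Fin M × Fin u ↪ Fin n) (z : Fin n → Bool)
    (q : Fin N → (Fin n → Bool) → ℤ) (hq : ∀ j, IsQuad (q j))
    (v : Fin n → ℤ) (hv : Indiv r v) (f : (Fin n → Bool) → ℝ) (hf : ∀ x, |f x| ≤ 1)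
    (ε : ℝ) (hε0 : 0 < ε) (hε1 : ε ≤ 1)
    (hε : 64 * (m ^ (N * M) : ℕ) * (1 - 1 / ((r * l : ℕ) : ℝ) ^ 2) ^ u ≤ ε ^ 2) :
    ∃ p : Fin M → Finset (Fin u) × Finset (Fin u),
      (∀ j, ∃ (γ : ZMod m) (lam : Fin M → ZMod m), ∀ t,
        ((q j ((mkQ e z p).emb t) : ℤ) : ZMod m) = γ + ∑ k, lam k * ((bit (t k) : ℤ) : ZMod m)) ∧
      Indiv r ((mkQ e z p).pw v) ∧
      (∑ x : Fin M → Finset (Fin u), f (glue e z x)) / ((2 : ℝ) ^ u) ^ M - M * ε ≤
        avg fun t => f ((mkQ e z p).emb t) := by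
  classical
  choose c a A hA using hq
  have hcard : (Fintype.card (Fin N × Fin M → ZMod m) : ℝ) = (m ^ (N * M) : ℕ) := by
    rw [Fintype.card_fun, ZMod.card, Fintype.card_prod, Fintype.card_fin, Fintype.card_fin]
  obtain ⟨p, hp1, hp2, hp3⟩ := level_r (G := Fin N × Fin M → ZMod m) l r hl hr hrl e z
    (g1 m e A) (by
      intro h c'
      funext jk
      rw [Pi.smul_apply, Pi.zero_apply]
      exact smul_eq_zero_of_dvd hml _) v hv f hf ε hε0 hε1 (by rw [hcard]; exact hε)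
  refine ⟨p, fun j => ?_, hp2, hp3⟩
  refine affine_of_cross (q j) (c j) (a j) (A j) (hA j) (mkQ e z p) fun k k' hkk => ?_
  have h1 := congrFun (hp1 k') (j, k)
  rw [Finset.sum_apply, Finset.sum_apply] at h1
  -- evaluation of the class map
  have h2 : ∀ c' : Fin u, g1 m e A (List.ofFn fun j : Fin k'.1 => p ⟨j.1, j.2.trans k'.2⟩) c'
      (j, k) = ∑ i, ((A j i (e (k', c')) + A j (e (k', c')) i : ℤ) : ZMod m) *
        (((mkQ e z p).coe i k : ℤ) : ZMod m) := by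
    intro c'
    rw [sum_mkQ_coe (R := ZMod m) e z p k
      (fun i => ((A j i (e (k', c')) + A j (e (k', c')) i : ℤ) : ZMod m))]
    unfold g1
    have hlen : (List.ofFn fun j : Fin k'.1 => p ⟨j.1, j.2.trans k'.2⟩).length = k'.1 := by simp
    have hcond : (j, k).2.1 < (List.ofFn fun j : Fin k'.1 => p ⟨j.1, j.2.trans k'.2⟩).length ∧
        (List.ofFn fun j : Fin k'.1 => p ⟨j.1, j.2.trans k'.2⟩).length < M := by
      rw [hlen]; exact ⟨hkk, k'.2⟩
    rw [dif_pos hcond]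
    have hk' : (⟨(List.ofFn fun j : Fin k'.1 => p ⟨j.1, j.2.trans k'.2⟩).length, hcond.2⟩ :
        Fin M) = k' := Fin.ext hlen
    have hget : (List.ofFn fun j : Fin k'.1 => p ⟨j.1, j.2.trans k'.2⟩)[(j, k).2.1]'hcond.1 =
        p k := by
      simp
    rw [hk', hget]
  simp only [h2] at h1
  have h3 : ∀ j' : Fin n, (∑ i, ((A j i j' + A j j' i : ℤ) : ZMod m) *
      (((mkQ e z p).coe i k : ℤ) : ZMod m)) * (((mkQ e z p).coe j' k' : ℤ) : ZMod m) =
      (fun j' => ∑ i, ((A j i j' + A j j' i : ℤ) : ZMod m) *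
      (((mkQ e z p).coe i k : ℤ) : ZMod m)) j' * (((mkQ e z p).coe j' k' : ℤ) : ZMod m) :=
    fun _ => rfl
  rw [Finset.sum_congr rfl fun j' _ => h3 j', sum_mkQ_coe (R := ZMod m) e z p k'
    (fun j' => ∑ i, ((A j i j' + A j j' i : ℤ) : ZMod m) *
      (((mkQ e z p).coe i k : ℤ) : ZMod m))]
  rw [← h1, sub_self]

/-- Second stage: a block cube on which linear forms are constant. -/
theorem stage_two_r {n M u N : ℕ} (m l r : ℕ) [NeZero m] [NeZero l] (hml : m ∣ l) (hr : r.Prime)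
    (hrl : ¬ r ∣ l)
    (e : Fin M × Fin u ↪ Fin n) (z : Fin n → Bool) {Γ : Type*} [AddCommGroup Γ] [Finite Γ]
    (P : Γ →+ (Fin n → ZMod l)) (lam : Fin N → Fin n → ZMod m)
    (v : Fin n → ℤ) (hv : Indiv r v) (f : (Fin n → Bool) → ℝ) (hf : ∀ x, |f x| ≤ 1)
    (ε : ℝ) (hε0 : 0 < ε) (hε1 : ε ≤ 1)
    (hε : 64 * (Nat.card Γ * m ^ N : ℕ) * (1 - 1 / ((r * l : ℕ) : ℝ) ^ 2) ^ u ≤ ε ^ 2) :
    ∃ p : Fin M → Finset (Fin u) × Finset (Fin u),
      (∀ L k, ∑ i, P L i * (((mkQ e z p).coe i k : ℤ) : ZMod l) = 0) ∧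
      (∀ j k, ∑ i, lam j i * (((mkQ e z p).coe i k : ℤ) : ZMod m) = 0) ∧
      Indiv r ((mkQ e z p).pw v) ∧
      (∑ x : Fin M → Finset (Fin u), f (glue e z x)) / ((2 : ℝ) ^ u) ^ M - M * ε ≤
        avg fun t => f ((mkQ e z p).emb t) := by
  classical
  have hl : 0 < l := Nat.pos_of_ne_zero (NeZero.ne l)
  have hfin : Finite (Γ →+ ZMod l) := finite_hom l Γ
  have : Fintype (Γ →+ ZMod l) := Fintype.ofFinite _
  have hcard : (Fintype.card ((Γ →+ ZMod l) × (Fin N → ZMod m)) : ℝ) ≤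
      (Nat.card Γ * m ^ N : ℕ) := by
    rw [Fintype.card_prod, Fintype.card_fun, ZMod.card, Fintype.card_fin,
      ← Nat.card_eq_fintype_card]
    exact_mod_cast Nat.mul_le_mul_right _ (card_hom_le l Γ)
  have hε' : 64 * Fintype.card ((Γ →+ ZMod l) × (Fin N → ZMod m)) *
      (1 - 1 / ((r * l : ℕ) : ℝ) ^ 2) ^ u ≤ ε ^ 2 := by
    refine le_trans ?_ hε
    have h0 : (0 : ℝ) ≤ 1 - 1 / ((r * l : ℕ) : ℝ) ^ 2 := by
      have h1 : (1 : ℝ) ≤ ((r * l : ℕ) : ℝ) := by exact_mod_cast Nat.mul_pos hr.pos hl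
      have : 1 / ((r * l : ℕ) : ℝ) ^ 2 ≤ 1 := by
        rw [div_le_one (by positivity)]
        exact one_le_pow₀ h1
      linarith
    refine mul_le_mul_of_nonneg_right ?_ (pow_nonneg h0 _)
    exact mul_le_mul_of_nonneg_left hcard (by norm_num)
  obtain ⟨p, hp1, hp2, hp3⟩ := level_r (G := (Γ →+ ZMod l) × (Fin N → ZMod m)) l r hl hr hrl e z
    (g2 e P lam) (by
      intro h c
      ext x
      · rw [Prod.smul_fst, AddMonoidHom.smul_apply]
        exact smul_eq_zero_of_dvd dvd_rfl _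
      · rw [Prod.smul_snd, Pi.smul_apply]
        exact smul_eq_zero_of_dvd hml _) v hv f hf ε hε0 hε1 hε'
  have heval : ∀ (k : Fin M) (c : Fin u),
      g2 e P lam (List.ofFn fun j : Fin k.1 => p ⟨j.1, j.2.trans k.2⟩) c =
      ((Pi.evalAddMonoidHom (fun _ : Fin n => ZMod l) (e (k, c))).comp P,
        fun j => lam j (e (k, c))) := by
    intro k c
    unfold g2
    have hlen : (List.ofFn fun j : Fin k.1 => p ⟨j.1, j.2.trans k.2⟩).length = k.1 := by simp
    have hcond : (List.ofFn fun j : Fin k.1 => p ⟨j.1, j.2.trans k.2⟩).length < M := by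
      rw [hlen]; exact k.2
    rw [dif_pos hcond]
    have hk' : (⟨(List.ofFn fun j : Fin k.1 => p ⟨j.1, j.2.trans k.2⟩).length, hcond⟩ :
        Fin M) = k := Fin.ext hlen
    rw [hk']
  refine ⟨p, fun L k => ?_, fun j k => ?_, hp2, hp3⟩
  · have h1 := congrArg Prod.fst (hp1 k)
    rw [Prod.fst_sum, Prod.fst_sum] at h1
    have h2 := DFunLike.congr_fun h1 L
    rw [AddMonoidHom.finsetSum_apply, AddMonoidHom.finsetSum_apply] at h2
    simp only [heval] at h2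
    rw [sum_mkQ_coe (R := ZMod l) e z p k (P L)]
    have h3 : ∀ c : Fin u, ((Pi.evalAddMonoidHom (fun _ : Fin n => ZMod l) (e (k, c))).comp P) L =
        P L (e (k, c)) := fun _ => rfl
    simp only [h3] at h2
    rw [← h2, sub_self]
  · have h1 := congrArg Prod.snd (hp1 k)
    rw [Prod.snd_sum, Prod.snd_sum] at h1
    have h2 := congrFun h1 j
    rw [Finset.sum_apply, Finset.sum_apply] at h2
    simp only [heval] at h2
    rw [sum_mkQ_coe (R := ZMod m) e z p k (lam j)]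
    rw [← h2, sub_self]

/-- One level: a block cube on which the degree is smaller. -/
theorem stage_deg_r {N : ℕ} (m D l r : ℕ) [NeZero m] (hl : 0 < l) (hml : m ∣ l) (hr : r.Prime)
    (hrl : ¬ r ∣ l)
    (e : Fin M × Fin u ↪ Fin n) (z : Fin n → Bool)
    (q : Fin N → (Fin n → Bool) → ℤ) (hq : ∀ j, IsDeg (D + 1) (q j))
    (v : Fin n → ℤ) (hv : Indiv r v) (f : (Fin n → Bool) → ℝ) (hf : ∀ x, |f x| ≤ 1)
    (ε : ℝ) (hε0 : 0 < ε) (hε1 : ε ≤ 1)
    (hε : 64 * (m ^ (N * M ^ D) : ℕ) * (1 - 1 / ((r * l : ℕ) : ℝ) ^ 2) ^ u ≤ ε ^ 2) :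
    ∃ Q : BCube n M,
      (∀ j, ∃ ψ : (Fin M → Bool) → ℤ, IsDeg D ψ ∧
        ∀ t, ((ψ t : ℤ) : ZMod m) = (q j (Q.emb t) : ℤ)) ∧
      Indiv r (Q.pw v) ∧
      (∑ x : Fin M → Finset (Fin u), f (glue e z x)) / ((2 : ℝ) ^ u) ^ M - M * ε ≤
        avg fun t => f (Q.emb t) := by
  classical
  choose c hc hφ using hq
  have hcard : (Fintype.card (Fin N × (Fin D → Fin M) → ZMod m) : ℝ) =
      (m ^ (N * M ^ D) : ℕ) := by
    rw [Fintype.card_fun, ZMod.card, Fintype.card_prod, Fintype.card_fin, Fintype.card_fun,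
      Fintype.card_fin, Fintype.card_fin]
  obtain ⟨p, hp1, hp2, hp3⟩ := level_r (G := Fin N × (Fin D → Fin M) → ZMod m) l r hl hr hrl e z
    (gd m D e c) (by
      intro h c'
      funext jκ
      rw [Pi.smul_apply, Pi.zero_apply]
      obtain ⟨d, rfl⟩ := hml
      rw [nsmul_eq_mul]
      push_cast
      simp) v hv f hf ε hε0 hε1 (by rw [hcard]; exact hε)
  refine ⟨mkQ e z p, fun j => ?_, hp2, hp3⟩
  refine lower_of_cross (q j) (c j) (hc j) (hφ j) (mkQ e z p) fun κ hκ => ?_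
  -- the weights
  let W : Fin n → ZMod m := fun x => ∑ A ∈ univ.filter (fun A => x ∈ A), ((c j A : ℤ) : ZMod m) *
    perm D (fun a i => (((mkQ e z p).coe i (κ a.succ) : ℤ) : ZMod m)) (A.erase x)
  have h1 : ∑ A, ((c j A : ℤ) : ZMod m) *
      perm (D + 1) (fun a i => (((mkQ e z p).coe i (κ a) : ℤ) : ZMod m)) A =
      ∑ x, W x * (((mkQ e z p).coe x (κ 0) : ℤ) : ZMod m) := by
    simp only [perm_succ, W, Finset.mul_sum, Finset.sum_mul]
    have h2 : ∀ A : Finset (Fin n), ∑ i ∈ A, ((c j A : ℤ) : ZMod m) *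
        ((((mkQ e z p).coe i (κ 0) : ℤ) : ZMod m) *
          perm D (fun a i => (((mkQ e z p).coe i (κ a.succ) : ℤ) : ZMod m)) (A.erase i)) =
        ∑ i, if i ∈ A then ((c j A : ℤ) : ZMod m) *
          perm D (fun a i => (((mkQ e z p).coe i (κ a.succ) : ℤ) : ZMod m)) (A.erase i) *
          (((mkQ e z p).coe i (κ 0) : ℤ) : ZMod m) else 0 := by
      intro A
      rw [Finset.sum_ite_mem, Finset.univ_inter]
      exact Finset.sum_congr rfl fun i _ => by ring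
    rw [Finset.sum_congr rfl fun A _ => h2 A, Finset.sum_comm]
    refine Finset.sum_congr rfl fun x _ => ?_
    rw [Finset.sum_filter]
  rw [h1, sum_mkQ_coe (R := ZMod m) e z p (κ 0) W]
  have h3 : ∀ c' : Fin u, gd m D e c
      (List.ofFn fun j : Fin (κ 0).1 => p ⟨j.1, j.2.trans (κ 0).2⟩) c'
      (j, fun a => κ a.succ) = W (e (κ 0, c')) := by
    intro c'
    unfold gd
    have hlen : (List.ofFn fun j : Fin (κ 0).1 => p ⟨j.1, j.2.trans (κ 0).2⟩).length =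
        (κ 0).1 := by simp
    have hcond : (List.ofFn fun j : Fin (κ 0).1 => p ⟨j.1, j.2.trans (κ 0).2⟩).length < M := by
      rw [hlen]; exact (κ 0).2
    rw [dif_pos hcond]
    have hk' : (⟨(List.ofFn fun j : Fin (κ 0).1 => p ⟨j.1, j.2.trans (κ 0).2⟩).length, hcond⟩ :
        Fin M) = κ 0 := Fin.ext hlen
    rw [hk']
    simp only [W]
    refine Finset.sum_congr rfl fun A _ => ?_
    congr 1
    congr 1
    funext a i
    exact hcoe_ofFn m e z p (κ a.succ) (κ 0) (hκ (Fin.succ_pos a)) i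
  have h4 := congrFun (hp1 (κ 0)) (j, fun a => κ a.succ)
  rw [Finset.sum_apply, Finset.sum_apply] at h4
  simp only [h3] at h4
  rw [h4, sub_self]

end Pair

end Pool.Agent.QuadSys
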