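import Pool.Agent.QuadSys.PairOne

/-!
# One-region pairing lemma, with weights that are not divisible by a prime
-/

set_option autoImplicit false

namespace Pool.Agent.QuadSys.Pair

open Finset

variable {ι G : Type*} [DecidableEq ι] [AddCommGroup G] [Fintype G] [DecidableEq G]

omit [DecidableEq G] in
/-- The key contraction. -/
lemma norm_add_twc_r (l r : ℕ) (hl : 0 < l) (hr : 0 < r) (c : ℂ) (hc : ‖c‖ = 1)
    (hcl : c ^ l ≠ 1) (hclr : (c ^ l) ^ r = 1) (g : G)
    (hg : l • g = 0) (f : EuclideanSpace ℂ G) :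
    ‖f + twc c g f‖ ^ 2 ≤ 4 * (1 - 1 / ((r * l : ℕ) : ℝ) ^ 2) * ‖f‖ ^ 2 := by
  have hl' : (0 : ℝ) < l := by exact_mod_cast hl
  have hr' : (0 : ℝ) < r := by exact_mod_cast hr
  have h1 : ∀ j : ℕ, (twc c g)^[l * j] f = (c ^ l) ^ j • f := by
    intro j
    ext γ
    rw [iterate_twc, pow_mul]
    have h2 : (l * j) • g = 0 := by rw [mul_comm, mul_smul, hg, smul_zero]
    rw [h2, sub_zero]
    rfl
  have h2 : ∀ k : ℕ, dist ((twc c g)^[k] f) ((twc c g)^[k + 1] f) = ‖f - twc c g f‖ := by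
    intro k
    induction k with
    | zero => simp [dist_eq_norm]
    | succ k ih =>
      rw [Function.iterate_succ_apply', Function.iterate_succ_apply' (twc c g) (k + 1),
        dist_eq_norm, twc_sub, norm_twc c hc, ← dist_eq_norm]
      exact ih
  have h3 : ∀ k : ℕ, ‖f - (twc c g)^[k] f‖ ≤ k * ‖f - twc c g f‖ := by
    intro k
    have := dist_le_range_sum_dist (fun k => (twc c g)^[k] f) k
    simp only [h2] at this
    rw [Finset.sum_const, Finset.card_range, nsmul_eq_mul, dist_eq_norm] at this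
    exact this
  have hgeom : ∑ j ∈ Finset.range r, (c ^ l) ^ j = 0 := by
    have h4 := geom_sum_mul (c ^ l) r
    rw [hclr, sub_self] at h4
    rcases mul_eq_zero.mp h4 with h5 | h5
    · exact h5
    · exact absurd (sub_eq_zero.mp h5) hcl
  have h5 : (r : ℂ) • f = ∑ j ∈ Finset.range r, (f - (twc c g)^[l * j] f) := by
    rw [Finset.sum_sub_distrib, Finset.sum_congr rfl fun j _ => h1 j, ← Finset.sum_smul, hgeom,
      zero_smul, sub_zero, Finset.sum_const, Finset.card_range, Nat.cast_smul_eq_nsmul]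
  have h6 : (r : ℝ) * ‖f‖ ≤ ∑ j ∈ Finset.range r, (l * j : ℝ) * ‖f - twc c g f‖ := by
    have h7 : ‖(r : ℂ) • f‖ = r * ‖f‖ := by
      rw [norm_smul]; simp
    rw [← h7, h5]
    refine (norm_sum_le _ _).trans (Finset.sum_le_sum fun j _ => ?_)
    have := h3 (l * j)
    push_cast at this
    exact this
  rw [← Finset.sum_mul] at h6
  have h8 : ∑ j ∈ Finset.range r, (l * j : ℝ) ≤ l * (r * r / 2) := by
    rw [← Finset.mul_sum]
    refine mul_le_mul_of_nonneg_left ?_ hl'.le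
    have h9 := Finset.sum_range_id_mul_two r
    have h10 : (∑ j ∈ Finset.range r, (j : ℝ)) * 2 = r * ((r - 1 : ℕ) : ℝ) := by
      have h9' := congrArg (fun k : ℕ => (k : ℝ)) h9
      simp only [Nat.cast_mul, Nat.cast_sum, Nat.cast_ofNat] at h9'
      exact h9'
    have h11 : ((r - 1 : ℕ) : ℝ) ≤ r := by exact_mod_cast Nat.sub_le r 1
    nlinarith
  have h4 : ‖f‖ ≤ (((r * l : ℕ) : ℝ) / 2) * ‖f - twc c g f‖ := by
    have h12 : (r : ℝ) * ‖f‖ ≤ l * (r * r / 2) * ‖f - twc c g f‖ :=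
      h6.trans (mul_le_mul_of_nonneg_right h8 (norm_nonneg _))
    have h13 : (r : ℝ) * ‖f‖ ≤ r * ((((r * l : ℕ) : ℝ) / 2) * ‖f - twc c g f‖) := by
      push_cast
      calc (r : ℝ) * ‖f‖ ≤ l * (r * r / 2) * ‖f - twc c g f‖ := h12
        _ = _ := by ring
    exact le_of_mul_le_mul_left h13 hr'
  have hrl' : (0 : ℝ) < ((r * l : ℕ) : ℝ) := by push_cast; positivity
  obtain ⟨W, hW⟩ : ∃ W : ℝ, W = ((r * l : ℕ) : ℝ) := ⟨_, rfl⟩
  rw [← hW] at h4 hrl' ⊢
  have h5' := parallelogram_law_with_norm ℂ f (twc c g f)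
  rw [norm_twc c hc] at h5'
  have h6' : 4 / W ^ 2 * ‖f‖ ^ 2 ≤ ‖f - twc c g f‖ ^ 2 := by
    have h7 : ‖f‖ ^ 2 ≤ ((W / 2) * ‖f - twc c g f‖) ^ 2 :=
      pow_le_pow_left₀ (norm_nonneg _) h4 2
    rw [div_mul_eq_mul_div, div_le_iff₀ (by positivity)]
    nlinarith
  have h8' : 4 * (1 - 1 / W ^ 2) * ‖f‖ ^ 2 = 4 * ‖f‖ ^ 2 - 4 / W ^ 2 * ‖f‖ ^ 2 := by
    ring
  rw [h8']
  nlinarith

lemma norm_genc_sq_r (l r : ℕ) (hl : 0 < l) (hr : 0 < r) (om : ι → ℂ) (hom : ∀ i, ‖om i‖ = 1)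
    (homl : ∀ i, om i ^ l ≠ 1) (homlr : ∀ i, (om i ^ l) ^ r = 1)
    (g : ι → G) (hg : ∀ i, l • g i = 0) (s : Finset ι) :
    ‖genc om g s‖ ^ 2 ≤ (4 * (1 - 1 / ((r * l : ℕ) : ℝ) ^ 2)) ^ s.card := by
  induction s using Finset.induction_on with
  | empty =>
    rw [EuclideanSpace.norm_sq_eq]
    have : ∀ γ : G, ‖(genc om g (∅ : Finset ι)) γ‖ ^ 2 = if γ = 0 then 1 else 0 := by
      intro γ
      change ‖∑ u ∈ (∅ : Finset ι).powerset.filter (fun u => ∑ i ∈ u, g i = γ), ∏ j ∈ u, om j‖ ^ 2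
        = _
      rw [Finset.powerset_empty, Finset.sum_filter, Finset.sum_singleton]
      by_cases h : γ = 0
      · simp [h]
      · simp [h, Ne.symm h]
    simp [this]
  | insert i s hi ih =>
    have hm' : (1 : ℝ) ≤ ((r * l : ℕ) : ℝ) := by exact_mod_cast Nat.mul_pos hr hl
    have h0 : (0 : ℝ) ≤ 4 * (1 - 1 / ((r * l : ℕ) : ℝ) ^ 2) := by
      have : 1 / ((r * l : ℕ) : ℝ) ^ 2 ≤ 1 := by
        rw [div_le_one (by positivity)]
        exact one_le_pow₀ hm'
      linarith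
    rw [genc_insert om g s i hi, card_insert_of_notMem hi]
    calc ‖genc om g s + twc (om i) (g i) (genc om g s)‖ ^ 2
        ≤ (4 * (1 - 1 / ((r * l : ℕ) : ℝ) ^ 2)) * ‖genc om g s‖ ^ 2 :=
          norm_add_twc_r l r hl hr (om i) (hom i) (homl i) (homlr i) (g i) (hg i) _
      _ ≤ (4 * (1 - 1 / ((r * l : ℕ) : ℝ) ^ 2)) *
          (4 * (1 - 1 / ((r * l : ℕ) : ℝ) ^ 2)) ^ s.card :=
          mul_le_mul_of_nonneg_left ih h0
      _ = (4 * (1 - 1 / ((r * l : ℕ) : ℝ) ^ 2)) ^ (s.card + 1) := by ring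

/-- The sum of the absolute values of the generating function. -/
lemma sum_norm_genc_le_r (l r : ℕ) (hl : 0 < l) (hr : 0 < r) (om : ι → ℂ)
    (hom : ∀ i, ‖om i‖ = 1) (homl : ∀ i, om i ^ l ≠ 1) (homlr : ∀ i, (om i ^ l) ^ r = 1)
    (g : ι → G) (hg : ∀ i, l • g i = 0) (s : Finset ι) :
    (∑ γ, ‖genc om g s γ‖) ^ 2 ≤
      Fintype.card G * (4 * (1 - 1 / ((r * l : ℕ) : ℝ) ^ 2)) ^ s.card := by
  have h1 := Finset.sum_mul_sq_le_sq_mul_sq (Finset.univ : Finset G) (fun _ => (1 : ℝ))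
    (fun γ => ‖genc om g s γ‖)
  simp only [one_mul, one_pow, Finset.sum_const, Finset.card_univ, nsmul_eq_mul, mul_one] at h1
  have h2 : ∑ γ, ‖genc om g s γ‖ ^ 2 = ‖genc om g s‖ ^ 2 := by
    rw [EuclideanSpace.norm_sq_eq]
  rw [h2] at h1
  exact h1.trans (mul_le_mul_of_nonneg_left (norm_genc_sq_r l r hl hr om hom homl homlr g hg s)
    (Nat.cast_nonneg _))

/-- A class with residues: if all pairs with different residues have sum less than `2 c` then
the total is small. -/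
lemma many_sides {α ρ : Type*} [DecidableEq ρ] (K : Finset α) (res : α → ρ) (f : α → ℝ)
    (hf : ∀ a, |f a| ≤ 1) (c : ℝ) (hc : -1 ≤ c)
    (h : ∀ a ∈ K, ∀ b ∈ K, res a ≠ res b → (f a + f b) / 2 < c) (E : ℝ) (hE : 0 ≤ E)
    (hK : ∀ x, ((K.filter fun a => res a = x).card : ℝ) ≤ K.card / 2 + E) :
    ∑ a ∈ K, f a ≤ c * K.card + 4 * E := by
  classical
  have hle1 : ∀ a, f a ≤ 1 := fun a => (abs_le.mp (hf a)).2
  rcases K.eq_empty_or_nonempty with rfl | hKne
  · simp; linarith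
  obtain ⟨a₀, ha₀, hmax⟩ := Finset.exists_max_image K f hKne
  set A := K.filter fun a => res a = res a₀ with hA
  set B := K.filter fun a => ¬ res a = res a₀ with hB
  have hAB : (A.card : ℝ) + B.card = K.card := by
    have := Finset.card_filter_add_card_filter_not (s := K) fun a => res a = res a₀
    rw [← hA, ← hB] at this
    exact_mod_cast this
  have hsum : ∑ a ∈ K, f a = ∑ a ∈ A, f a + ∑ b ∈ B, f b :=
    (Finset.sum_filter_add_sum_filter_not K (fun a => res a = res a₀) f).symm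
  have h1 : ∑ a ∈ A, f a ≤ A.card * f a₀ := by
    have := Finset.sum_le_sum fun a (ha : a ∈ A) => hmax a (Finset.mem_filter.mp ha).1
    simpa using this
  have hA0 : (0 : ℝ) ≤ A.card := Nat.cast_nonneg _
  have hB0 : (0 : ℝ) ≤ B.card := Nat.cast_nonneg _
  rcases lt_or_ge (f a₀) c with hlt | hge
  · have h2 : ∑ b ∈ B, f b ≤ B.card * f a₀ := by
      have := Finset.sum_le_sum fun a (ha : a ∈ B) => hmax a (Finset.mem_filter.mp ha).1
      simpa using this
    rw [hsum, ← hAB]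
    nlinarith
  · have h2 : ∑ b ∈ B, f b ≤ B.card * (2 * c - f a₀) := by
      have h3 : ∀ b ∈ B, f b ≤ 2 * c - f a₀ := by
        intro b hb
        have hb' := Finset.mem_filter.mp hb
        have := h a₀ ha₀ b hb'.1 (fun h => hb'.2 h.symm)
        linarith
      have h4 := Finset.sum_le_sum h3
      rw [Finset.sum_const, nsmul_eq_mul] at h4
      exact h4
    have hAE := hK (res a₀)
    rw [← hA] at hAE
    have h4 : ((A.card : ℝ) - B.card) * (f a₀ - c) ≤ 4 * E := by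
      have h5 : (A.card : ℝ) - B.card ≤ 2 * E := by linarith
      have h6 : 0 ≤ f a₀ - c := by linarith
      have h7 : f a₀ - c ≤ 2 := by linarith [hle1 a₀]
      nlinarith
    rw [hsum, ← hAB]
    nlinarith

/-- The counting argument behind the pairing lemma. -/
theorem core_r (l r : ℕ) (hl : 0 < l) (hr : r.Prime) (hrl : ¬ r ∣ l) (g : ι → G)
    (hg : ∀ i, l • g i = 0) (v : ι → ℤ) (hv : ∀ i, ¬ (r : ℤ) ∣ v i) (s : Finset ι) (ε : ℝ)
    (hε0 : 0 < ε)
    (hε : 64 * Fintype.card G * (1 - 1 / ((r * l : ℕ) : ℝ) ^ 2) ^ s.card ≤ ε ^ 2)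
    (f : Finset ι → ℝ) (hf : ∀ a, |f a| ≤ 1) (c : ℝ) (hc : -1 ≤ c)
    (hbad : ∀ a ∈ s.powerset, ∀ b ∈ s.powerset, ∑ i ∈ a, g i = ∑ i ∈ b, g i →
      ¬ (r : ℤ) ∣ (∑ i ∈ b, v i - ∑ i ∈ a, v i) → (f a + f b) / 2 < c) :
    ∑ a ∈ s.powerset, f a ≤ (c + ε / 2) * 2 ^ s.card := by
  classical
  have hr0 : 0 < r := hr.pos
  have : NeZero r := ⟨hr0.ne'⟩
  have : Fact r.Prime := ⟨hr⟩
  -- phases
  let ψ : AddChar (ZMod r) ℂ := ZMod.stdAddChar
  have hψ : ψ.IsPrimitive := ZMod.isPrimitive_stdAddChar r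
  have hψn : ∀ x, ‖ψ x‖ = 1 := fun x => ψ.norm_apply x
  let om : ZMod r → ι → ℂ := fun k i => ψ (k * ((v i : ℤ) : ZMod r))
  have hom : ∀ k i, ‖om k i‖ = 1 := fun k i => hψn _
  have homl : ∀ k, k ≠ 0 → ∀ i, om k i ^ l ≠ 1 := by
    intro k hk i h1
    have h2 : ψ (l • (k * ((v i : ℤ) : ZMod r))) = 1 := by
      rw [AddChar.map_nsmul_eq_pow]; exact h1
    have h3 : l • (k * ((v i : ℤ) : ZMod r)) = 0 := by
      have hinj : Function.Injective ψ := ZMod.injective_stdAddChar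
      apply hinj
      rw [h2, AddChar.map_zero_eq_one]
    rw [nsmul_eq_mul] at h3
    rcases mul_eq_zero.mp h3 with h4 | h4
    · exact hrl ((ZMod.natCast_eq_zero_iff _ _).mp h4)
    · rcases mul_eq_zero.mp h4 with h5 | h5
      · exact hk h5
      · exact hv i ((ZMod.intCast_zmod_eq_zero_iff_dvd _ _).mp h5)
  have homlr : ∀ k i, (om k i ^ l) ^ r = 1 := by
    intro k i
    rw [← pow_mul]
    have h1 : ψ ((l * r) • (k * ((v i : ℤ) : ZMod r))) = om k i ^ (l * r) :=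
      AddChar.map_nsmul_eq_pow _ _ _
    rw [← h1]
    have h2 : (l * r) • (k * ((v i : ℤ) : ZMod r)) = 0 := by
      rw [nsmul_eq_mul]; push_cast; simp
    rw [h2, AddChar.map_zero_eq_one]
  have hprod : ∀ k, ∀ u : Finset ι, ∏ i ∈ u, om k i = ψ (k * ((∑ i ∈ u, v i : ℤ) : ZMod r)) := by
    intro k u
    simp only [om]
    have h1 : k * ((∑ i ∈ u, v i : ℤ) : ZMod r) = ∑ i ∈ u, k * ((v i : ℤ) : ZMod r) := by
      push_cast
      rw [Finset.mul_sum]
    rw [h1]
    induction u using Finset.induction_on with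
    | empty => simp
    | insert i u hi ih =>
      rw [Finset.prod_insert hi, Finset.sum_insert hi, AddChar.map_add_eq_mul, ih]
      push_cast
      rw [Finset.mul_sum]
  -- sizes of the generating functions
  let Sg : ZMod r → ℝ := fun k => ∑ γ, ‖genc (om k) g s γ‖
  have hSg0 : ∀ k, 0 ≤ Sg k := fun k => Finset.sum_nonneg fun _ _ => norm_nonneg _
  have h4pow : (4 * (1 - 1 / ((r * l : ℕ) : ℝ) ^ 2)) ^ s.card =
      (2 ^ s.card) ^ 2 * (1 - 1 / ((r * l : ℕ) : ℝ) ^ 2) ^ s.card := by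
    rw [mul_pow, ← pow_mul, mul_comm s.card 2, pow_mul]
    norm_num
  have hSgle : ∀ k, k ≠ 0 → Sg k ≤ 2 ^ s.card * (ε / 8) := by
    intro k hk
    have hsum := sum_norm_genc_le_r l r hl hr0 (om k) (hom k) (homl k hk) (homlr k) g hg s
    have h5 : Sg k ^ 2 ≤ (2 ^ s.card * (ε / 8)) ^ 2 := by
      rw [h4pow] at hsum
      calc Sg k ^ 2 ≤ (Fintype.card G : ℝ) * ((2 ^ s.card) ^ 2 *
            (1 - 1 / ((r * l : ℕ) : ℝ) ^ 2) ^ s.card) := hsum
        _ = (2 ^ s.card) ^ 2 * (64 * Fintype.card G *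
            (1 - 1 / ((r * l : ℕ) : ℝ) ^ 2) ^ s.card) / 64 := by ring
        _ ≤ (2 ^ s.card) ^ 2 * ε ^ 2 / 64 := by
            have h6 := mul_le_mul_of_nonneg_left hε (by positivity : (0 : ℝ) ≤ (2 ^ s.card) ^ 2)
            linarith
        _ = _ := by ring
    exact le_of_sq_le_sq h5 (by positivity)
  -- the classes
  let cls : G → Finset (Finset ι) := fun γ =>
    s.powerset.filter fun u => ∑ i ∈ u, g i = γ
  let res : Finset ι → ZMod r := fun u => ((∑ i ∈ u, v i : ℤ) : ZMod r)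
  let E : G → ℝ := fun γ => (∑ k ∈ (univ : Finset (ZMod r)).erase 0, ‖genc (om k) g s γ‖) / r
  have hE0 : ∀ γ, 0 ≤ E γ := fun γ => by
    have : 0 ≤ ∑ k ∈ (univ : Finset (ZMod r)).erase 0, ‖genc (om k) g s γ‖ :=
      Finset.sum_nonneg fun _ _ => norm_nonneg _
    positivity
  have hr2 : (2 : ℝ) ≤ r := by exact_mod_cast hr.two_le
  have hrpos : (0 : ℝ) < r := by positivity
  have hcount : ∀ γ x, (((cls γ).filter fun a => res a = x).card : ℝ) ≤
      (cls γ).card / 2 + E γ := by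
    intro γ x
    -- orthogonality
    have h1 : ((r : ℂ) * ((cls γ).filter fun a => res a = x).card) =
        ∑ k : ZMod r, ψ (-(k * x)) * genc (om k) g s γ := by
      have h2 : ∀ k : ZMod r, ψ (-(k * x)) * genc (om k) g s γ =
          ∑ u ∈ cls γ, ψ (k * (res u - x)) := by
        intro k
        rw [genc_apply]
        change ψ (-(k * x)) * ∑ u ∈ cls γ, ∏ i ∈ u, om k i = _
        rw [Finset.mul_sum]
        refine Finset.sum_congr rfl fun u _ => ?_
        rw [hprod, ← AddChar.map_add_eq_mul]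
        congr 1
        simp only [res]
        ring
      rw [Finset.sum_congr rfl fun k _ => h2 k, Finset.sum_comm]
      have h3 : ∀ u ∈ cls γ, ∑ k : ZMod r, ψ (k * (res u - x)) =
          if res u = x then (r : ℂ) else 0 := by
        intro u _
        rw [AddChar.sum_mulShift (res u - x) hψ]
        by_cases h : res u = x
        · rw [if_pos (by rw [h, sub_self]), if_pos h, ZMod.card]
        · rw [if_neg (fun h' => h (sub_eq_zero.mp h')), if_neg h]
          simp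
      rw [Finset.sum_congr rfl h3, ← Finset.sum_filter, Finset.sum_const, nsmul_eq_mul,
        mul_comm]
    have h4 : ∑ k : ZMod r, ψ (-(k * x)) * genc (om k) g s γ = ((cls γ).card : ℂ) +
        ∑ k ∈ (univ : Finset (ZMod r)).erase 0, ψ (-(k * x)) * genc (om k) g s γ := by
      rw [← Finset.add_sum_erase _ _ (Finset.mem_univ (0 : ZMod r))]
      congr 1
      rw [genc_apply]
      change ψ (-(0 * x)) * ∑ u ∈ cls γ, ∏ i ∈ u, om 0 i = _
      have h5 : ∀ u ∈ cls γ, ∏ i ∈ u, om 0 i = 1 := by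
        intro u _
        rw [hprod, zero_mul, AddChar.map_zero_eq_one]
      rw [Finset.sum_congr rfl h5]
      simp
    rw [h4] at h1
    have h6 : ‖∑ k ∈ (univ : Finset (ZMod r)).erase 0, ψ (-(k * x)) * genc (om k) g s γ‖ ≤
        r * E γ := by
      have h7 : (r : ℝ) * E γ = ∑ k ∈ (univ : Finset (ZMod r)).erase 0, ‖genc (om k) g s γ‖ := by
        simp only [E]; field_simp
      rw [h7]
      refine (norm_sum_le _ _).trans (Finset.sum_le_sum fun k _ => ?_)
      rw [norm_mul, hψn, one_mul]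
    have h8 : (r : ℝ) * ((cls γ).filter fun a => res a = x).card ≤ (cls γ).card + r * E γ := by
      have h9 : ‖((r : ℂ) * ((cls γ).filter fun a => res a = x).card)‖ =
          r * ((cls γ).filter fun a => res a = x).card := by
        rw [norm_mul]; simp
      rw [← h9, h1]
      refine (norm_add_le _ _).trans (add_le_add ?_ h6)
      simp
    have hc0 : (0 : ℝ) ≤ (cls γ).card := Nat.cast_nonneg _
    have h10 : (r : ℝ) * ((cls γ).filter fun a => res a = x).card ≤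
        r * ((cls γ).card / 2 + E γ) := by
      nlinarith
    exact le_of_mul_le_mul_left h10 hrpos
  -- summation over the classes
  have hfib : ∑ a ∈ s.powerset, f a = ∑ γ, ∑ a ∈ cls γ, f a :=
    (Finset.sum_fiberwise _ _ _).symm
  have hcardsum : ∑ γ, ((cls γ).card : ℝ) = 2 ^ s.card := by
    have h10 := Finset.card_eq_sum_card_fiberwise (s := s.powerset)
      (t := (univ : Finset G)) (f := fun u => ∑ i ∈ u, g i)
      (fun u _ => Finset.mem_coe.mpr (Finset.mem_univ _))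
    rw [Finset.card_powerset] at h10
    have h11 : ((2 ^ s.card : ℕ) : ℝ) = ∑ γ, ((cls γ).card : ℝ) := by
      rw [h10]; push_cast; rfl
    rw [← h11]; push_cast; rfl
  have hEsum : ∑ γ, E γ ≤ 2 ^ s.card * (ε / 8) := by
    have h1 : ∑ γ, E γ = (∑ k ∈ (univ : Finset (ZMod r)).erase 0, Sg k) / r := by
      simp only [E, Sg]
      rw [← Finset.sum_div, Finset.sum_comm]
    rw [h1, div_le_iff₀ hrpos]
    calc ∑ k ∈ (univ : Finset (ZMod r)).erase 0, Sg k ≤
        ∑ k ∈ (univ : Finset (ZMod r)).erase 0, 2 ^ s.card * (ε / 8) :=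
          Finset.sum_le_sum fun k hk => hSgle k (Finset.mem_erase.mp hk).1
      _ = ((univ : Finset (ZMod r)).erase 0).card * (2 ^ s.card * (ε / 8)) := by
          rw [Finset.sum_const, nsmul_eq_mul]
      _ ≤ r * (2 ^ s.card * (ε / 8)) := by
          refine mul_le_mul_of_nonneg_right ?_ (by positivity)
          have : ((univ : Finset (ZMod r)).erase 0).card ≤ r := by
            refine (Finset.card_le_univ _).trans ?_
            rw [ZMod.card]
          exact_mod_cast this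
      _ = _ := by ring
  rw [hfib]
  calc ∑ γ, ∑ a ∈ cls γ, f a ≤ ∑ γ, (c * (cls γ).card + 4 * E γ) := by
        refine Finset.sum_le_sum fun γ _ => ?_
        refine many_sides (cls γ) res f hf c hc ?_ (E γ) (hE0 γ) (hcount γ)
        intro a ha b hb hab
        have ha' := Finset.mem_filter.mp ha
        have hb' := Finset.mem_filter.mp hb
        refine hbad a ha'.1 b hb'.1 (ha'.2.trans hb'.2.symm) ?_
        intro hd
        apply hab
        have h1 := (ZMod.intCast_zmod_eq_zero_iff_dvd _ _).mpr hd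
        push_cast at h1
        simp only [res]
        push_cast
        exact (sub_eq_zero.mp h1).symm
    _ = c * 2 ^ s.card + 4 * ∑ γ, E γ := by
        rw [Finset.sum_add_distrib, ← Finset.mul_sum, hcardsum, ← Finset.mul_sum]
    _ ≤ (c + ε / 2) * 2 ^ s.card := by nlinarith

/-- One-region pairing lemma. -/
theorem pair_one_r (l r : ℕ) (hl : 0 < l) (hr : r.Prime) (hrl : ¬ r ∣ l) (g : ι → G)
    (hg : ∀ i, l • g i = 0) (v : ι → ℤ) (hv : ∀ i, ¬ (r : ℤ) ∣ v i) (s : Finset ι)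
    (f : Finset ι → ℝ) (hf : ∀ a, |f a| ≤ 1) (ε : ℝ) (hε0 : 0 < ε) (hε1 : ε ≤ 1)
    (hε : 64 * Fintype.card G * (1 - 1 / ((r * l : ℕ) : ℝ) ^ 2) ^ s.card ≤ ε ^ 2) :
    ∃ a b : Finset ι, a ⊆ s ∧ b ⊆ s ∧ ∑ i ∈ a, g i = ∑ i ∈ b, g i ∧
      ¬ (r : ℤ) ∣ (∑ i ∈ b, v i - ∑ i ∈ a, v i) ∧
      (∑ a ∈ s.powerset, f a) / 2 ^ s.card - ε ≤ (f a + f b) / 2 := by
  classical
  have h2p : (0 : ℝ) < 2 ^ s.card := by positivity
  by_contra hcon
  push Not at hcon
  obtain ⟨c, hc⟩ : ∃ c : ℝ, c = (∑ a ∈ s.powerset, f a) / 2 ^ s.card - ε := ⟨_, rfl⟩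
  rw [← hc] at hcon
  have hbad : ∀ a ∈ s.powerset, ∀ b ∈ s.powerset, ∑ i ∈ a, g i = ∑ i ∈ b, g i →
      ¬ (r : ℤ) ∣ (∑ i ∈ b, v i - ∑ i ∈ a, v i) → (f a + f b) / 2 < c :=
    fun a ha b hb hab hd => hcon a b (Finset.mem_powerset.mp ha) (Finset.mem_powerset.mp hb)
      hab hd
  rcases le_or_gt (-1) c with hc1 | hc1
  · have h1 := core_r l r hl hr hrl g hg v hv s ε hε0 hε f hf c hc1 hbad
    have h2 : ∑ a ∈ s.powerset, f a = (c + ε) * 2 ^ s.card := by
      rw [hc]; field_simp; ring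
    rw [h2] at h1
    nlinarith
  · have hge1 : ∀ a, -1 ≤ f a := fun a => (abs_le.mp (hf a)).1
    have h1 := core_r l r hl hr hrl g hg v hv s ε hε0 hε (fun _ => 1) (fun _ => by simp) (-1)
      le_rfl (by
        intro a ha b hb hab hd
        have := hbad a ha b hb hab hd
        exfalso
        linarith [hge1 a, hge1 b])
    rw [Finset.sum_const, Finset.card_powerset, nsmul_eq_mul, mul_one] at h1
    push_cast at h1
    nlinarith

end Pool.Agent.QuadSys.Pair
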