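import Pool.Agent.QuadSys.PairOne
import Pool.Agent.QuadSys.Basics

/-!
# Choosing pairs region by region
-/

set_option autoImplicit false

namespace Pool.Agent.QuadSys.Pair

open Finset

/-- Sequential choice of pairs; the set of admissible pairs may depend on the earlier pairs. -/
theorem seq_pairs {X : Type*} [Fintype X] (hX : 0 < Fintype.card X) (ε : ℝ) :
    ∀ (M : ℕ) (Adm : List (X × X) → X → X → Prop),
    (∀ hist : List (X × X), hist.length < M → ∀ F : X → ℝ, (∀ x, |F x| ≤ 1) →
      ∃ a b, Adm hist a b ∧ (∑ x, F x) / Fintype.card X - ε ≤ (F a + F b) / 2) →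
    ∀ f : (Fin M → X) → ℝ, (∀ x, |f x| ≤ 1) →
    ∃ p : Fin M → X × X,
      (∀ k : Fin M, Adm (List.ofFn fun j : Fin k.1 => p ⟨j.1, j.2.trans k.2⟩) (p k).1 (p k).2) ∧
      (∑ x, f x) / (Fintype.card X : ℝ) ^ M - M * ε ≤
        (∑ t : Fin M → Bool, f fun k => if t k = true then (p k).2 else (p k).1) / 2 ^ M := by
  intro M
  induction M with
  | zero =>
    intro Adm _ f _
    refine ⟨fun k => k.elim0, fun k => k.elim0, ?_⟩
    simp only [pow_zero, Nat.cast_zero, zero_mul, sub_zero, div_one]
    rw [Fintype.sum_unique, Fintype.sum_unique]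
    exact le_of_eq (congrArg f (Subsingleton.elim _ _))
  | succ M ih =>
    intro Adm hAdm f hf
    have hXr : (0 : ℝ) < Fintype.card X := by exact_mod_cast hX
    have hXM : (0 : ℝ) < (Fintype.card X : ℝ) ^ M := pow_pos hXr M
    -- the partial average
    let F : X → ℝ := fun x₀ => (∑ xs : Fin M → X, f (Fin.cons x₀ xs)) / (Fintype.card X : ℝ) ^ M
    have hF : ∀ x, |F x| ≤ 1 := by
      intro x₀
      simp only [F]
      rw [abs_div, abs_of_pos hXM, div_le_one hXM]
      refine (Finset.abs_sum_le_sum_abs _ _).trans ?_
      refine (Finset.sum_le_sum fun xs _ => hf _).trans ?_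
      simp
    obtain ⟨a, b, hab, hFab⟩ := hAdm [] (by simp) F hF
    let f' : (Fin M → X) → ℝ := fun xs => (f (Fin.cons a xs) + f (Fin.cons b xs)) / 2
    have hf' : ∀ x, |f' x| ≤ 1 := by
      intro xs
      simp only [f']
      have h1 := abs_le.mp (hf (Fin.cons a xs))
      have h2 := abs_le.mp (hf (Fin.cons b xs))
      rw [abs_le]
      constructor <;> linarith [h1.1, h1.2, h2.1, h2.2]
    obtain ⟨p, hp1, hp2⟩ := ih (fun hist => Adm ((a, b) :: hist)) (fun hist hh F' hF' =>
      hAdm ((a, b) :: hist) (by simpa using hh) F' hF') f' hf'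
    refine ⟨Fin.cons (a, b) p, ?_, ?_⟩
    · intro k
      refine Fin.cases ?_ (fun k => ?_) k
      · simpa using hab
      · have h1 := hp1 k
        simp only [Fin.cons_succ]
        convert h1 using 1
        change List.ofFn (fun j : Fin (k.1 + 1) => (Fin.cons (a, b) p : Fin (M + 1) → X × X)
          ⟨j.1, _⟩) = _
        rw [List.ofFn_succ]
        congr 1
    · -- the averages
      have e1 : ∑ x : Fin (M + 1) → X, f x = ∑ x₀ : X, ∑ xs : Fin M → X, f (Fin.cons x₀ xs) := by
        rw [← Fintype.sum_prod_type']
        exact (Fintype.sum_equiv (Fin.consEquiv fun _ => X) _ _ fun z => rfl).symm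
      have e2 : ∀ g : (Fin (M + 1) → Bool) → ℝ, ∑ t : Fin (M + 1) → Bool, g t =
          ∑ xs : Fin M → Bool, (g (Fin.cons false xs) + g (Fin.cons true xs)) := by
        intro g
        have h1 : ∑ t : Fin (M + 1) → Bool, g t =
            ∑ x₀ : Bool, ∑ xs : Fin M → Bool, g (Fin.cons x₀ xs) := by
          rw [← Fintype.sum_prod_type']
          exact (Fintype.sum_equiv (Fin.consEquiv fun _ => Bool) _ _ fun z => rfl).symm
        rw [h1, Fintype.sum_bool, ← Finset.sum_add_distrib]
        exact Finset.sum_congr rfl fun xs _ => add_comm _ _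
      rw [e2]
      have e3 : ∀ xs : Fin M → Bool,
          (f (fun k => if (Fin.cons false xs : Fin (M + 1) → Bool) k = true then
            ((Fin.cons (a, b) p : Fin (M + 1) → X × X) k).2 else
            ((Fin.cons (a, b) p : Fin (M + 1) → X × X) k).1) +
          f (fun k => if (Fin.cons true xs : Fin (M + 1) → Bool) k = true then
            ((Fin.cons (a, b) p : Fin (M + 1) → X × X) k).2 else
            ((Fin.cons (a, b) p : Fin (M + 1) → X × X) k).1)) =
          2 * f' (fun k => if xs k = true then (p k).2 else (p k).1) := by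
        intro xs
        simp only [f']
        have h2 : (fun k => if (Fin.cons false xs : Fin (M + 1) → Bool) k = true then
            ((Fin.cons (a, b) p : Fin (M + 1) → X × X) k).2 else
            ((Fin.cons (a, b) p : Fin (M + 1) → X × X) k).1) =
            (Fin.cons a (fun k => if xs k = true then (p k).2 else (p k).1) :
              Fin (M + 1) → X) := by
          funext k
          refine Fin.cases ?_ (fun k => ?_) k <;> simp
        have h3 : (fun k => if (Fin.cons true xs : Fin (M + 1) → Bool) k = true then
            ((Fin.cons (a, b) p : Fin (M + 1) → X × X) k).2 else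
            ((Fin.cons (a, b) p : Fin (M + 1) → X × X) k).1) =
            (Fin.cons b (fun k => if xs k = true then (p k).2 else (p k).1) :
              Fin (M + 1) → X) := by
          funext k
          refine Fin.cases ?_ (fun k => ?_) k <;> simp
        rw [h2, h3]; ring
      rw [Finset.sum_congr rfl fun xs _ => e3 xs, ← Finset.mul_sum, e1]
      have e4 : (∑ x₀ : X, ∑ xs : Fin M → X, f (Fin.cons x₀ xs)) /
          (Fintype.card X : ℝ) ^ (M + 1) = (∑ x, F x) / Fintype.card X := by
        simp only [F]
        rw [← Finset.sum_div, div_div, pow_succ]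
      have e5 : (∑ xs, f' xs) / (Fintype.card X : ℝ) ^ M = (F a + F b) / 2 := by
        simp only [F, f']
        rw [← Finset.sum_div, Finset.sum_add_distrib]
        field_simp
      have e6 : (2 * ∑ t : Fin M → Bool, f' fun k => if t k = true then (p k).2 else (p k).1) /
          2 ^ (M + 1) =
          (∑ t : Fin M → Bool, f' fun k => if t k = true then (p k).2 else (p k).1) / 2 ^ M := by
        rw [pow_succ]
        field_simp
      rw [e4, e6]
      rw [e5] at hp2
      push_cast
      linarith

end Pool.Agent.QuadSys.Pair
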