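import Pool.Agent.QuadSys.Progress
import Pool.Agent.QuadSys.Cert

/-!
# The path of nodes
-/

set_option autoImplicit false

namespace Pool.Agent.QuadSys

open Finset Pool.Agent.Helper21.LinSys

/-- Some class of a partition is at least as dense as the whole set. -/
theorem exists_class {α : Type*} [DecidableEq α] (Y T : Finset α) (hY : Y.Nonempty)
    (cl : α → Finset α) (h1 : ∀ x ∈ Y, x ∈ cl x) (h2 : ∀ x ∈ Y, cl x ⊆ Y)
    (h3 : ∀ x ∈ Y, ∀ x' ∈ cl x, cl x' = cl x) :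
    ∃ x ∈ Y, (T ∩ Y).card * (cl x).card ≤ (T ∩ cl x).card * Y.card := by
  classical
  by_contra hcon
  push Not at hcon
  have hclass : ∀ c ∈ Y.image cl, Y.filter (fun a => cl a = c) = c := by
    intro c hc
    obtain ⟨u, hu, rfl⟩ := Finset.mem_image.1 hc
    ext a
    rw [Finset.mem_filter]
    constructor
    · rintro ⟨ha, hac⟩
      rw [← hac]
      exact h1 a ha
    · intro ha
      exact ⟨h2 _ hu ha, h3 _ hu a ha⟩
  have hs1 : Y.card = ∑ c ∈ Y.image cl, c.card := by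
    rw [Finset.card_eq_sum_card_image cl Y]
    exact Finset.sum_congr rfl fun c hc => by rw [hclass c hc]
  have hs2 : (T ∩ Y).card = ∑ c ∈ Y.image cl, (T ∩ c).card := by
    have : (T ∩ Y).card = ∑ c ∈ Y.image cl, ((T ∩ Y).filter fun a => cl a = c).card :=
      Finset.card_eq_sum_card_fiberwise fun a ha =>
        Finset.mem_image_of_mem cl (Finset.mem_inter.1 ha).2
    rw [this]
    refine Finset.sum_congr rfl fun c hc => ?_
    congr 1
    have hc' := hclass c hc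
    ext a
    have ha : a ∈ c ↔ a ∈ Y ∧ cl a = c := by
      conv_lhs => rw [← hc']
      exact Finset.mem_filter
    simp only [Finset.mem_filter, Finset.mem_inter, ha]
    tauto
  have hlt : ∑ c ∈ Y.image cl, (T ∩ c).card * Y.card <
      ∑ c ∈ Y.image cl, (T ∩ Y).card * c.card := by
    refine Finset.sum_lt_sum_of_nonempty (hY.image cl) fun c hc => ?_
    obtain ⟨u, hu, rfl⟩ := Finset.mem_image.1 hc
    exact hcon u hu
  rw [← Finset.sum_mul, ← Finset.mul_sum, ← hs1, ← hs2] at hlt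
  exact lt_irrefl _ hlt

theorem arith_b {c u TX TW X W cl Tcl g : ℝ} (hc : 0 < c) (hu : 0 ≤ u) (hg : 0 ≤ g)
    (hcl : 0 ≤ cl) (hW : 0 < W) (hWX : W ≤ X) (he : u * (2 * c) * X ≤ TX * g)
    (hcase : TX ≤ 2 * c * TW) (hz : TW * cl ≤ Tcl * W) : u * cl ≤ Tcl * g := by
  have e1 : u * X ≤ TW * g := by
    have h1 : u * (2 * c) * X ≤ 2 * c * TW * g :=
      he.trans (mul_le_mul_of_nonneg_right hcase hg)
    have h2 : (0 : ℝ) < 2 * c := by positivity
    have h3 : (2 * c : ℝ) * (u * X) ≤ 2 * c * (TW * g) := by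
      linarith
    exact le_of_mul_le_mul_left h3 h2
  have e2 : u * cl * W ≤ Tcl * g * W := by
    calc u * cl * W ≤ u * cl * X := mul_le_mul_of_nonneg_left hWX (mul_nonneg hu hcl)
      _ = (u * X) * cl := by ring
      _ ≤ (TW * g) * cl := mul_le_mul_of_nonneg_right e1 hcl
      _ = (TW * cl) * g := by ring
      _ ≤ (Tcl * W) * g := mul_le_mul_of_nonneg_right hz hg
      _ = _ := by ring
  exact le_of_mul_le_mul_right e2 hW

theorem arith_a {c u TX TW TD X W D cl Tcl g : ℝ} (hc : 1 ≤ c) (hu : 0 ≤ u) (hg : 0 ≤ g)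
    (hTcl : 0 ≤ Tcl) (hTX : 0 ≤ TX) (hD : X = W + D) (hXW : X ≤ c * W) (hTD : TX = TW + TD)
    (hcase : 2 * c * TW < TX) (hpos : 0 < TD) (he : u * X ≤ TX * (g * (1 + 1 / (2 * c))))
    (hz : TD * cl ≤ Tcl * D) : u * cl ≤ Tcl * g := by
  have e1 : D ≤ (1 - 1 / c) * X := by
    have h1 : (1 / c : ℝ) * X ≤ W := by
      rw [one_div, inv_mul_le_iff₀ (by linarith)]
      exact hXW
    linarith
  have e2 : (1 - 1 / (2 * c)) * TX ≤ TD := by
    have h1 : TW ≤ 1 / (2 * c) * TX := by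
      rw [one_div, ← div_eq_inv_mul, le_div_iff₀ (by linarith)]
      linarith
    linarith
  have e3 : (1 - 1 / c) * (1 + 1 / (2 * c)) ≤ 1 - 1 / (2 * c) := by
    have h1 : (0 : ℝ) < 1 / c := by positivity
    have h2 : 1 / (2 * c) = (1 / c) / 2 := by
      field_simp
    rw [h2]
    nlinarith
  have e4 : (0 : ℝ) ≤ 1 - 1 / c := by
    have : 1 / c ≤ 1 := by
      rw [div_le_one (by linarith)]
      exact hc
    linarith
  have e5 : u * cl * TD ≤ Tcl * g * TD := by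
    calc u * cl * TD = u * (TD * cl) := by ring
      _ ≤ u * (Tcl * D) := mul_le_mul_of_nonneg_left hz hu
      _ ≤ u * (Tcl * ((1 - 1 / c) * X)) := by
          refine mul_le_mul_of_nonneg_left ?_ hu
          exact mul_le_mul_of_nonneg_left e1 hTcl
      _ = (Tcl * (1 - 1 / c)) * (u * X) := by ring
      _ ≤ (Tcl * (1 - 1 / c)) * (TX * (g * (1 + 1 / (2 * c)))) :=
          mul_le_mul_of_nonneg_left he (mul_nonneg hTcl e4)
      _ = (Tcl * g * TX) * ((1 - 1 / c) * (1 + 1 / (2 * c))) := by ring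
      _ ≤ (Tcl * g * TX) * (1 - 1 / (2 * c)) :=
          mul_le_mul_of_nonneg_left e3 (mul_nonneg (mul_nonneg hTcl hg) hTX)
      _ = (Tcl * g) * ((1 - 1 / (2 * c)) * TX) := by ring
      _ ≤ (Tcl * g) * TD := mul_le_mul_of_nonneg_left e2 (mul_nonneg hTcl hg)
  exact le_of_mul_le_mul_right e5 hpos

section

variable {m ℓ : ℕ} [NeZero m] [NeZero ℓ]

/-- The conclusion of `progress₂` with constant `c`. -/
def Prog (m ℓ w c : ℕ) [NeZero m] [NeZero ℓ] : Prop :=
  ∀ (n N ρ : ℕ) (Γ : AddSubgroup (Fin n → ZMod ℓ)) (S : Finset (Fin n))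
    (y : Fin n → Bool) (q : Fin N → (Fin n → Bool) → ℤ), (∀ j, IsQuad (q j)) →
    ∀ (Hq : AddSubgroup (Fin N → ZMod m)),
    (∀ b ∈ Hq, ∀ x ∈ fibz Γ S y y, comb q b x = comb q b y) →
    ∀ (p : Fin w → (Fin n → Bool) → ℤ), (∀ j, IsQuad (p j)) →
    ∀ (H : AddSubgroup (Fin w → ZMod m)),
    Struct ℓ ρ (fun x (a : H) => comb p (a : Fin w → ZMod m) x) →
    ∀ (Λ R : ℕ), Nat.card Γ * ℓ ^ ρ ≤ 2 ^ Λ → Reg Γ S R →
    c * (ρ + 1) * (Λ + 1) ≤ R →
    (∀ (b : Fin N → ZMod m) (a : Fin w → ZMod m), ¬ (b ∈ Hq ∧ a ∈ H) →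
      ¬ Struct ℓ (c * (Λ + N + S.card + 1) ^ 2) (fun x => comb q b x + comb p a x)) →
    (node m Γ S q y).card ≤ c * ((node m Γ S q y).filter fun x =>
      ∀ j, ((p j x : ℤ) : ZMod m) = p j y).card

/-- A node of the path, after `j` steps, with the set `U` of undecided gates and the number `s` of
steps left. -/
structure PState (m ℓ w : ℕ) [NeZero m] [NeZero ℓ] {n k : ℕ} (P : Fin k → (Fin n → Bool) → Prop)
    (T : Finset (Fin n → Bool)) (ρ R ρp c : ℕ) (j : ℕ) (U : Finset (Fin k)) (s : ℕ) where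
  N : ℕ
  hN : N ≤ w * j
  q : Fin N → (Fin n → Bool) → ℤ
  hq : ∀ i, IsQuad (q i)
  Γ : AddSubgroup (Fin n → ZMod ℓ)
  S : Finset (Fin n)
  y : Fin n → Bool
  Hq : AddSubgroup (Fin N → ZMod m)
  hReg : Reg Γ S R
  hΓ : Nat.card Γ ≤ ℓ ^ (ρ * j)
  t : ℕ
  hS : S.card ≤ ρ * j + R * t
  ht : 2 ^ t ≤ Nat.card (Γ ⊓ sup ℓ S : AddSubgroup (Fin n → ZMod ℓ))
  hb : ∀ b ∈ Hq, ∀ x ∈ fibz Γ S y y, comb q b x = comb q b y
  hc : ∀ b, b ∉ Hq → ¬ Struct ℓ (ρp - j * ρ) (fun x => comb q b x)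
  hd : ∀ i, i ∉ U → ∀ x ∈ node m Γ S q y, ¬ P i x
  he : (2 * c : ℝ) ^ U.card * (node m Γ S q y).card ≤
    (T ∩ node m Γ S q y).card * (1 + 1 / (2 * c : ℝ)) ^ s

theorem mem_node {n N : ℕ} {Γ : AddSubgroup (Fin n → ZMod ℓ)} {S : Finset (Fin n)}
    {q : Fin N → (Fin n → Bool) → ℤ} {y x : Fin n → Bool} :
    x ∈ node m Γ S q y ↔ x ∈ fibz Γ S y y ∧ ∀ j, ((q j x : ℤ) : ZMod m) = q j y := by
  unfold node
  rw [Finset.mem_filter]

theorem fibz_eq {n : ℕ} {Γ : AddSubgroup (Fin n → ZMod ℓ)} {S : Finset (Fin n)}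
    {x y : Fin n → Bool} (hx : x ∈ fibz Γ S y y) : fibz Γ S x x = fibz Γ S y y := by
  rw [mem_fibz] at hx
  ext u
  rw [mem_fibz, mem_fibz]
  constructor
  · rintro ⟨h1, h2⟩
    exact ⟨fun i hi => (h1 i hi).trans (hx.1 i hi), fun L hL => (h2 L hL).trans (hx.2 L hL)⟩
  · rintro ⟨h1, h2⟩
    exact ⟨fun i hi => (h1 i hi).trans (hx.1 i hi).symm,
      fun L hL => (h2 L hL).trans (hx.2 L hL).symm⟩

theorem self_mem_fib {n : ℕ} (Γ : AddSubgroup (Fin n → ZMod ℓ)) (S : Finset (Fin n))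
    (x : Fin n → Bool) : x ∈ fibz Γ S x x := mem_fibz.2 ⟨fun _ _ => rfl, fun _ _ => rfl⟩

theorem self_mem_node {n N : ℕ} (Γ : AddSubgroup (Fin n → ZMod ℓ)) (S : Finset (Fin n))
    (q : Fin N → (Fin n → Bool) → ℤ) (x : Fin n → Bool) : x ∈ node m Γ S q x :=
  mem_node.2 ⟨self_mem_fib Γ S x, fun _ => rfl⟩

theorem node_eq {n N : ℕ} {Γ : AddSubgroup (Fin n → ZMod ℓ)} {S : Finset (Fin n)}
    {q : Fin N → (Fin n → Bool) → ℤ} {x y : Fin n → Bool} (hx : x ∈ node m Γ S q y) :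
    node m Γ S q x = node m Γ S q y := by
  obtain ⟨h1, h2⟩ := mem_node.1 hx
  ext u
  rw [mem_node, mem_node, fibz_eq h1]
  exact and_congr_right fun _ => forall_congr' fun j => by rw [h2 j]

/-- One step of the path. -/
theorem PState.step {w n k : ℕ} {P : Fin k → (Fin n → Bool) → Prop}
    {T : Finset (Fin n → Bool)} {ρ R ρp c j : ℕ} {U : Finset (Fin k)} {s : ℕ}
    (hc1 : 1 ≤ c) (hprog : Prog m ℓ w c) (st : PState m ℓ w P T ρ R ρp c j U s)
    (Λ : ℕ) (hΛ : ℓ ^ (ρ * (j + 1)) ≤ 2 ^ Λ) (hR : c * (ρ + 1) * (Λ + 1) ≤ R)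
    (hρp : c * (Λ + w * j + (ρ * j + R * Λ) + 1) ^ 2 + (j + 1) * ρ ≤ ρp)
    (i : Fin k) (hi : i ∈ U) (x : Fin n → Bool) (hx : x ∈ node m st.Γ st.S st.q st.y)
    (p : Fin w → (Fin n → Bool) → ℤ) (hp : ∀ s, IsQuad (p s))
    (H : AddSubgroup (Fin w → ZMod m))
    (hH : Struct ℓ ρ (fun x (a : H) => comb p (a : Fin w → ZMod m) x))
    (hPx : ∀ x', (∀ s, ((p s x' : ℤ) : ZMod m) = p s x) → ¬ P i x')
    (hno : ∀ a, a ∉ H → ∀ b : Fin st.N → ZMod m,
      ¬ Struct ℓ ρp (fun x => comb st.q b x + comb p a x)) :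
    Nonempty (PState m ℓ w P T ρ R ρp c (j + 1) (U.erase i) s) ∨
      ∃ s', s = s' + 1 ∧ Nonempty (PState m ℓ w P T ρ R ρp c (j + 1) U s') := by
  classical
  obtain ⟨N, hN, q, hq, Γ, S, y, Hq, hReg, hΓ, t, hS, ht, hb, hc, hd, he⟩ := st
  dsimp only at hx hno
  have hℓ : 0 < ℓ := Nat.pos_of_ne_zero (NeZero.ne ℓ)
  have hxf := (mem_node.1 hx).1
  have hXx := node_eq hx
  set X := node m Γ S q y with hX
  set W := X.filter (fun x' => ∀ s, ((p s x' : ℤ) : ZMod m) = p s x) with hW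
  have hxW : x ∈ W := Finset.mem_filter.2 ⟨hx, fun _ => rfl⟩
  -- size of the group
  have hΓΛ : Nat.card Γ * ℓ ^ ρ ≤ 2 ^ Λ := by
    refine le_trans ?_ hΛ
    rw [Nat.mul_succ, pow_add]
    exact Nat.mul_le_mul_right _ hΓ
  have hℓρ : 1 ≤ ℓ ^ ρ := Nat.one_le_pow _ _ hℓ
  have hΓ2 : Nat.card Γ ≤ 2 ^ Λ := le_trans (Nat.le_mul_of_pos_right _ hℓρ) hΓΛ
  have hcl : Nat.card (Γ ⊓ sup ℓ S : AddSubgroup (Fin n → ZMod ℓ)) ≤ Nat.card Γ :=
    Nat.card_le_card_of_injective (AddSubgroup.inclusion inf_le_left)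
      (AddSubgroup.inclusion_injective _)
  have htΛ : t ≤ Λ := by
    have h1 : 2 ^ t ≤ 2 ^ Λ := ht.trans (hcl.trans hΓ2)
    exact (Nat.pow_le_pow_iff_right (by norm_num)).1 h1
  have hScard : S.card ≤ ρ * j + R * Λ := hS.trans (Nat.add_le_add_left
    (Nat.mul_le_mul_left _ htΛ) _)
  have hthr : c * (Λ + N + S.card + 1) ^ 2 ≤ ρp - (j + 1) * ρ := by
    have h1 : c * (Λ + N + S.card + 1) ^ 2 ≤
        c * (Λ + w * j + (ρ * j + R * Λ) + 1) ^ 2 :=
      Nat.mul_le_mul_left _ (Nat.pow_le_pow_left (by omega) 2)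
    omega
  -- no structured combinations
  have hcomb : ∀ (b : Fin N → ZMod m) (a : Fin w → ZMod m), ¬ (b ∈ Hq ∧ a ∈ H) →
      ¬ Struct ℓ (ρp - (j + 1) * ρ) (fun x => comb q b x + comb p a x) := by
    intro b a hba hstr
    by_cases ha : a ∈ H
    · have hbq : b ∉ Hq := fun h => hba ⟨h, ha⟩
      have h1 : Struct ℓ ρ (fun x => comb p a x) :=
        hH.of_eq fun x x' h => congrFun h ⟨a, ha⟩
      have h2 := hstr.of_pair h1 (υ := fun x => comb q b x) (fun x x' e1 e2 => by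
        rw [e2] at e1
        exact add_right_cancel e1)
      refine hc b hbq (h2.mono (le_of_eq ?_))
      have h3 : (j + 1) * ρ = j * ρ + ρ := by ring
      omega
    · exact hno a ha b (hstr.mono (Nat.sub_le _ _))
  -- progress
  have hXW : X.card ≤ c * W.card := by
    have h1 := hprog n N ρ Γ S x q hq Hq (fun b hb' x' hx' => by
      rw [fibz_eq hxf] at hx'
      rw [hb b hb' x' hx', hb b hb' x hxf]) p hp H hH Λ R hΓΛ hReg hR
      (fun b a hba hstr => hcomb b a hba (hstr.mono hthr))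
    rw [hXx] at h1
    exact h1
  -- the children
  obtain ⟨K, l, hK, hKl⟩ := id hH
  obtain ⟨t', -, S', hSS, hcS', hpow, hor⟩ :=
    regularise (adj Γ l) (S ∪ K) R (Nat.card (adj Γ l))
  have hSS' : S ⊆ S' := Finset.subset_union_left.trans hSS
  have hKS' : K ⊆ S' := Finset.subset_union_right.trans hSS
  have h0 : Nat.card (adj Γ l ⊓ sup ℓ S' : AddSubgroup (Fin n → ZMod ℓ)) ≤
      Nat.card (adj Γ l) :=
    Nat.card_le_card_of_injective (AddSubgroup.inclusion inf_le_left)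
      (AddSubgroup.inclusion_injective _)
  have hreg' : Reg (adj Γ l) S' R := by
    rcases hor with h | h
    · exact h
    · exfalso
      have h1 : 2 ^ t' ≤ Nat.card (adj Γ l) := by
        calc 2 ^ t' ≤ 2 ^ t' * Nat.card (adj Γ l ⊓ sup ℓ (S ∪ K) :
              AddSubgroup (Fin n → ZMod ℓ)) := Nat.le_mul_of_pos_right _ Nat.card_pos
          _ ≤ _ := hpow.trans h0
      rw [h] at h1
      exact absurd Nat.lt_two_pow_self (not_lt.2 h1)
  have hΓ' : Nat.card (adj Γ l) ≤ ℓ ^ (ρ * (j + 1)) := by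
    refine (card_adj_le Γ l).trans ?_
    rw [Nat.mul_succ, pow_add]
    exact Nat.mul_le_mul_right _ hΓ
  have hS'card : S'.card ≤ ρ * (j + 1) + R * (t + t') := by
    have h1 : S'.card = (S' \ (S ∪ K)).card + (S ∪ K).card := by
      rw [Finset.card_sdiff_of_subset hSS]
      have := Finset.card_le_card hSS
      omega
    have h2 := Finset.card_union_le S K
    rw [Nat.mul_succ, Nat.mul_add]
    omega
  have ht' : 2 ^ (t + t') ≤ Nat.card (adj Γ l ⊓ sup ℓ S' : AddSubgroup (Fin n → ZMod ℓ)) := by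
    calc 2 ^ (t + t') = 2 ^ t' * 2 ^ t := by rw [pow_add, mul_comm]
      _ ≤ 2 ^ t' * Nat.card (Γ ⊓ sup ℓ S : AddSubgroup (Fin n → ZMod ℓ)) :=
          Nat.mul_le_mul_left _ ht
      _ ≤ 2 ^ t' * Nat.card (adj Γ l ⊓ sup ℓ (S ∪ K) : AddSubgroup (Fin n → ZMod ℓ)) := by
          refine Nat.mul_le_mul_left _ ?_
          have hle : (Γ ⊓ sup ℓ S : AddSubgroup (Fin n → ZMod ℓ)) ≤
              adj Γ l ⊓ sup ℓ (S ∪ K) :=
            inf_le_inf (le_adj Γ l) (sup_mono Finset.subset_union_left)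
          exact Nat.card_le_card_of_injective (AddSubgroup.inclusion hle)
            (AddSubgroup.inclusion_injective _)
      _ ≤ _ := hpow
  set q' : Fin (N + w) → (Fin n → Bool) → ℤ := Fin.append q p with hq'
  have hq'q : ∀ i, IsQuad (q' i) := by
    intro i
    refine Fin.addCases (fun i => ?_) (fun i => ?_) i
    · rw [hq', Fin.append_left]; exact hq i
    · rw [hq', Fin.append_right]; exact hp i
  let πl : (Fin (N + w) → ZMod m) →+ (Fin N → ZMod m) :=
    { toFun := fun b i => b (Fin.castAdd w i)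
      map_zero' := rfl
      map_add' := fun _ _ => rfl }
  let πr : (Fin (N + w) → ZMod m) →+ (Fin w → ZMod m) :=
    { toFun := fun b i => b (Fin.natAdd N i)
      map_zero' := rfl
      map_add' := fun _ _ => rfl }
  set Hq' : AddSubgroup (Fin (N + w) → ZMod m) := Hq.comap πl ⊓ H.comap πr with hHq'
  have hmemH : ∀ b, b ∈ Hq' ↔ πl b ∈ Hq ∧ πr b ∈ H := fun b => Iff.rfl
  have hdec : ∀ b : Fin (N + w) → ZMod m, b = Fin.append (πl b) (πr b) := by
    intro b
    funext i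
    refine Fin.addCases (fun i => ?_) (fun i => ?_) i
    · rw [Fin.append_left]; rfl
    · rw [Fin.append_right]; rfl
  have hcombq' : ∀ (b : Fin (N + w) → ZMod m) (x : Fin n → Bool),
      comb q' b x = comb q (πl b) x + comb p (πr b) x := by
    intro b x
    conv_lhs => rw [hdec b]
    exact comb_append q p _ _ x
  -- properties of the classes
  have hcl_mem : ∀ z, z ∈ node m (adj Γ l) S' q' z := fun z => self_mem_node _ _ _ z
  have hcl_q : ∀ z, ∀ u ∈ node m (adj Γ l) S' q' z,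
      (∀ j, ((q j u : ℤ) : ZMod m) = q j z) ∧ ∀ j, ((p j u : ℤ) : ZMod m) = p j z := by
    intro z u hu
    have h1 := (mem_node.1 hu).2
    refine ⟨fun j => ?_, fun j => ?_⟩
    · have h2 := h1 (Fin.castAdd w j)
      rw [hq', Fin.append_left] at h2
      exact h2
    · have h2 := h1 (Fin.natAdd N j)
      rw [hq', Fin.append_right] at h2
      exact h2
  have hcl_fib : ∀ z, ∀ u ∈ node m (adj Γ l) S' q' z, u ∈ fibz Γ S z z := by
    intro z u hu
    have h1 := (mem_node.1 hu).1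
    rw [mem_fibz] at h1 ⊢
    exact ⟨fun i hi => h1.1 i (hSS' hi), fun L hL => h1.2 L (le_adj Γ l hL)⟩
  have hclX : ∀ z ∈ X, node m (adj Γ l) S' q' z ⊆ X := by
    intro z hz u hu
    have h1 : u ∈ node m Γ S q z := mem_node.2 ⟨hcl_fib z u hu, (hcl_q z u hu).1⟩
    rw [node_eq hz] at h1
    exact h1
  have hclW : ∀ z ∈ W, node m (adj Γ l) S' q' z ⊆ W := by
    intro z hz u hu
    obtain ⟨hz1, hz2⟩ := Finset.mem_filter.1 hz
    exact Finset.mem_filter.2 ⟨hclX z hz1 hu, fun s => ((hcl_q z u hu).2 s).trans (hz2 s)⟩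
  have hclXW : ∀ z ∈ X \ W, node m (adj Γ l) S' q' z ⊆ X \ W := by
    intro z hz u hu
    obtain ⟨hz1, hz2⟩ := Finset.mem_sdiff.1 hz
    refine Finset.mem_sdiff.2 ⟨hclX z hz1 hu, fun huW => hz2 ?_⟩
    refine Finset.mem_filter.2 ⟨hz1, fun s => ?_⟩
    rw [← (hcl_q z u hu).2 s]
    exact (Finset.mem_filter.1 huW).2 s
  have hfib_child : ∀ z ∈ X, ∀ b ∈ Hq', ∀ u ∈ fibz (adj Γ l) S' z z,
      comb q' b u = comb q' b z := by
    intro z hz b hb' u hu
    rw [hmemH] at hb'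
    rw [hcombq', hcombq']
    rw [mem_fibz] at hu
    congr 1
    · have hzf := (mem_node.1 hz).1
      have huf : u ∈ fibz Γ S y y := by
        rw [← fibz_eq hzf, mem_fibz]
        exact ⟨fun i hi => hu.1 i (hSS' hi), fun L hL => hu.2 L (le_adj Γ l hL)⟩
      rw [hb _ hb'.1 u huf, hb _ hb'.1 z hzf]
    · exact congrFun (hKl u z (fun i hi => hu.1 i (hKS' hi))
        (fun j => hu.2 _ (mem_adj Γ l j))) ⟨πr b, hb'.2⟩
  have hc' : ∀ b, b ∉ Hq' → ¬ Struct ℓ (ρp - (j + 1) * ρ) (fun x => comb q' b x) := by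
    intro b hb' hstr
    refine hcomb (πl b) (πr b) (fun h => hb' ((hmemH b).2 h)) ?_
    have : (fun x => comb q' b x) = fun x => comb q (πl b) x + comb p (πr b) x :=
      funext fun x => hcombq' b x
    rw [this] at hstr
    exact hstr
  have hN' : N + w ≤ w * (j + 1) := by
    rw [Nat.mul_succ]
    omega
  -- sizes
  have hcR : (1 : ℝ) ≤ c := by exact_mod_cast hc1
  have hXpos : (0 : ℝ) < X.card := by exact_mod_cast Finset.card_pos.2 ⟨x, hx⟩
  have hWpos : (0 : ℝ) < W.card := by exact_mod_cast Finset.card_pos.2 ⟨x, hxW⟩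
  have hWX : W ⊆ X := Finset.filter_subset _ _
  have hTsplit : ((T ∩ X).card : ℝ) = (T ∩ W).card + (T ∩ (X \ W)).card := by
    have h1 : (T ∩ X).card = (T ∩ W).card + (T ∩ (X \ W)).card := by
      rw [← Finset.card_union_of_disjoint]
      · congr 1
        ext a
        simp only [Finset.mem_inter, Finset.mem_union, Finset.mem_sdiff]
        constructor
        · rintro ⟨h1, h2⟩
          by_cases h : a ∈ W
          · exact Or.inl ⟨h1, h⟩
          · exact Or.inr ⟨h1, h2, h⟩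
        · rintro (⟨h1, h2⟩ | ⟨h1, h2, -⟩)
          · exact ⟨h1, hWX h2⟩
          · exact ⟨h1, h2⟩
      · rw [Finset.disjoint_left]
        intro a ha hb'
        exact (Finset.mem_sdiff.1 (Finset.mem_inter.1 hb').2).2 (Finset.mem_inter.1 ha).2
    exact_mod_cast h1
  have hXsplit : (X.card : ℝ) = W.card + (X \ W).card := by
    have h1 : X.card = W.card + (X \ W).card := by
      rw [Finset.card_sdiff_of_subset hWX]
      have := Finset.card_le_card hWX
      omega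
    exact_mod_cast h1
  have hXWr : (X.card : ℝ) ≤ c * W.card := by exact_mod_cast hXW
  have hg : (0 : ℝ) < (1 + 1 / (2 * c : ℝ)) := by positivity
  rcases le_or_gt ((T ∩ X).card : ℝ) (2 * c * (T ∩ W).card) with hcase | hcase
  · -- the gate is decided
    left
    obtain ⟨z, hzW, hz⟩ := exists_class W T ⟨x, hxW⟩ (fun z => node m (adj Γ l) S' q' z)
      (fun z _ => hcl_mem z) hclW (fun z _ u hu => node_eq hu)
    have hzX := hWX hzW
    refine ⟨⟨N + w, hN', q', hq'q, adj Γ l, S', z, Hq', hreg', hΓ', t + t', hS'card, ht',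
      fun b hb' u hu => hfib_child z hzX b hb' u hu, hc', ?_, ?_⟩⟩
    · intro i' hi' u hu
      by_cases hii : i' = i
      · rw [hii]
        refine hPx u fun s => ?_
        exact (Finset.mem_filter.1 (hclW z hzW hu)).2 s
      · exact hd i' (fun h => hi' (Finset.mem_erase.2 ⟨hii, h⟩)) u (hclX z hzX hu)
    · have hU : U.card = (U.erase i).card + 1 := by
        rw [Finset.card_erase_of_mem hi]
        have := Finset.card_pos.2 ⟨i, hi⟩
        omega
      rw [hU, pow_succ] at he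
      exact arith_b (by linarith) (pow_nonneg (by linarith) _) (pow_nonneg hg.le _)
        (Nat.cast_nonneg _) hWpos (by exact_mod_cast Finset.card_le_card hWX) he hcase
        (by exact_mod_cast hz)
  · -- density increment
    right
    have hTW0 : (0 : ℝ) ≤ (T ∩ W).card := Nat.cast_nonneg _
    have hdiff : (0 : ℝ) < (T ∩ (X \ W)).card := by
      have h1 : ((T ∩ W).card : ℝ) ≤ 2 * c * (T ∩ W).card := by
        nlinarith
      linarith
    have hne : (X \ W).Nonempty := by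
      have h1 : 0 < (T ∩ (X \ W)).card := by exact_mod_cast hdiff
      obtain ⟨a, ha⟩ := Finset.card_pos.1 h1
      exact ⟨a, (Finset.mem_inter.1 ha).2⟩
    obtain ⟨z, hzXW, hz⟩ := exists_class (X \ W) T hne (fun z => node m (adj Γ l) S' q' z)
      (fun z _ => hcl_mem z) hclXW (fun z _ u hu => node_eq hu)
    have hzX := (Finset.mem_sdiff.1 hzXW).1
    have hUpos : 1 ≤ U.card := Finset.card_pos.2 ⟨i, hi⟩
    obtain ⟨s', rfl⟩ : ∃ s', s = s' + 1 := by
      rcases Nat.eq_zero_or_pos s with h | h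
      · exfalso
        rw [h, pow_zero, mul_one] at he
        have h1 : ((T ∩ X).card : ℝ) ≤ X.card := by
          exact_mod_cast Finset.card_le_card Finset.inter_subset_right
        have h2 : (2 : ℝ) ≤ (2 * c : ℝ) ^ U.card := by
          calc (2 : ℝ) ≤ 2 * c := by linarith
            _ = (2 * c) ^ 1 := (pow_one _).symm
            _ ≤ _ := pow_le_pow_right₀ (by linarith) hUpos
        nlinarith
      · exact ⟨s - 1, by omega⟩
    refine ⟨s', rfl, ⟨⟨N + w, hN', q', hq'q, adj Γ l, S', z, Hq', hreg', hΓ', t + t',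
      hS'card, ht', fun b hb' u hu => hfib_child z hzX b hb' u hu, hc', ?_, ?_⟩⟩⟩
    · intro i' hi' u hu
      exact hd i' hi' u (hclX z hzX hu)
    · rw [pow_succ] at he
      exact arith_a hcR (pow_nonneg (by linarith) _) (pow_nonneg hg.le _) (Nat.cast_nonneg _)
        (Nat.cast_nonneg _) hXsplit hXWr hTsplit hcase hdiff he (by exact_mod_cast hz)

end

end Pool.Agent.QuadSys
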