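import Pool.Agent.QuadSys.Cert

/-!
# A phase
-/

set_option autoImplicit false

namespace Pool.Agent.QuadSys

open Finset Pool.Agent.Helper21.LinSys

/-- The statement of the pairing theorem with constant `C`. -/
def PairProp (m ℓ C : ℕ) : Prop :=
  ∀ {n N : ℕ} (M Λ e V : ℕ) (v : Fin n → ℤ), 1 ≤ V → OddMul V v →
    ∀ (q : Fin N → (Fin n → Bool) → ℤ), (∀ j, IsQuad (q j)) →
    ∀ (Γ : AddSubgroup (Fin n → ZMod ℓ)), Nat.card Γ ≤ 2 ^ Λ →
    ∀ (S : Finset (Fin n)) (y : Fin n → Bool) (f : (Fin n → Bool) → ℝ), (∀ x, |f x| ≤ 1) →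
    (C * (M + N + Λ + e + V + 1)) ^ C ≤ Sᶜ.card →
    ∃ Q : BCube n M, OddMul (V * ℓ ^ 2) (Q.pw v) ∧
      (∀ t, ∀ i ∈ S, Q.emb t i = y i) ∧
      (∀ L ∈ Γ, ∀ t, ev L (Q.emb t) = ev L Q.base) ∧
      (∀ j t, ((q j (Q.emb t) : ℤ) : ZMod m) = (q j Q.base : ℤ)) ∧
      (∑ x ∈ cube S y, f x) / 2 ^ Sᶜ.card - 1 / 2 ^ e ≤ avg fun t => f (Q.emb t)

/-- The statement of the path theorem with constant `C`. -/
def PathProp (m ℓ w C : ℕ) : Prop :=
  ∀ {n k ρ h lam : ℕ} (P : Fin k → (Fin n → Bool) → Prop),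
    (∀ i, (∀ x, ¬ P i x) ∨ CertQ m ℓ w ρ h (P i)) →
    ∀ T : Finset (Fin n → Bool), 2 ^ n ≤ 2 ^ lam * T.card →
    ∃ (B N : ℕ) (q : Fin N → (Fin n → Bool) → ℤ) (Γ : AddSubgroup (Fin n → ZMod ℓ))
      (S : Finset (Fin n)) (y : Fin n → Bool),
      B ≤ (C * (k + lam + ρ + 1)) ^ C ∧ (∀ j, IsQuad (q j)) ∧ N ≤ B ∧ Nat.card Γ ≤ 2 ^ B ∧
      S.card ≤ B ∧ 2 ^ Sᶜ.card ≤ 2 ^ B * (T ∩ node m Γ S q y).card ∧
      ∀ i, (∀ x ∈ node m Γ S q y, ¬ P i x) ∨ ∀ x ∈ node m Γ S q y, ¬ P i x →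
        ∃ (p : Fin w → (Fin n → Bool) → ℤ) (H : AddSubgroup (Fin w → ZMod m)),
          (∀ s, IsQuad (p s)) ∧ h ≤ Nat.card H ∧
          Struct ℓ ρ (fun x (a : H) => comb p (a : Fin w → ZMod m) x) ∧
          (∀ x', (∀ s, ((p s x' : ℤ) : ZMod m) = p s x) → ¬ P i x') ∧
          ∃ a, a ∉ H ∧ ∃ b : Fin N → ZMod m, Struct ℓ B (fun x => comb q b x + comb p a x)

/-- A combination is determined by the values of the polynomials. -/
theorem comb_congr {m w n n' : ℕ} {p : Fin w → (Fin n → Bool) → ℤ}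
    {p' : Fin w → (Fin n' → Bool) → ℤ} (a : Fin w → ZMod m) {x : Fin n → Bool}
    {x' : Fin n' → Bool} (h : ∀ s, ((p s x : ℤ) : ZMod m) = p' s x') :
    comb p a x = comb p' a x' := by
  unfold comb
  exact Finset.sum_congr rfl fun s _ => by rw [h s]

/-- The certificates after a phase. -/
theorem cert_step {m ℓ w ρ B h N n M : ℕ} [NeZero m] {P : (Fin n → Bool) → Prop}
    {q : Fin N → (Fin n → Bool) → ℤ} (Q : BCube n M)
    (hq : ∀ j t, ((q j (Q.emb t) : ℤ) : ZMod m) = (q j Q.base : ℤ))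
    (hP : ∀ t, ¬ P (Q.emb t) → ∃ (p : Fin w → (Fin n → Bool) → ℤ)
      (H : AddSubgroup (Fin w → ZMod m)), (∀ s, IsQuad (p s)) ∧ h ≤ Nat.card H ∧
      Struct ℓ ρ (fun x (a : H) => comb p (a : Fin w → ZMod m) x) ∧
      (∀ x', (∀ s, ((p s x' : ℤ) : ZMod m) = p s (Q.emb t)) → ¬ P x') ∧
      ∃ a, a ∉ H ∧ ∃ b : Fin N → ZMod m, Struct ℓ B (fun x => comb q b x + comb p a x)) :
    CertQ m ℓ w (ρ + B) (2 * h) fun t => P (Q.emb t) := by
  intro t ht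
  obtain ⟨p, H, hp, hh, hS, hout, a, ha, b, hb⟩ := hP t ht
  have : Finite (Fin w → ZMod m) := inferInstance
  refine ⟨fun s t => p s (Q.emb t), H ⊔ AddSubgroup.zmultiples a,
    fun s => (hp s).comp_emb Q, ?_, ?_, fun t' ht' => hout _ ht'⟩
  · have h1 := two_mul_card_le (A := H) (B := H ⊔ AddSubgroup.zmultiples a) le_sup_left
      (g := a) (AddSubgroup.mem_sup_right (AddSubgroup.mem_zmultiples a)) ha
    omega
  · refine (hS.comp_emb Q).of_pair (hb.comp_emb Q) fun t₁ t₂ h1 h2 => ?_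
    funext c
    have hc := c.2
    obtain ⟨c1, hc1, c2, hc2, hcc⟩ := AddSubgroup.mem_sup.1 hc
    obtain ⟨z, rfl⟩ := AddSubgroup.mem_zmultiples_iff.1 hc2
    have e0 : ∀ t' : Fin M → Bool, comb (fun s t => p s (Q.emb t)) (c : Fin w → ZMod m) t' =
        comb p c1 (Q.emb t') + z • comb p a (Q.emb t') := by
      intro t'
      rw [← hcc]
      have e1 : comb (fun s t => p s (Q.emb t)) (c1 + z • a) t' =
          comb p (c1 + z • a) (Q.emb t') := comb_congr _ fun s => rfl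
      rw [e1, comb_add]
      congr 1
      exact map_zsmul (combHom p (Q.emb t')) z a
    have e2 : comb p c1 (Q.emb t₁) = comb p c1 (Q.emb t₂) := congrFun h1 ⟨c1, hc1⟩
    have e3 : comb q b (Q.emb t₁) = comb q b (Q.emb t₂) :=
      comb_congr _ fun s => (hq s t₁).trans (hq s t₂).symm
    have e4 : comb p a (Q.emb t₁) = comb p a (Q.emb t₂) := by
      have h3 : comb q b (Q.emb t₁) + comb p a (Q.emb t₁) =
        comb q b (Q.emb t₂) + comb p a (Q.emb t₂) := h2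
      rw [e3] at h3
      exact add_left_cancel h3
    rw [e0, e0, e2, e4]

theorem CertQ.mono {m ℓ w ρ ρ' h n : ℕ} {P : (Fin n → Bool) → Prop} (hP : CertQ m ℓ w ρ h P)
    (hρ : ρ ≤ ρ') : CertQ m ℓ w ρ' h P := by
  intro x hx
  obtain ⟨p, H, h1, h2, h3, h4⟩ := hP x hx
  exact ⟨p, H, h1, h2, h3.mono hρ, h4⟩

theorem phase_of (m : ℕ) [NeZero m] (ℓ : ℕ) [NeZero ℓ] (w : ℕ) {C₁ C₂ : ℕ}
    (hpath : PathProp m ℓ w C₁) (hpair : PairProp m ℓ C₂) :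
    ∃ C : ℕ, ∀ {n k ρ h lam : ℕ} (M V : ℕ) (v : Fin n → ℤ), 1 ≤ V → OddMul V v →
      ∀ (P : Fin k → (Fin n → Bool) → Prop),
      (∀ i, (∀ x, ¬ P i x) ∨ CertQ m ℓ w ρ h (P i)) →
      ∀ T : Finset (Fin n → Bool), 2 ^ n ≤ 2 ^ lam * T.card →
      pb C (M + k + lam + ρ + V + 1) ≤ n →
      ∃ (B : ℕ) (Q : BCube n M), B ≤ pb C (k + lam + ρ + 1) ∧
        OddMul (V * ℓ ^ 2) (Q.pw v) ∧
        (∀ i, (∀ t, ¬ P i (Q.emb t)) ∨ CertQ m ℓ w B (2 * h) fun t => P i (Q.emb t)) ∧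
        2 ^ M ≤ 2 ^ B * (univ.filter fun t => Q.emb t ∈ T).card := by
  classical
  refine ⟨(C₁ + 7) * (C₂ + 1) + C₁ + 4, ?_⟩
  set C := (C₁ + 7) * (C₂ + 1) + C₁ + 4 with hC
  intro n k ρ h lam M V v hV hv P hP T hT hn
  obtain ⟨B₀, N, q, Γ, S, y, hB₀, hq, hN, hΓ, hS, hTn, hgate⟩ := hpath P hP T hT
  set u := k + lam + ρ + 1 with hu
  set U := M + k + lam + ρ + V + 1 with hU
  have hu1 : 1 ≤ u := by omega
  have hU1 : 1 ≤ U := by omega
  have huU : u ≤ U := by omega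
  have hB₀u : B₀ ≤ pb C₁ u := hB₀
  have hB₀' : B₀ ≤ pb C₁ U := hB₀u.trans (pb_mono le_rfl hu1 huU)
  -- the size condition for the pairing theorem
  have hsize : (C₂ * (M + N + B₀ + (B₀ + 1) + V + 1)) ^ C₂ ≤ Sᶜ.card := by
    have h1 : M + N + B₀ + (B₀ + 1) + V + 1 ≤ pb (C₁ + 6) U := by
      have e0 : 1 ≤ pb C₁ U := one_le_pb hU1
      have e1 : M + N + B₀ + (B₀ + 1) + V + 1 ≤ 3 * pb C₁ U + 2 * U := by omega
      have e2 : pb C₁ U * U ≤ pb (C₁ + 1) U := by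
        have := pb_mul_pb C₁ 1 U
        have e : pb 1 U = U := by unfold pb; simp
        rwa [e] at this
      have e3 : 5 ≤ pb 5 U := by
        have := mul_le_pb 4 hU1
        have h5 : (5 * 1) ^ 5 ≤ (5 * U) ^ 5 := Nat.pow_le_pow_left (Nat.mul_le_mul_left _ hU1) 5
        unfold pb
        omega
      calc M + N + B₀ + (B₀ + 1) + V + 1 ≤ 3 * pb C₁ U + 2 * U := e1
        _ ≤ (pb C₁ U * U) * 5 := by nlinarith
        _ ≤ pb (C₁ + 1) U * pb 5 U := Nat.mul_le_mul e2 e3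
        _ ≤ pb (C₁ + 1 + 5) U := pb_mul_pb _ _ _
    have h2 : (C₂ * (M + N + B₀ + (B₀ + 1) + V + 1)) ^ C₂ ≤ pb ((C₁ + 7) * (C₂ + 1)) U :=
      calc (C₂ * (M + N + B₀ + (B₀ + 1) + V + 1)) ^ C₂
          ≤ pb C₂ (pb (C₁ + 6) U) := Nat.pow_le_pow_left (Nat.mul_le_mul_left _ h1) _
        _ ≤ pb ((C₁ + 6 + 1) * (C₂ + 1)) U := pb_pb _ _ hU1
    have h3 : pb ((C₁ + 7) * (C₂ + 1)) U + pb C₁ U ≤ n := by
      refine (pb_add_pb _ _ hU1).trans (le_trans (pb_mono ?_ hU1 le_rfl) hn)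
      rw [hC]; omega
    have h4 : Sᶜ.card = n - S.card := by
      rw [Finset.card_compl, Fintype.card_fin]
    omega
  -- the block cube
  obtain ⟨Q, hQv, hQS, hQΓ, hQq, hQf⟩ := hpair M B₀ (B₀ + 1) V v hV hv q hq Γ hΓ S y
    (fun x => if x ∈ T ∩ node m Γ S q y then 1 else 0) (by intro x; split <;> simp) hsize
  have hsub : T ∩ node m Γ S q y ⊆ cube S y := by
    intro x hx
    exact mem_cube.2 (mem_fibz.1 (Finset.mem_filter.1 (Finset.mem_inter.1 hx).2).1).1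
  have hsum : (∑ x ∈ cube S y, if x ∈ T ∩ node m Γ S q y then (1 : ℝ) else 0) =
      (T ∩ node m Γ S q y).card := by
    rw [Finset.sum_ite_mem, Finset.inter_eq_right.2 hsub]
    simp
  have hdens : (1 : ℝ) / 2 ^ (B₀ + 1) ≤
      avg fun t => if Q.emb t ∈ T ∩ node m Γ S q y then (1 : ℝ) else 0 := by
    refine le_trans ?_ hQf
    rw [hsum]
    have h1 : ((2 ^ Sᶜ.card : ℕ) : ℝ) ≤ ((2 ^ B₀ * (T ∩ node m Γ S q y).card : ℕ) : ℝ) := by
      exact_mod_cast hTn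
    push_cast at h1
    have h2 : (1 : ℝ) / 2 ^ B₀ ≤ (T ∩ node m Γ S q y).card / 2 ^ Sᶜ.card := by
      rw [div_le_div_iff₀ (by positivity) (by positivity)]
      linarith
    have h3 : (1 : ℝ) / 2 ^ B₀ = 1 / 2 ^ (B₀ + 1) + 1 / 2 ^ (B₀ + 1) := by
      rw [pow_succ]; field_simp; norm_num
    linarith
  have hcount : (2 : ℝ) ^ M ≤ 2 ^ (B₀ + 1) *
      (univ.filter fun t => Q.emb t ∈ T ∩ node m Γ S q y).card := by
    unfold avg at hdens
    rw [div_le_div_iff₀ (by positivity) (by positivity), Finset.sum_boole] at hdens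
    linarith
  obtain ⟨t₀, ht₀⟩ : ∃ t₀, Q.emb t₀ ∈ T ∩ node m Γ S q y := by
    by_contra hcon
    push Not at hcon
    rw [Finset.filter_eq_empty_iff.2 fun t _ => hcon t] at hcount
    simp at hcount
    have : (0 : ℝ) < 2 ^ M := by positivity
    linarith
  have hnode : ∀ t, Q.emb t ∈ node m Γ S q y := by
    intro t
    have h0 := Finset.mem_filter.1 (Finset.mem_inter.1 ht₀).2
    have h1 := mem_fibz.1 h0.1
    refine Finset.mem_filter.2 ⟨mem_fibz.2 ⟨hQS t, fun L hL => ?_⟩, fun j => ?_⟩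
    · rw [hQΓ L hL t, ← h1.2 L hL, hQΓ L hL t₀]
    · rw [hQq j t, ← h0.2 j, hQq j t₀]
  refine ⟨ρ + B₀ + 1, Q, ?_, hQv, fun i => ?_, ?_⟩
  · have e1 : 1 * u ≤ pb 2 u := mul_le_pb 1 hu1
    have e2 : pb C₁ u + pb 2 u ≤ pb (C₁ + 2 + 2) u := pb_add_pb _ _ hu1
    have e3 : pb (C₁ + 2 + 2) u ≤ pb C u := pb_mono (by rw [hC]; omega) hu1 le_rfl
    omega
  · rcases hgate i with h | h
    · exact Or.inl fun t => h _ (hnode t)
    · exact Or.inr ((cert_step Q hQq fun t ht => h _ (hnode t) ht).mono (by omega))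
  · have h1 : (univ.filter fun t => Q.emb t ∈ T ∩ node m Γ S q y) ⊆
        univ.filter fun t => Q.emb t ∈ T := by
      intro t ht
      exact Finset.mem_filter.2 ⟨Finset.mem_univ _,
        (Finset.mem_inter.1 (Finset.mem_filter.1 ht).2).1⟩
    have h2 : 2 ^ M ≤ 2 ^ (B₀ + 1) *
      (univ.filter fun t => Q.emb t ∈ T ∩ node m Γ S q y).card := by exact_mod_cast hcount
    calc 2 ^ M ≤ 2 ^ (B₀ + 1) *
          (univ.filter fun t => Q.emb t ∈ T ∩ node m Γ S q y).card := h2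
      _ ≤ 2 ^ (ρ + B₀ + 1) * (univ.filter fun t => Q.emb t ∈ T).card :=
          Nat.mul_le_mul (Nat.pow_le_pow_right (by norm_num) (by omega)) (Finset.card_le_card h1)

end Pool.Agent.QuadSys
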