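import Pool.Agent.QuadSys.Count
import Pool.Agent.QuadSys.Isolated
import Pool.Agent.QuadSys.Gap
import Pool.Agent.QuadSys.Inverse

/-!
# Progress: a clause that is not set aside cuts off a positive proportion of a node
-/

set_option autoImplicit false

namespace Pool.Agent.QuadSys

open Finset Pool.Agent.Helper21.LinSys

/-- The inverse theorem with constant `C`. -/
def InvProp (m ℓ C : ℕ) [NeZero m] [NeZero ℓ] : Prop :=
  ∀ (n : ℕ) (φ : (Fin n → Bool) → ℤ), IsQuad φ →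
    ∀ (S : Finset (Fin n)) (z : Fin n → Bool) (L : Fin n → ZMod ℓ) (r : ℕ),
      (2 : ℝ) ^ Sᶜ.card < 2 ^ r * ‖∑ x ∈ cube S z,
        (ZMod.stdAddChar ((φ x : ℤ) : ZMod m) : ℂ) * ZMod.stdAddChar (ev L x)‖ →
      Struct ℓ (C * (r + S.card + 1) ^ 2) (fun x => ((φ x : ℤ) : ZMod m))

section
variable {m ℓ : ℕ} [NeZero m] [NeZero ℓ] {n N w : ℕ}

/-- Unstructured combinations have small exponential sums on subcubes. -/
theorem bias_le {C₁ : ℕ} (hinv : InvProp m ℓ C₁) {q : Fin N → (Fin n → Bool) → ℤ}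
    (hq : ∀ j, IsQuad (q j)) (b : Fin N → ZMod m) (S : Finset (Fin n)) (r ρ : ℕ)
    (hρ : C₁ * (r + S.card + 1) ^ 2 ≤ ρ) (hb : ¬ Struct ℓ ρ (fun x => comb q b x))
    (z : Fin n → Bool) (L : Fin n → ZMod ℓ) :
    ‖∑ x ∈ cube S z, (ZMod.stdAddChar (comb q b x) : ℂ) * ZMod.stdAddChar (ev L x)‖ ≤
      2 ^ Sᶜ.card / 2 ^ r := by
  obtain ⟨φ, hφ, hφe⟩ := exists_quad_comb hq b
  by_contra hcon
  push Not at hcon
  apply hb
  have h1 := hinv n φ hφ S z L r (by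
    simp only [hφe]
    rw [div_lt_iff₀ (by positivity), mul_comm] at hcon
    exact hcon)
  simp only [hφe] at h1
  exact h1.mono hρ

theorem pow_le_two_pow' (m N : ℕ) : m ^ N ≤ 2 ^ (m * N) := by
  rw [pow_mul]
  exact Nat.pow_le_pow_left (Nat.lt_two_pow_self).le N

theorem rho_bound (Λ R : ℕ) (hR : ℓ ^ 2 * (Λ + 1) ≤ R) :
    (2 : ℝ) ^ Λ * rho ℓ ^ R ≤ 1 / 2 := by
  have hℓ : (0 : ℝ) < ℓ := by exact_mod_cast Nat.pos_of_ne_zero (NeZero.ne ℓ)
  have h1 : rho ℓ ^ R ≤ Real.exp (-(2 * (Λ + 1 : ℝ))) := by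
    unfold rho
    rw [← Real.exp_nat_mul, Real.exp_le_exp]
    have h2 : (ℓ : ℝ) ^ 2 * (Λ + 1) ≤ R := by exact_mod_cast hR
    have h3 : (R : ℝ) * (2 / ℓ ^ 2) ≥ 2 * (Λ + 1) := by
      rw [ge_iff_le, mul_div_assoc', le_div_iff₀ (by positivity)]
      linarith
    linarith
  have h2 : Real.exp (-(2 * (Λ + 1 : ℝ))) ≤ (1 / 2) ^ (Λ + 1) := by
    have h3 : Real.exp (-(2 * (Λ + 1 : ℝ))) = Real.exp (-2) ^ (Λ + 1) := by
      rw [← Real.exp_nat_mul]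
      congr 1
      push_cast
      ring
    rw [h3]
    refine pow_le_pow_left₀ (Real.exp_pos _).le ?_ _
    rw [Real.exp_neg, one_div]
    refine inv_anti₀ (by norm_num) ?_
    have := Real.add_one_le_exp (2 : ℝ)
    linarith
  calc (2 : ℝ) ^ Λ * rho ℓ ^ R ≤ 2 ^ Λ * (1 / 2) ^ (Λ + 1) :=
        mul_le_mul_of_nonneg_left (h1.trans h2) (by positivity)
    _ = 1 / 2 := by
        rw [pow_succ, ← mul_assoc, ← mul_pow]
        norm_num

/-- The size of a regular linear fibre. -/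
theorem fibz_large (Γ : AddSubgroup (Fin n → ZMod ℓ)) (S : Finset (Fin n)) (y : Fin n → Bool)
    (Λ R : ℕ) (hΛ : Nat.card Γ ≤ 2 ^ Λ) (hReg : Reg Γ S R) (hR : ℓ ^ 2 * (Λ + 1) ≤ R) :
    (2 : ℝ) ^ Sᶜ.card ≤ 2 * 2 ^ Λ * (fibz Γ S y y).card := by
  have h1 := card_fibz Γ S y y R hReg fun _ _ _ => rfl
  have h2 := (abs_le.1 h1).1
  have h3 : (1 : ℝ) ≤ Nat.card (Γ ⊓ sup ℓ S : AddSubgroup (Fin n → ZMod ℓ)) := by
    exact_mod_cast Nat.one_le_iff_ne_zero.2 (Nat.card_pos (α := (Γ ⊓ sup ℓ S :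
      AddSubgroup (Fin n → ZMod ℓ)))).ne'
  have h4 : (Nat.card Γ : ℝ) ≤ 2 ^ Λ := by exact_mod_cast hΛ
  have h5 : (Nat.card Γ : ℝ) * rho ℓ ^ R ≤ 1 / 2 :=
    (mul_le_mul_of_nonneg_right h4 (pow_nonneg (rho_pos ℓ).le _)).trans (rho_bound Λ R hR)
  have h6 : (0 : ℝ) < 2 ^ Sᶜ.card := by positivity
  have h7 : (0 : ℝ) ≤ (fibz Γ S y y).card := Nat.cast_nonneg _
  have h8 : (Nat.card Γ : ℝ) * (2 ^ Sᶜ.card * rho ℓ ^ R) ≤ 2 ^ Sᶜ.card / 2 := by
    calc (Nat.card Γ : ℝ) * (2 ^ Sᶜ.card * rho ℓ ^ R) =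
        (Nat.card Γ * rho ℓ ^ R) * 2 ^ Sᶜ.card := by ring
      _ ≤ 1 / 2 * 2 ^ Sᶜ.card := mul_le_mul_of_nonneg_right h5 h6.le
      _ = _ := by ring
  have h9 : (2 : ℝ) ^ Sᶜ.card ≤
      Nat.card (Γ ⊓ sup ℓ S : AddSubgroup (Fin n → ZMod ℓ)) * 2 ^ Sᶜ.card := by
    nlinarith
  have h10 : (fibz Γ S y y).card * (Nat.card Γ : ℝ) ≤ (fibz Γ S y y).card * 2 ^ Λ :=
    mul_le_mul_of_nonneg_left h4 h7
  nlinarith

theorem NI.map {D : ℕ} {α β : Type*} {σ : (Fin n → Bool) → α} (h : NI D σ)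
    {τ : (Fin n → Bool) → β} (hτ : ∀ x y, σ x = σ y → τ x = τ y) : NI D τ := by
  intro x B hB
  obtain ⟨I, hI, hs⟩ := h x B hB
  exact ⟨I, hI, hτ _ _ hs⟩

end

theorem progress_of_inv (m : ℕ) [NeZero m] (ℓ : ℕ) [NeZero ℓ] {C₁ : ℕ} (hinv : InvProp m ℓ C₁)
    (w : ℕ) :
    ∃ C : ℕ, 1 ≤ C ∧ ∀ {n N ρ : ℕ} (Γ : AddSubgroup (Fin n → ZMod ℓ)) (S : Finset (Fin n))
      (y : Fin n → Bool) (q : Fin N → (Fin n → Bool) → ℤ), (∀ j, IsQuad (q j)) →
      ∀ (Hq : AddSubgroup (Fin N → ZMod m)),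
      (∀ b ∈ Hq, ∀ x ∈ fibz Γ S y y, comb q b x = comb q b y) →
      ∀ (p : Fin w → (Fin n → Bool) → ℤ), (∀ j, IsQuad (p j)) →
      ∀ (H : AddSubgroup (Fin w → ZMod m)),
      Struct ℓ ρ (fun x (a : H) => comb p (a : Fin w → ZMod m) x) →
      ∀ (Λ R : ℕ), Nat.card Γ * ℓ ^ ρ ≤ 2 ^ Λ → Reg Γ S R →
      C * (ρ + 1) * (Λ + 1) ≤ R →
      (∀ (b : Fin N → ZMod m) (a : Fin w → ZMod m), ¬ (b ∈ Hq ∧ a ∈ H) →
        ¬ Struct ℓ (C * (Λ + N + S.card + 1) ^ 2) (fun x => comb q b x + comb p a x)) →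
      (node m Γ S q y).card ≤ C * ((node m Γ S q y).filter fun x =>
        ∀ j, ((p j x : ℤ) : ZMod m) = p j y).card := by
  classical
  obtain ⟨D, hD⟩ := no_isolated m w
  obtain ⟨C₂, hC₂⟩ := gap ℓ D
  have hm : 0 < m := Nat.pos_of_ne_zero (NeZero.ne m)
  have hℓ : 0 < ℓ := Nat.pos_of_ne_zero (NeZero.ne ℓ)
  set G : ℕ := 2 ^ (2 * D + 4) with hG
  refine ⟨4 * G * m ^ w + C₁ * (2 * D + 8 + m * w + m) ^ 2 + C₂ + 1 + ℓ ^ 2, ?_, ?_⟩
  · have : 0 < ℓ ^ 2 := by positivity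
    omega
  intro n N ρ Γ S y q hq Hq hI1 p hp H hH Λ R hΛ hReg hR hI2
  set C := 4 * G * m ^ w + C₁ * (2 * D + 8 + m * w + m) ^ 2 + C₂ + 1 + ℓ ^ 2 with hC
  set r := Λ + (2 * D + 6) + m * (N + w) with hr
  set X₀ := fibz Γ S y y with hX₀
  -- thresholds
  have hthr : C₁ * (r + S.card + 1) ^ 2 ≤ C * (Λ + N + S.card + 1) ^ 2 := by
    have h1 : r + S.card + 1 ≤ (2 * D + 8 + m * w + m) * (Λ + N + S.card + 1) := by
      rw [hr]
      nlinarith [Nat.zero_le (Λ * (m * w)), Nat.zero_le (Λ * m), Nat.zero_le (D * Λ),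
        Nat.zero_le (N * (m * w)), Nat.zero_le (S.card * (m * w)), Nat.zero_le (S.card * m),
        Nat.zero_le (D * N), Nat.zero_le (D * S.card)]
    calc C₁ * (r + S.card + 1) ^ 2 ≤
          C₁ * ((2 * D + 8 + m * w + m) * (Λ + N + S.card + 1)) ^ 2 :=
          Nat.mul_le_mul_left _ (Nat.pow_le_pow_left h1 2)
      _ = (C₁ * (2 * D + 8 + m * w + m) ^ 2) * (Λ + N + S.card + 1) ^ 2 := by ring
      _ ≤ C * (Λ + N + S.card + 1) ^ 2 := Nat.mul_le_mul_right _ (by rw [hC]; omega)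
  have hRC : ∀ e : ℕ, e ≤ C → e * (ρ + 1) * (Λ + 1) ≤ R := fun e he =>
    (Nat.mul_le_mul_right _ (Nat.mul_le_mul_right _ he)).trans hR
  have hRℓ : ℓ ^ 2 * (Λ + 1) ≤ R := by
    refine le_trans ?_ (hRC (ℓ ^ 2) (by rw [hC]; omega))
    refine Nat.mul_le_mul_right _ (Nat.le_mul_of_pos_right _ (by omega))
  have hΛ' : Nat.card Γ ≤ 2 ^ Λ := (Nat.le_mul_of_pos_right _ (by positivity)).trans hΛ
  -- the structured part
  set X₁ := X₀.filter fun x => ∀ a ∈ H, comb p a x = comb p a y with hX₁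
  have hgap : (X₀.card : ℝ) ≤ G * X₁.card := by
    obtain ⟨K, l, hK, hσ⟩ := hH
    have hNI : NI D (fun x (a : H) => comb p (a : Fin w → ZMod m) x) := by
      refine (hD n p hp).map fun x x' h => ?_
      funext a
      unfold comb
      exact Finset.sum_congr rfl fun s _ => by rw [congrFun h s]
    have h1 := hC₂ Γ S y (fun x (a : H) => comb p (a : Fin w → ZMod m) x) hNI K l hσ Λ R hΛ hReg
      (by
        have h2 := hRC (C₂ + 1) (by rw [hC]; omega)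
        have h3 : (C₂ + 1) * (ρ + 1) * (Λ + 1) =
            C₂ * (ρ + 1) * (Λ + 1) + (ρ + 1) * (Λ + 1) := by ring
        have h4 : ρ ≤ (ρ + 1) * (Λ + 1) := by nlinarith
        omega)
    have h2 : (X₀.filter fun x => (fun a : H => comb p (a : Fin w → ZMod m) x) =
        fun a : H => comb p (a : Fin w → ZMod m) y) = X₁ := by
      refine Finset.filter_congr fun x _ => ?_
      constructor
      · intro h a ha
        exact congrFun h ⟨a, ha⟩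
      · intro h
        funext a
        exact h a a.2
    have h3 : X₀.card ≤ 2 ^ (2 * D + 4) * X₁.card := by
      rw [← h2]
      convert h1 using 3
    have h4 : ((X₀.card : ℕ) : ℝ) ≤ ((2 ^ (2 * D + 4) * X₁.card : ℕ) : ℝ) := by exact_mod_cast h3
    rw [hG]
    push_cast at h4 ⊢
    exact h4
  -- exponential sums
  set δ : ℝ := 2 ^ Sᶜ.card / 2 ^ r with hδ
  have hδ0 : 0 ≤ δ := by positivity
  have hbias : ∀ (b : Fin N → ZMod m) (a : Fin w → ZMod m), ¬ (b ∈ Hq ∧ a ∈ H) →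
      ‖∑ x ∈ X₀, (ZMod.stdAddChar (comb q b x + comb p a x) : ℂ)‖ ≤ δ := by
    intro b a hba
    refine norm_sum_fibz_le Γ S y _ δ fun L _ => ?_
    have hr' : ∀ j, IsQuad (Fin.append q p j) := by
      intro j
      refine Fin.addCases (fun j => ?_) (fun j => ?_) j
      · rw [Fin.append_left]; exact hq j
      · rw [Fin.append_right]; exact hp j
    have h1 := bias_le hinv hr' (Fin.append b a) S r (C * (Λ + N + S.card + 1) ^ 2) hthr (by
      simp only [comb_append]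
      exact hI2 b a hba) y L
    simp only [comb_append] at h1
    exact h1
  -- the node
  have hnode := card_eq_of_bias q Hq X₀ y δ hδ0 hI1 (by
    intro b hb
    have := hbias b 0 fun h => hb h.1
    simpa only [comb_zero, add_zero] using this)
  -- the falsified part
  let Hr : AddSubgroup (Fin (N + w) → ZMod m) :=
    { carrier := {c | (fun j => c (Fin.castAdd w j)) ∈ Hq ∧ (fun j => c (Fin.natAdd N j)) ∈ H}
      zero_mem' := ⟨Hq.zero_mem, H.zero_mem⟩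
      add_mem' := fun ha hb => ⟨Hq.add_mem ha.1 hb.1, H.add_mem ha.2 hb.2⟩
      neg_mem' := fun ha => ⟨Hq.neg_mem ha.1, H.neg_mem ha.2⟩ }
  have hsplit : ∀ (c : Fin (N + w) → ZMod m) (x : Fin n → Bool),
      comb (Fin.append q p) c x = comb q (fun j => c (Fin.castAdd w j)) x +
        comb p (fun j => c (Fin.natAdd N j)) x := by
    intro c x
    unfold comb
    rw [Fin.sum_univ_add]
    simp
  have hfals := card_eq_of_bias (Fin.append q p) Hr X₁ y δ hδ0 (by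
    intro c hc x hx
    obtain ⟨hx0, hx1⟩ := Finset.mem_filter.1 hx
    rw [hsplit, hsplit, hI1 _ hc.1 x hx0, hx1 _ hc.2]) (by
    intro c hc
    refine norm_sum_filter_le p H X₀ y _ δ fun a ha => ?_
    have e1 : ∀ x, (ZMod.stdAddChar (comb (Fin.append q p) c x) : ℂ) *
        ZMod.stdAddChar (comb p a x) = ZMod.stdAddChar (comb q (fun j => c (Fin.castAdd w j)) x +
          comb p ((fun j => c (Fin.natAdd N j)) + a) x) := by
      intro x
      rw [hsplit, comb_add, ← AddChar.map_add_eq_mul, add_assoc]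
    simp only [e1]
    refine hbias _ _ fun h => hc ⟨h.1, ?_⟩
    have := H.sub_mem h.2 ha
    simpa using this)
  -- the two sets
  have hWeq : ((node m Γ S q y).filter fun x => ∀ j, ((p j x : ℤ) : ZMod m) = p j y) =
      X₁.filter fun x => ∀ j, ((Fin.append q p j x : ℤ) : ZMod m) = Fin.append q p j y := by
    ext x
    simp only [node, Finset.mem_filter, hX₁]
    constructor
    · rintro ⟨⟨hx, h1⟩, h2⟩
      refine ⟨⟨hx, fun a _ => ?_⟩, fun j => ?_⟩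
      · unfold comb
        exact Finset.sum_congr rfl fun s _ => by rw [h2 s]
      · refine Fin.addCases (fun j => ?_) (fun j => ?_) j
        · simpa using h1 j
        · simpa using h2 j
    · rintro ⟨⟨hx, -⟩, h⟩
      refine ⟨⟨hx, fun j => ?_⟩, fun j => ?_⟩
      · simpa using h (Fin.castAdd w j)
      · simpa using h (Fin.natAdd N j)
  rw [hWeq]
  set X := node m Γ S q y with hX
  set W := X₁.filter fun x => ∀ j, ((Fin.append q p j x : ℤ) : ZMod m) = Fin.append q p j y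
    with hW
  have hXn : (X₀.filter fun x => ∀ j, ((q j x : ℤ) : ZMod m) = q j y) = X := rfl
  rw [hXn] at hnode
  -- numbers
  have hmR : (1 : ℝ) ≤ m := by exact_mod_cast hm
  have hGR : (1 : ℝ) ≤ G := by
    have : 1 ≤ G := Nat.one_le_two_pow
    exact_mod_cast this
  have hHq : (1 : ℝ) ≤ Nat.card Hq := by exact_mod_cast (Nat.card_pos (α := Hq))
  have hHr : (Nat.card Hq : ℝ) ≤ Nat.card Hr := by
    have : Nat.card Hq ≤ Nat.card Hr := by
      refine Nat.card_le_card_of_injective (fun b : Hq => (⟨Fin.append b.1 0, ?_⟩ : Hr)) ?_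
      · refine ⟨?_, ?_⟩
        · have : (fun j => Fin.append b.1 (0 : Fin w → ZMod m) (Fin.castAdd w j)) = b.1 := by
            funext j; simp
          rw [this]; exact b.2
        · have : (fun j => Fin.append b.1 (0 : Fin w → ZMod m) (Fin.natAdd N j)) = 0 := by
            funext j; simp
          rw [this]; exact H.zero_mem
      · intro b b' h
        apply Subtype.ext
        funext j
        have h1 := congrArg (fun c : Hr => (c : Fin (N + w) → ZMod m) (Fin.castAdd w j)) h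
        simpa using h1
    exact_mod_cast this
  have hX₀l := fibz_large Γ S y Λ R hΛ' hReg hRℓ
  set A : ℝ := Nat.card Hq * X₀.card with hA
  have hmN : (0 : ℝ) < (m : ℝ) ^ N := by positivity
  have hmw : (0 : ℝ) < (m : ℝ) ^ w := by positivity
  have h2r : (2 : ℝ) ^ r = 2 ^ Λ * (4 * G) * 2 ^ (m * (N + w)) := by
    rw [hr, pow_add, pow_add, hG]
    push_cast
    rw [show 2 * D + 6 = (2 * D + 4) + 2 by ring, pow_add]
    ring
  have hmNw : (m : ℝ) ^ N * (m : ℝ) ^ w ≤ 2 ^ (m * (N + w)) := by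
    rw [← pow_add]
    exact_mod_cast pow_le_two_pow' m (N + w)
  -- δ is small
  have hδs : 2 * G * ((m : ℝ) ^ N * m ^ w) * δ ≤ A := by
    have h1 : δ * 2 ^ r = 2 ^ Sᶜ.card := by
      rw [hδ]; field_simp
    have hX₀n : (0 : ℝ) ≤ X₀.card := Nat.cast_nonneg _
    have h2 : δ * (4 * G * ((m : ℝ) ^ N * m ^ w)) * 2 ^ Λ ≤ 2 * 2 ^ Λ * X₀.card := by
      calc δ * (4 * G * ((m : ℝ) ^ N * m ^ w)) * 2 ^ Λ
          ≤ δ * (4 * G * 2 ^ (m * (N + w))) * 2 ^ Λ := by gcongr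
        _ = δ * 2 ^ r := by rw [h2r]; ring
        _ = 2 ^ Sᶜ.card := h1
        _ ≤ _ := hX₀l
    have h3 : (0 : ℝ) < 2 ^ Λ := by positivity
    have h4 : δ * (4 * G * ((m : ℝ) ^ N * m ^ w)) ≤ 2 * X₀.card := by
      have h5 : (δ * (4 * G * ((m : ℝ) ^ N * m ^ w))) * 2 ^ Λ ≤ (2 * X₀.card) * 2 ^ Λ := by
        linarith
      exact le_of_mul_le_mul_right h5 h3
    have h6 : (X₀.card : ℝ) ≤ A := by
      rw [hA]; nlinarith
    linarith
  have hXle : (X.card : ℝ) * m ^ N ≤ A + m ^ N * δ := by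
    have := (abs_le.1 hnode).2
    linarith
  have hWge : A / G - m ^ (N + w) * δ ≤ (W.card : ℝ) * m ^ (N + w) := by
    have h1 := (abs_le.1 hfals).1
    have h2 : A / G ≤ Nat.card Hr * X₁.card := by
      rw [div_le_iff₀ (by linarith), hA]
      calc (Nat.card Hq : ℝ) * X₀.card ≤ Nat.card Hr * (G * X₁.card) :=
            mul_le_mul hHr hgap (Nat.cast_nonneg _) (by linarith)
        _ = _ := by ring
    linarith
  have hfin : (X.card : ℝ) ≤ (4 * G * m ^ w) * W.card := by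
    have e0 : (m : ℝ) ^ (N + w) = m ^ N * m ^ w := pow_add _ _ _
    rw [e0] at hWge
    have e1 : (m : ℝ) ^ N * m ^ w * δ ≤ A / (2 * G) := by
      rw [le_div_iff₀ (by linarith)]
      linarith
    have e2 : A / (2 * G) ≤ (W.card : ℝ) * (m ^ N * m ^ w) := by
      have : A / G = 2 * (A / (2 * G)) := by field_simp
      linarith
    have e3 : (m : ℝ) ^ N * δ ≤ A := by
      have h1 : (m : ℝ) ^ N * δ ≤ 2 * G * ((m : ℝ) ^ N * m ^ w) * δ := by
        have h2 : (1 : ℝ) ≤ m ^ w := one_le_pow₀ hmR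
        have h3 : (m : ℝ) ^ N ≤ 2 * G * ((m : ℝ) ^ N * m ^ w) := by
          have h4 : (1 : ℝ) ≤ 2 * G * m ^ w := by nlinarith
          calc (m : ℝ) ^ N = m ^ N * 1 := (mul_one _).symm
            _ ≤ m ^ N * (2 * G * m ^ w) := mul_le_mul_of_nonneg_left h4 hmN.le
            _ = _ := by ring
        exact mul_le_mul_of_nonneg_right h3 hδ0
      exact h1.trans hδs
    have e4 : (X.card : ℝ) * m ^ N ≤ 2 * A := by linarith
    have e5 : A ≤ 2 * G * ((W.card : ℝ) * (m ^ N * m ^ w)) := by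
      rw [div_le_iff₀ (by linarith)] at e2
      linarith
    have e6 : (X.card : ℝ) * m ^ N ≤ ((4 * G * m ^ w) * W.card) * m ^ N := by
      calc (X.card : ℝ) * m ^ N ≤ 2 * A := e4
        _ ≤ 2 * (2 * G * ((W.card : ℝ) * (m ^ N * m ^ w))) := by linarith
        _ = _ := by ring
    exact le_of_mul_le_mul_right e6 hmN
  have hfinN : X.card ≤ (4 * G * m ^ w) * W.card := by exact_mod_cast hfin
  exact hfinN.trans (Nat.mul_le_mul_right _ (by rw [hC]; omega))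

theorem node_large_of_inv (m : ℕ) [NeZero m] (ℓ : ℕ) [NeZero ℓ] {C₁ : ℕ}
    (hinv : InvProp m ℓ C₁) :
    ∃ C : ℕ, ∀ {n N : ℕ} (Γ : AddSubgroup (Fin n → ZMod ℓ)) (S : Finset (Fin n))
      (y : Fin n → Bool) (q : Fin N → (Fin n → Bool) → ℤ), (∀ j, IsQuad (q j)) →
      ∀ (Hq : AddSubgroup (Fin N → ZMod m)),
      (∀ b ∈ Hq, ∀ x ∈ fibz Γ S y y, comb q b x = comb q b y) →
      ∀ (Λ R : ℕ), Nat.card Γ ≤ 2 ^ Λ → Reg Γ S R → C * (Λ + 1) ≤ R →
      (∀ b : Fin N → ZMod m, b ∉ Hq →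
        ¬ Struct ℓ (C * (Λ + N + S.card + 1) ^ 2) (fun x => comb q b x)) →
      2 ^ Sᶜ.card ≤ 2 ^ (C * (Λ + N + 1)) * (node m Γ S q y).card := by
  classical
  have hm : 0 < m := Nat.pos_of_ne_zero (NeZero.ne m)
  refine ⟨C₁ * (m + 4) ^ 2 + ℓ ^ 2 + m + 2, ?_⟩
  intro n N Γ S y q hq Hq hI1 Λ R hΛ hReg hR hI2
  set C := C₁ * (m + 4) ^ 2 + ℓ ^ 2 + m + 2 with hC
  set r := Λ + 2 + m * N with hr
  set X₀ := fibz Γ S y y with hX₀
  set X := node m Γ S q y with hX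
  have hthr : C₁ * (r + S.card + 1) ^ 2 ≤ C * (Λ + N + S.card + 1) ^ 2 := by
    have h1 : r + S.card + 1 ≤ (m + 4) * (Λ + N + S.card + 1) := by
      rw [hr]
      nlinarith [Nat.zero_le (Λ * m), Nat.zero_le (S.card * m)]
    calc C₁ * (r + S.card + 1) ^ 2 ≤ C₁ * ((m + 4) * (Λ + N + S.card + 1)) ^ 2 :=
          Nat.mul_le_mul_left _ (Nat.pow_le_pow_left h1 2)
      _ = (C₁ * (m + 4) ^ 2) * (Λ + N + S.card + 1) ^ 2 := by ring
      _ ≤ C * (Λ + N + S.card + 1) ^ 2 := Nat.mul_le_mul_right _ (by rw [hC]; omega)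
  have hRℓ : ℓ ^ 2 * (Λ + 1) ≤ R :=
    (Nat.mul_le_mul_right _ (by rw [hC]; omega)).trans hR
  set δ : ℝ := 2 ^ Sᶜ.card / 2 ^ r with hδ
  have hδ0 : 0 ≤ δ := by positivity
  have hnode := card_eq_of_bias q Hq X₀ y δ hδ0 hI1 (by
    intro b hb
    refine norm_sum_fibz_le Γ S y _ δ fun L _ => ?_
    exact bias_le hinv hq b S r (C * (Λ + N + S.card + 1) ^ 2) hthr (hI2 b hb) y L)
  have hXn : (X₀.filter fun x => ∀ j, ((q j x : ℤ) : ZMod m) = q j y) = X := rfl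
  rw [hXn] at hnode
  have hHq : (1 : ℝ) ≤ Nat.card Hq := by exact_mod_cast (Nat.card_pos (α := Hq))
  have hX₀l := fibz_large Γ S y Λ R hΛ hReg hRℓ
  have hX₀n : (0 : ℝ) ≤ X₀.card := Nat.cast_nonneg _
  have h1 := (abs_le.1 hnode).1
  have h2 : (X₀.card : ℝ) - m ^ N * δ ≤ X.card * m ^ N := by nlinarith
  have hmN : (m : ℝ) ^ N ≤ 2 ^ (m * N) := by exact_mod_cast pow_le_two_pow' m N
  have h2r : (2 : ℝ) ^ r = 2 ^ Λ * 4 * 2 ^ (m * N) := by
    rw [hr, pow_add, pow_add]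
    norm_num
  have h3 : 4 * 2 ^ Λ * ((m : ℝ) ^ N * δ) ≤ 2 ^ Sᶜ.card := by
    have h4 : δ * 2 ^ r = 2 ^ Sᶜ.card := by
      rw [hδ]; field_simp
    calc 4 * 2 ^ Λ * ((m : ℝ) ^ N * δ) ≤ 4 * 2 ^ Λ * (2 ^ (m * N) * δ) := by gcongr
      _ = δ * 2 ^ r := by rw [h2r]; ring
      _ = _ := h4
  have h5 : (2 : ℝ) ^ Sᶜ.card ≤ 4 * 2 ^ Λ * (X.card * 2 ^ (m * N)) := by
    have hXc : (0 : ℝ) ≤ X.card := Nat.cast_nonneg _
    have h6 : (X.card : ℝ) * m ^ N ≤ X.card * 2 ^ (m * N) := by gcongr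
    have h7 : (0 : ℝ) < 2 ^ Λ := by positivity
    nlinarith
  have h8 : (2 : ℝ) ^ Sᶜ.card ≤ 2 ^ r * X.card := by
    rw [h2r]; linarith
  have h9 : 2 ^ Sᶜ.card ≤ 2 ^ r * X.card := by exact_mod_cast h8
  refine h9.trans (Nat.mul_le_mul_right _ (Nat.pow_le_pow_right (by norm_num) ?_))
  rw [hr, hC]
  nlinarith [Nat.zero_le (C₁ * (m + 4) ^ 2 * (Λ + N + 1)), Nat.zero_le (ℓ ^ 2 * (Λ + N + 1)),
    Nat.zero_le (m * Λ)]

theorem progress₂ (m : ℕ) [NeZero m] (ℓ : ℕ) [NeZero ℓ] (hℓ : 2 * m ∣ ℓ) (w : ℕ) :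
    ∃ C : ℕ, 1 ≤ C ∧ ∀ {n N ρ : ℕ} (Γ : AddSubgroup (Fin n → ZMod ℓ)) (S : Finset (Fin n))
      (y : Fin n → Bool) (q : Fin N → (Fin n → Bool) → ℤ), (∀ j, IsQuad (q j)) →
      ∀ (Hq : AddSubgroup (Fin N → ZMod m)),
      (∀ b ∈ Hq, ∀ x ∈ fibz Γ S y y, comb q b x = comb q b y) →
      ∀ (p : Fin w → (Fin n → Bool) → ℤ), (∀ j, IsQuad (p j)) →
      ∀ (H : AddSubgroup (Fin w → ZMod m)),
      Struct ℓ ρ (fun x (a : H) => comb p (a : Fin w → ZMod m) x) →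
      ∀ (Λ R : ℕ), Nat.card Γ * ℓ ^ ρ ≤ 2 ^ Λ → Reg Γ S R →
      C * (ρ + 1) * (Λ + 1) ≤ R →
      (∀ (b : Fin N → ZMod m) (a : Fin w → ZMod m), ¬ (b ∈ Hq ∧ a ∈ H) →
        ¬ Struct ℓ (C * (Λ + N + S.card + 1) ^ 2) (fun x => comb q b x + comb p a x)) →
      (node m Γ S q y).card ≤ C * ((node m Γ S q y).filter fun x =>
        ∀ j, ((p j x : ℤ) : ZMod m) = p j y).card := by
  obtain ⟨C₁, hC₁⟩ := inverse m ℓ hℓ
  exact progress_of_inv m ℓ hC₁ w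

theorem node_large (m : ℕ) [NeZero m] (ℓ : ℕ) [NeZero ℓ] (hℓ : 2 * m ∣ ℓ) :
    ∃ C : ℕ, ∀ {n N : ℕ} (Γ : AddSubgroup (Fin n → ZMod ℓ)) (S : Finset (Fin n))
      (y : Fin n → Bool) (q : Fin N → (Fin n → Bool) → ℤ), (∀ j, IsQuad (q j)) →
      ∀ (Hq : AddSubgroup (Fin N → ZMod m)),
      (∀ b ∈ Hq, ∀ x ∈ fibz Γ S y y, comb q b x = comb q b y) →
      ∀ (Λ R : ℕ), Nat.card Γ ≤ 2 ^ Λ → Reg Γ S R → C * (Λ + 1) ≤ R →
      (∀ b : Fin N → ZMod m, b ∉ Hq →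
        ¬ Struct ℓ (C * (Λ + N + S.card + 1) ^ 2) (fun x => comb q b x)) →
      2 ^ Sᶜ.card ≤ 2 ^ (C * (Λ + N + 1)) * (node m Γ S q y).card := by
  obtain ⟨C₁, hC₁⟩ := inverse m ℓ hℓ
  exact node_large_of_inv m ℓ hC₁

end Pool.Agent.QuadSys
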